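import Pool.Agent.Helper59.RF.Defs

/-!
# Project RF: tails of the expansions
-/

namespace Pool.Agent.Helper59.RF

open Finset MeasureTheory ProbabilityTheory
open Pool.Agent.Helper59.RE (e av wt mu dig Prob_mem_dig prob_av continuous_e norm_e)

variable {N : ℕ → ℝ}

theorem xN_nonneg (hN : Bs N) (T : Finset ℕ) : 0 ≤ xN N T := by
  unfold xN
  exact Finset.sum_nonneg fun k _ => by have := hN.pos k; positivity

theorem xN_empty : xN N ∅ = 0 := by
  unfold xN
  exact Finset.sum_empty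

theorem xN_union (T T' : Finset ℕ) (h : Disjoint T T') : xN N (T ∪ T') = xN N T + xN N T' := by
  unfold xN
  exact Finset.sum_union h

theorem xN_insert (T : Finset ℕ) (a : ℕ) (h : a ∉ T) :
    xN N (insert a T) = xN N T + 1 / N a := by
  unfold xN
  rw [Finset.sum_insert h, add_comm]

theorem xN_mono (hN : Bs N) {T T' : Finset ℕ} (h : T ⊆ T') : xN N T ≤ xN N T' := by
  unfold xN
  exact Finset.sum_le_sum_of_subset_of_nonneg h fun k _ _ => by have := hN.pos k; positivity

theorem tc_spec (hN : Bs N) : ∃ θ : ℝ, 1 < θ ∧ (∀ k, 1 ≤ k → θ * N k ≤ N (k + 1)) ∧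
    tc N = θ / (θ - 1) := by
  have h := hN.dbl
  refine ⟨h.choose, h.choose_spec.1, h.choose_spec.2, ?_⟩
  unfold tc
  rw [dif_pos h]

theorem tc_pos (hN : Bs N) : 0 < tc N := by
  obtain ⟨θ, h1, _, h3⟩ := tc_spec hN
  rw [h3]
  exact div_pos (by linarith) (by linarith)

/-- The telescoping bound for the sum of `1 / N k`. -/
theorem xN_le (hN : Bs N) (q M : ℕ) (hq : 1 ≤ q) (hM : q ≤ M) (T : Finset ℕ) (hT : T ⊆ Ico q M) :
    xN N T ≤ tc N / N q - tc N / N M := by
  refine (xN_mono hN hT).trans ?_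
  clear hT
  obtain ⟨θ, hθ1, hθ2, hθ3⟩ := tc_spec hN
  have hθ0 : 0 < θ - 1 := by linarith
  induction M, hM using Nat.le_induction with
  | base => simp [xN]
  | succ M hM ih =>
    have h1 : Ico q (M + 1) = insert M (Ico q M) := by
      ext x
      simp only [mem_insert, mem_Ico]
      omega
    rw [h1, xN_insert _ _ (by simp)]
    have h2 : 0 < N M := hN.pos M
    have h2' : 0 < N (M + 1) := hN.pos (M + 1)
    have h3 : 1 / N M + tc N / N (M + 1) ≤ tc N / N M := by
      have h4 : tc N / N (M + 1) ≤ tc N / (θ * N M) :=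
        div_le_div_of_nonneg_left (tc_pos hN).le (by positivity) (hθ2 M (hq.trans hM))
      have h5 : 1 / N M + tc N / (θ * N M) = tc N / N M := by
        rw [hθ3]
        field_simp
        ring
      linarith
    linarith

theorem xN_le' (hN : Bs N) (q M : ℕ) (hq : 1 ≤ q) (T : Finset ℕ) (hT : T ⊆ Ico q M) :
    xN N T ≤ tc N / N q := by
  rcases le_or_gt q M with h | h
  · have h1 := xN_le hN q M hq h T hT
    have h2 : 0 ≤ tc N / N M := div_nonneg (tc_pos hN).le (hN.pos M).le
    linarith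
  · have h1 : Ico q M = ∅ := Finset.Ico_eq_empty (by omega)
    rw [h1] at hT
    rw [Finset.subset_empty.mp hT]
    simp only [xN, Finset.sum_empty]
    exact div_nonneg (tc_pos hN).le (hN.pos q).le

/-- `N` grows at least like `θ ^ k`. -/
theorem Bs.grow (hN : Bs N) : ∃ θ : ℝ, 1 < θ ∧ ∀ k, 1 ≤ k → θ ^ (k - 1) * N 1 ≤ N k := by
  obtain ⟨θ, hθ1, hθ2, _⟩ := tc_spec hN
  refine ⟨θ, hθ1, fun k hk => ?_⟩
  induction k, hk using Nat.le_induction with
  | base => simp
  | succ k hk ih =>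
    have h1 := hθ2 k hk
    have h2 : k + 1 - 1 = (k - 1) + 1 := by omega
    have h3 := mul_le_mul_of_nonneg_left ih (by linarith : 0 ≤ θ)
    rw [h2, pow_succ]
    linarith [mul_comm (θ ^ (k - 1)) θ, mul_assoc θ (θ ^ (k - 1)) (N 1)]

theorem summable_N (hN : Bs N) : Summable (fun k : ℕ => 1 / N k) := by
  rw [← summable_nat_add_iff 1]
  obtain ⟨θ, hθ1, hθ2⟩ := hN.grow
  have h1 : Summable (fun k : ℕ => (1 / N 1) * (1 / θ) ^ k) :=
    (summable_geometric_of_lt_one (by positivity)
      (by rw [div_lt_one (by linarith)]; exact hθ1)).mul_left _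
  refine Summable.of_nonneg_of_le (fun k => ?_) (fun k => ?_) h1
  · have := hN.pos (k + 1)
    positivity
  · have h2 := hθ2 (k + 1) (by omega)
    have h3 := hN.pos 1
    have h4 : θ ^ (k + 1 - 1) = θ ^ k := by
      congr 1
    rw [h4] at h2
    rw [one_div_pow, one_div_mul_one_div]
    apply one_div_le_one_div_of_le (by positivity)
    linarith [mul_comm (N 1) (θ ^ k)]

theorem summable_ind (hN : Bs N) (B : Set ℕ) :
    Summable (B.indicator (fun k : ℕ => 1 / N k)) :=
  (summable_N hN).indicator B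

private theorem bas_ind_nonneg (hN : Bs N) (B : Set ℕ) (k : ℕ) :
    0 ≤ B.indicator (fun k : ℕ => 1 / N k) k :=
  Set.indicator_nonneg (fun k _ => by have := hN.pos k; positivity) k

theorem xsetN_nonneg (hN : Bs N) (B : Set ℕ) : 0 ≤ xsetN N B := by
  unfold xsetN
  exact tsum_nonneg (bas_ind_nonneg hN B)

/-- partial sums through `xN` -/
private theorem bas_sum_eq (B : Set ℕ) (S T : Finset ℕ) (hT : ∀ k, k ∈ T ↔ k ∈ S ∧ k ∈ B) :
    ∑ k ∈ S, B.indicator (fun k : ℕ => 1 / N k) k = xN N T := by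
  classical
  unfold xN
  have h1 : T = S.filter (fun k => k ∈ B) := by
    ext k
    rw [hT, Finset.mem_filter]
  rw [h1, Finset.sum_filter]
  refine Finset.sum_congr rfl fun k _ => ?_
  rw [Set.indicator_apply]

theorem xsetN_le (hN : Bs N) (B : Set ℕ) (q : ℕ) (hq : 1 ≤ q) :
    xsetN N (B ∩ Set.Ici q) ≤ tc N / N q := by
  classical
  unfold xsetN
  refine Real.tsum_le_of_sum_range_le (bas_ind_nonneg hN _) fun n => ?_
  rw [bas_sum_eq (B ∩ Set.Ici q) (range n) ((Ico q n).filter (fun k => k ∈ B))]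
  · exact xN_le' hN q n hq _ (Finset.filter_subset _ _)
  · intro k
    simp only [Finset.mem_filter, mem_Ico, mem_range, Set.mem_inter_iff, Set.mem_Ici]
    tauto

/-- Splitting off the digits below `q`. -/
theorem xsetN_split (hN : Bs N) {Ω : Type*} (A : Ω → Set ℕ) (q : ℕ) (ω : Ω) :
    xsetN N (A ω) = xN N (dig A (range q) ω) + xsetN N (A ω ∩ Set.Ici q) := by
  classical
  have h1 : ∀ k, (A ω).indicator (fun k : ℕ => 1 / N k) k
      = (A ω ∩ Set.Iio q).indicator (fun k : ℕ => 1 / N k) k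
        + (A ω ∩ Set.Ici q).indicator (fun k : ℕ => 1 / N k) k := by
    intro k
    simp only [Set.indicator_apply, Set.mem_inter_iff, Set.mem_Iio, Set.mem_Ici]
    by_cases h : k ∈ A ω <;> by_cases h' : k < q
    · simp [h, h']
    · simp [h, h', not_lt.mp h']
    · simp [h]
    · simp [h]
  unfold xsetN
  rw [tsum_congr h1, (summable_ind hN _).tsum_add (summable_ind hN _)]
  congr 1
  rw [tsum_eq_sum (s := range q)]
  · refine bas_sum_eq _ _ _ fun k => ?_
    simp only [dig, Finset.mem_filter, mem_range, Set.mem_inter_iff, Set.mem_Iio]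
    tauto
  · intro k hk
    rw [Set.indicator_of_notMem]
    intro h
    exact hk (mem_range.mpr h.2)

/-- Partial sums. -/
theorem xsetN_tendsto (hN : Bs N) {Ω : Type*} (A : Ω → Set ℕ) (q : ℕ) (ω : Ω) :
    Filter.Tendsto (fun M => xN N (dig A (Ico q M) ω)) Filter.atTop
      (nhds (xsetN N (A ω ∩ Set.Ici q))) := by
  classical
  have h1 := (summable_ind hN (A ω ∩ Set.Ici q)).hasSum.tendsto_sum_nat
  unfold xsetN
  refine h1.congr fun M => ?_
  refine bas_sum_eq _ _ _ fun k => ?_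
  simp only [dig, Finset.mem_filter, mem_range, mem_Ico, Set.mem_inter_iff, Set.mem_Ici]
  tauto

theorem meas_xN {Ω : Type*} [MeasurableSpace Ω] (A : Ω → Set ℕ)
    (hA : ∀ k, MeasurableSet {ω | k ∈ A ω}) (S : Finset ℕ) :
    Measurable (fun ω => xN N (dig A S ω)) := by
  have h : (fun ω => xN N (dig A S ω)) =
      fun ω => ∑ k ∈ S, ({ω | k ∈ A ω} : Set Ω).indicator (fun _ => 1 / N k) ω := by
    classical
    funext ω
    unfold xN dig
    rw [Finset.sum_filter]
    refine Finset.sum_congr rfl fun k _ => ?_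
    by_cases hk : k ∈ A ω
    · rw [if_pos hk, Set.indicator_of_mem]
      exact hk
    · rw [if_neg hk, Set.indicator_of_notMem]
      exact hk
  rw [h]
  exact Finset.measurable_sum _ fun k _ => measurable_const.indicator (hA k)

theorem measurable_xsetN (hN : Bs N) {Ω : Type*} [MeasurableSpace Ω] (A : Ω → Set ℕ)
    (hA : ∀ k, MeasurableSet {ω | k ∈ A ω}) (q : ℕ) :
    Measurable (fun ω => xsetN N (A ω ∩ Set.Ici q)) := by
  refine measurable_of_tendsto_metrizable (f := fun (M : ℕ) (ω : Ω) => xN N (dig A (Ico q M) ω))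
    (fun M => meas_xN A hA (Ico q M)) ?_
  rw [tendsto_pi_nhds]
  intro ω
  exact xsetN_tendsto hN A q ω

theorem prob_limN (hN : Bs N) {Ω : Type*} [MeasurableSpace Ω] (μ : Measure Ω) [IsProbabilityMeasure μ]
    (A : Ω → Set ℕ) (hA : ∀ k, MeasurableSet {ω | k ∈ A ω})
    (hind : iIndepSet (fun k : ℕ => {ω | k ∈ A ω}) μ) (φ : ℝ → ℝ) (hφ : Continuous φ) (q : ℕ)
    (B : ℝ) (M₀ : ℕ)
    (hB : ∀ M : ℕ, M₀ ≤ M →
      ‖av (fun k => μ.real {ω | k ∈ A ω}) (Ico q M) (fun T => e (φ (xN N T)))‖ ≤ B) :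
    ‖∫ ω, e (φ (xsetN N (A ω ∩ Set.Ici q))) ∂μ‖ ≤ B := by
  have h1 : Filter.Tendsto (fun M : ℕ => ∫ ω, e (φ (xN N (dig A (Ico q M) ω))) ∂μ) Filter.atTop
      (nhds (∫ ω, e (φ (xsetN N (A ω ∩ Set.Ici q))) ∂μ)) := by
    refine tendsto_integral_of_dominated_convergence (fun _ => (1 : ℝ)) ?_ (integrable_const _) ?_ ?_
    · intro M
      exact ((continuous_e.comp hφ).measurable.comp (meas_xN A hA (Ico q M))).aestronglyMeasurable
    · intro M
      exact Filter.Eventually.of_forall fun ω => (norm_e _).le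
    · refine Filter.Eventually.of_forall fun ω => ?_
      exact ((continuous_e.comp hφ).tendsto _).comp (xsetN_tendsto hN A q ω)
  refine le_of_tendsto h1.norm ?_
  filter_upwards [Filter.eventually_ge_atTop M₀] with M hM
  rw [prob_av μ A hA hind (Ico q M) (fun T => e (φ (xN N T)))]
  exact hB M hM

end Pool.Agent.Helper59.RF
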