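import Pool.Agent.Helper59.RF.FinP

/-!
# Project RF: signs, and the final form
-/

namespace Pool.Agent.Helper59.RF

open Finset MeasureTheory ProbabilityTheory Polynomial
open Pool.Agent.Helper59.RE (mu Concl)

/-- Complementing some of the events keeps them independent. -/
theorem indep_swap {Ω : Type*} [MeasurableSpace Ω] (μ : Measure Ω) (A : Ω → Set ℕ) (S : Set ℕ)
    (hind : iIndepSet (fun k : ℕ => {ω | k ∈ A ω}) μ) :
    iIndepSet (fun k : ℕ => {ω | k ∈ {j | j ∈ A ω ↔ j ∉ S}}) μ := by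
  rw [iIndepSet_iff_iIndep] at hind ⊢
  refine iIndep_of_iIndep_of_le hind (fun k => ?_)
  refine MeasurableSpace.generateFrom_le (fun t ht => ?_)
  rw [Set.mem_singleton_iff] at ht
  subst ht
  have h0 : MeasurableSet[MeasurableSpace.generateFrom {{ω | k ∈ A ω}}] {ω | k ∈ A ω} :=
    MeasurableSpace.measurableSet_generateFrom (Set.mem_singleton _)
  by_cases hk : k ∈ S
  · have e : {ω | k ∈ {j | j ∈ A ω ↔ j ∉ S}} = {ω | k ∈ A ω}ᶜ := by
      ext ω
      simp [hk]
    rw [e]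
    exact MeasurableSet.compl h0
  · have e : {ω | k ∈ {j | j ∈ A ω ↔ j ∉ S}} = {ω | k ∈ A ω} := by
      ext ω
      simp [hk]
    rw [e]
    exact h0

/-- The final form, for terms `u k` with `|u k| = r ^ k / (k!) ^ κ` for large `k`. -/
theorem mainS (r κ : ℝ) (hr : 0 < r) (hκ : 0 ≤ κ) (h : 0 < κ ∨ r < 1) (u : ℕ → ℝ)
    (hu : ∃ K : ℕ, ∀ k, K ≤ k → |u k| = r ^ k / (k.factorial : ℝ) ^ κ)
    {Ω : Type*} [MeasurableSpace Ω] (μ : Measure Ω)
    [IsProbabilityMeasure μ]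
    (A : Ω → Set ℕ) (hA : ∀ k, MeasurableSet {ω | k ∈ A ω})
    (hind : iIndepSet (fun k : ℕ => {ω | k ∈ A ω}) μ) (δ : ℝ) (hδ0 : 0 < δ)
    (hμ : ∃ k₀ : ℕ, ∀ k : ℕ, k₀ ≤ k →
      (k : ℝ) ^ (-1 + δ) ≤ μ.real {ω | k ∈ A ω} ∧
      μ.real {ω | k ∈ A ω} ≤ 1 - (k : ℝ) ^ (-1 + δ))
    (b : ℝ) (P : ℝ[X]) (a : ℕ → ℕ) (ha : StrictMono a) (c : ℕ → ℝ) :
    ∀ᵐ ω ∂μ, 1 < b + ∑' k : ℕ, (A ω).indicator u k →
      P.eval (b + ∑' k : ℕ, (A ω).indicator u k) ≠ 0 →
      Concl (fun i => P.eval (b + ∑' k : ℕ, (A ω).indicator u k) *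
        (b + ∑' k : ℕ, (A ω).indicator u k) ^ a i + c i) := by
  classical
  obtain ⟨K, hK⟩ := hu
  have hc : 0 < 1 / r := by positivity
  have h' : 0 < κ ∨ 1 < 1 / r := h.imp id (fun h => (one_lt_div hr).2 h)
  obtain ⟨kB, N', hNN, hN⟩ := nnP (1 / r) κ hc hκ h'
  -- the modulus of the terms
  obtain ⟨v, hv⟩ : ∃ v : ℕ → ℝ, v = fun k => if K ≤ k then |u k| else u k := ⟨_, rfl⟩
  obtain ⟨S, hS⟩ : ∃ S : Set ℕ, S = {k | K ≤ k ∧ u k < 0} := ⟨_, rfl⟩
  have hvN : ∀ k, max K kB ≤ k → v k = 1 / N' k := by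
    intro k hk
    have hk1 : K ≤ k := (le_max_left _ _).trans hk
    rw [hv]
    simp only
    rw [if_pos hk1, hK k hk1, ← hNN k ((le_max_right _ _).trans hk)]
    unfold NP
    rw [div_pow, one_pow, div_mul_eq_mul_div, one_mul, one_div_div]
  have hvs : Summable v := by
    rw [← summable_nat_add_iff (max K kB)]
    refine ((summable_nat_add_iff (max K kB)).2 (summable_N hN.bs)).congr (fun k => ?_)
    exact (hvN _ (by omega)).symm
  have hva : Summable (fun k => |v k|) := hvs.abs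
  have hus : Summable u := by
    refine Summable.of_norm_bounded hva (fun k => ?_)
    rw [Real.norm_eq_abs, hv]
    simp only
    split_ifs
    · rw [abs_abs]
    · exact le_refl _
  -- the new random set
  obtain ⟨A', hA'⟩ : ∃ A' : Ω → Set ℕ, A' = fun ω => {j | j ∈ A ω ↔ j ∉ S} := ⟨_, rfl⟩
  have hX : ∀ ω, b + ∑' k : ℕ, (A ω).indicator u k =
      (b + ∑' k : ℕ, S.indicator u k) + xsetN (fun k => 1 / v k) (A' ω) := by
    intro ω
    rw [add_assoc]
    congr 1
    have hs1 : Summable (fun k => S.indicator u k) := hus.indicator S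
    have e1 : ∀ k, (A' ω).indicator (fun k : ℕ => 1 / (1 / v k)) k = (A' ω).indicator v k := by
      intro k
      congr 1
      funext j
      exact one_div_one_div _
    have hs2 : Summable (fun k => (A' ω).indicator v k) := hvs.indicator (A' ω)
    unfold xsetN
    rw [tsum_congr e1, ← hs1.tsum_add hs2]
    refine tsum_congr (fun k => ?_)
    rw [hA']
    simp only [Set.indicator_apply, Set.mem_ofPred_eq]
    by_cases hkS : k ∈ S
    · have h1 : K ≤ k ∧ u k < 0 := by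
        rw [hS] at hkS
        exact hkS
      have h2 : v k = - u k := by
        rw [hv]
        simp only
        rw [if_pos h1.1, abs_of_neg h1.2]
      by_cases hkA : k ∈ A ω
      · simp [hkS, hkA]
      · simp [hkS, hkA, h2]
    · have h2 : v k = u k := by
        rw [hv]
        simp only
        split_ifs with h3
        · rw [abs_of_nonneg]
          by_contra h4
          rw [hS] at hkS
          exact hkS ⟨h3, not_le.mp h4⟩
        · rfl
      by_cases hkA : k ∈ A ω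
      · simp [hkS, hkA, h2]
      · simp [hkS, hkA]
  have hset : ∀ k, {ω | k ∈ A' ω} = if k ∈ S then {ω | k ∈ A ω}ᶜ else {ω | k ∈ A ω} := by
    intro k
    rw [hA']
    split_ifs with hk
    · ext ω
      simp [hk]
    · ext ω
      simp [hk]
  have hmA' : ∀ k, MeasurableSet {ω | k ∈ A' ω} := by
    intro k
    rw [hset]
    split_ifs
    · exact (hA k).compl
    · exact hA k
  have hindA' : iIndepSet (fun k : ℕ => {ω | k ∈ A' ω}) μ := by
    rw [hA']
    exact indep_swap μ A S hind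
  have hμ' : ∃ k₀ : ℕ, ∀ k : ℕ, k₀ ≤ k →
      (k : ℝ) ^ (-1 + δ) ≤ μ.real {ω | k ∈ A' ω} ∧
      μ.real {ω | k ∈ A' ω} ≤ 1 - (k : ℝ) ^ (-1 + δ) := by
    obtain ⟨k₀, hk₀⟩ := hμ
    refine ⟨k₀, fun k hk => ?_⟩
    obtain ⟨h1, h2⟩ := hk₀ k hk
    rw [hset]
    split_ifs
    · rw [probReal_compl_eq_one_sub (hA k)]
      constructor <;> linarith
    · exact ⟨h1, h2⟩
  have hmain := mainN hN (max K kB) (N := fun k => 1 / v k) (fun k hk => by
    show 1 / v k = N' k
    rw [hvN k hk, one_div_one_div]) μ A' hmA' hindA' δ hδ0 hμ'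
    (b + ∑' k : ℕ, S.indicator u k) P a ha c
  filter_upwards [hmain] with ω hω
  rw [hX ω]
  exact hω

end Pool.Agent.Helper59.RF
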