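import Pool.Agent.Helper59.RF.Alt

/-!
# Block RF-LEV: the levels of one scale

`Q` levels; level `j` has the steps `a j l` (`l < d`) and the weight `b j`.  Two independent sets of bits,
`z j = (bits of the first copy, bits of the second copy)`.  The function `phi (b j * DD ..)` depends on all levels, but the
levels `> j` have almost no influence on it (`herr`).

PROOF of `lev_aux`, induction on `Q`.  `Q = 0`: `ex_zero`, empty product.  Step: `ex_cons`; let `(τ, τ')` be the bits of level `0`
and `y1 = y + τ a 0`, `y1' = y' + τ' a 0`. Then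
`DD (y + all levels) = DD (y1 + levels ≥ 1)`, and for the factor of level `0`:
`|phi (b 0 DD (total)) - phi (b 0 DD y1 y1')| ≤ 2 b 0 |DD (total) - DD y1 y1'| ≤ 2 η` (`phi` is Lipschitz with constant `π/2 ≤ 2`:
`RE.sin_sq_lip`; `DB.trunc` with `Y = 1.01 Z` (`DB_of_Dif`) and the differences `∑_{j ≥ 1} bits * a j l ≤ ∑_{j > 0} a j l`,
and `herr` for level `0`).  The other factors are `≤ 1` and `≥ 0` (`0 ≤ phi ≤ 1`), so
`E ≤ E_(τ,τ') (phi (b 0 DD y1 y1') + 2η) E_rest ∏ ≤ E_(τ,τ') phi (..) * (E_rest) + 2η`, the induction hypothesis for the rest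
(arrays `a (j+1)`, `b (j+1)`; bounds `y1 + rest ≤ A`) gives `(1-κ)^(Q-1) + 2 (Q-1) η`, and `E_(τ,τ') phi ≤ 1 - κ` by `alt_avg` for
every `τ'` (`ex_prod`, `ex_comm`), `κ = 2 t0² / 4^d ≤ 1`.
`lev` is the case `y = y' = 0`.
-/

namespace Pool.Agent.Helper59.RF

open Finset

private theorem bs_nonneg56 (c : Bool) : 0 ≤ bs c := by
  unfold bs
  split_ifs <;> norm_num

private theorem bs_le_one56 (c : Bool) : bs c ≤ 1 := by
  unfold bs
  split_ifs <;> norm_num

private theorem phi_nonneg56 (t : ℝ) : 0 ≤ phi t := by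
  unfold phi
  have := Real.sin_sq_le_one (Real.pi * t)
  linarith

private theorem phi_le_one56 (t : ℝ) : phi t ≤ 1 := by
  unfold phi
  have := sq_nonneg (Real.sin (Real.pi * t))
  linarith

private theorem phi_lip56 (u v : ℝ) : phi u ≤ phi v + 2 * |u - v| := by
  have h := Pool.Agent.Helper59.RE.sin_sq_lip u v
  have h2 := (abs_le.1 h).1
  have h3 : Real.pi * |u - v| ≤ 4 * |u - v| :=
    mul_le_mul_of_nonneg_right Real.pi_le_four (abs_nonneg _)
  unfold phi
  linarith

private theorem filt_zero56 (Q : ℕ) (f : Fin (Q + 1) → ℝ) :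
    ∑ j' ∈ univ.filter (fun j' : Fin (Q + 1) => 0 < j'), f j' = ∑ i : Fin Q, f i.succ := by
  rw [Finset.sum_filter, Fin.sum_univ_succ, if_neg (lt_irrefl _), zero_add]
  refine Finset.sum_congr rfl fun i _ => ?_
  rw [if_pos (Fin.succ_pos i)]

private theorem filt_succ56 (Q : ℕ) (f : Fin (Q + 1) → ℝ) (j : Fin Q) :
    ∑ j' ∈ univ.filter (fun j' : Fin (Q + 1) => j.succ < j'), f j' =
      ∑ j' ∈ univ.filter (fun j' : Fin Q => j < j'), f j'.succ := by
  rw [Finset.sum_filter, Finset.sum_filter, Fin.sum_univ_succ,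
    if_neg (not_lt.2 (Fin.zero_le _)), zero_add]
  refine Finset.sum_congr rfl fun i _ => ?_
  simp only [Fin.succ_lt_succ_iff]

theorem lev_aux (d : ℕ) (g : ℝ → ℝ) (lo hi Z t0 η : ℝ) (hZ : 0 ≤ Z) (ht0 : 0 < t0)
    (ht1 : t0 ≤ 6 / 25) (hη : 0 ≤ η) (h : Dif d g lo hi Z) (A : Fin d → ℝ) (x : ℝ) (hx : lo ≤ x)
    (hxA : x + ∑ l, A l ≤ hi) (Q : ℕ) (a : Fin Q → Fin d → ℝ) (b : Fin Q → ℝ)
    (ha : ∀ j l, 0 ≤ a j l) (hb : ∀ j, 0 ≤ b j) (y y' : Fin d → ℝ) (hy : ∀ l, 0 ≤ y l)
    (hy' : ∀ l, 0 ≤ y' l) (hyA : ∀ l, y l + ∑ j, a j l ≤ A l) (hyA' : ∀ l, y' l + ∑ j, a j l ≤ A l)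
    (h1 : ∀ j, t0 ≤ Z * b j * ∏ l, a j l) (h2 : ∀ j, Z * b j * ∏ l, a j l ≤ 3 / 4)
    (herr : ∀ j, b j * (1.01 * Z * ∑ l, (2 * ∑ j' ∈ univ.filter (fun j' => j < j'), a j' l) *
      ∏ l' ∈ univ.erase l, A l') ≤ η) :
    ex (fun z : Fin Q → (Fin d → Bool) × (Fin d → Bool) => ∏ j,
      phi (b j * DD d (fun l => y l + ∑ i, bs ((z i).1 l) * a i l)
        (fun l => y' l + ∑ i, bs ((z i).2 l) * a i l) g x)) ≤
      (1 - 2 * t0 ^ 2 / 4 ^ d) ^ Q + 2 * Q * η := by
  have hκ0 : 0 ≤ 2 * t0 ^ 2 / 4 ^ d := by positivity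
  have hκ1 : 2 * t0 ^ 2 / 4 ^ d ≤ 1 := by
    rw [div_le_one (by positivity)]
    have h4 : (1 : ℝ) ≤ 4 ^ d := one_le_pow₀ (by norm_num)
    nlinarith
  set κ : ℝ := 2 * t0 ^ 2 / 4 ^ d with hκ
  have hAn : ∀ l, 0 ≤ A l := fun l =>
    (add_nonneg (hy l) (Finset.sum_nonneg fun j _ => ha j l)).trans (hyA l)
  induction Q generalizing y y' with
  | zero =>
    rw [ex_zero]
    simp
  | succ Q ih =>
    rw [ex_cons]
    have hsplit : ∀ (w : Fin d → ℝ) (l : Fin d) (τ : Fin d → Bool) (q : Fin Q → Fin d → Bool),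
        w l + ∑ i, bs ((Fin.cons τ q : Fin (Q + 1) → Fin d → Bool) i l) * a i l =
        (w l + bs (τ l) * a 0 l) + ∑ i : Fin Q, bs (q i l) * a i.succ l := by
      intro w l τ q
      rw [Fin.sum_univ_succ]
      simp only [Fin.cons_zero, Fin.cons_succ]
      ring
    -- the new starting points
    have hyn : ∀ (w : Fin d → ℝ), (∀ l, 0 ≤ w l) → ∀ (τ : Fin d → Bool) l,
        0 ≤ w l + bs (τ l) * a 0 l := fun w hw τ l =>
      add_nonneg (hw l) (mul_nonneg (bs_nonneg56 _) (ha 0 l))
    have hyAn : ∀ (w : Fin d → ℝ), (∀ l, w l + ∑ j, a j l ≤ A l) → ∀ (τ : Fin d → Bool) l,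
        (w l + bs (τ l) * a 0 l) + ∑ j : Fin Q, a j.succ l ≤ A l := by
      intro w hw τ l
      have e1 := hw l
      rw [Fin.sum_univ_succ] at e1
      have e2 : bs (τ l) * a 0 l ≤ 1 * a 0 l :=
        mul_le_mul_of_nonneg_right (bs_le_one56 _) (ha 0 l)
      linarith
    have hrest : ∀ (q : Fin Q → Fin d → Bool) l,
        0 ≤ ∑ i : Fin Q, bs (q i l) * a i.succ l ∧
        ∑ i : Fin Q, bs (q i l) * a i.succ l ≤ ∑ i : Fin Q, a i.succ l := by
      intro q l
      refine ⟨Finset.sum_nonneg fun i _ => mul_nonneg (bs_nonneg56 _) (ha _ l),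
        Finset.sum_le_sum fun i _ => ?_⟩
      have e2 := mul_le_mul_of_nonneg_right (bs_le_one56 (q i l)) (ha i.succ l)
      linarith
    have hDB := DB_of_Dif d g lo hi Z hZ h
    have hB0 : 0 ≤ (1 - κ) ^ Q + 2 * Q * η := by
      have e1 : 0 ≤ (1 - κ) ^ Q := pow_nonneg (by linarith) _
      positivity
    -- one level
    have hone : ∀ p : (Fin d → Bool) × (Fin d → Bool),
        ex (fun z : Fin Q → (Fin d → Bool) × (Fin d → Bool) => ∏ j,
          phi (b j * DD d (fun l => y l + ∑ i, bs (((Fin.cons p z :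
            Fin (Q + 1) → (Fin d → Bool) × (Fin d → Bool)) i).1 l) * a i l)
            (fun l => y' l + ∑ i, bs (((Fin.cons p z :
            Fin (Q + 1) → (Fin d → Bool) × (Fin d → Bool)) i).2 l) * a i l) g x)) ≤
        phi (b 0 * DD d (fun l => y l + bs (p.1 l) * a 0 l)
          (fun l => y' l + bs (p.2 l) * a 0 l) g x) * ((1 - κ) ^ Q + 2 * Q * η) + 2 * η := by
      intro p
      set y1 : Fin d → ℝ := fun l => y l + bs (p.1 l) * a 0 l with hy1
      set y1' : Fin d → ℝ := fun l => y' l + bs (p.2 l) * a 0 l with hy1'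
      set P0 := phi (b 0 * DD d y1 y1' g x) with hP0
      have e1 : ∀ z : Fin Q → (Fin d → Bool) × (Fin d → Bool),
          (fun l => y l + ∑ i, bs (((Fin.cons p z :
            Fin (Q + 1) → (Fin d → Bool) × (Fin d → Bool)) i).1 l) * a i l) =
          fun l => y1 l + ∑ i : Fin Q, bs ((z i).1 l) * a i.succ l := by
        intro z
        funext l
        rw [Fin.sum_univ_succ]
        simp only [Fin.cons_zero, Fin.cons_succ, hy1]
        ring
      have e2 : ∀ z : Fin Q → (Fin d → Bool) × (Fin d → Bool),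
          (fun l => y' l + ∑ i, bs (((Fin.cons p z :
            Fin (Q + 1) → (Fin d → Bool) × (Fin d → Bool)) i).2 l) * a i l) =
          fun l => y1' l + ∑ i : Fin Q, bs ((z i).2 l) * a i.succ l := by
        intro z
        funext l
        rw [Fin.sum_univ_succ]
        simp only [Fin.cons_zero, Fin.cons_succ, hy1']
        ring
      simp only [e1, e2]
      have hIH := ih (fun j => a j.succ) (fun j => b j.succ) (fun j l => ha j.succ l)
        (fun j => hb j.succ) y1 y1' (hyn y hy p.1) (hyn y' hy' p.2) (hyAn y hyA p.1)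
        (hyAn y' hyA' p.2) (fun j => h1 j.succ) (fun j => h2 j.succ) (fun j => by
          have e3 := herr j.succ
          simp only [filt_succ56] at e3
          exact e3)
      have e4 : ∀ z : Fin Q → (Fin d → Bool) × (Fin d → Bool),
          ∏ j, phi (b j * DD d (fun l => y1 l + ∑ i : Fin Q, bs ((z i).1 l) * a i.succ l)
            (fun l => y1' l + ∑ i : Fin Q, bs ((z i).2 l) * a i.succ l) g x) ≤
          P0 * (∏ j : Fin Q, phi (b j.succ * DD d
            (fun l => y1 l + ∑ i : Fin Q, bs ((z i).1 l) * a i.succ l)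
            (fun l => y1' l + ∑ i : Fin Q, bs ((z i).2 l) * a i.succ l) g x)) + 2 * η := by
        intro z
        rw [Fin.prod_univ_succ]
        set T := DD d (fun l => y1 l + ∑ i : Fin Q, bs ((z i).1 l) * a i.succ l)
            (fun l => y1' l + ∑ i : Fin Q, bs ((z i).2 l) * a i.succ l) g x with hT
        set R := ∏ j : Fin Q, phi (b j.succ * T) with hR
        have hR0 : 0 ≤ R := Finset.prod_nonneg fun j _ => phi_nonneg56 _
        have hR1 : R ≤ 1 := Finset.prod_le_one (fun j _ => phi_nonneg56 _)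
          (fun j _ => phi_le_one56 _)
        have e5 := DB.trunc d g lo hi (1.01 * Z) (by positivity) hDB A
          (fun l => y1 l + ∑ i : Fin Q, bs ((z i).1 l) * a i.succ l)
          (fun l => y1' l + ∑ i : Fin Q, bs ((z i).2 l) * a i.succ l) y1 y1'
          (fun l => by
            have r1 := hrest (fun i => (z i).1) l
            have r2 := hyn y hy p.1 l
            have r3 := hyAn y hyA p.1 l
            simp only [hy1]
            constructor <;> linarith [r1.1, r1.2])
          (fun l => by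
            have r1 := hrest (fun i => (z i).2) l
            have r2 := hyn y' hy' p.2 l
            have r3 := hyAn y' hyA' p.2 l
            simp only [hy1']
            constructor <;> linarith [r1.1, r1.2])
          (fun l => by
            have r1 := hrest (fun i => (z i).1) l
            have r2 := hyn y hy p.1 l
            have r3 := hyAn y hyA p.1 l
            simp only [hy1]
            constructor <;> linarith [r1.1, r1.2])
          (fun l => by
            have r1 := hrest (fun i => (z i).2) l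
            have r2 := hyn y' hy' p.2 l
            have r3 := hyAn y' hyA' p.2 l
            simp only [hy1']
            constructor <;> linarith [r1.1, r1.2]) x hx hxA
        rw [← hT] at e5
        have e6 : |b 0 * T - b 0 * DD d y1 y1' g x| ≤ η := by
          rw [← mul_sub, abs_mul, abs_of_nonneg (hb 0)]
          refine (mul_le_mul_of_nonneg_left (e5.trans ?_) (hb 0)).trans (herr 0)
          refine mul_le_mul_of_nonneg_left (Finset.sum_le_sum fun l _ => ?_) (by positivity)
          refine mul_le_mul_of_nonneg_right ?_ (Finset.prod_nonneg fun l' _ => hAn l')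
          rw [filt_zero56 Q (fun j' => a j' l)]
          have r1 := hrest (fun i => (z i).1) l
          have r2 := hrest (fun i => (z i).2) l
          rw [add_sub_cancel_left, add_sub_cancel_left, abs_of_nonneg r1.1, abs_of_nonneg r2.1]
          linarith [r1.2, r2.2]
        have e7 := phi_lip56 (b 0 * T) (b 0 * DD d y1 y1' g x)
        have e8 : phi (b 0 * T) ≤ P0 + 2 * η := by linarith
        calc phi (b 0 * T) * R ≤ (P0 + 2 * η) * R := mul_le_mul_of_nonneg_right e8 hR0
          _ = P0 * R + 2 * η * R := by ring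
          _ ≤ P0 * R + 2 * η * 1 := by
            have : 2 * η * R ≤ 2 * η * 1 := mul_le_mul_of_nonneg_left hR1 (by linarith)
            linarith
          _ = P0 * R + 2 * η := by ring
      refine (ex_mono e4).trans ?_
      rw [ex_add, ex_mul, ex_const]
      have e9 := mul_le_mul_of_nonneg_left hIH (phi_nonneg56 (b 0 * DD d y1 y1' g x))
      linarith
    refine (ex_mono hone).trans ?_
    rw [ex_add, ex_const]
    have hcomm : ex (fun p : (Fin d → Bool) × (Fin d → Bool) =>
        phi (b 0 * DD d (fun l => y l + bs (p.1 l) * a 0 l)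
          (fun l => y' l + bs (p.2 l) * a 0 l) g x) * ((1 - κ) ^ Q + 2 * Q * η)) =
        ((1 - κ) ^ Q + 2 * Q * η) * ex (fun p : (Fin d → Bool) × (Fin d → Bool) =>
        phi (b 0 * DD d (fun l => y l + bs (p.1 l) * a 0 l)
          (fun l => y' l + bs (p.2 l) * a 0 l) g x)) := by
      rw [← ex_mul]
      exact ex_congr fun p => mul_comm _ _
    rw [hcomm]
    have hav : ex (fun p : (Fin d → Bool) × (Fin d → Bool) =>
        phi (b 0 * DD d (fun l => y l + bs (p.1 l) * a 0 l)
          (fun l => y' l + bs (p.2 l) * a 0 l) g x)) ≤ 1 - κ := by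
      rw [ex_prod, ex_comm]
      refine ex_le fun τ' => ?_
      refine alt_avg d g lo hi Z t0 (b 0) hZ (hb 0) ht0 ht1 h y
        (fun l => y' l + bs (τ' l) * a 0 l) (a 0) hy (ha 0) x hx ?_ (h1 0) (h2 0)
      have r1 : ∑ l, y l + ∑ l, a 0 l ≤ ∑ l, A l := by
        rw [← Finset.sum_add_distrib]
        refine Finset.sum_le_sum fun l _ => ?_
        have r2 := hyA l
        rw [Fin.sum_univ_succ] at r2
        have r3 : 0 ≤ ∑ j : Fin Q, a j.succ l := Finset.sum_nonneg fun j _ => ha _ l
        linarith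
      linarith
    have hfin := mul_le_mul_of_nonneg_left hav hB0
    have hQη : 0 ≤ 2 * (Q : ℝ) * η := by positivity
    have hfin2 : ((1 - κ) ^ Q + 2 * Q * η) * (1 - κ) ≤ (1 - κ) ^ (Q + 1) + 2 * Q * η := by
      rw [pow_succ]
      nlinarith
    push_cast
    linarith

end Pool.Agent.Helper59.RF
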