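import Pool.Agent.Helper59.RF.Box

/-!
# Block RF-PD: products of `phi` are positive definite

PROOF.  `phi_exp`: `sin² = (1 - cos 2πt)/2`, `e t + e (-t) = 2 cos (2πt)`.
`phi_prod`: the product `∏_{j < Q} phi (b j t)` is a finite combination `∑_i w i e (ξ i t)` of characters with weights `w i ≥ 0`,
`∑ w i = 1`: induction on `Q` (index type `Fin 3 × J` for the next factor, weights `3/4, 1/8, 1/8`, frequencies `0, b, -b`), `e_add`.
`pd`: with `phi_prod`, the left side is `(re ∑ w i ex e (ξ i g))^(2^d) ≤ (∑ w i ‖ex e (ξ i g)‖)^(2^d) ≤ ∑ w i ‖..‖^(2^d)`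
(`jensen_pow`; the left base is `≥ 0` because `phi ≥ 0`) `≤ ∑ w i re ex ex e (DD (ξ i g)) = ex ex ∏ phi (b j DD g)` (`box` for the function
`ξ i * g`, `DD_smul`, `ex_re`, `ex_sum`).
-/

namespace Pool.Agent.Helper59.RF

open Finset
open Pool.Agent.Helper59.RE (e)

theorem phi_exp (t : ℝ) : (phi t : ℂ) = 3 / 4 + 1 / 8 * e t + 1 / 8 * e (-t) := by
  have he : ∀ s : ℝ, e s = ((Real.cos (2 * Real.pi * s) : ℝ) : ℂ) +
      ((Real.sin (2 * Real.pi * s) : ℝ) : ℂ) * Complex.I := by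
    intro s
    unfold e
    have h1 : (2 * Real.pi * Complex.I * s : ℂ) = ((2 * Real.pi * s : ℝ) : ℂ) * Complex.I := by
      push_cast; ring
    rw [h1, Complex.exp_mul_I]
    push_cast
    ring
  have h2 : Real.sin (Real.pi * t) ^ 2 = 1 / 2 - Real.cos (2 * Real.pi * t) / 2 := by
    rw [Real.sin_sq_eq_half_sub]
    congr 3
    ring
  have h3 : 2 * Real.pi * -t = -(2 * Real.pi * t) := by ring
  rw [he, he, h3, Real.cos_neg, Real.sin_neg]
  unfold phi
  rw [h2]
  push_cast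
  ring

theorem phi_nonneg (t : ℝ) : 0 ≤ phi t := by
  unfold phi
  have h := Real.sin_sq_le_one (Real.pi * t)
  linarith

theorem phi_le_one (t : ℝ) : phi t ≤ 1 := by
  unfold phi
  have h := sq_nonneg (Real.sin (Real.pi * t))
  linarith

theorem phi_prod (Q : ℕ) (b : Fin Q → ℝ) : ∃ (J : Type) (_ : Fintype J) (w ξ : J → ℝ),
    (∀ i, 0 ≤ w i) ∧ ∑ i, w i = 1 ∧
      ∀ t : ℝ, ((∏ j, phi (b j * t) : ℝ) : ℂ) = ∑ i, (w i : ℂ) * e (ξ i * t) := by
  induction Q with
  | zero =>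
    refine ⟨Unit, inferInstance, fun _ => 1, fun _ => 0, fun _ => zero_le_one, ?_, fun t => ?_⟩
    · simp
    · simp [Pool.Agent.Helper59.RE.e_zero]
  | succ Q ih =>
    obtain ⟨J, hJ, w, ξ, hw, hw1, hp⟩ := ih (fun j => b j.succ)
    let wa : Fin 3 → ℝ := ![3 / 4, 1 / 8, 1 / 8]
    let xa : Fin 3 → ℝ := ![0, b 0, -b 0]
    have w0 : wa 0 = 3 / 4 := rfl
    have w1 : wa 1 = 1 / 8 := rfl
    have w2 : wa 2 = 1 / 8 := rfl
    have x0 : xa 0 = 0 := rfl
    have x1 : xa 1 = b 0 := rfl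
    have x2 : xa 2 = -b 0 := rfl
    have hwa : ∀ a, 0 ≤ wa a := by
      intro a
      fin_cases a <;> norm_num [wa]
    refine ⟨Fin 3 × J, inferInstance, fun q => wa q.1 * w q.2, fun q => xa q.1 + ξ q.2,
      fun q => mul_nonneg (hwa _) (hw _), ?_, fun t => ?_⟩
    · rw [Fintype.sum_prod_type]
      have h1 : ∀ a : Fin 3, ∑ i, wa a * w i = wa a := by
        intro a
        rw [← Finset.mul_sum, hw1, mul_one]
      have h5 : wa 0 + wa 1 + wa 2 = 1 := by
        rw [w0, w1, w2]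
        norm_num
      rw [Finset.sum_congr rfl fun a _ => h1 a, Fin.sum_univ_three]
      exact h5
    · have h2 : ((phi (b 0 * t) : ℝ) : ℂ) = ∑ a : Fin 3, (wa a : ℂ) * e (xa a * t) := by
        have h3 : -b 0 * t = -(b 0 * t) := by ring
        rw [phi_exp, Fin.sum_univ_three, w0, w1, w2, x0, x1, x2, zero_mul,
          Pool.Agent.Helper59.RE.e_zero, h3]
        push_cast
        ring
      rw [Fin.prod_univ_succ, Complex.ofReal_mul, hp t, h2, Finset.sum_mul_sum,
        Fintype.sum_prod_type]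
      refine Finset.sum_congr rfl fun a _ => Finset.sum_congr rfl fun i _ => ?_
      have h4 : (xa a + ξ i) * t = xa a * t + ξ i * t := by ring
      simp only
      rw [h4, Pool.Agent.Helper59.RE.e_add]
      push_cast
      ring

theorem pd (d : ℕ) (hd : 1 ≤ d) {Λ : Type*} [Fintype Λ] [Nonempty Λ] (Y : Fin d → Λ → ℝ)
    (g : ℝ → ℝ) (x : ℝ) (Q : ℕ) (b : Fin Q → ℝ) :
    (ex (fun v : Fin d → Λ => ∏ j, phi (b j * g (x + ∑ l, Y l (v l))))) ^ (2 ^ d) ≤
      ex (fun v : Fin d → Λ => ex (fun v' : Fin d → Λ => ∏ j,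
        phi (b j * DD d (fun l => Y l (v l)) (fun l => Y l (v' l)) g x))) := by
  obtain ⟨J, hJ, w, ξ, hw, hw1, hp⟩ := phi_prod Q b
  have hre : ∀ t : ℝ, ∏ j, phi (b j * t) = ∑ i, w i * (e (ξ i * t)).re := by
    intro t
    have h1 := congrArg Complex.re (hp t)
    rw [Complex.ofReal_re, Complex.re_sum] at h1
    rw [h1]
    exact Finset.sum_congr rfl fun i _ => Complex.re_ofReal_mul _ _
  -- the right side
  have hR : ex (fun v : Fin d → Λ => ex (fun v' : Fin d → Λ => ∏ j,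
        phi (b j * DD d (fun l => Y l (v l)) (fun l => Y l (v' l)) g x))) =
      ∑ i, w i * (ex (fun v : Fin d → Λ => ex (fun v' : Fin d → Λ =>
        e (DD d (fun l => Y l (v l)) (fun l => Y l (v' l)) (fun z => ξ i * g z) x)))).re := by
    have h1 : ∀ i, (ex (fun v : Fin d → Λ => ex (fun v' : Fin d → Λ =>
        e (DD d (fun l => Y l (v l)) (fun l => Y l (v' l)) (fun z => ξ i * g z) x)))).re =
        ex (fun v : Fin d → Λ => ex (fun v' : Fin d → Λ =>
          (e (ξ i * DD d (fun l => Y l (v l)) (fun l => Y l (v' l)) g x)).re)) := by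
      intro i
      rw [ex_re]
      refine ex_congr fun v => ?_
      rw [ex_re]
      refine ex_congr fun v' => ?_
      rw [DD_smul]
    rw [Finset.sum_congr rfl fun i _ => by rw [h1 i, ← ex_mul], ← ex_sum]
    refine ex_congr fun v => ?_
    rw [Finset.sum_congr rfl fun i _ => by rw [← ex_mul], ← ex_sum]
    refine ex_congr fun v' => ?_
    exact hre _
  -- the left side
  have hL : ex (fun v : Fin d → Λ => ∏ j, phi (b j * g (x + ∑ l, Y l (v l)))) ≤
      ∑ i, w i * ‖ex (fun v : Fin d → Λ => e (ξ i * g (x + ∑ l, Y l (v l))))‖ := by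
    have h1 : ex (fun v : Fin d → Λ => ∏ j, phi (b j * g (x + ∑ l, Y l (v l)))) =
        ∑ i, w i * (ex (fun v : Fin d → Λ => e (ξ i * g (x + ∑ l, Y l (v l))))).re := by
      rw [Finset.sum_congr rfl fun i _ => by rw [ex_re, ← ex_mul], ← ex_sum]
      exact ex_congr fun v => hre _
    rw [h1]
    exact Finset.sum_le_sum fun i _ =>
      mul_le_mul_of_nonneg_left (Complex.re_le_norm _) (hw i)
  have hL0 : 0 ≤ ex (fun v : Fin d → Λ => ∏ j, phi (b j * g (x + ∑ l, Y l (v l)))) :=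
    ex_nonneg fun v => Finset.prod_nonneg fun j _ => phi_nonneg _
  rw [hR]
  refine (pow_le_pow_left₀ hL0 hL (2 ^ d)).trans ?_
  refine (jensen_pow univ w _ (fun i _ => hw i) hw1 (fun i _ => norm_nonneg _) (2 ^ d)).trans ?_
  exact Finset.sum_le_sum fun i _ =>
    mul_le_mul_of_nonneg_left (box d hd Y (fun z => ξ i * g z) x) (hw i)

end Pool.Agent.Helper59.RF
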