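import Pool.Agent.Helper59.RF.Conn
import Pool.Agent.Helper59.RF.Pd
import Pool.Agent.Helper59.RF.Lev

/-!
# Block RF-SCALE: the lower digits of one scale

`Q` levels; level `j` has the lower digits `k j l` (`l < d`) and the top digit `K j`; all lower digits are distinct.

PROOF.  Let `κ (j, l) = k j l`.  `conn` turns the average into `ex (ω : Fin Q × Fin d → Bool)` of
`∏_j phi (g (x + ∑_(j,l) bs (ω (j,l)) / N (k j l)) / N (K j))`.  Through the equivalence
`(Fin Q × Fin d → Bool) ≃ (Fin d → (Fin Q → Bool))`, `v l j = ω (j, l)` (`ex_equiv`; `Equiv.curry`, `Equiv.piComm`) this is the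
average of `pd` with `Λ = Fin Q → Bool`, `Y l v = ∑_j bs (v j) / N (k j l)` and `b j = 1 / N (K j)`.  After `pd` and the
equivalence `((Fin d → Λ) × (Fin d → Λ)) ≃ (Fin Q → (Fin d → Bool) × (Fin d → Bool))`,
`z j = (fun l => v l j, fun l => v' l j)` (`ex_prod`), apply `lev_aux` with `y = y' = 0`, `a j l = 1 / N (k j l)`,
`b j = 1 / N (K j)`, `A l = ∑_j a j l`: `∑_l A l = xN N (all lower digits)` (`κ` injective, `Finset.sum_image`), and for `herr`, `η =
2.02 d Q^d err`: the product `∏_(l' ≠ l) A l'` is the sum over the choices `c` of `∏ a (c l') l'` (`Finset.prod_univ_sum`, or bound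
`A l' ≤ Q * max_j a j l'` and take the maximizing levels `c l'`), there are `Q^(d-1)` choices, `d` values of `l`, at most `Q` values
of `j' > j`, and each term `Z b j a j' l ∏_(l' ≠ l) a (c l') l' ≤ err` by `h3` (for `c` changed to `j'` at `l`).
-/

namespace Pool.Agent.Helper59.RF

open Finset
open Pool.Agent.Helper59.RE (av e)

private def sig97 (Q d : ℕ) : (Fin d → Fin Q → Bool) ≃ (Fin Q × Fin d → Bool) where
  toFun v q := v q.2 q.1
  invFun ω l j := ω (j, l)
  left_inv _ := rfl
  right_inv _ := rfl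

private def rho97 (Q d : ℕ) : (Fin Q → (Fin d → Bool) × (Fin d → Bool)) ≃
    ((Fin d → Fin Q → Bool) × (Fin d → Fin Q → Bool)) where
  toFun z := (fun l j => (z j).1 l, fun l j => (z j).2 l)
  invFun p j := (fun l => p.1 l j, fun l => p.2 l j)
  left_inv _ := rfl
  right_inv _ := rfl

theorem scale {N : ℕ → ℝ} (hN : Bs N) (d : ℕ) (hd : 1 ≤ d) (g : ℝ → ℝ) (lo hi Z t0 err : ℝ)
    (hZ : 0 ≤ Z) (ht0 : 0 < t0) (ht1 : t0 ≤ 6 / 25) (herr : 0 ≤ err) (h : Dif d g lo hi Z) (Q : ℕ)
    (k : Fin Q → Fin d → ℕ) (K : Fin Q → ℕ)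
    (hinj : Function.Injective (fun q : Fin Q × Fin d => k q.1 q.2))
    (h1 : ∀ j, t0 ≤ Z / (N (K j) * ∏ l, N (k j l)))
    (h2 : ∀ j, Z / (N (K j) * ∏ l, N (k j l)) ≤ 3 / 4)
    (h3 : ∀ (j : Fin Q) (c : Fin d → Fin Q), (∃ l, j < c l) →
      Z / (N (K j) * ∏ l, N (k (c l) l)) ≤ err)
    (x : ℝ) (hx : lo ≤ x)
    (hxh : x + xN N (univ.image (fun q : Fin Q × Fin d => k q.1 q.2)) ≤ hi) :
    (av hf (univ.image (fun q : Fin Q × Fin d => k q.1 q.2))
      (fun T => ∏ j, phi (g (x + xN N T) / N (K j)))) ^ (2 ^ d) ≤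
      (1 - 2 * t0 ^ 2 / 4 ^ d) ^ Q + 2 * Q * (2.02 * d * Q ^ d * err) := by
  have hprod : ∀ (j : Fin Q) (c : Fin d → Fin Q),
      Z * (1 / N (K j)) * ∏ l, (1 / N (k (c l) l)) = Z / (N (K j) * ∏ l, N (k (c l) l)) := by
    intro j c
    have e1 : ∏ l, (1 / N (k (c l) l)) = 1 / ∏ l, N (k (c l) l) := by
      rw [Finset.prod_div_distrib, Finset.prod_const_one]
    rw [e1]
    have n1 : N (K j) ≠ 0 := (hN.pos _).ne'
    have n2 : ∏ l, N (k (c l) l) ≠ 0 := (Finset.prod_pos fun l _ => hN.pos _).ne'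
    field_simp
  -- first reduction
  have s1 : av hf (univ.image (fun q : Fin Q × Fin d => k q.1 q.2))
      (fun T => ∏ j, phi (g (x + xN N T) / N (K j))) =
      ex (fun v : Fin d → (Fin Q → Bool) => ∏ j, phi ((1 / N (K j)) *
        g (x + ∑ l, (fun (l : Fin d) (w : Fin Q → Bool) => ∑ j, bs (w j) / N (k j l)) l (v l)))) := by
    have e1 := conn (N := N) (fun q : Fin Q × Fin d => k q.1 q.2) hinj
      (fun y => ∏ j, phi (g (x + y) / N (K j)))
    rw [e1, ← ex_equiv (sig97 Q d)]
    refine ex_congr fun v => ?_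
    refine Finset.prod_congr rfl fun j _ => ?_
    congr 1
    have e2 : ∑ a : Fin Q × Fin d, bs ((sig97 Q d) v a) / N (k a.1 a.2) =
        ∑ l, ∑ j, bs (v l j) / N (k j l) := by
      rw [Fintype.sum_prod_type_right]
      rfl
    rw [e2]
    ring
  rw [s1]
  refine (pd d hd (fun (l : Fin d) (w : Fin Q → Bool) => ∑ j, bs (w j) / N (k j l)) g x Q
    (fun j => 1 / N (K j))).trans ?_
  have s2 : ex (fun v : Fin d → (Fin Q → Bool) => ex (fun v' : Fin d → (Fin Q → Bool) => ∏ j,
        phi ((fun j => 1 / N (K j)) j * DD d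
          (fun l => (fun (l : Fin d) (w : Fin Q → Bool) => ∑ j, bs (w j) / N (k j l)) l (v l))
          (fun l => (fun (l : Fin d) (w : Fin Q → Bool) => ∑ j, bs (w j) / N (k j l)) l (v' l))
          g x))) =
      ex (fun z : Fin Q → (Fin d → Bool) × (Fin d → Bool) => ∏ j,
      phi ((fun j => 1 / N (K j)) j * DD d
        (fun l => (fun _ => (0 : ℝ)) l + ∑ i, bs ((z i).1 l) * (fun j l => 1 / N (k j l)) i l)
        (fun l => (fun _ => (0 : ℝ)) l + ∑ i, bs ((z i).2 l) * (fun j l => 1 / N (k j l)) i l)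
        g x)) := by
    rw [← ex_prod (fun q : (Fin d → Fin Q → Bool) × (Fin d → Fin Q → Bool) => ∏ j,
        phi ((fun j => 1 / N (K j)) j * DD d
          (fun l => (fun (l : Fin d) (w : Fin Q → Bool) => ∑ j, bs (w j) / N (k j l)) l (q.1 l))
          (fun l => (fun (l : Fin d) (w : Fin Q → Bool) => ∑ j, bs (w j) / N (k j l)) l (q.2 l))
          g x)), ← ex_equiv (rho97 Q d)]
    refine ex_congr fun z => ?_
    refine Finset.prod_congr rfl fun j _ => ?_
    congr 3
    · funext l
      simp only [zero_add]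
      refine Finset.sum_congr rfl fun i _ => ?_
      change bs ((z i).1 l) / N (k i l) = _
      ring
    · funext l
      simp only [zero_add]
      refine Finset.sum_congr rfl fun i _ => ?_
      change bs ((z i).2 l) / N (k i l) = _
      ring
  rw [s2]
  have ha : ∀ j l, 0 ≤ (fun (j : Fin Q) (l : Fin d) => 1 / N (k j l)) j l := fun j l => by
    have := hN.pos (k j l)
    simp only
    positivity
  have hb : ∀ j, 0 ≤ (fun (j : Fin Q) => 1 / N (K j)) j := fun j => by
    have := hN.pos (K j)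
    simp only
    positivity
  refine lev_aux d g lo hi Z t0 (2.02 * d * Q ^ d * err) hZ ht0 ht1 (by positivity) h
    (fun l => ∑ j, 1 / N (k j l)) x hx ?_ Q (fun j l => 1 / N (k j l)) (fun j => 1 / N (K j))
    ha hb (fun _ => 0) (fun _ => 0) (fun _ => le_rfl) (fun _ => le_rfl) ?_ ?_ ?_ ?_ ?_
  · have e1 : xN N (univ.image (fun q : Fin Q × Fin d => k q.1 q.2)) =
        ∑ l, ∑ j, 1 / N (k j l) := by
      unfold xN
      rw [Finset.sum_image (fun a _ b _ hab => hinj hab), Fintype.sum_prod_type_right]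
    rw [← e1]
    exact hxh
  · intro l
    simp
  · intro l
    simp
  · intro j
    have e1 := hprod j (fun _ => j)
    exact (h1 j).trans (le_of_eq e1.symm)
  · intro j
    have e1 := hprod j (fun _ => j)
    exact (le_of_eq e1).trans (h2 j)
  · intro j
    have key : ∀ l : Fin d, Z * (1 / N (K j)) *
        ((∑ j' ∈ univ.filter (fun j' => j < j'), 1 / N (k j' l)) *
          ∏ l' ∈ univ.erase l, ∑ j', 1 / N (k j' l')) ≤ Q ^ d * err := by
      intro l
      have e1 : (∑ j' ∈ univ.filter (fun j' => j < j'), 1 / N (k j' l)) *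
          ∏ l' ∈ univ.erase l, ∑ j', 1 / N (k j' l') =
          ∏ l', ∑ j' ∈ (if l' = l then univ.filter (fun j' : Fin Q => j < j') else univ),
            1 / N (k j' l') := by
        rw [← Finset.mul_prod_erase univ _ (Finset.mem_univ l)]
        rw [if_pos rfl]
        congr 1
        refine Finset.prod_congr rfl fun l' hl' => ?_
        rw [if_neg (Finset.ne_of_mem_erase hl')]
      rw [e1, Finset.prod_univ_sum, Finset.mul_sum]
      refine (Finset.sum_le_card_nsmul _ _ err ?_).trans ?_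
      · intro c hc
        rw [hprod j c]
        refine h3 j c ⟨l, ?_⟩
        have hcl := (Fintype.mem_piFinset.1 hc) l
        rw [if_pos rfl, Finset.mem_filter] at hcl
        exact hcl.2
      · rw [nsmul_eq_mul]
        refine mul_le_mul_of_nonneg_right ?_ herr
        have e2 : (Fintype.piFinset (fun l' : Fin d =>
            (if l' = l then univ.filter (fun j' : Fin Q => j < j') else univ))).card ≤ Q ^ d := by
          refine (Finset.card_le_univ _).trans ?_
          rw [Fintype.card_fun, Fintype.card_fin, Fintype.card_fin]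
        exact_mod_cast e2
    have e3 : (fun j => 1 / N (K j)) j * (1.01 * Z * ∑ l, (2 * ∑ j' ∈ univ.filter (fun j' => j < j'),
        (fun j l => 1 / N (k j l)) j' l) * ∏ l' ∈ univ.erase l, (fun l => ∑ j, 1 / N (k j l)) l') =
        2.02 * ∑ l, Z * (1 / N (K j)) *
        ((∑ j' ∈ univ.filter (fun j' => j < j'), 1 / N (k j' l)) *
          ∏ l' ∈ univ.erase l, ∑ j', 1 / N (k j' l')) := by
      simp only
      rw [← Finset.mul_sum, Finset.mul_sum, Finset.mul_sum, Finset.mul_sum, Finset.mul_sum]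
      refine Finset.sum_congr rfl fun l _ => ?_
      ring
    rw [e3]
    calc 2.02 * ∑ l, Z * (1 / N (K j)) *
        ((∑ j' ∈ univ.filter (fun j' => j < j'), 1 / N (k j' l)) *
          ∏ l' ∈ univ.erase l, ∑ j', 1 / N (k j' l'))
        ≤ 2.02 * ∑ _l : Fin d, (Q : ℝ) ^ d * err :=
          mul_le_mul_of_nonneg_left (Finset.sum_le_sum fun l _ => key l) (by norm_num)
      _ = 2.02 * d * Q ^ d * err := by
          rw [Finset.sum_const, Finset.card_univ, Fintype.card_fin, nsmul_eq_mul]
          ring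

end Pool.Agent.Helper59.RF
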