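import Pool.Agent.Helper59.RF.Bas

/-!
# Block RF-SCALES: several scales

PROOF.  Induction on `n` for all `U, F, γ, x` (shifted data `U (i+1)`, ...).  `n = 0`: `av_empty`, both sides `1`.
Step: `⋃_(i < n+1) U i = U 0 ∪ ⋃_(i < n) U (i+1)` (disjoint), `av_union`, `xN (T ∪ T') = xN T + xN T'` (`xN_union`).
For `T ⊆ U 0`, `y = x + xN T`, `t = xN T' ≤ ∑_(i' ∈ Ioo 0 (n+1)) xN (U i')` (`xN_mono`, `Finset.sum_biUnion`): `F 0 (y + t) ≤ F 0 y + ε` (`htr`),
the other factors have product in `[0, 1]`, so the integrand is at most `F 0 y * ∏_(i ≥ 1) F i (y + t) + ε`.  The average over `T'` of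
the product is at most `∏_(i ≥ 1) γ i + n ε` (induction hypothesis at the point `y`; `y + ∑ xN (U (i+1)) ≤ hi` because
`xN T ≤ xN (U 0)`), and the average over `T` of `F 0 y ≤ 1` is at most `γ 0` (`hsc 0`).  Total:
`γ 0 * (∏ γ (i+1)) + n ε + ε` (`av_mono`, `av_add`, `av_mul_left`, `av_const`; `hf` has values in `[0, 1]`).
-/

namespace Pool.Agent.Helper59.RF

open Finset
open Pool.Agent.Helper59.RE (av av_const av_union av_empty av_congr av_add av_mono av_mul_left)

private lemma scl_hf0 : ∀ k, 0 ≤ hf k := fun _ => by unfold hf; norm_num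

private lemma scl_hf1 : ∀ k, hf k ≤ 1 := fun _ => by unfold hf; norm_num

private lemma scl_sum_Ioo (f : ℕ → ℝ) (n : ℕ) :
    ∑ i ∈ Ioo 0 (n + 1), f i = ∑ i ∈ range n, f (i + 1) := by
  have h : Ioo 0 (n + 1) = (range n).map (addRightEmbedding 1) := by
    ext j
    simp only [mem_Ioo, mem_map, mem_range, addRightEmbedding_apply]
    constructor
    · rintro ⟨h1, h2⟩
      exact ⟨j - 1, by omega, by omega⟩
    · rintro ⟨a, h1, rfl⟩
      omega
  rw [h, Finset.sum_map]
  rfl

private lemma scl_sum_Ioo' (f : ℕ → ℝ) (i n : ℕ) :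
    ∑ i' ∈ Ioo (i + 1) (n + 1), f i' = ∑ i' ∈ Ioo i n, f (i' + 1) := by
  rw [← Finset.map_add_right_Ioo, Finset.sum_map]
  rfl

private lemma scl_xN_biUnion (N : ℕ → ℝ) (n : ℕ) (U : ℕ → Finset ℕ)
    (hU : ∀ i < n, ∀ i' < n, i ≠ i' → Disjoint (U i) (U i')) :
    xN N ((range n).biUnion U) = ∑ i ∈ range n, xN N (U i) := by
  unfold xN
  rw [Finset.sum_biUnion]
  intro i hi j hj hij
  exact hU i (mem_range.mp hi) j (mem_range.mp hj) hij

theorem scales {N : ℕ → ℝ} (hN : Bs N) (n : ℕ) (U : ℕ → Finset ℕ)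
    (hU : ∀ i < n, ∀ i' < n, i ≠ i' → Disjoint (U i) (U i')) (F : ℕ → ℝ → ℝ)
    (h0 : ∀ i y, 0 ≤ F i y) (h1 : ∀ i y, F i y ≤ 1) (lo hi : ℝ) (γ : ℕ → ℝ) (hγ0 : ∀ i, 0 ≤ γ i)
    (hγ1 : ∀ i, γ i ≤ 1) (ε : ℝ) (hε : 0 ≤ ε)
    (htr : ∀ i < n, ∀ y t : ℝ, lo ≤ y → 0 ≤ t → t ≤ ∑ i' ∈ Ioo i n, xN N (U i') → y + t ≤ hi →
      F i (y + t) ≤ F i y + ε)
    (hsc : ∀ i < n, ∀ y : ℝ, lo ≤ y → y + xN N (U i) ≤ hi →
      av hf (U i) (fun T => F i (y + xN N T)) ≤ γ i)
    (x : ℝ) (hx : lo ≤ x) (hxh : x + ∑ i ∈ range n, xN N (U i) ≤ hi) :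
    av hf ((range n).biUnion U) (fun T => ∏ i ∈ range n, F i (x + xN N T)) ≤
      ∏ i ∈ range n, γ i + n * ε := by
  induction n generalizing U F γ x with
  | zero =>
    simp [av_empty]
  | succ n ih =>
    set R : Finset ℕ := (range n).biUnion (fun i => U (i + 1)) with hR
    have hun : (range (n + 1)).biUnion U = U 0 ∪ R := by
      ext a
      simp only [hR, mem_biUnion, mem_union, mem_range]
      constructor
      · rintro ⟨i, hi, ha⟩
        rcases Nat.eq_zero_or_pos i with h | h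
        · subst h
          exact Or.inl ha
        · refine Or.inr ⟨i - 1, by omega, ?_⟩
          have e : i - 1 + 1 = i := by omega
          rw [e]
          exact ha
      · rintro (ha | ⟨i, hi, ha⟩)
        · exact ⟨0, by omega, ha⟩
        · exact ⟨i + 1, by omega, ha⟩
    have hdis : Disjoint (U 0) R := by
      rw [hR, Finset.disjoint_biUnion_right]
      intro i hi
      exact hU 0 (by omega) (i + 1) (by have := mem_range.mp hi; omega) (by omega)
    have hU' : ∀ i < n, ∀ i' < n, i ≠ i' → Disjoint (U (i + 1)) (U (i' + 1)) := by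
      intro i hi i' hi' hne
      exact hU (i + 1) (by omega) (i' + 1) (by omega) (by omega)
    have hxR : xN N R = ∑ i ∈ range n, xN N (U (i + 1)) :=
      scl_xN_biUnion N n (fun i => U (i + 1)) hU'
    have hsum : ∑ i ∈ range (n + 1), xN N (U i) =
        ∑ i ∈ range n, xN N (U (i + 1)) + xN N (U 0) := Finset.sum_range_succ' _ n
    have hSn : 0 ≤ ∑ i ∈ range n, xN N (U (i + 1)) :=
      Finset.sum_nonneg fun i _ => xN_nonneg hN _
    set G : ℝ := ∏ i ∈ range n, γ (i + 1) with hG
    have hG0 : 0 ≤ G := Finset.prod_nonneg fun i _ => hγ0 _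
    -- the inner average
    have hin : ∀ T, T ⊆ U 0 → av hf R (fun T' => ∏ i ∈ range (n + 1), F i (x + xN N (T ∪ T'))) ≤
        G * F 0 (x + xN N T) + (n * ε + ε) := by
      intro T hT
      have hyT : xN N T ≤ xN N (U 0) := xN_mono hN hT
      have hy0 : 0 ≤ xN N T := xN_nonneg hN T
      have hyhi : x + xN N T + ∑ i ∈ range n, xN N (U (i + 1)) ≤ hi := by linarith
      have hih := ih (fun i => U (i + 1)) hU' (fun i => F (i + 1)) (fun i y => h0 _ y)
        (fun i y => h1 _ y) (fun i => γ (i + 1)) (fun i => hγ0 _) (fun i => hγ1 _)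
        (by
          intro i hi' y t hy ht hts hth
          refine htr (i + 1) (by omega) y t hy ht ?_ hth
          rw [scl_sum_Ioo']
          exact hts)
        (by
          intro i hi' y hy hyh
          exact hsc (i + 1) (by omega) y hy hyh)
        (x + xN N T) (by linarith) hyhi
      have hpt : ∀ T', T' ⊆ R → ∏ i ∈ range (n + 1), F i (x + xN N (T ∪ T')) ≤
          F 0 (x + xN N T) * (∏ i ∈ range n, F (i + 1) (x + xN N T + xN N T')) + ε := by
        intro T' hT'
        have hd : Disjoint T T' := hdis.mono hT hT'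
        have ht0 : 0 ≤ xN N T' := xN_nonneg hN T'
        have htR : xN N T' ≤ ∑ i ∈ range n, xN N (U (i + 1)) := by
          rw [← hxR]
          exact xN_mono hN hT'
        have hF0 : F 0 (x + xN N T + xN N T') ≤ F 0 (x + xN N T) + ε := by
          refine htr 0 (by omega) (x + xN N T) (xN N T') (by linarith) ht0 ?_ (by linarith)
          rw [scl_sum_Ioo]
          exact htR
        have hP0 : 0 ≤ ∏ i ∈ range n, F (i + 1) (x + xN N T + xN N T') :=
          Finset.prod_nonneg fun i _ => h0 _ _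
        have hP1 : ∏ i ∈ range n, F (i + 1) (x + xN N T + xN N T') ≤ 1 :=
          Finset.prod_le_one (fun i _ => h0 _ _) fun i _ => h1 _ _
        rw [xN_union T T' hd, ← add_assoc, Finset.prod_range_succ']
        calc (∏ i ∈ range n, F (i + 1) (x + xN N T + xN N T')) * F 0 (x + xN N T + xN N T')
            ≤ (∏ i ∈ range n, F (i + 1) (x + xN N T + xN N T')) * (F 0 (x + xN N T) + ε) :=
              mul_le_mul_of_nonneg_left hF0 hP0
          _ = F 0 (x + xN N T) * (∏ i ∈ range n, F (i + 1) (x + xN N T + xN N T')) +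
              (∏ i ∈ range n, F (i + 1) (x + xN N T + xN N T')) * ε := by ring
          _ ≤ F 0 (x + xN N T) * (∏ i ∈ range n, F (i + 1) (x + xN N T + xN N T')) + ε := by
              have := mul_le_mul_of_nonneg_right hP1 hε
              linarith
      refine (av_mono hf scl_hf0 scl_hf1 R _ _ hpt).trans ?_
      rw [av_add, av_mul_left, av_const]
      have hc0 : 0 ≤ F 0 (x + xN N T) := h0 _ _
      have hc1 : F 0 (x + xN N T) ≤ 1 := h1 _ _
      have hne : 0 ≤ (n : ℝ) * ε := mul_nonneg (Nat.cast_nonneg n) hε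
      have h2 := mul_le_mul_of_nonneg_left hih hc0
      have h3 : F 0 (x + xN N T) * (n * ε) ≤ n * ε := by
        have := mul_le_mul_of_nonneg_right hc1 hne
        linarith
      have h4 : F 0 (x + xN N T) * (G + n * ε) = G * F 0 (x + xN N T) +
          F 0 (x + xN N T) * (n * ε) := by ring
      have h5 : F 0 (x + xN N T) *
          av hf R (fun T' => ∏ i ∈ range n, F (i + 1) (x + xN N T + xN N T')) ≤
          F 0 (x + xN N T) * (G + n * ε) := h2
      linarith
    rw [hun, av_union hf (U 0) R hdis]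
    refine (av_mono hf scl_hf0 scl_hf1 (U 0) _ _ hin).trans ?_
    rw [av_add, av_mul_left, av_const]
    have h6 : av hf (U 0) (fun T => F 0 (x + xN N T)) ≤ γ 0 :=
      hsc 0 (by omega) x hx (by linarith)
    have h7 := mul_le_mul_of_nonneg_left h6 hG0
    rw [Finset.prod_range_succ', ← hG]
    push_cast
    linarith

end Pool.Agent.Helper59.RF
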