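import Pool.Agent.Helper59.RF.Bas
import Pool.Agent.Helper59.RF.Pd

/-!
# Block RF-TOPS: the top digits

PROOF (model: `core_inner` in `Pool/Agent/Helper59/RE/Core.lean` and `RE/Top.lean`).  `av_union` and `xN_union`.  For fixed `T ⊆ L` put
`y = x + xN T`.  For `T' ⊆ K` the Taylor estimate gives `|f (y + xN T') - f y - g y * xN T'| ≤ Z (xN T')² ≤ Z (xN K)²`
(`xN_mono`, `xN_nonneg`), so replacing the phase costs at most `2 π Z (xN K)²` (`RE.norm_e_sub`, `RE.av_norm`, `RE.av_mono`).
`av hf K (fun T' => e (g y * xN T')) = ∏_(k ∈ K) (1/2 + 1/2 e (g y / N k))` (`RE.av_prod` with `z k = e (g y / N k)`; `e_add`), and every factor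
has norm at most `phi (g y / N k)` (`RE.norm_digit` with `p = 1/2`).
-/

namespace Pool.Agent.Helper59.RF

open Finset
open Pool.Agent.Helper59.RE (av e av_const av_union av_norm av_congr av_add av_mono av_prod norm_digit norm_e_sub)

private theorem tops6_mul (S : Finset ℕ) (c : ℂ) (F : Finset ℕ → ℂ) :
    av hf S (fun T => c * F T) = c * av hf S F := by
  unfold av
  rw [Finset.mul_sum]
  refine Finset.sum_congr rfl (fun T _ => ?_)
  rw [mul_smul_comm]

private theorem tops6_exp (N : ℕ → ℝ) (t : ℝ) (T : Finset ℕ) :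
    e (t * xN N T) = ∏ k ∈ T, e (t / N k) := by
  classical
  induction T using Finset.induction_on with
  | empty => simp [xN, Pool.Agent.Helper59.RE.e_zero]
  | insert a T ha ih =>
    rw [Finset.prod_insert ha, ← ih, ← Pool.Agent.Helper59.RE.e_add, xN_insert T a ha]
    congr 1
    ring

private theorem tops6_prod (N : ℕ → ℝ) (t : ℝ) (K : Finset ℕ) :
    ‖av hf K (fun T => e (t * xN N T))‖ ≤ ∏ k ∈ K, phi (t / N k) := by
  have h1 : av hf K (fun T => e (t * xN N T)) =
      ∏ k ∈ K, (1 - (hf k : ℂ) + hf k * e (t / N k)) := by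
    rw [← av_prod]
    exact av_congr hf K _ _ (fun T _ => tops6_exp N t T)
  rw [h1, norm_prod]
  refine Finset.prod_le_prod (fun k _ => norm_nonneg _) (fun k _ => ?_)
  refine (norm_digit (hf k) (t / N k) (by unfold hf; norm_num) (by unfold hf; norm_num)).trans
    (le_of_eq ?_)
  unfold hf phi
  norm_num

theorem tops {N : ℕ → ℝ} (hN : Bs N) (f g : ℝ → ℝ) (lo hi Z : ℝ) (hZ : 0 ≤ Z)
    (h : Tay f g lo hi Z) (L K : Finset ℕ) (hLK : Disjoint L K) (x : ℝ) (hx : lo ≤ x)
    (hxh : x + xN N (L ∪ K) ≤ hi) :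
    ‖av hf (L ∪ K) (fun T => e (f (x + xN N T)))‖ ≤
      av hf L (fun T => ∏ k ∈ K, phi (g (x + xN N T) / N k)) + 2 * Real.pi * (Z * xN N K ^ 2) := by
  have hf0 : ∀ k, 0 ≤ hf k := fun k => by unfold hf; norm_num
  have hf1 : ∀ k, hf k ≤ 1 := fun k => by unfold hf; norm_num
  rw [av_union hf L K hLK]
  refine (av_norm hf hf0 hf1 _ _).trans ?_
  have hc : av hf L (fun T => ∏ k ∈ K, phi (g (x + xN N T) / N k)) +
      2 * Real.pi * (Z * xN N K ^ 2) =
      av hf L (fun T => ∏ k ∈ K, phi (g (x + xN N T) / N k) +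
        2 * Real.pi * (Z * xN N K ^ 2)) := by
    rw [av_add, av_const]
  rw [hc]
  refine av_mono hf hf0 hf1 _ _ _ fun T hT => ?_
  have hTK : ∀ T' ⊆ K, xN N (T ∪ T') = xN N T + xN N T' := fun T' hT' =>
    xN_union _ _ (Finset.disjoint_of_subset_left hT (Finset.disjoint_of_subset_right hT' hLK))
  have hy0 : lo ≤ x + xN N T := by
    have := xN_nonneg hN T
    linarith
  have hxLK : xN N (L ∪ K) = xN N L + xN N K := xN_union _ _ hLK
  have hTL := xN_mono hN hT
  generalize hy : x + xN N T = y at *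
  have h1 : av hf K (fun T' => e (f (x + xN N (T ∪ T')))) =
      av hf K (fun T' => e (f y) * e (g y * xN N T') +
        (e (f (y + xN N T')) - e (f y) * e (g y * xN N T'))) := by
    refine av_congr _ _ _ _ fun T' hT' => ?_
    rw [hTK T' hT', ← add_assoc, hy]
    ring
  rw [h1, av_add]
  refine (norm_add_le _ _).trans (add_le_add ?_ ?_)
  · rw [tops6_mul, norm_mul, Pool.Agent.Helper59.RE.norm_e, one_mul]
    exact tops6_prod N (g y) K
  · refine (av_norm hf hf0 hf1 _ _).trans ?_
    rw [← av_const hf K (2 * Real.pi * (Z * xN N K ^ 2))]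
    refine av_mono hf hf0 hf1 _ _ _ (fun T' hT' => ?_)
    rw [← Pool.Agent.Helper59.RE.e_add]
    refine (norm_e_sub _ _).trans ?_
    refine mul_le_mul_of_nonneg_left ?_ (by positivity)
    have hm := xN_mono hN hT'
    have h0 := xN_nonneg hN T'
    have h3 := (h y (xN N T') hy0 h0 (by linarith)).1
    have h2 : f (y + xN N T') - (f y + g y * xN N T') = f (y + xN N T') - f y - g y * xN N T' := by
      ring
    rw [h2]
    refine h3.trans (mul_le_mul_of_nonneg_left ?_ hZ)
    exact pow_le_pow_left₀ h0 hm 2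

end Pool.Agent.Helper59.RF
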