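import Pool.Agent.Helper59.RF.Defs

/-!
# Project RF: windows of digits.  Definitions
-/

namespace Pool.Agent.Helper59.RF

open Finset

/-- The number of scales. -/
noncomputable def Ln (δ : ℝ) (d s : ℕ) : ℕ := ⌊δ / (8 * Real.log (8 * d)) * Real.log s⌋₊

/-- Windows of digits `W i j l` (scale `i < L`, level `j < Q`, `l < d` lower digits, `l = d` top digit) and sets `TT i j` of tight
tuples. -/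
structure WS (N : ℕ → ℝ) (δ Z t0 : ℝ) (s d Q L : ℕ) where
  W : ℕ → Fin Q → Fin (d + 1) → Finset ℕ
  TT : ℕ → Fin Q → Finset (Fin (d + 1) → ℕ)
  u : ℕ → ℝ
  mem : ∀ i < L, ∀ j, ∀ τ ∈ TT i j, ∀ l, τ l ∈ W i j l
  disj : ∀ i < L, ∀ i' < L, ∀ j j' l l', (i ≠ i' ∨ j ≠ j' ∨ l ≠ l') →
    Disjoint (W i j l) (W i' j' l')
  range : ∀ i < L, ∀ j l, ∀ k ∈ W i j l, (s : ℝ) ^ (1 - δ / 4) ≤ k ∧ k ≤ s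
  tight : ∀ i < L, ∀ j, ∀ τ ∈ TT i j, t0 ≤ Z / ∏ l, N (τ l) ∧ Z / ∏ l, N (τ l) ≤ 3 / 4
  inj : ∀ i < L, ∀ j, ∀ τ ∈ TT i j, ∀ τ' ∈ TT i j, ∀ l, (∀ l', l' ≠ l → τ l' = τ' l') → τ = τ'
  card_le : ∀ i < L, ∀ j l, ((W i j l).card : ℝ) ≤ u i
  card_ge : ∀ i < L, ∀ j, u i ^ d ≤ (s : ℝ) ^ (δ / 8) * ((TT i j).card : ℝ)
  u_ge : ∀ i < L, (s : ℝ) ^ (1 - δ / 3) ≤ u i
  e1 : ∀ i < L, ∀ j, ∀ K ∈ W i j (Fin.last d), Z / N K ^ 2 ≤ 1 / (s : ℝ) ^ 30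
  e2 : ∀ i < L, ∀ i' < L, i < i' → ∀ j j', ∀ K ∈ W i j (Fin.last d), ∀ l : Fin d,
    ∀ k ∈ W i' j' l.castSucc, Z / (N K * N k) ≤ 1 / (s : ℝ) ^ 30
  e3 : ∀ i < L, ∀ j, ∀ τ ∈ TT i j, ∀ c : Fin d → Fin Q, (∃ l, j < c l) → ∀ k : Fin d → ℕ,
    (∀ l, k l ∈ W i (c l) l.castSucc) →
    Z / (N (τ (Fin.last d)) * ∏ l, N (k l)) ≤ 1 / (s : ℝ) ^ 30

/-- A larger separation. -/
noncomputable def Es (s : ℕ) : ℝ := (s : ℝ) ^ 31 * 2 ^ (Nat.sqrt s)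

theorem Es_pos (s : ℕ) (hs : 1 ≤ s) : 0 < Es s := by
  have : (0 : ℝ) < s := by exact_mod_cast hs
  unfold Es
  positivity

theorem invEs (s : ℕ) (hs : 1 ≤ s) : 1 / Es s ≤ 1 / (s : ℝ) ^ 31 := by
  have h0 : (0 : ℝ) < s := by exact_mod_cast hs
  refine one_div_le_one_div_of_le (by positivity) ?_
  unfold Es
  exact le_mul_of_one_le_right (by positivity) (one_le_pow₀ (by norm_num))

/-- Windows with more separation. -/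
structure WT (N : ℕ → ℝ) (δ Z t0 : ℝ) (s d Q L : ℕ) extends WS N δ Z t0 s d Q L where
  f1 : ∀ i < L, ∀ j, ∀ K ∈ W i j (Fin.last d), Z / N K ^ 2 ≤ 1 / Es s
  f2 : ∀ i < L, ∀ i' < L, i < i' → ∀ j j', ∀ K ∈ W i j (Fin.last d), ∀ l : Fin d,
    ∀ k ∈ W i' j' l.castSucc, Z / (N K * N k) ≤ 1 / Es s
  f3 : ∀ i < L, ∀ j, ∀ τ ∈ TT i j, ∀ c : Fin d → Fin Q, (∃ l, j < c l) → ∀ k : Fin d → ℕ,
    (∀ l, k l ∈ W i (c l) l.castSucc) →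
    Z / (N (τ (Fin.last d)) * ∏ l, N (k l)) ≤ 1 / Es s

/-- Windows exist for all large `s`, with a little more separation. -/
def WinPropT (N : ℕ → ℝ) : Prop :=
  ∃ t0 : ℝ, 0 < t0 ∧ t0 ≤ 6 / 25 ∧ ∀ δ : ℝ, 0 < δ → δ ≤ 1 / 4 → ∀ d Q : ℕ, 2 ≤ d → 1 ≤ Q →
    ∃ S₀ : ℕ, ∀ s : ℕ, S₀ ≤ s → ∀ Z : ℝ, N s ≤ Z → Z < N (s + 1) →
      Nonempty (WT N δ Z t0 s d Q (Ln δ d s))

/-- Windows exist for all large `s`. -/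
def WinProp (N : ℕ → ℝ) : Prop :=
  ∃ t0 : ℝ, 0 < t0 ∧ t0 ≤ 6 / 25 ∧ ∀ δ : ℝ, 0 < δ → δ ≤ 1 / 4 → ∀ d Q : ℕ, 2 ≤ d → 1 ≤ Q →
    ∃ S₀ : ℕ, ∀ s : ℕ, S₀ ≤ s → ∀ Z : ℝ, N s ≤ Z → Z < N (s + 1) →
      Nonempty (WS N δ Z t0 s d Q (Ln δ d s))

theorem WinPropT.win {N : ℕ → ℝ} (h : WinPropT N) : WinProp N := by
  obtain ⟨t0, h0, h1, h2⟩ := h
  refine ⟨t0, h0, h1, fun δ hδ0 hδ1 d Q hd hQ => ?_⟩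
  obtain ⟨S₀, hS₀⟩ := h2 δ hδ0 hδ1 d Q hd hQ
  exact ⟨S₀, fun s hs Z hZ1 hZ2 => (hS₀ s hs Z hZ1 hZ2).map fun w => w.toWS⟩

theorem inv31 (s : ℕ) (hs : 1 ≤ s) : 1 / (s : ℝ) ^ 31 ≤ 1 / (s : ℝ) ^ 30 := by
  have h1 : (1 : ℝ) ≤ s := by exact_mod_cast hs
  exact one_div_le_one_div_of_le (by positivity) (pow_le_pow_right₀ h1 (by norm_num))

theorem invEs30 (s : ℕ) (hs : 1 ≤ s) : 1 / Es s ≤ 1 / (s : ℝ) ^ 30 :=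
  (invEs s hs).trans (inv31 s hs)

/-- The scale `i` is good for the set `U` of chosen digits. -/
def WS.Good {N : ℕ → ℝ} {δ Z t0 : ℝ} {s d Q L : ℕ} (w : WS N δ Z t0 s d Q L) (U : Finset ℕ)
    (i : ℕ) : Prop := ∀ j : Fin Q, ∃ τ ∈ w.TT i j, ∀ l, τ l ∈ U

/-- The gain of one good scale. -/
noncomputable def gam (t0 : ℝ) (s d Q : ℕ) : ℝ :=
  ((1 - 2 * t0 ^ 2 / 4 ^ d) ^ Q + 2 * Q * (2.02 * d * Q ^ d * (1 / (s : ℝ) ^ 30))) ^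
    ((1 : ℝ) / 2 ^ d)

end Pool.Agent.Helper59.RF
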