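import Pool.Agent.Helper59.RF.Defs

/-!
# Project RF: uniform averages
-/

namespace Pool.Agent.Helper59.RF

open Finset

variable {A B : Type*} [Fintype A] [Fintype B] {E : Type*} [AddCommGroup E] [Module ℝ E]

theorem ex_card_pos [Nonempty A] : (0 : ℝ) < Fintype.card A := by
  exact_mod_cast Fintype.card_pos

theorem ex_const [Nonempty A] (c : E) : ex (fun _ : A => c) = c := by
  unfold ex
  rw [Finset.sum_const, Finset.card_univ, ← Nat.cast_smul_eq_nsmul ℝ, smul_smul,
    inv_mul_cancel₀ ex_card_pos.ne', one_smul]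

theorem ex_congr {F G : A → E} (h : ∀ a, F a = G a) : ex F = ex G := by
  have : F = G := funext h
  rw [this]

theorem ex_add (F G : A → E) : ex (fun a => F a + G a) = ex F + ex G := by
  unfold ex
  rw [Finset.sum_add_distrib, smul_add]

theorem ex_sub (F G : A → E) : ex (fun a => F a - G a) = ex F - ex G := by
  unfold ex
  rw [Finset.sum_sub_distrib, smul_sub]

theorem ex_smul (c : ℝ) (F : A → E) : ex (fun a => c • F a) = c • ex F := by
  unfold ex
  rw [← Finset.smul_sum, smul_comm]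

theorem ex_mul (c : ℝ) (F : A → ℝ) : ex (fun a => c * F a) = c * ex F := ex_smul c F

theorem ex_mul_complex (c : ℂ) (F : A → ℂ) : ex (fun a => c * F a) = c * ex F := by
  unfold ex
  rw [← Finset.mul_sum, mul_smul_comm]

theorem ex_sum {ι : Type*} (s : Finset ι) (F : ι → A → E) :
    ex (fun a => ∑ i ∈ s, F i a) = ∑ i ∈ s, ex (F i) := by
  unfold ex
  rw [Finset.sum_comm, Finset.smul_sum]

theorem ex_mono {F G : A → ℝ} (h : ∀ a, F a ≤ G a) : ex F ≤ ex G := by
  unfold ex
  exact smul_le_smul_of_nonneg_left (Finset.sum_le_sum fun a _ => h a) (by positivity)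

theorem ex_nonneg {F : A → ℝ} (h : ∀ a, 0 ≤ F a) : 0 ≤ ex F := by
  unfold ex
  exact smul_nonneg (by positivity) (Finset.sum_nonneg fun a _ => h a)

theorem ex_le [Nonempty A] {F : A → ℝ} {c : ℝ} (h : ∀ a, F a ≤ c) : ex F ≤ c := by
  calc ex F ≤ ex (fun _ : A => c) := ex_mono h
    _ = c := ex_const c

theorem ex_norm {E : Type*} [NormedAddCommGroup E] [NormedSpace ℝ E] (F : A → E) :
    ‖ex F‖ ≤ ex (fun a => ‖F a‖) := by
  unfold ex
  rw [norm_smul, Real.norm_of_nonneg (by positivity), smul_eq_mul]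
  exact mul_le_mul_of_nonneg_left (norm_sum_le _ _) (by positivity)

theorem ex_equiv (σ : A ≃ B) (F : B → E) : ex (fun a => F (σ a)) = ex F := by
  unfold ex
  rw [Fintype.card_congr σ, Equiv.sum_comp σ F]

theorem ex_prod (F : A × B → E) : ex F = ex (fun a => ex (fun b => F (a, b))) := by
  unfold ex
  rw [Fintype.card_prod, Fintype.sum_prod_type, ← Finset.smul_sum, smul_smul]
  push_cast
  rw [mul_inv]

theorem ex_comm (F : A → B → E) :
    ex (fun a => ex (fun b => F a b)) = ex (fun b => ex (fun a => F a b)) := by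
  unfold ex
  rw [← Finset.smul_sum, ← Finset.smul_sum, smul_comm, Finset.sum_comm]

/-- Average over sequences of length `n + 1`: first the first entry. -/
theorem ex_cons (n : ℕ) (F : (Fin (n + 1) → A) → E) :
    ex F = ex (fun a : A => ex (fun z : Fin n → A => F (Fin.cons a z : Fin (n + 1) → A))) := by
  rw [← ex_prod (fun q : A × (Fin n → A) => F (Fin.cons q.1 q.2 : Fin (n + 1) → A))]
  rw [← ex_equiv (Fin.consEquiv (fun _ : Fin (n + 1) => A)) F]
  rfl

theorem ex_zero (F : (Fin 0 → A) → E) : ex F = F Fin.elim0 := by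
  have h : F = fun _ => F Fin.elim0 := by
    funext z
    congr 1
    exact Subsingleton.elim _ _
  rw [h, ex_const]

theorem ex_re (F : A → ℂ) : (ex F).re = ex (fun a => (F a).re) := by
  unfold ex
  rw [Complex.smul_re, Complex.re_sum]

/-- Jensen for even powers. -/
theorem ex_pow [Nonempty A] (F : A → ℝ) (hF : ∀ a, 0 ≤ F a) (n : ℕ) : (ex F) ^ n ≤ ex (fun a => F a ^ n) := by
  have h := (convexOn_pow n : ConvexOn ℝ (Set.Ici (0 : ℝ)) fun x => x ^ n).map_sum_le
    (t := (Finset.univ : Finset A)) (w := fun _ => (Fintype.card A : ℝ)⁻¹) (p := F)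
    (fun _ _ => by positivity)
    (by rw [Finset.sum_const, Finset.card_univ, nsmul_eq_mul, mul_inv_cancel₀ ex_card_pos.ne'])
    (fun a _ => hF a)
  unfold ex
  rw [Finset.smul_sum, Finset.smul_sum]
  exact h

/-- The general form of Jensen's inequality for weights. -/
theorem jensen_pow {ι : Type*} (s : Finset ι) (w F : ι → ℝ) (hw : ∀ i ∈ s, 0 ≤ w i)
    (hw1 : ∑ i ∈ s, w i = 1) (hF : ∀ i ∈ s, 0 ≤ F i) (n : ℕ) :
    (∑ i ∈ s, w i * F i) ^ n ≤ ∑ i ∈ s, w i * F i ^ n := by
  exact (convexOn_pow n : ConvexOn ℝ (Set.Ici (0 : ℝ)) fun x => x ^ n).map_sum_le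
    (t := s) (w := w) (p := F) hw hw1 (fun a ha => hF a ha)

end Pool.Agent.Helper59.RF
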