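import Pool.Agent.Helper59.RF.DDa
import Pool.Agent.Helper59.RF.Ex

/-!
# Block RF-ALT: flipping one bit in every group

PROOFS.
* `alt_sum`: induction on `d` (split `τ : Fin (d+1) → Bool` with `Fin.consEquiv` / `Fin.cons`, `Fin.prod_univ_succ`,
  `Fintype.sum_bool`): for the first group the terms with `x + y' 0` cancel and
  `g (· + (y 0 + a 0)) - g (· + y 0)` remains.
* `alt_avg`: put `θ τ = b DD d (y + τ a) y' g x`, `S = b DD d a 0 g (x + ∑ y)`. By `alt_sum` `S = ∑ ± θ τ`, and `|sin|` is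
  subadditive (`|sin (u + v)| ≤ |sin u| + |sin v|`, `Real.sin_add`), so `|sin (π S)| ≤ ∑_τ |sin (π θ τ)|`. By `Dif` and `h1, h2`:
  `t0 ≤ S ≤ 1.01 * 3/4`, so `sin (π S) ≥ 2 t0` (`Real.mul_le_sin`: `2/π u ≤ sin u` on `[0, π/2]`; for `S > 1/2` use
  `sin (π S) = sin (π (1 - S))`, `1 - S ≥ 0.24`, `2 t0 ≤ 0.48`). Cauchy-Schwarz (`2^d` terms): `∑ sin² ≥ 4 t0² / 2^d`, and
  `ex phi = 1 - (1/2) 2^(-d) ∑ sin² ≤ 1 - 2 t0² / 4^d`.
-/

namespace Pool.Agent.Helper59.RF

open Finset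

theorem alt_sum (d : ℕ) (y y' a : Fin d → ℝ) (g : ℝ → ℝ) (x : ℝ) :
    ∑ τ : Fin d → Bool, (∏ l, if τ l then (1 : ℝ) else -1) *
      DD d (fun l => y l + bs (τ l) * a l) y' g x = DD d a (fun _ => 0) g (x + ∑ l, y l) := by
  induction d generalizing g x with
  | zero => simp [DD]
  | succ d ih =>
    rw [← Equiv.sum_comp (Fin.consEquiv fun _ : Fin (d + 1) => Bool), Fintype.sum_prod_type,
      Fintype.sum_bool]
    have h1 : ∀ (c : Bool) (τ : Fin d → Bool), (Fin.consEquiv fun _ : Fin (d + 1) => Bool) (c, τ) =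
        (Fin.cons c τ : Fin (d + 1) → Bool) := fun _ _ => rfl
    simp only [h1, Fin.prod_univ_succ, Fin.cons_zero, Fin.cons_succ, DD, Fin.sum_univ_succ]
    have e1 := ih (fun l => y l.succ) (fun l => y' l.succ) (fun l => a l.succ) g (x + (y 0 + a 0))
    have e2 := ih (fun l => y l.succ) (fun l => y' l.succ) (fun l => a l.succ) g (x + y 0)
    have b1 : bs true = 1 := rfl
    have b2 : bs false = 0 := rfl
    simp only [b1, b2, if_true, if_false, one_mul, zero_mul, add_zero, Bool.false_eq_true]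
    have e3 : x + (y 0 + ∑ i : Fin d, y i.succ) + a 0 = x + (y 0 + a 0) + ∑ i : Fin d, y i.succ := by
      ring
    have e4 : x + (y 0 + ∑ i : Fin d, y i.succ) = x + y 0 + ∑ i : Fin d, y i.succ := by ring
    rw [e3, e4, ← e1, ← e2, ← Finset.sum_sub_distrib, ← Finset.sum_add_distrib]
    refine Finset.sum_congr rfl fun τ _ => ?_
    ring

private theorem alt_sin {ι : Type*} (s : Finset ι) (c : ι → ℝ) :
    |Real.sin (∑ i ∈ s, c i)| ≤ ∑ i ∈ s, |Real.sin (c i)| := by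
  classical
  induction s using Finset.induction_on with
  | empty => simp
  | insert a s ha ih =>
    rw [Finset.sum_insert ha, Finset.sum_insert ha, Real.sin_add]
    have h1 := Real.abs_cos_le_one (c a)
    have h2 := Real.abs_cos_le_one (∑ i ∈ s, c i)
    calc |Real.sin (c a) * Real.cos (∑ i ∈ s, c i) + Real.cos (c a) * Real.sin (∑ i ∈ s, c i)|
        ≤ |Real.sin (c a) * Real.cos (∑ i ∈ s, c i)| +
          |Real.cos (c a) * Real.sin (∑ i ∈ s, c i)| := abs_add_le _ _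
      _ = |Real.sin (c a)| * |Real.cos (∑ i ∈ s, c i)| +
          |Real.cos (c a)| * |Real.sin (∑ i ∈ s, c i)| := by rw [abs_mul, abs_mul]
      _ ≤ |Real.sin (c a)| * 1 + 1 * |Real.sin (∑ i ∈ s, c i)| :=
          add_le_add (mul_le_mul_of_nonneg_left h2 (abs_nonneg _))
            (mul_le_mul_of_nonneg_right h1 (abs_nonneg _))
      _ ≤ |Real.sin (c a)| + ∑ i ∈ s, |Real.sin (c i)| := by linarith

private theorem alt_low {S t0 : ℝ} (h0 : 0 < t0) (h1 : t0 ≤ 6 / 25) (h2 : t0 ≤ S)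
    (h3 : S ≤ 1.01 * (3 / 4)) : 2 * t0 ≤ Real.sin (Real.pi * S) := by
  have hpi := Real.pi_pos
  have hpi' : 2 / Real.pi * Real.pi = 2 := div_mul_cancel₀ _ hpi.ne'
  by_cases h : S ≤ 1 / 2
  · have hS0 : 0 < S := lt_of_lt_of_le h0 h2
    have h4 := Real.mul_le_sin (x := Real.pi * S) (by positivity) (by nlinarith)
    rw [← mul_assoc, hpi'] at h4
    linarith
  · push Not at h
    have e : Real.sin (Real.pi * S) = Real.sin (Real.pi * (1 - S)) := by
      rw [mul_sub, mul_one, Real.sin_pi_sub]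
    rw [e]
    have h5 : (0 : ℝ) ≤ 1 - S := by norm_num at h3; linarith
    have h4 := Real.mul_le_sin (x := Real.pi * (1 - S)) (by positivity) (by nlinarith)
    rw [← mul_assoc, hpi'] at h4
    norm_num at h3
    linarith

theorem alt_avg (d : ℕ) (g : ℝ → ℝ) (lo hi Z t0 b : ℝ) (hZ : 0 ≤ Z) (hb : 0 ≤ b) (ht0 : 0 < t0)
    (ht1 : t0 ≤ 6 / 25) (h : Dif d g lo hi Z) (y y' a : Fin d → ℝ) (hy : ∀ l, 0 ≤ y l)
    (ha : ∀ l, 0 ≤ a l) (x : ℝ) (hx : lo ≤ x) (hxh : x + ∑ l, y l + ∑ l, a l ≤ hi)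
    (h1 : t0 ≤ Z * b * ∏ l, a l) (h2 : Z * b * ∏ l, a l ≤ 3 / 4) :
    ex (fun τ : Fin d → Bool => phi (b * DD d (fun l => y l + bs (τ l) * a l) y' g x)) ≤
      1 - 2 * t0 ^ 2 / 4 ^ d := by
  obtain ⟨θ, hθ⟩ : ∃ θ : (Fin d → Bool) → ℝ, θ = fun τ =>
    b * DD d (fun l => y l + bs (τ l) * a l) y' g x := ⟨_, rfl⟩
  obtain ⟨S, hS⟩ : ∃ S, S = b * DD d a (fun _ => 0) g (x + ∑ l, y l) := ⟨_, rfl⟩
  obtain ⟨sg, hsg⟩ : ∃ sg : (Fin d → Bool) → ℝ, sg = fun τ => ∏ l, if τ l then (1 : ℝ) else -1 :=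
    ⟨_, rfl⟩
  have hsum : ∑ τ, sg τ * θ τ = S := by
    rw [hS, ← alt_sum d y y' a g x, Finset.mul_sum, hsg, hθ]
    refine Finset.sum_congr rfl fun τ _ => ?_
    ring
  have hD := h a (x + ∑ l, y l) ha (hx.trans (le_add_of_nonneg_right (Finset.sum_nonneg fun l _ => hy l)))
    (by linarith)
  have hS1 : t0 ≤ S := by
    rw [hS]
    have h3 := mul_le_mul_of_nonneg_left hD.1 hb
    linarith [h3, h1, show b * (Z * ∏ l, a l) = Z * b * ∏ l, a l by ring]
  have hS2 : S ≤ 1.01 * (3 / 4) := by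
    rw [hS]
    have h3 := mul_le_mul_of_nonneg_left hD.2 hb
    have h4 : b * (1.01 * Z * ∏ l, a l) = 1.01 * (Z * b * ∏ l, a l) := by ring
    rw [h4] at h3
    refine h3.trans (mul_le_mul_of_nonneg_left h2 (by norm_num))
  have hlow := alt_low ht0 ht1 hS1 hS2
  have habs : ∀ τ, |Real.sin (Real.pi * (sg τ * θ τ))| = |Real.sin (Real.pi * θ τ)| := by
    intro τ
    have h5 : sg τ = 1 ∨ sg τ = -1 := by
      rw [hsg]
      dsimp only
      induction (Finset.univ : Finset (Fin d)) using Finset.induction_on with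
      | empty => left; simp
      | insert i s hi ih =>
        rw [Finset.prod_insert hi]
        rcases ih with ih | ih <;> rw [ih] <;> by_cases hτ : τ i = true <;> simp [hτ]
    rcases h5 with h5 | h5
    · rw [h5, one_mul]
    · rw [h5, neg_one_mul, mul_neg, Real.sin_neg, abs_neg]
  have h6 : 2 * t0 ≤ ∑ τ, |Real.sin (Real.pi * θ τ)| := by
    have h7 := alt_sin Finset.univ (fun τ => Real.pi * (sg τ * θ τ))
    rw [← Finset.mul_sum, hsum] at h7
    simp only [habs] at h7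
    exact (hlow.trans (le_abs_self _)).trans h7
  have h8 : (2 * t0) ^ 2 ≤ 2 ^ d * ∑ τ, Real.sin (Real.pi * θ τ) ^ 2 := by
    have h9 := sq_sum_le_card_mul_sum_sq (s := (Finset.univ : Finset (Fin d → Bool)))
      (f := fun τ => |Real.sin (Real.pi * θ τ)|)
    simp only [sq_abs] at h9
    rw [Finset.card_univ, Fintype.card_fun, Fintype.card_bool, Fintype.card_fin] at h9
    push_cast at h9
    exact (pow_le_pow_left₀ (by positivity) h6 2).trans h9
  have h10 : ex (fun τ : Fin d → Bool => phi (b * DD d (fun l => y l + bs (τ l) * a l) y' g x)) =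
      1 - 1 / 2 * ((2 ^ d)⁻¹ * ∑ τ, Real.sin (Real.pi * θ τ) ^ 2) := by
    have h11 : ex (fun τ : Fin d → Bool => phi (b * DD d (fun l => y l + bs (τ l) * a l) y' g x)) =
        ex (fun τ : Fin d → Bool => (1 : ℝ) - 1 / 2 * Real.sin (Real.pi * θ τ) ^ 2) := by
      rw [hθ]
      rfl
    rw [h11, ex_sub, ex_const, ex_mul]
    unfold ex
    rw [Fintype.card_fun, Fintype.card_bool, Fintype.card_fin, smul_eq_mul]
    push_cast
    rfl
  rw [h10]
  have h12 : (4 : ℝ) ^ d = 2 ^ d * 2 ^ d := by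
    rw [← mul_pow]; norm_num
  have h13 : (0 : ℝ) < 2 ^ d := by positivity
  have h14 : 2 * t0 ^ 2 / 4 ^ d ≤ 1 / 2 * ((2 ^ d)⁻¹ * ∑ τ, Real.sin (Real.pi * θ τ) ^ 2) := by
    rw [h12, div_le_iff₀ (by positivity)]
    have h15 : 1 / 2 * ((2 ^ d)⁻¹ * ∑ τ, Real.sin (Real.pi * θ τ) ^ 2) * (2 ^ d * 2 ^ d) =
        1 / 2 * (2 ^ d * ∑ τ, Real.sin (Real.pi * θ τ) ^ 2) := by
      field_simp
    rw [h15]
    nlinarith
  linarith

end Pool.Agent.Helper59.RF
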