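import Pool.Agent.Helper59.RF.GDefs

/-!
# Block RF-NPG: `c^k (k!)^κ` is regular, pointwise

`N = NP c κ`, `N (k+1) = c (k+1)^κ N k` (`np_succ`).  `M = MM d Q v`, `β = c M^κ`, `C2 = 2^κ`, `ρ = min ((1 + 1/(4(d+1)))^κ - 1) 1`.

PROOF of `np_gn` (`hv1, hv2, hv3` say that `v^κ` is large):
* `one`: for `k ≥ M ≥ v`: `N k = c^k (k!)^κ ≥ (c (k/e)^κ)^k ≥ 1`, because `k! ≥ (k/e)^k` (`Real.pow_div_factorial_le_exp` or
  `Real.add_pow_le_pow_mul_pow_of_add_eq_one`... any proof) and `c (v/3)^κ ≥ 1` (`hv3`, `e < 3`).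
* `b4`, `bC`: `β ≥ c v^κ ≥ 4`, `≥ 2 * 2^κ` (`hv1`, `hv2`).
* `lo`: `c (k+1)^κ ≥ c M^κ`.  `hi`: `c (k+1)^κ ≤ c (2M)^κ = 2^κ β ≤ β²`.
* `hs`: `c (k+1)^κ ≤ c (2s)^κ ≤ c (v²)^κ ≤ c M^(2κ) = β² / c ≤ β³` (`2 s ≤ v²` from `Rng.pw`: `(2s)^3 ≤ v^4 ≤ v^6`; `1/c ≤ β` by `hv4`).
* `rlo`: `N x N (y+1) = ((y+1)/(x+1))^κ N (x+1) N y`, and `(y+1)/(x+1) = 1 + (y-x)/(x+1) ≥ 1 + (M/(2(d+1)))/(2M) = 1 + 1/(4(d+1))` (`x + 1 ≤ 2M`).
* `rhi`: `(y+1)/(x+1) ≤ 2M / M = 2` (`y + 1 ≤ 2M`, `x + 1 ≥ M`), `≥ 0`.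
* `sup`: `K = s - ∑ f l` (`∑ f l ≤ 2 d M ≤ s` by `Rng.big`): `N K ∏ N (f l) = c^s (K! ∏ (f l)!)^κ ≤ c^s (s!)^κ` (product of factorials divides the
  factorial of the sum: `Nat.prod_factorial_dvd_factorial_sum`, `Nat.factorial_mul_factorial_dvd_factorial_add`;
  `Real.finset_prod_rpow`, `Real.mul_rpow`, `Real.rpow_le_rpow`).
-/

namespace Pool.Agent.Helper59.RF

open Finset

theorem np_pos (c κ : ℝ) (hc : 0 < c) (k : ℕ) : 0 < NP c κ k := by
  unfold NP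
  have h : (0 : ℝ) < (k.factorial : ℝ) := by exact_mod_cast Nat.factorial_pos k
  exact mul_pos (pow_pos hc k) (Real.rpow_pos_of_pos h κ)

theorem np_succ (c κ : ℝ) (k : ℕ) : NP c κ (k + 1) = c * ((k : ℝ) + 1) ^ κ * NP c κ k := by
  unfold NP
  rw [Nat.factorial_succ]
  push_cast
  rw [Real.mul_rpow (by positivity) (by positivity)]
  ring

private lemma np_one62 (c κ : ℝ) (hc : 0 < c) (hκ : 0 < κ) (v k : ℕ) (hvk : v ≤ k)
    (hv3 : 1 ≤ c * ((v : ℝ) / 3) ^ κ) : 1 ≤ NP c κ k := by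
  unfold NP
  have hf : (0 : ℝ) < (k.factorial : ℝ) := by exact_mod_cast Nat.factorial_pos k
  have h1 : ((k : ℝ) / 3) ^ k ≤ (k.factorial : ℝ) := by
    have h2 := Real.pow_div_factorial_le_exp (k : ℝ) (by positivity) k
    rw [div_le_iff₀ hf] at h2
    have h3 : Real.exp (k : ℝ) ≤ 3 ^ k := by
      have h4 : Real.exp (k : ℝ) = Real.exp 1 ^ k := by
        rw [← Real.exp_nat_mul, mul_one]
      rw [h4]
      exact pow_le_pow_left₀ (Real.exp_pos 1).le (by have := Real.exp_one_lt_d9; linarith) k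
    rw [div_pow, div_le_iff₀ (by positivity)]
    calc (k : ℝ) ^ k ≤ Real.exp k * (k.factorial : ℝ) := h2
      _ ≤ 3 ^ k * (k.factorial : ℝ) := mul_le_mul_of_nonneg_right h3 hf.le
      _ = (k.factorial : ℝ) * 3 ^ k := mul_comm _ _
  have h5 : (((k : ℝ) / 3) ^ κ) ^ k ≤ (k.factorial : ℝ) ^ κ := by
    have h6 := Real.rpow_le_rpow (by positivity) h1 hκ.le
    have h7 : (((k : ℝ) / 3) ^ k) ^ κ = (((k : ℝ) / 3) ^ κ) ^ k := by
      rw [← Real.rpow_natCast, ← Real.rpow_natCast, ← Real.rpow_mul (by positivity),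
        ← Real.rpow_mul (by positivity), mul_comm]
    rwa [h7] at h6
  have h8 : 1 ≤ c * ((k : ℝ) / 3) ^ κ := by
    refine hv3.trans (mul_le_mul_of_nonneg_left ?_ hc.le)
    refine Real.rpow_le_rpow (by positivity) ?_ hκ.le
    have : (v : ℝ) ≤ k := by exact_mod_cast hvk
    linarith
  calc (1 : ℝ) ≤ (c * ((k : ℝ) / 3) ^ κ) ^ k := one_le_pow₀ h8
    _ = c ^ k * (((k : ℝ) / 3) ^ κ) ^ k := mul_pow _ _ _
    _ ≤ c ^ k * (k.factorial : ℝ) ^ κ := mul_le_mul_of_nonneg_left h5 (by positivity)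

private lemma np_sup62 (c κ : ℝ) (hc : 0 < c) (hκ : 0 < κ) (s d K : ℕ) (f : ℕ → ℕ)
    (hK : K + ∑ l ∈ range d, f l = s) :
    NP c κ K * ∏ l ∈ range d, NP c κ (f l) ≤ NP c κ s := by
  have h1 : ∏ l ∈ range d, NP c κ (f l) =
      c ^ (∑ l ∈ range d, f l) * ((∏ l ∈ range d, (f l).factorial : ℕ) : ℝ) ^ κ := by
    unfold NP
    rw [prod_mul_distrib, prod_pow_eq_pow_sum]
    congr 1
    push_cast
    exact Real.finsetProd_rpow _ _ (fun _ _ => by positivity) κ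
  rw [h1]
  unfold NP
  have h2 : K.factorial * ∏ l ∈ range d, (f l).factorial ≤ s.factorial := by
    have h3 : ∏ l ∈ range d, (f l).factorial ≤ (∑ l ∈ range d, f l).factorial :=
      Nat.le_of_dvd (Nat.factorial_pos _) (Nat.prod_factorial_dvd_factorial_sum _ _)
    calc K.factorial * ∏ l ∈ range d, (f l).factorial
        ≤ K.factorial * (∑ l ∈ range d, f l).factorial := Nat.mul_le_mul_left _ h3
      _ ≤ (K + ∑ l ∈ range d, f l).factorial :=
          Nat.le_of_dvd (Nat.factorial_pos _) (Nat.factorial_mul_factorial_dvd_factorial_add _ _)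
      _ = s.factorial := by rw [hK]
  have h4 : ((K.factorial * ∏ l ∈ range d, (f l).factorial : ℕ) : ℝ) ≤ (s.factorial : ℝ) := by
    exact_mod_cast h2
  rw [Nat.cast_mul] at h4
  have h5 := Real.rpow_le_rpow (by positivity) h4 hκ.le
  rw [Real.mul_rpow (by positivity) (by positivity)] at h5
  calc c ^ K * (K.factorial : ℝ) ^ κ *
        (c ^ (∑ l ∈ range d, f l) * ((∏ l ∈ range d, (f l).factorial : ℕ) : ℝ) ^ κ)
      = c ^ (K + ∑ l ∈ range d, f l) *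
        ((K.factorial : ℝ) ^ κ * ((∏ l ∈ range d, (f l).factorial : ℕ) : ℝ) ^ κ) := by
        rw [pow_add]; ring
    _ ≤ c ^ (K + ∑ l ∈ range d, f l) * (s.factorial : ℝ) ^ κ :=
        mul_le_mul_of_nonneg_left h5 (by positivity)
    _ = c ^ s * (s.factorial : ℝ) ^ κ := by rw [hK]

theorem np_gn (c κ : ℝ) (hc : 0 < c) (hκ : 0 < κ) (s d Q v : ℕ) (hR : Rng s d Q v) (hd : 2 ≤ d)
    (hv1 : 4 ≤ c * (v : ℝ) ^ κ) (hv2 : 2 * (2 : ℝ) ^ κ ≤ c * (v : ℝ) ^ κ)
    (hv3 : 1 ≤ c * ((v : ℝ) / 3) ^ κ) (hv4 : 1 / c ≤ c * (v : ℝ) ^ κ) :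
    GN (NP c κ) s d Q v (c * (MM d Q v : ℝ) ^ κ) ((2 : ℝ) ^ κ)
      (min ((1 + 1 / (4 * ((d : ℝ) + 1))) ^ κ - 1) 1) := by
  obtain ⟨M, hM⟩ : ∃ M, M = MM d Q v := ⟨_, rfl⟩
  have hMv : 32 * v ≤ M := by rw [hM]; exact v_le_mm d Q v
  have hv100 := hR.v1
  have hbig : 64 * d * M ≤ s := by rw [hM]; exact hR.big
  have h2s : 2 * s ≤ v ^ 2 := by
    have h1 : (2 * s) ^ 3 ≤ (v ^ 2) ^ 3 := by
      calc (2 * s) ^ 3 ≤ v ^ 4 := hR.pw
        _ ≤ v ^ 6 := Nat.pow_le_pow_right (by omega) (by norm_num)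
        _ = (v ^ 2) ^ 3 := by ring
    exact (Nat.pow_le_pow_iff_left (by norm_num)).1 h1
  rw [← hM]
  obtain ⟨β, hβ⟩ : ∃ β : ℝ, β = c * (M : ℝ) ^ κ := ⟨_, rfl⟩
  rw [← hβ]
  have hvM : (v : ℝ) ≤ M := by exact_mod_cast (by omega : v ≤ M)
  have hvM2 : (v : ℝ) ^ 2 ≤ (M : ℝ) ^ 2 := pow_le_pow_left₀ (by positivity) hvM 2
  have hβv : c * (v : ℝ) ^ κ ≤ β := by
    rw [hβ]
    exact mul_le_mul_of_nonneg_left (Real.rpow_le_rpow (by positivity) hvM hκ.le) hc.le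
  have hβ4 : 4 ≤ β := hv1.trans hβv
  have hβC : 2 * (2 : ℝ) ^ κ ≤ β := hv2.trans hβv
  have hβc : 1 / c ≤ β := hv4.trans hβv
  have hC1 : 1 ≤ (2 : ℝ) ^ κ := Real.one_le_rpow (by norm_num) hκ.le
  have hM0 : (0 : ℝ) < M := by
    have : 0 < M := by omega
    exact_mod_cast this
  have hd0 : (0 : ℝ) < 4 * ((d : ℝ) + 1) := by positivity
  have hup : ∀ (b : ℝ) (k : ℕ), (k : ℝ) + 1 ≤ b → c * ((k : ℝ) + 1) ^ κ ≤ c * b ^ κ :=
    fun b k h => mul_le_mul_of_nonneg_left (Real.rpow_le_rpow (by positivity) h hκ.le) hc.le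
  exact {
    pos := np_pos c κ hc
    one := by
      intro k hk
      rw [← hM] at hk
      exact np_one62 c κ hc hκ v k (by omega) hv3
    b4 := hβ4
    bC := hβC
    C1 := hC1
    r0 := by
      refine lt_min ?_ one_pos
      have h1 : 1 < (1 + 1 / (4 * ((d : ℝ) + 1))) ^ κ := by
        refine Real.one_lt_rpow ?_ hκ
        have : 0 < 1 / (4 * ((d : ℝ) + 1)) := by positivity
        linarith
      linarith
    r1 := min_le_right _ _
    lo := by
      intro k hk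
      rw [← hM] at hk
      rw [np_succ, hβ]
      refine mul_le_mul_of_nonneg_right ?_ (np_pos c κ hc k).le
      refine mul_le_mul_of_nonneg_left (Real.rpow_le_rpow hM0.le ?_ hκ.le) hc.le
      have : (M : ℝ) ≤ k := by exact_mod_cast hk
      linarith
    hi := by
      intro k hk
      rw [← hM] at hk
      rw [np_succ]
      refine mul_le_mul_of_nonneg_right ?_ (np_pos c κ hc k).le
      have h1 : (k : ℝ) + 1 ≤ 2 * M := by exact_mod_cast hk
      calc c * ((k : ℝ) + 1) ^ κ ≤ c * (2 * (M : ℝ)) ^ κ := hup _ k h1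
        _ = (2 : ℝ) ^ κ * β := by
            rw [Real.mul_rpow (by norm_num) hM0.le, hβ]; ring
        _ ≤ β * β := by
            refine mul_le_mul_of_nonneg_right ?_ (by linarith)
            linarith
        _ = β ^ 2 := by ring
    hs := by
      intro k hk
      rw [np_succ]
      refine mul_le_mul_of_nonneg_right ?_ (np_pos c κ hc k).le
      have h1 : (k : ℝ) + 1 ≤ (M : ℝ) ^ 2 := by
        have h2 : k + 1 ≤ v ^ 2 := by omega
        have h3 : (k : ℝ) + 1 ≤ (v : ℝ) ^ 2 := by exact_mod_cast h2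
        linarith
      have h2 : c * ((M : ℝ) ^ 2) ^ κ = 1 / c * β ^ 2 := by
        rw [sq, Real.mul_rpow hM0.le hM0.le, hβ]
        field_simp
      calc c * ((k : ℝ) + 1) ^ κ ≤ c * ((M : ℝ) ^ 2) ^ κ := hup _ k h1
        _ = 1 / c * β ^ 2 := h2
        _ ≤ β * β ^ 2 := mul_le_mul_of_nonneg_right hβc (by positivity)
        _ = β ^ 3 := by ring
    rlo := by
      intro x y hx hxy hy
      rw [← hM] at hx hxy hy
      have hxy0 : x ≤ y := by
        have : (x : ℝ) ≤ y := by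
          have h0 : 0 ≤ (M : ℝ) / (2 * ((d : ℝ) + 1)) := by positivity
          linarith
        exact_mod_cast this
      have hx2 : (x : ℝ) + 1 ≤ 2 * M := by
        have : x + 1 ≤ 2 * M := by omega
        exact_mod_cast this
      have h1 : (1 + 1 / (4 * ((d : ℝ) + 1))) * ((x : ℝ) + 1) ≤ (y : ℝ) + 1 := by
        have h2 : 1 / (4 * ((d : ℝ) + 1)) * ((x : ℝ) + 1) ≤ 1 / (4 * ((d : ℝ) + 1)) * (2 * M) :=
          mul_le_mul_of_nonneg_left hx2 (by positivity)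
        have h3 : 1 / (4 * ((d : ℝ) + 1)) * (2 * (M : ℝ)) = (M : ℝ) / (2 * ((d : ℝ) + 1)) := by
          field_simp
          norm_num
        linarith
      have h4 : (1 + min ((1 + 1 / (4 * ((d : ℝ) + 1))) ^ κ - 1) 1) * ((x : ℝ) + 1) ^ κ ≤
          ((y : ℝ) + 1) ^ κ := by
        calc (1 + min ((1 + 1 / (4 * ((d : ℝ) + 1))) ^ κ - 1) 1) * ((x : ℝ) + 1) ^ κ
            ≤ (1 + 1 / (4 * ((d : ℝ) + 1))) ^ κ * ((x : ℝ) + 1) ^ κ := by
              refine mul_le_mul_of_nonneg_right ?_ (by positivity)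
              have := min_le_left ((1 + 1 / (4 * ((d : ℝ) + 1))) ^ κ - 1) 1
              linarith
          _ = ((1 + 1 / (4 * ((d : ℝ) + 1))) * ((x : ℝ) + 1)) ^ κ := by
              rw [Real.mul_rpow (by positivity) (by positivity)]
          _ ≤ ((y : ℝ) + 1) ^ κ := Real.rpow_le_rpow (by positivity) h1 hκ.le
      rw [np_succ, np_succ]
      have h5 : 0 ≤ c * NP c κ x * NP c κ y := by
        have h6 := np_pos c κ hc x
        have h7 := np_pos c κ hc y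
        positivity
      calc (1 + min ((1 + 1 / (4 * ((d : ℝ) + 1))) ^ κ - 1) 1) *
            (c * ((x : ℝ) + 1) ^ κ * NP c κ x * NP c κ y)
          = ((1 + min ((1 + 1 / (4 * ((d : ℝ) + 1))) ^ κ - 1) 1) * ((x : ℝ) + 1) ^ κ) *
            (c * NP c κ x * NP c κ y) := by ring
        _ ≤ ((y : ℝ) + 1) ^ κ * (c * NP c κ x * NP c κ y) := mul_le_mul_of_nonneg_right h4 h5
        _ = NP c κ x * (c * ((y : ℝ) + 1) ^ κ * NP c κ y) := by ring
    rhi := by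
      intro x y hx hxy hy
      rw [← hM] at hx hy
      have h1 : (y : ℝ) + 1 ≤ 2 * ((x : ℝ) + 1) := by
        have : y + 1 ≤ 2 * (x + 1) := by omega
        exact_mod_cast this
      have h4 : ((y : ℝ) + 1) ^ κ ≤ (2 : ℝ) ^ κ * ((x : ℝ) + 1) ^ κ := by
        rw [← Real.mul_rpow (by norm_num) (by positivity)]
        exact Real.rpow_le_rpow (by positivity) h1 hκ.le
      rw [np_succ, np_succ]
      have h5 : 0 ≤ c * NP c κ x * NP c κ y := by
        have h6 := np_pos c κ hc x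
        have h7 := np_pos c κ hc y
        positivity
      calc NP c κ x * (c * ((y : ℝ) + 1) ^ κ * NP c κ y)
          = ((y : ℝ) + 1) ^ κ * (c * NP c κ x * NP c κ y) := by ring
        _ ≤ ((2 : ℝ) ^ κ * ((x : ℝ) + 1) ^ κ) * (c * NP c κ x * NP c κ y) :=
            mul_le_mul_of_nonneg_right h4 h5
        _ = (2 : ℝ) ^ κ * (c * ((x : ℝ) + 1) ^ κ * NP c κ x * NP c κ y) := by ring
    sup := by
      intro f hf
      rw [← hM] at hf
      have h1 : ∑ l ∈ range d, f l ≤ d * (2 * M) := by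
        have h2 := Finset.sum_le_card_nsmul _ _ _ hf
        rwa [card_range, smul_eq_mul] at h2
      have e1 : d * (2 * M) = 2 * (d * M) := by ring
      have e2 : 64 * d * M = 64 * (d * M) := by ring
      have e3 : 2 * d * M = 2 * (d * M) := by ring
      rw [← hM]
      refine ⟨s - ∑ l ∈ range d, f l, Nat.sub_le _ _, by omega, ?_⟩
      exact np_sup62 c κ hc hκ s d _ f (by omega) }

end Pool.Agent.Helper59.RF
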