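import Pool.Agent.Helper59.RF.AsyS
import Pool.Agent.Helper59.RF.NpG

/-!
# Block RF-ASYP: `c^k (k!)^κ` is regular at all scales

PROOF of `np_gp`.  `C2 = 2^κ`, `ρ = min ((1 + 1/(4(d+1)))^κ - 1) 1 > 0`, `β = c MM^κ`.  `asyS` gives `Rng` and `v = vv δ s d i ≥ s^(1-δ/4) ≥ s^(1/2)`,
so `v^κ → ∞` and the hypotheses of `np_gn` hold for `s` large.  The number `R = ⌈(16 (d+1))^d v s^(-δ/8)⌉₊`: the second condition is
`(16(d+1) v)^d = (16(d+1))^d v v^(d-1) ≤ s^(δ/8) v^(d-1) R`.  The first one: `log β ≤ log c + κ log s ≤ C log s` (`MM ≤ s` by `Rng.big`), so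
`2 (R+1) log β ≤ 2 C ((16(d+1))^d v s^(-δ/8) + 2) log s ≤ 4 (d+1) v log (1+ρ)` for `s` large, because `s^(-δ/8) log s → 0` and
`log s / v ≤ s^(-1/2) log s → 0`.  (Model: `AsyS.lean`.)
-/

namespace Pool.Agent.Helper59.RF

open Finset

theorem np_gp (c κ : ℝ) (hc : 0 < c) (hκ : 0 < κ) : GP (NP c κ) := by
  refine ⟨(2 : ℝ) ^ κ, Real.one_le_rpow (by norm_num) hκ.le, fun δ hδ0 hδ1 d Q hd _ => ?_⟩
  obtain ⟨S₁, hS₁⟩ := asyS δ hδ0 hδ1 d Q hd
  obtain ⟨ρ, hρ⟩ : ∃ ρ : ℝ, ρ = min ((1 + 1 / (4 * ((d : ℝ) + 1))) ^ κ - 1) 1 := ⟨_, rfl⟩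
  have hρ0 : 0 < ρ := by
    rw [hρ]
    refine lt_min ?_ one_pos
    have h1 : (0 : ℝ) < 1 / (4 * ((d : ℝ) + 1)) := by positivity
    have h2 : 1 < (1 + 1 / (4 * ((d : ℝ) + 1))) ^ κ := Real.one_lt_rpow (by linarith) hκ
    linarith
  obtain ⟨lam, hlam⟩ : ∃ lam : ℝ, lam = Real.log (1 + ρ) := ⟨_, rfl⟩
  have hlam0 : 0 < lam := by
    rw [hlam]
    exact Real.log_pos (by linarith)
  obtain ⟨K2, hK2⟩ : ∃ K2 : ℝ, K2 = (16 * ((d : ℝ) + 1)) ^ d := ⟨_, rfl⟩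
  have hK2p : 0 < K2 := by rw [hK2]; positivity
  obtain ⟨C3, hC3⟩ : ∃ C3 : ℝ, C3 = 2 * |Real.log c| + κ := ⟨_, rfl⟩
  have hC3p : 0 < C3 := by rw [hC3]; positivity
  obtain ⟨D, hD⟩ : ∃ D : ℝ, D = (d : ℝ) + 1 := ⟨_, rfl⟩
  have hDp : 0 < D := by rw [hD]; positivity
  have h2κ : (0 : ℝ) < (2 : ℝ) ^ κ := Real.rpow_pos_of_pos (by norm_num) _
  have h3κ : (0 : ℝ) < (3 : ℝ) ^ κ := Real.rpow_pos_of_pos (by norm_num) _
  obtain ⟨K4, hK4⟩ : ∃ K4 : ℝ, K4 = (4 + 2 * (2 : ℝ) ^ κ + (3 : ℝ) ^ κ + 1 / c) / c := ⟨_, rfl⟩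
  have hev : ∀ᶠ s : ℕ in Filter.atTop, 2 ≤ s ∧ K4 ≤ (s : ℝ) ^ (15 / 16 * κ) ∧
      (K2 * C3 / (D * lam)) * Real.log s ≤ (s : ℝ) ^ (δ / 8) ∧
      (2 * C3 / (D * lam)) * Real.log s ≤ (s : ℝ) ^ (15 / 16 : ℝ) := by
    filter_upwards [Filter.eventually_ge_atTop 2, asyS_pow (r := 15 / 16 * κ) (by positivity) K4,
      asyS_log (r := δ / 8) (by linarith) (K2 * C3 / (D * lam)) (by positivity),
      asyS_log (r := 15 / 16) (by norm_num) (2 * C3 / (D * lam)) (by positivity)] with s h1 h2 h3 h4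
    exact ⟨h1, h2, h3, h4⟩
  obtain ⟨S₀, hS₀⟩ := Filter.eventually_atTop.1 hev
  refine ⟨ρ, max S₀ S₁, fun s hs i hi => ?_⟩
  obtain ⟨hs2, e1, e2, e3⟩ := hS₀ s ((le_max_left _ _).trans hs)
  obtain ⟨hR, hlo, -, -⟩ := hS₁ s ((le_max_right _ _).trans hs) i hi
  obtain ⟨v, hv⟩ : ∃ v : ℕ, v = vv δ s d i := ⟨_, rfl⟩
  rw [← hv] at hR hlo ⊢
  have hs1 : (2 : ℝ) ≤ s := by exact_mod_cast hs2
  have hs0 : (0 : ℝ) < s := by linarith
  have h1516 : (s : ℝ) ^ (15 / 16 : ℝ) ≤ v :=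
    (Real.rpow_le_rpow_of_exponent_le (by linarith) (by linarith)).trans hlo
  have hv1 : (100 : ℝ) ≤ v := by exact_mod_cast hR.v1
  have hvp : (0 : ℝ) < v := by linarith
  have hvκ : K4 ≤ (v : ℝ) ^ κ := by
    refine e1.trans ?_
    rw [Real.rpow_mul hs0.le]
    exact Real.rpow_le_rpow (by positivity) h1516 hκ.le
  have hcv : 4 + 2 * (2 : ℝ) ^ κ + (3 : ℝ) ^ κ + 1 / c ≤ c * (v : ℝ) ^ κ := by
    rw [hK4, div_le_iff₀ hc] at hvκ
    linarith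
  have hc1 : 0 < 1 / c := by positivity
  have hMMs : (MM d Q v : ℝ) ≤ s := by
    have h1 : MM d Q v ≤ s := by
      calc MM d Q v = 1 * MM d Q v := (one_mul _).symm
        _ ≤ 64 * d * MM d Q v := Nat.mul_le_mul_right _ (by omega)
        _ ≤ s := hR.big
    exact_mod_cast h1
  have hMM1 : (1 : ℝ) ≤ MM d Q v := by
    have h1 : 0 < MM d Q v := by
      have := hR.v1
      unfold MM Dd
      positivity
    exact_mod_cast h1
  have hMMp : (0 : ℝ) < MM d Q v := by linarith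
  have hβ0 : 0 < c * (MM d Q v : ℝ) ^ κ := mul_pos hc (Real.rpow_pos_of_pos hMMp _)
  have hsd : 0 < (s : ℝ) ^ (δ / 8) := Real.rpow_pos_of_pos hs0 _
  have hUU : (UU d v : ℝ) ^ d = K2 * (v : ℝ) ^ d := by
    rw [hK2, ← mul_pow, UU]
    push_cast
    ring
  refine ⟨c * (MM d Q v : ℝ) ^ κ, ?_, ⌈K2 * v / (s : ℝ) ^ (δ / 8)⌉₊, ?_, ?_⟩
  · rw [hρ]
    refine np_gn c κ hc hκ s d Q v hR hd ?_ ?_ ?_ ?_
    · linarith
    · linarith
    · rw [Real.div_rpow hvp.le (by norm_num), mul_div_assoc', le_div_iff₀ h3κ, one_mul]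
      linarith
    · linarith
  · set R := ⌈K2 * v / (s : ℝ) ^ (δ / 8)⌉₊ with hRR
    have hR1 : (R : ℝ) ≤ K2 * v / (s : ℝ) ^ (δ / 8) + 1 := (Nat.ceil_lt_add_one (by positivity)).le
    have hlogs : 1 / 2 ≤ Real.log s := by
      have h1 : (1 : ℝ) / 2 ≤ Real.log 2 := by
        have := Real.log_two_gt_d9
        linarith
      exact h1.trans (Real.log_le_log (by norm_num) hs1)
    have hlogβ : Real.log (c * (MM d Q v : ℝ) ^ κ) ≤ C3 * Real.log s := by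
      rw [Real.log_mul hc.ne' (Real.rpow_pos_of_pos hMMp _).ne', Real.log_rpow hMMp]
      have h1 : Real.log (MM d Q v : ℝ) ≤ Real.log s := Real.log_le_log hMMp hMMs
      have h2 : κ * Real.log (MM d Q v : ℝ) ≤ κ * Real.log s := mul_le_mul_of_nonneg_left h1 hκ.le
      have h3 : Real.log c ≤ |Real.log c| := le_abs_self _
      have h4 : |Real.log c| ≤ 2 * |Real.log c| * Real.log s := by
        nlinarith [abs_nonneg (Real.log c)]
      rw [hC3]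
      linarith
    have hA : K2 * v / (s : ℝ) ^ (δ / 8) * (2 * (C3 * Real.log s)) ≤ 2 * (D * v * lam) := by
      rw [div_mul_eq_mul_div, div_le_iff₀ hsd]
      rw [div_mul_eq_mul_div, div_le_iff₀ (by positivity)] at e2
      have h1 := mul_le_mul_of_nonneg_left e2 (by positivity : (0 : ℝ) ≤ 2 * v)
      linarith
    have hB : 2 * (2 * (C3 * Real.log s)) ≤ 2 * (D * v * lam) := by
      have h1 := e3.trans h1516
      rw [div_mul_eq_mul_div, div_le_iff₀ (by positivity)] at h1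
      linarith
    have hlr : ((R + 1 : ℕ) : ℝ) * (2 * Real.log (c * (MM d Q v : ℝ) ^ κ)) ≤
        ((4 * (d + 1) * v : ℕ) : ℝ) * Real.log (1 + ρ) := by
      rw [← hlam]
      push_cast
      rw [← hD]
      calc ((R : ℝ) + 1) * (2 * Real.log (c * (MM d Q v : ℝ) ^ κ)) ≤
            ((R : ℝ) + 1) * (2 * (C3 * Real.log s)) :=
            mul_le_mul_of_nonneg_left (by linarith) (by positivity)
        _ ≤ (K2 * v / (s : ℝ) ^ (δ / 8) + 2) * (2 * (C3 * Real.log s)) :=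
            mul_le_mul_of_nonneg_right (by linarith) (by positivity)
        _ ≤ 4 * D * v * lam := by linarith
    rw [← Real.log_le_log_iff (by positivity) (by positivity), Real.log_pow, Real.log_pow, Real.log_pow]
    exact hlr
  · rw [hUU]
    have h1 : K2 * v ≤ (s : ℝ) ^ (δ / 8) * (⌈K2 * v / (s : ℝ) ^ (δ / 8)⌉₊ : ℝ) := by
      have := Nat.le_ceil (K2 * v / (s : ℝ) ^ (δ / 8))
      rw [div_le_iff₀ hsd] at this
      linarith
    calc K2 * (v : ℝ) ^ d = K2 * v * (v : ℝ) ^ (d - 1) := by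
          rw [mul_assoc, ← pow_succ']
          congr 2
          omega
      _ ≤ (s : ℝ) ^ (δ / 8) * (⌈K2 * v / (s : ℝ) ^ (δ / 8)⌉₊ : ℝ) * (v : ℝ) ^ (d - 1) :=
          mul_le_mul_of_nonneg_right h1 (by positivity)
      _ = _ := by ring

end Pool.Agent.Helper59.RF
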