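import Pool.Agent.Helper59.RF.WinDefs

/-!
# Block RF-ASYS: sizes

`L = Ln δ d s = ⌊δ / (8 log (8 d)) log s⌋₊`, so `(8 d)^i ≤ (8 d)^L ≤ s^(δ/8)` for `i ≤ L`, and `a = ⌈s^(1-δ/4)⌉₊ ≤ 2 s^(1-δ/4)`.

PROOF.  `v = vv δ s d i = (8 d)^i a`, `s^(1-δ/4) ≤ a ≤ v ≤ 2 s^(1-δ/8)`, and `δ/4 ≤ 1/16`, so `v ≥ s^(15/16)`.  For `s` large:
* `big`: `64 d MM d Q v = const * v ≤ const * s^(1-δ/8) ≤ s`.
* `pw`: `8 s^3 ≤ s^(15/4) ≤ v^4`.
* `ex`: `31 log s ≤ s^(15/16) log 2`.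
* The number `R = ⌈(16 (d+1))^d v s^(-δ/8)⌉₊`: `(16(d+1) v)^d = (16(d+1))^d v v^(d-1) ≤ s^(δ/8) v^(d-1) R`.  And
  `(R + 1) log (2 MM) ≤ ((16(d+1))^d v s^(-δ/8) + 2) log (2 s) ≤ 4 (d+1) v log (1 + 1/(8(d+1)))`: the right side is `≥ v / 4`
  (`log (1 + x) ≥ x / (1 + x)`), and `(16(d+1))^d s^(-δ/8) log (2 s) ≤ 1/8`, `2 log (2 s) ≤ v / 8` for `s` large (`2 MM ≤ s ≤ 2 s` by `big`).
* the last part: `s^(δ/8) → ∞`.
-/

namespace Pool.Agent.Helper59.RF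

open Finset

theorem asyS_pow {r : ℝ} (hr : 0 < r) (K : ℝ) : ∀ᶠ s : ℕ in Filter.atTop, K ≤ (s : ℝ) ^ r :=
  ((tendsto_rpow_atTop hr).comp tendsto_natCast_atTop_atTop).eventually_ge_atTop K

theorem asyS_log {r : ℝ} (hr : 0 < r) (K : ℝ) (hK : 0 < K) : ∀ᶠ s : ℕ in Filter.atTop, K * Real.log s ≤ (s : ℝ) ^ r := by
  have h1 := (isLittleO_log_rpow_atTop hr).bound (c := 1 / K) (by positivity)
  have h2 := tendsto_natCast_atTop_atTop (R := ℝ) |>.eventually h1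
  filter_upwards [h2, Filter.eventually_ge_atTop 1] with s hs hs1
  have h3 : (1 : ℝ) ≤ s := by exact_mod_cast hs1
  have h4 : 0 ≤ Real.log s := Real.log_nonneg h3
  rw [Real.norm_of_nonneg h4, Real.norm_of_nonneg (by positivity)] at hs
  rw [one_div, inv_mul_eq_div, le_div_iff₀ hK] at hs
  linarith

theorem asyS_i (δ : ℝ) (hδ0 : 0 < δ) (d : ℕ) (hd : 2 ≤ d) (s : ℕ) (hs : 1 ≤ s) (i : ℕ) (hi : i < Ln δ d s) :
    ((8 : ℝ) * d) ^ i ≤ (s : ℝ) ^ (δ / 8) := by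
  have hs1 : (1 : ℝ) ≤ s := by exact_mod_cast hs
  have hs0 : (0 : ℝ) < s := by linarith
  have hd1 : (2 : ℝ) ≤ d := by exact_mod_cast hd
  have hl : 0 < Real.log (8 * d) := Real.log_pos (by linarith)
  have hls : 0 ≤ Real.log s := Real.log_nonneg hs1
  have h1 : (i : ℝ) ≤ δ / (8 * Real.log (8 * d)) * Real.log s := by
    unfold Ln at hi
    calc (i : ℝ) ≤ (⌊δ / (8 * Real.log (8 * d)) * Real.log s⌋₊ : ℝ) := by exact_mod_cast hi.le
      _ ≤ _ := Nat.floor_le (by positivity)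
  have h2 : (i : ℝ) * Real.log (8 * d) ≤ δ / 8 * Real.log s := by
    calc (i : ℝ) * Real.log (8 * d) ≤ δ / (8 * Real.log (8 * d)) * Real.log s * Real.log (8 * d) :=
          mul_le_mul_of_nonneg_right h1 hl.le
      _ = δ / 8 * Real.log s := by field_simp
  have h3 : ((8 : ℝ) * d) ^ i = Real.exp (i * Real.log (8 * d)) := by
    rw [Real.exp_nat_mul, Real.exp_log (by positivity)]
  rw [h3, Real.rpow_def_of_pos hs0]
  apply Real.exp_le_exp.2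
  linarith

theorem asyS (δ : ℝ) (hδ0 : 0 < δ) (hδ1 : δ ≤ 1 / 4) (d Q : ℕ) (hd : 2 ≤ d) :
    ∃ S₀ : ℕ, ∀ s : ℕ, S₀ ≤ s → ∀ i < Ln δ d s, Rng s d Q (vv δ s d i) ∧
      (s : ℝ) ^ (1 - δ / 4) ≤ vv δ s d i ∧
      (∃ R : ℕ, (2 * (MM d Q (vv δ s d i) : ℝ)) ^ (R + 1) ≤
          (1 + 1 / (8 * ((d : ℝ) + 1))) ^ (4 * (d + 1) * vv δ s d i) ∧
        (UU d (vv δ s d i) : ℝ) ^ d ≤ (s : ℝ) ^ (δ / 8) * ((vv δ s d i : ℝ) ^ (d - 1) * R)) ∧
      (UU d (vv δ s d i) : ℝ) ^ d ≤ (s : ℝ) ^ (δ / 8) * (vv δ s d i : ℝ) ^ d := by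
  obtain ⟨K1, hK1⟩ : ∃ K1 : ℕ, K1 = 64 * d * (32 * (d + 1) ^ 2 * Dd d ^ Q) := ⟨_, rfl⟩
  obtain ⟨K2, hK2⟩ : ∃ K2 : ℝ, K2 = (16 * ((d : ℝ) + 1)) ^ d := ⟨_, rfl⟩
  have hK2p : 0 < K2 := by rw [hK2]; positivity
  have hev : ∀ᶠ s : ℕ in Filter.atTop, 2 ≤ s ∧ 2 * (K1 : ℝ) ≤ (s : ℝ) ^ (δ / 8) ∧ 8 ≤ (s : ℝ) ^ (3 / 4 : ℝ) ∧
      128 * Real.log s ≤ (s : ℝ) ^ (15 / 16 : ℝ) ∧ 100 ≤ (s : ℝ) ^ (15 / 16 : ℝ) ∧
      (16 * K2) * Real.log s ≤ (s : ℝ) ^ (δ / 8) ∧ K2 ≤ (s : ℝ) ^ (δ / 8) ∧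
      4 ≤ (s : ℝ) ^ (7 / 16 : ℝ) := by
    filter_upwards [Filter.eventually_ge_atTop 2, asyS_pow (r := δ / 8) (by linarith) (2 * (K1 : ℝ)),
      asyS_pow (r := 3 / 4) (by norm_num) 8, asyS_log (r := 15 / 16) (by norm_num) 128 (by norm_num),
      asyS_pow (r := 15 / 16) (by norm_num) 100, asyS_log (r := δ / 8) (by linarith) (16 * K2) (by positivity),
      asyS_pow (r := δ / 8) (by linarith) K2, asyS_pow (r := 7 / 16) (by norm_num) 4] with s h1 h2 h3 h4 h5 h6 h7 h8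
    exact ⟨h1, h2, h3, h4, h5, h6, h7, h8⟩
  obtain ⟨S₀, hS₀⟩ := Filter.eventually_atTop.1 hev
  refine ⟨S₀, fun s hs i hi => ?_⟩
  obtain ⟨hs2, e1, e2, e3, e4, e5, e6, e7⟩ := hS₀ s hs
  have hs1 : (2 : ℝ) ≤ s := by exact_mod_cast hs2
  have hs0 : (0 : ℝ) < s := by linarith
  have hpi := asyS_i δ hδ0 d hd s (by omega) i hi
  obtain ⟨v, hv⟩ : ∃ v : ℕ, v = vv δ s d i := ⟨_, rfl⟩
  rw [← hv]
  have hd1 : (2 : ℝ) ≤ d := by exact_mod_cast hd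
  have hvr : (v : ℝ) = ((8 : ℝ) * d) ^ i * (⌈(s : ℝ) ^ (1 - δ / 4)⌉₊ : ℝ) := by
    rw [hv, vv]
    push_cast
    ring
  have hone : (1 : ℝ) ≤ (s : ℝ) ^ (1 - δ / 4) := Real.one_le_rpow (by linarith) (by linarith)
  have hlo : (s : ℝ) ^ (1 - δ / 4) ≤ v := by
    rw [hvr]
    calc (s : ℝ) ^ (1 - δ / 4) ≤ (⌈(s : ℝ) ^ (1 - δ / 4)⌉₊ : ℝ) := Nat.le_ceil _
      _ ≤ _ := le_mul_of_one_le_left (by positivity) (one_le_pow₀ (by linarith))
  have hhi : (v : ℝ) ≤ 2 * (s : ℝ) ^ (1 - δ / 8) := by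
    have h1 : (⌈(s : ℝ) ^ (1 - δ / 4)⌉₊ : ℝ) ≤ 2 * (s : ℝ) ^ (1 - δ / 4) := by
      have := Nat.ceil_lt_add_one (a := (s : ℝ) ^ (1 - δ / 4)) (by positivity)
      linarith
    have h2 : (s : ℝ) ^ (1 - δ / 8) = (s : ℝ) ^ (δ / 8) * (s : ℝ) ^ (1 - δ / 4) := by
      rw [← Real.rpow_add hs0]
      congr 1
      ring
    rw [hvr, h2]
    calc ((8 : ℝ) * d) ^ i * (⌈(s : ℝ) ^ (1 - δ / 4)⌉₊ : ℝ) ≤ (s : ℝ) ^ (δ / 8) * (2 * (s : ℝ) ^ (1 - δ / 4)) :=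
          mul_le_mul hpi h1 (by positivity) (by positivity)
      _ = _ := by ring
  have h1516 : (s : ℝ) ^ (15 / 16 : ℝ) ≤ v :=
    (Real.rpow_le_rpow_of_exponent_le (by linarith) (by linarith)).trans hlo
  have hbig : 64 * d * MM d Q v ≤ s := by
    have h1 : (K1 : ℝ) * v ≤ s := by
      calc (K1 : ℝ) * v ≤ K1 * (2 * (s : ℝ) ^ (1 - δ / 8)) := mul_le_mul_of_nonneg_left hhi (Nat.cast_nonneg _)
        _ = 2 * K1 * (s : ℝ) ^ (1 - δ / 8) := by ring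
        _ ≤ (s : ℝ) ^ (δ / 8) * (s : ℝ) ^ (1 - δ / 8) := mul_le_mul_of_nonneg_right e1 (by positivity)
        _ = s := by
            rw [← Real.rpow_add hs0, show δ / 8 + (1 - δ / 8) = (1 : ℝ) by ring, Real.rpow_one]
    have h2 : K1 * v ≤ s := by exact_mod_cast h1
    calc 64 * d * MM d Q v = K1 * v := by rw [hK1, MM]; ring
      _ ≤ s := h2
  have hpw : (2 * s) ^ 3 ≤ v ^ 4 := by
    have h1 : ((2 * s : ℕ) : ℝ) ^ 3 ≤ (v : ℝ) ^ 4 := by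
      calc ((2 * s : ℕ) : ℝ) ^ 3 = 8 * (s : ℝ) ^ 3 := by push_cast; ring
        _ ≤ (s : ℝ) ^ (3 / 4 : ℝ) * (s : ℝ) ^ 3 := mul_le_mul_of_nonneg_right e2 (by positivity)
        _ = ((s : ℝ) ^ (15 / 16 : ℝ)) ^ 4 := by
            rw [← Real.rpow_natCast (s : ℝ) 3, ← Real.rpow_add hs0, ← Real.rpow_natCast _ 4, ← Real.rpow_mul hs0.le]
            norm_num
        _ ≤ _ := pow_le_pow_left₀ (by positivity) h1516 4
    exact_mod_cast h1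
  have hex : s ^ 31 * 2 ^ Nat.sqrt s ≤ 2 ^ v := by
    have h0 : (1 : ℝ) / 2 ≤ Real.log 2 := by
      have := Real.log_two_gt_d9
      linarith
    have hsq : 4 * (Nat.sqrt s : ℝ) ≤ v := by
      have a1 : (Nat.sqrt s : ℝ) ≤ (s : ℝ) ^ (1 / 2 : ℝ) := by
        rw [← Real.sqrt_eq_rpow]
        exact Real.nat_sqrt_le_real_sqrt
      have a2 : (s : ℝ) ^ (15 / 16 : ℝ) = (s : ℝ) ^ (7 / 16 : ℝ) * (s : ℝ) ^ (1 / 2 : ℝ) := by
        rw [← Real.rpow_add hs0]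
        norm_num
      have a3 : 4 * (s : ℝ) ^ (1 / 2 : ℝ) ≤ (s : ℝ) ^ (7 / 16 : ℝ) * (s : ℝ) ^ (1 / 2 : ℝ) :=
        mul_le_mul_of_nonneg_right e7 (by positivity)
      linarith
    have h1 : 31 * Real.log s + Nat.sqrt s * Real.log 2 ≤ v * Real.log 2 := by
      have b1 : 62 * Real.log s ≤ v / 2 := by linarith
      have b2 : (Nat.sqrt s : ℝ) ≤ v / 2 := by
        have : (0 : ℝ) ≤ v := Nat.cast_nonneg _
        linarith
      have b3 : 0 ≤ Real.log s := Real.log_nonneg (show (1 : ℝ) ≤ s by linarith)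
      have b4 : 31 * Real.log s ≤ v / 2 * Real.log 2 := by nlinarith
      have b5 : (Nat.sqrt s : ℝ) * Real.log 2 ≤ v / 2 * Real.log 2 :=
        mul_le_mul_of_nonneg_right b2 (by linarith)
      linarith
    have h2 : ((s : ℝ)) ^ 31 * 2 ^ Nat.sqrt s ≤ (2 : ℝ) ^ v := by
      rw [← Real.log_le_log_iff (by positivity) (by positivity),
        Real.log_mul (by positivity) (by positivity), Real.log_pow, Real.log_pow, Real.log_pow]
      push_cast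
      exact h1
    exact_mod_cast h2
  have hv1 : 100 ≤ v := by
    have : (100 : ℝ) ≤ v := e4.trans h1516
    exact_mod_cast this
  have hvp : (0 : ℝ) < v := by
    have : (100 : ℝ) ≤ v := e4.trans h1516
    linarith
  have hsd : 0 < (s : ℝ) ^ (δ / 8) := Real.rpow_pos_of_pos hs0 _
  have hUU : (UU d v : ℝ) ^ d = K2 * (v : ℝ) ^ d := by
    rw [hK2, ← mul_pow, UU]
    push_cast
    ring
  refine ⟨⟨hbig, hpw, hex, hv1⟩, hlo, ⟨⌈K2 * v / (s : ℝ) ^ (δ / 8)⌉₊, ?_, ?_⟩, ?_⟩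
  · set R := ⌈K2 * v / (s : ℝ) ^ (δ / 8)⌉₊ with hR
    have hR1 : (R : ℝ) ≤ K2 * v / (s : ℝ) ^ (δ / 8) + 1 := (Nat.ceil_lt_add_one (by positivity)).le
    have hMMs : (MM d Q v : ℝ) ≤ s := by
      have h1 : MM d Q v ≤ s := by
        calc MM d Q v = 1 * MM d Q v := (one_mul _).symm
          _ ≤ 64 * d * MM d Q v := Nat.mul_le_mul_right _ (by omega)
          _ ≤ s := hbig
      exact_mod_cast h1
    have hMM1 : (1 : ℝ) ≤ MM d Q v := by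
      have h1 : 0 < MM d Q v := by
        unfold MM Dd
        positivity
      exact_mod_cast h1
    have hlog2 : Real.log (2 * (MM d Q v : ℝ)) ≤ 2 * Real.log s := by
      calc Real.log (2 * (MM d Q v : ℝ)) ≤ Real.log ((s : ℝ) * s) :=
            Real.log_le_log (by positivity) (mul_le_mul hs1 hMMs (by positivity) (by positivity))
        _ = 2 * Real.log s := by rw [Real.log_mul hs0.ne' hs0.ne']; ring
    have hlog0 : 0 ≤ Real.log (2 * (MM d Q v : ℝ)) := Real.log_nonneg (by linarith)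
    have hlogs : 0 ≤ Real.log s := Real.log_nonneg (by linarith)
    have hx : 1 / (16 * ((d : ℝ) + 1)) ≤ Real.log (1 + 1 / (8 * ((d : ℝ) + 1))) := by
      have hp : (0 : ℝ) < 1 + 1 / (8 * ((d : ℝ) + 1)) := by positivity
      have h1 := Real.one_sub_inv_le_log_of_pos hp
      refine le_trans ?_ h1
      have h2 : 1 - (1 + 1 / (8 * ((d : ℝ) + 1)))⁻¹ = 1 / (8 * ((d : ℝ) + 1) + 1) := by
        field_simp
        ring
      rw [h2]
      apply one_div_le_one_div_of_le (by positivity)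
      linarith
    have hright : (v : ℝ) / 4 ≤ ((4 * (d + 1) * v : ℕ) : ℝ) * Real.log (1 + 1 / (8 * ((d : ℝ) + 1))) := by
      calc (v : ℝ) / 4 = (4 * (d + 1) * v) * (1 / (16 * ((d : ℝ) + 1))) := by
            field_simp
            ring
        _ ≤ _ := by
            push_cast
            exact mul_le_mul_of_nonneg_left hx (by positivity)
    have hleft : ((R + 1 : ℕ) : ℝ) * Real.log (2 * (MM d Q v : ℝ)) ≤ v / 4 := by
      push_cast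
      have h1 : K2 * v / (s : ℝ) ^ (δ / 8) * (2 * Real.log s) ≤ v / 8 := by
        rw [div_mul_eq_mul_div, div_le_iff₀ hsd]
        nlinarith
      have h2 : 2 * (2 * Real.log s) ≤ v / 8 := by
        have := e3.trans h1516
        linarith
      calc ((R : ℝ) + 1) * Real.log (2 * (MM d Q v : ℝ)) ≤ (K2 * v / (s : ℝ) ^ (δ / 8) + 2) * (2 * Real.log s) :=
            mul_le_mul (by linarith) hlog2 hlog0 (by positivity)
        _ ≤ v / 4 := by linarith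
    have h3 : (0 : ℝ) < 2 * (MM d Q v : ℝ) := by linarith
    rw [← Real.log_le_log_iff (by positivity) (by positivity), Real.log_pow, Real.log_pow]
    exact hleft.trans hright
  · rw [hUU]
    have h1 : K2 * v ≤ (s : ℝ) ^ (δ / 8) * (⌈K2 * v / (s : ℝ) ^ (δ / 8)⌉₊ : ℝ) := by
      have := Nat.le_ceil (K2 * v / (s : ℝ) ^ (δ / 8))
      rw [div_le_iff₀ hsd] at this
      linarith
    calc K2 * (v : ℝ) ^ d = K2 * v * (v : ℝ) ^ (d - 1) := by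
          rw [mul_assoc, ← pow_succ']
          congr 2
          omega
      _ ≤ (s : ℝ) ^ (δ / 8) * (⌈K2 * v / (s : ℝ) ^ (δ / 8)⌉₊ : ℝ) * (v : ℝ) ^ (d - 1) :=
          mul_le_mul_of_nonneg_right h1 (by positivity)
      _ = _ := by ring
  · rw [hUU]
    exact mul_le_mul_of_nonneg_right e6 (by positivity)

end Pool.Agent.Helper59.RF
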