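import Pool.Agent.Helper59.RF.Win

/-!
# Block RF-ASYW: the final bound is small

PROOF.  `c = δ / (8 log (8 d)) > 0` (`8 d ≥ 16`), `L = ⌊c log s⌋₊`, so `c log s - 1 ≤ L ≤ c log s ≤ s`.  Put `κ = 2 t0² / 4^d ∈ (0, 1)` and choose `Q ≥ 1` with
`(1 - κ)^Q ≤ η / 2` where `η = (exp (-10 / c) / 4)^(2^d)` (`exists_pow_lt_of_lt_one`).  For `s` large
`2 Q (2.02 d Q^d / s^30) ≤ η / 2`, so `gam ≤ η^(1/2^d) = exp (-10/c) / 4` (in particular `≤ 1`), and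
`Q s^(δ/8) (2^(d+1) s^(-2δ/3) + s^(-δ)) → 0`, so it is `≤ exp (-10/c) / 4`.  The sum is `≤ exp (-10/c) / 2 ≤ 1`, its `L`-th power is at most
`(exp (-10/c))^(c log s - 1)`, i.e. `≤ exp (10/c) s^(-10)` (base `≤ 1`, exponent `L ≥ c log s - 1`; `Real.rpow`), and
`(2d+7) (L Q)² / s^30 ≤ (2d+7) Q² s^(-28)`.  For `s` large the total is `≤ s^(-6)`.
-/

namespace Pool.Agent.Helper59.RF

open Finset Filter Topology

theorem asyW (δ t0 : ℝ) (hδ0 : 0 < δ) (hδ1 : δ ≤ 1 / 4) (ht0 : 0 < t0) (ht1 : t0 ≤ 6 / 25)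
    (d : ℕ) (hd : 2 ≤ d) : ∃ Q : ℕ, 1 ≤ Q ∧ ∃ S₀ : ℕ, ∀ s : ℕ, S₀ ≤ s → gam t0 s d Q ≤ 1 ∧
      (gam t0 s d Q + Q * ((s : ℝ) ^ (δ / 8) *
        (2 ^ (d + 1) * (s : ℝ) ^ (-(2 / 3 * δ)) + (s : ℝ) ^ (-δ)))) ^ Ln δ d s +
        (2 * d + 7) * (Ln δ d s * Q) ^ 2 * (1 / (s : ℝ) ^ 30) ≤ 1 / (s : ℝ) ^ 6 := by
  classical
  have hd2 : (2 : ℝ) ≤ d := by exact_mod_cast hd
  have hlog : 1 ≤ Real.log (8 * (d : ℝ)) := by
    have h1 : Real.exp 1 ≤ 8 * (d : ℝ) := by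
      have := Real.exp_one_lt_d9
      linarith
    have := Real.log_le_log (Real.exp_pos 1) h1
    rwa [Real.log_exp] at this
  obtain ⟨c, hc⟩ : ∃ c : ℝ, c = δ / (8 * Real.log (8 * (d : ℝ))) := ⟨_, rfl⟩
  have hc0 : 0 < c := by rw [hc]; positivity
  have hc1 : c ≤ 1 := by
    rw [hc, div_le_one (by positivity)]
    linarith
  obtain ⟨b, hb⟩ : ∃ b : ℝ, b = Real.exp (-(10 / c)) := ⟨_, rfl⟩
  have hb0 : 0 < b := by rw [hb]; exact Real.exp_pos _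
  have hb1 : b ≤ 1 := by
    rw [hb, Real.exp_le_one_iff]
    have : 0 < 10 / c := by positivity
    linarith
  obtain ⟨E, hE⟩ : ∃ E : ℝ, E = b / 4 := ⟨_, rfl⟩
  have hE0 : 0 < E := by rw [hE]; positivity
  obtain ⟨η, hη⟩ : ∃ η : ℝ, η = E ^ (2 ^ d) := ⟨_, rfl⟩
  have hη0 : 0 < η := by rw [hη]; positivity
  obtain ⟨κ, hκ⟩ : ∃ κ : ℝ, κ = 2 * t0 ^ 2 / 4 ^ d := ⟨_, rfl⟩
  have hκ0 : 0 < κ := by rw [hκ]; positivity
  have hκ1 : κ < 1 := by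
    rw [hκ, div_lt_one (by positivity)]
    have h1 : (1 : ℝ) ≤ 4 ^ d := one_le_pow₀ (by norm_num)
    nlinarith
  obtain ⟨n, hn⟩ := exists_pow_lt_of_lt_one (show 0 < η / 2 by positivity) (show 1 - κ < 1 by linarith)
  refine ⟨n + 1, by omega, ?_⟩
  obtain ⟨Q, hQ⟩ : ∃ Q : ℕ, Q = n + 1 := ⟨_, rfl⟩
  rw [← hQ]
  have hQp : (1 - κ) ^ Q ≤ η / 2 := by
    rw [hQ, pow_succ]
    have h1 : 0 ≤ (1 - κ) ^ n := pow_nonneg (by linarith) _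
    calc (1 - κ) ^ n * (1 - κ) ≤ (1 - κ) ^ n * 1 := by
          apply mul_le_mul_of_nonneg_left _ h1
          linarith
      _ ≤ η / 2 := by rw [mul_one]; exact hn.le
  -- eventually statements
  have hcast : Tendsto (fun s : ℕ => (s : ℝ)) atTop atTop := tendsto_natCast_atTop_atTop
  have t1 : Tendsto (fun s : ℕ => 2 * (Q : ℝ) * (2.02 * d * (Q : ℝ) ^ d * (1 / (s : ℝ) ^ 30)))
      atTop (𝓝 0) := by
    have h1 : Tendsto (fun s : ℕ => (1 : ℝ) / (s : ℝ) ^ 30) atTop (𝓝 0) := by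
      have := (tendsto_pow_atTop (α := ℝ) (n := 30) (by norm_num)).comp hcast
      refine this.inv_tendsto_atTop.congr fun s => ?_
      simp [one_div]
    have h2 := (h1.const_mul (2.02 * d * (Q : ℝ) ^ d)).const_mul (2 * (Q : ℝ))
    simpa using h2
  have t2 : Tendsto (fun s : ℕ => (Q : ℝ) * ((s : ℝ) ^ (δ / 8) *
        (2 ^ (d + 1) * (s : ℝ) ^ (-(2 / 3 * δ)) + (s : ℝ) ^ (-δ)))) atTop (𝓝 0) := by
    have h1 : Tendsto (fun s : ℕ => (s : ℝ) ^ (-(13 / 24 * δ))) atTop (𝓝 0) :=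
      (tendsto_rpow_neg_atTop (show 0 < 13 / 24 * δ by positivity)).comp hcast
    have h2 : Tendsto (fun s : ℕ => (s : ℝ) ^ (-(7 / 8 * δ))) atTop (𝓝 0) :=
      (tendsto_rpow_neg_atTop (show 0 < 7 / 8 * δ by positivity)).comp hcast
    have h3 := ((h1.const_mul ((2 : ℝ) ^ (d + 1))).add h2).const_mul (Q : ℝ)
    have h4 : Tendsto (fun s : ℕ => (Q : ℝ) * (2 ^ (d + 1) * (s : ℝ) ^ (-(13 / 24 * δ)) +
        (s : ℝ) ^ (-(7 / 8 * δ)))) atTop (𝓝 0) := by simpa using h3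
    refine h4.congr' ?_
    filter_upwards [eventually_ge_atTop 1] with s hs
    have hs0 : (0 : ℝ) < s := by exact_mod_cast hs
    rw [mul_add ((s : ℝ) ^ (δ / 8)), mul_left_comm ((s : ℝ) ^ (δ / 8)), ← Real.rpow_add hs0,
      ← Real.rpow_add hs0]
    congr 4
    · ring
    · ring
  have e1 := t1.eventually_le_const (show (0 : ℝ) < η / 2 by positivity)
  have e2 := t2.eventually_le_const hE0
  have e3 := hcast.eventually_ge_atTop (2 * Real.exp (10 / c))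
  have e4 := hcast.eventually_ge_atTop (2 * ((2 * (d : ℝ) + 7) * (Q : ℝ) ^ 2))
  obtain ⟨S₀, hS₀⟩ := eventually_atTop.1 ((e1.and e2).and ((e3.and e4).and (eventually_ge_atTop 1)))
  refine ⟨S₀, fun s hs => ?_⟩
  obtain ⟨⟨h1, h2⟩, ⟨h3, h4⟩, h5⟩ := hS₀ s hs
  have hs1 : (1 : ℝ) ≤ s := by exact_mod_cast h5
  have hs0 : (0 : ℝ) < s := by linarith
  have hgam : gam t0 s d Q ≤ E := by
    unfold gam
    have hx : (1 - 2 * t0 ^ 2 / 4 ^ d) ^ Q + 2 * Q * (2.02 * d * Q ^ d * (1 / (s : ℝ) ^ 30)) ≤ η := by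
      rw [← hκ]; linarith
    have hx0 : 0 ≤ (1 - 2 * t0 ^ 2 / 4 ^ d) ^ Q +
        2 * Q * (2.02 * d * Q ^ d * (1 / (s : ℝ) ^ 30)) := by
      rw [← hκ]
      have : 0 ≤ (1 - κ) ^ Q := pow_nonneg (by linarith) _
      positivity
    have h6 := Real.rpow_le_rpow hx0 hx (show (0 : ℝ) ≤ 1 / 2 ^ d by positivity)
    have h7 : η ^ ((1 : ℝ) / 2 ^ d) = E := by
      rw [hη, one_div]
      have := Real.pow_rpow_inv_natCast hE0.le (show (2 ^ d : ℕ) ≠ 0 by positivity)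
      push_cast at this
      exact this
    linarith
  have hgam0 : 0 ≤ gam t0 s d Q := by
    unfold gam
    apply Real.rpow_nonneg
    rw [← hκ]
    have : 0 ≤ (1 - κ) ^ Q := pow_nonneg (by linarith) _
    positivity
  refine ⟨by linarith, ?_⟩
  obtain ⟨B, hB⟩ : ∃ B : ℝ, B = gam t0 s d Q + Q * ((s : ℝ) ^ (δ / 8) *
        (2 ^ (d + 1) * (s : ℝ) ^ (-(2 / 3 * δ)) + (s : ℝ) ^ (-δ))) := ⟨_, rfl⟩
  rw [← hB]
  have hB0 : 0 ≤ B := by rw [hB]; positivity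
  have hBb : B ≤ b := by rw [hB]; linarith
  obtain ⟨L, hL⟩ : ∃ L : ℕ, L = Ln δ d s := ⟨_, rfl⟩
  rw [← hL]
  have hlogs : 0 ≤ Real.log s := Real.log_nonneg hs1
  have hLdef : L = ⌊c * Real.log s⌋₊ := by rw [hL, hc, Ln]
  have hL1 : c * Real.log s - 1 ≤ L := by
    have := Nat.lt_floor_add_one (c * Real.log s)
    rw [← hLdef] at this
    linarith
  have hL2 : (L : ℝ) ≤ s := by
    have h6 := Nat.floor_le (show 0 ≤ c * Real.log s by positivity)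
    rw [← hLdef] at h6
    have h7 : c * Real.log s ≤ 1 * Real.log s := mul_le_mul_of_nonneg_right hc1 hlogs
    have h8 := Real.log_le_self hs0.le
    linarith
  have hA : B ^ L ≤ Real.exp (10 / c) * (1 / (s : ℝ) ^ 10) := by
    calc B ^ L ≤ b ^ L := pow_le_pow_left₀ hB0 hBb L
      _ = Real.exp (-(10 / c) * L) := by
          rw [hb, ← Real.exp_nat_mul]; ring_nf
      _ ≤ Real.exp (10 / c + -(10 * Real.log s)) := by
          apply Real.exp_le_exp.2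
          have h6 : (10 / c) * (c * Real.log s - 1) ≤ (10 / c) * L :=
            mul_le_mul_of_nonneg_left hL1 (by positivity)
          have h7 : (10 / c) * (c * Real.log s - 1) = 10 * Real.log s - 10 / c := by
            field_simp
          linarith
      _ = Real.exp (10 / c) * (1 / (s : ℝ) ^ 10) := by
          rw [Real.exp_add, Real.exp_neg]
          have : Real.exp (10 * Real.log s) = (s : ℝ) ^ 10 := by
            rw [show (10 : ℝ) * Real.log s = ((10 : ℕ) : ℝ) * Real.log s by norm_num,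
              Real.exp_nat_mul, Real.exp_log hs0]
          rw [this, one_div]
  have hC : (2 * (d : ℝ) + 7) * (L * Q) ^ 2 * (1 / (s : ℝ) ^ 30) ≤
      (2 * (d : ℝ) + 7) * (Q : ℝ) ^ 2 * (1 / (s : ℝ) ^ 28) := by
    have h6 : (L : ℝ) ^ 2 ≤ (s : ℝ) ^ 2 := pow_le_pow_left₀ (by positivity) hL2 2
    calc (2 * (d : ℝ) + 7) * (L * Q) ^ 2 * (1 / (s : ℝ) ^ 30)
        = ((2 * (d : ℝ) + 7) * (Q : ℝ) ^ 2 * (1 / (s : ℝ) ^ 30)) * (L : ℝ) ^ 2 := by ring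
      _ ≤ ((2 * (d : ℝ) + 7) * (Q : ℝ) ^ 2 * (1 / (s : ℝ) ^ 30)) * (s : ℝ) ^ 2 :=
          mul_le_mul_of_nonneg_left h6 (by positivity)
      _ = (2 * (d : ℝ) + 7) * (Q : ℝ) ^ 2 * (1 / (s : ℝ) ^ 28) := by
          field_simp
  have hs3 : (1 : ℝ) ≤ (s : ℝ) ^ 3 := one_le_pow₀ hs1
  have hA2 : Real.exp (10 / c) * (1 / (s : ℝ) ^ 10) ≤ 1 / 2 * (1 / (s : ℝ) ^ 6) := by
    rw [mul_one_div, mul_one_div, div_le_div_iff₀ (by positivity) (by positivity)]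
    have h6 : 2 * Real.exp (10 / c) ≤ (s : ℝ) ^ 4 := by
      calc 2 * Real.exp (10 / c) ≤ (s : ℝ) * 1 := by linarith
        _ ≤ (s : ℝ) * (s : ℝ) ^ 3 := mul_le_mul_of_nonneg_left hs3 hs0.le
        _ = (s : ℝ) ^ 4 := by ring
    calc Real.exp (10 / c) * (s : ℝ) ^ 6 = 1 / 2 * ((2 * Real.exp (10 / c)) * (s : ℝ) ^ 6) := by ring
      _ ≤ 1 / 2 * ((s : ℝ) ^ 4 * (s : ℝ) ^ 6) := by gcongr
      _ = 1 / 2 * (s : ℝ) ^ 10 := by ring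
  have hC2 : (2 * (d : ℝ) + 7) * (Q : ℝ) ^ 2 * (1 / (s : ℝ) ^ 28) ≤ 1 / 2 * (1 / (s : ℝ) ^ 6) := by
    rw [mul_one_div, mul_one_div, div_le_div_iff₀ (by positivity) (by positivity)]
    have h6 : 2 * ((2 * (d : ℝ) + 7) * (Q : ℝ) ^ 2) ≤ (s : ℝ) ^ 22 := by
      calc 2 * ((2 * (d : ℝ) + 7) * (Q : ℝ) ^ 2) ≤ (s : ℝ) * 1 := by linarith
        _ ≤ (s : ℝ) * (s : ℝ) ^ 21 := mul_le_mul_of_nonneg_left (one_le_pow₀ hs1) hs0.le
        _ = (s : ℝ) ^ 22 := by ring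
    calc (2 * (d : ℝ) + 7) * (Q : ℝ) ^ 2 * (s : ℝ) ^ 6
        = 1 / 2 * ((2 * ((2 * (d : ℝ) + 7) * (Q : ℝ) ^ 2)) * (s : ℝ) ^ 6) := by ring
      _ ≤ 1 / 2 * ((s : ℝ) ^ 22 * (s : ℝ) ^ 6) := by gcongr
      _ = 1 / 2 * (s : ℝ) ^ 28 := by ring
  calc B ^ L + (2 * (d : ℝ) + 7) * (L * Q) ^ 2 * (1 / (s : ℝ) ^ 30)
      ≤ 1 / 2 * (1 / (s : ℝ) ^ 6) + 1 / 2 * (1 / (s : ℝ) ^ 6) := by linarith
    _ = 1 / (s : ℝ) ^ 6 := by ring

end Pool.Agent.Helper59.RF
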