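import Pool.Agent.Helper59.RF.DDa
import Pool.Agent.Helper59.RF.Ex

/-!
# Block RF-BOX: the Cauchy-Schwarz inequality for `d` groups of variables

PROOF, induction on `d ≥ 1` (`Nat.le_induction`) for all `g`, `x`, `Y`.
Start `d = 1`: `‖ex_v e (g (x + Y v))‖² = re ex_v ex_v' e (g (x + Y v) - g (x + Y v'))` (`RE.e_sub`, `z * conj z = ‖z‖²`,
`ex_re`, `ex_mul_complex`; the functions `Fin 1 → Λ` through `ex_cons` and `ex_zero`).
Step `d → d + 1`: write `v = (a, v_t)` (`ex_cons`, `ex_comm`).  By `ex_norm` and `ex_pow` (exponent 2) for the average over `v_t`: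
`‖ex_(v_t) ex_a e (g (x + Y 0 a + ∑ Y_t))‖² ≤ ex_(v_t) ‖ex_a ..‖² = re ex_a ex_a' ex_(v_t) e (g1 (x + ∑ Y_t))` with
`g1 z = g (z + Y 0 a) - g (z + Y 0 a')`.  Hence, with `ex_pow` for the exponent `2^d` (twice: for `a` and for `a'`),
`(‖..‖²)^(2^d) ≤ (ex_a ex_a' ‖ex_(v_t) e (g1 ..)‖)^(2^d) ≤ ex_a ex_a' ‖ex_(v_t) e (g1 ..)‖^(2^d)`; apply the induction
hypothesis to `g1` and use `DD (d+1) y y' g x = DD d y_t y'_t g1 x` (`DD_sub`, `DD_shift`).
-/

namespace Pool.Agent.Helper59.RF

open Finset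
open Pool.Agent.Helper59.RE (e)

private theorem box_conj_ex {A : Type*} [Fintype A] (F : A → ℂ) :
    (starRingEnd ℂ) (ex F) = ex (fun a => (starRingEnd ℂ) (F a)) := by
  unfold ex
  rw [Complex.real_smul, Complex.real_smul, map_mul, Complex.conj_ofReal, map_sum]

private theorem box_normsq {A : Type*} [Fintype A] (F : A → ℝ) :
    ‖ex (fun a => e (F a))‖ ^ 2 = ex (fun a => ex (fun a' => (e (F a - F a')).re)) := by
  have h1 : ex (fun a => e (F a)) * (starRingEnd ℂ) (ex (fun a => e (F a))) =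
      ex (fun a => ex (fun a' => e (F a - F a'))) := by
    rw [box_conj_ex, mul_comm, ← ex_mul_complex]
    refine ex_congr fun a => ?_
    rw [mul_comm, ← ex_mul_complex]
    refine ex_congr fun a' => ?_
    rw [Pool.Agent.Helper59.RE.e_sub]
  have h2 : (‖ex (fun a => e (F a))‖ ^ 2 : ℝ) =
      (ex (fun a => e (F a)) * (starRingEnd ℂ) (ex (fun a => e (F a)))).re := by
    rw [Complex.mul_conj, Complex.ofReal_re, Complex.normSq_eq_norm_sq]
  rw [h2, h1, ex_re]
  refine ex_congr fun a => ?_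
  rw [ex_re]

theorem box (d : ℕ) (hd : 1 ≤ d) {Λ : Type*} [Fintype Λ] [Nonempty Λ] (Y : Fin d → Λ → ℝ)
    (g : ℝ → ℝ) (x : ℝ) :
    ‖ex (fun v : Fin d → Λ => e (g (x + ∑ l, Y l (v l))))‖ ^ (2 ^ d) ≤
      (ex (fun v : Fin d → Λ => ex (fun v' : Fin d → Λ =>
        e (DD d (fun l => Y l (v l)) (fun l => Y l (v' l)) g x)))).re := by
  induction d, hd using Nat.le_induction generalizing g x with
  | base =>
    have h1 : ‖ex (fun v : Fin 1 → Λ => e (g (x + ∑ l, Y l (v l))))‖ ^ (2 ^ 1) =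
        ‖ex (fun a : Λ => e (g (x + Y 0 a)))‖ ^ 2 := by
      rw [ex_cons]
      simp only [ex_zero, Fin.sum_univ_one, Fin.cons_zero, pow_one]
    rw [h1, box_normsq (fun a : Λ => g (x + Y 0 a)), ex_re, ex_cons]
    refine le_of_eq (ex_congr fun a => ?_)
    rw [ex_zero, ex_re, ex_cons]
    refine ex_congr fun a' => ?_
    rw [ex_zero]
    rfl
  | succ d hd ih =>
    set g1 : Λ → Λ → ℝ → ℝ := fun a a' z => g (z + Y 0 a) - g (z + Y 0 a') with hg1
    have h1 : ‖ex (fun v : Fin (d + 1) → Λ => e (g (x + ∑ l, Y l (v l))))‖ ^ 2 ≤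
        ex (fun a => ex (fun a' => ‖ex (fun v : Fin d → Λ =>
          e (g1 a a' (x + ∑ l, Y l.succ (v l))))‖)) := by
      have e1 : ex (fun v : Fin (d + 1) → Λ => e (g (x + ∑ l, Y l (v l)))) =
          ex (fun v : Fin d → Λ => ex (fun a : Λ =>
            e (g (x + ∑ l, Y l.succ (v l) + Y 0 a)))) := by
        rw [ex_cons, ex_comm]
        refine ex_congr fun v => ex_congr fun a => ?_
        rw [Fin.sum_univ_succ]
        simp only [Fin.cons_zero, Fin.cons_succ]
        congr 2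
        ring
      rw [e1]
      calc ‖ex (fun v : Fin d → Λ => ex (fun a : Λ =>
            e (g (x + ∑ l, Y l.succ (v l) + Y 0 a))))‖ ^ 2
          ≤ (ex (fun v : Fin d → Λ => ‖ex (fun a : Λ =>
            e (g (x + ∑ l, Y l.succ (v l) + Y 0 a)))‖)) ^ 2 :=
            pow_le_pow_left₀ (norm_nonneg _) (ex_norm _) 2
        _ ≤ ex (fun v : Fin d → Λ => ‖ex (fun a : Λ =>
            e (g (x + ∑ l, Y l.succ (v l) + Y 0 a)))‖ ^ 2) :=
            ex_pow _ (fun _ => norm_nonneg _) 2
        _ = ex (fun v : Fin d → Λ => ex (fun a => ex (fun a' =>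
              (e (g1 a a' (x + ∑ l, Y l.succ (v l)))).re))) := by
            refine ex_congr fun v => ?_
            exact box_normsq (fun a : Λ => g (x + ∑ l, Y l.succ (v l) + Y 0 a))
        _ = ex (fun a => ex (fun a' => ex (fun v : Fin d → Λ =>
              (e (g1 a a' (x + ∑ l, Y l.succ (v l)))).re))) := by
            rw [ex_comm]
            refine ex_congr fun a => ?_
            rw [ex_comm]
        _ ≤ ex (fun a => ex (fun a' => ‖ex (fun v : Fin d → Λ =>
              e (g1 a a' (x + ∑ l, Y l.succ (v l))))‖)) := by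
            refine ex_mono fun a => ex_mono fun a' => ?_
            rw [← ex_re]
            exact Complex.re_le_norm _
    have h2 : ‖ex (fun v : Fin (d + 1) → Λ => e (g (x + ∑ l, Y l (v l))))‖ ^ (2 ^ (d + 1)) ≤
        ex (fun a => ex (fun a' => ‖ex (fun v : Fin d → Λ =>
          e (g1 a a' (x + ∑ l, Y l.succ (v l))))‖ ^ (2 ^ d))) := by
      calc ‖ex (fun v : Fin (d + 1) → Λ => e (g (x + ∑ l, Y l (v l))))‖ ^ (2 ^ (d + 1))
          = (‖ex (fun v : Fin (d + 1) → Λ => e (g (x + ∑ l, Y l (v l))))‖ ^ 2) ^ (2 ^ d) := by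
            rw [← pow_mul]
            congr 1
            ring
        _ ≤ (ex (fun a => ex (fun a' => ‖ex (fun v : Fin d → Λ =>
          e (g1 a a' (x + ∑ l, Y l.succ (v l))))‖))) ^ (2 ^ d) :=
            pow_le_pow_left₀ (by positivity) h1 _
        _ ≤ ex (fun a => (ex (fun a' => ‖ex (fun v : Fin d → Λ =>
          e (g1 a a' (x + ∑ l, Y l.succ (v l))))‖)) ^ (2 ^ d)) :=
            ex_pow _ (fun a => ex_nonneg fun a' => norm_nonneg _) _
        _ ≤ _ := ex_mono fun a => ex_pow _ (fun a' => norm_nonneg _) _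
    refine h2.trans ?_
    have h3 : (ex (fun v : Fin (d + 1) → Λ => ex (fun v' : Fin (d + 1) → Λ =>
        e (DD (d + 1) (fun l => Y l (v l)) (fun l => Y l (v' l)) g x)))).re =
        ex (fun a => ex (fun a' => (ex (fun v : Fin d → Λ => ex (fun v' : Fin d → Λ =>
          e (DD d (fun l => Y l.succ (v l)) (fun l => Y l.succ (v' l)) (g1 a a') x)))).re)) := by
      rw [ex_cons, ex_re]
      refine ex_congr fun a => ?_
      rw [← ex_re]
      congr 1
      refine Eq.trans ?_ (ex_comm (A := Fin d → Λ) (B := Λ) (fun v a' =>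
        ex (fun v' : Fin d → Λ =>
          e (DD d (fun l => Y l.succ (v l)) (fun l => Y l.succ (v' l)) (g1 a a') x))))
      refine ex_congr fun v => ?_
      rw [ex_cons]
      refine ex_congr fun a' => ex_congr fun v' => ?_
      congr 1
      show DD d _ _ g _ - DD d _ _ g _ = DD d _ _ (fun z => g (z + Y 0 a) - g (z + Y 0 a')) x
      rw [DD_sub d _ _ (fun z => g (z + Y 0 a)) (fun z => g (z + Y 0 a')) x, DD_shift, DD_shift]
      simp only [Fin.cons_zero, Fin.cons_succ]
    rw [h3]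
    refine ex_mono fun a => ex_mono fun a' => ?_
    exact ih (fun l => Y l.succ) (g1 a a') x

end Pool.Agent.Helper59.RF
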