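import Pool.Agent.Helper59.RF.Defs

/-!
# Block RF-CALCA: derivatives of `P(x) x^m`

PROOF.  Both sides are linear in `P`, so it is enough to treat `P = a X^k`.  There
`x^i (a X^(k+m))^(i) = a (k+m)(k+m-1)...(k+m-i+1) x^(k+m)`, and the falling factorial differs from `m^i` by
`O((m+1)^(i-1))` (induction on `i`).
-/

namespace Pool.Agent.Helper59.RF

open Finset Polynomial

theorem calcA_desc (k i : ℕ) : ∃ C : ℝ, 0 ≤ C ∧ ∀ m : ℕ,
    ((m : ℝ) + 1) * |((k + m).descFactorial i : ℝ) - (m : ℝ) ^ i| ≤ C * ((m : ℝ) + 1) ^ i := by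
  induction i with
  | zero => exact ⟨0, le_refl _, fun m => by simp⟩
  | succ i ih =>
    obtain ⟨C, hC, h⟩ := ih
    refine ⟨((k : ℝ) + i + 1) * C + ((k : ℝ) + i), by positivity, fun m => ?_⟩
    have hcast : (((k + m).descFactorial (i + 1) : ℕ) : ℝ) =
        ((k : ℝ) + m - i) * ((k + m).descFactorial i : ℝ) := by
      rw [Nat.descFactorial_succ]
      rcases Nat.lt_or_ge (k + m) i with hlt | hge
      · rw [Nat.descFactorial_eq_zero_iff_lt.2 hlt]
        simp
      · rw [Nat.cast_mul, Nat.cast_sub hge]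
        push_cast
        ring
    have hid : (((k + m).descFactorial (i + 1) : ℕ) : ℝ) - (m : ℝ) ^ (i + 1) =
        ((k : ℝ) + m - i) * (((k + m).descFactorial i : ℝ) - (m : ℝ) ^ i) + ((k : ℝ) - i) * (m : ℝ) ^ i := by
      rw [hcast]
      ring
    have hm : (0 : ℝ) ≤ m := Nat.cast_nonneg m
    have hk : (0 : ℝ) ≤ k := Nat.cast_nonneg k
    have hi : (0 : ℝ) ≤ i := Nat.cast_nonneg i
    have h1 : |(k : ℝ) + m - i| ≤ ((k : ℝ) + i + 1) * ((m : ℝ) + 1) := by
      rw [abs_le]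
      constructor <;> nlinarith [mul_nonneg hk hm, mul_nonneg hi hm]
    have h2 : |(k : ℝ) - i| ≤ (k : ℝ) + i := by
      rw [abs_le]
      constructor <;> linarith
    have h3 : (m : ℝ) ^ i ≤ ((m : ℝ) + 1) ^ i := pow_le_pow_left₀ hm (by linarith) i
    rw [hid]
    have hm1 : (0 : ℝ) < (m : ℝ) + 1 := by linarith
    calc ((m : ℝ) + 1) * |((k : ℝ) + m - i) * (((k + m).descFactorial i : ℝ) - (m : ℝ) ^ i) +
          ((k : ℝ) - i) * (m : ℝ) ^ i|
        ≤ ((m : ℝ) + 1) * (|(k : ℝ) + m - i| * |((k + m).descFactorial i : ℝ) - (m : ℝ) ^ i| +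
          |(k : ℝ) - i| * (m : ℝ) ^ i) := by
          refine mul_le_mul_of_nonneg_left ?_ hm1.le
          refine (abs_add_le _ _).trans ?_
          rw [abs_mul, abs_mul, abs_of_nonneg (pow_nonneg hm i)]
      _ = |(k : ℝ) + m - i| * (((m : ℝ) + 1) * |((k + m).descFactorial i : ℝ) - (m : ℝ) ^ i|) +
          |(k : ℝ) - i| * (((m : ℝ) + 1) * (m : ℝ) ^ i) := by ring
      _ ≤ (((k : ℝ) + i + 1) * ((m : ℝ) + 1)) * (C * ((m : ℝ) + 1) ^ i) +
          ((k : ℝ) + i) * (((m : ℝ) + 1) * ((m : ℝ) + 1) ^ i) := by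
          refine add_le_add ?_ ?_
          · exact mul_le_mul h1 (h m) (by positivity) (by positivity)
          · exact mul_le_mul h2 (mul_le_mul_of_nonneg_left h3 hm1.le) (by positivity) (by positivity)
      _ = (((k : ℝ) + i + 1) * C + ((k : ℝ) + i)) * ((m : ℝ) + 1) ^ (i + 1) := by ring

theorem calcA (b' w : ℝ) (hb : 1 < b') (hw : 0 < w) (i : ℕ) (P : ℝ[X]) :
    ∃ C : ℝ, 0 ≤ C ∧ ∀ m : ℕ, ∀ x ∈ Set.Icc b' (b' + w),
      ((m : ℝ) + 1) * |x ^ i * (derivative^[i] (P * X ^ m)).eval x - P.eval x * (m : ℝ) ^ i * x ^ m| ≤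
        C * ((m : ℝ) + 1) ^ i * x ^ m := by
  induction P using Polynomial.induction_on' with
  | add p q hp hq =>
    obtain ⟨C1, hC1, h1⟩ := hp
    obtain ⟨C2, hC2, h2⟩ := hq
    refine ⟨C1 + C2, by positivity, fun m x hx => ?_⟩
    have hm1 : (0 : ℝ) ≤ (m : ℝ) + 1 := by positivity
    have hid : x ^ i * (derivative^[i] ((p + q) * X ^ m)).eval x - (p + q).eval x * (m : ℝ) ^ i * x ^ m =
        (x ^ i * (derivative^[i] (p * X ^ m)).eval x - p.eval x * (m : ℝ) ^ i * x ^ m) +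
        (x ^ i * (derivative^[i] (q * X ^ m)).eval x - q.eval x * (m : ℝ) ^ i * x ^ m) := by
      rw [add_mul, iterate_map_add, eval_add, eval_add]
      ring
    rw [hid]
    calc _ ≤ ((m : ℝ) + 1) * (|x ^ i * (derivative^[i] (p * X ^ m)).eval x - p.eval x * (m : ℝ) ^ i * x ^ m| +
          |x ^ i * (derivative^[i] (q * X ^ m)).eval x - q.eval x * (m : ℝ) ^ i * x ^ m|) :=
          mul_le_mul_of_nonneg_left (abs_add_le _ _) hm1
      _ ≤ C1 * ((m : ℝ) + 1) ^ i * x ^ m + C2 * ((m : ℝ) + 1) ^ i * x ^ m := by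
          rw [mul_add]
          exact add_le_add (h1 m x hx) (h2 m x hx)
      _ = _ := by ring
  | monomial k a =>
    obtain ⟨C, hC, h⟩ := calcA_desc k i
    have hbw : 0 < b' + w := by linarith
    refine ⟨|a| * (b' + w) ^ k * C, by positivity, fun m x hx => ?_⟩
    have hx0 : 0 < x := by linarith [hx.1]
    have hev : x ^ i * (derivative^[i] (monomial k a * X ^ m)).eval x =
        a * ((k + m).descFactorial i : ℝ) * x ^ (k + m) := by
      have h1 : (monomial k a * X ^ m : ℝ[X]) = Polynomial.C a * X ^ (k + m) := by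
        rw [← C_mul_X_pow_eq_monomial, mul_assoc, ← pow_add]
      rw [h1, Polynomial.iterate_derivative_C_mul, Polynomial.iterate_derivative_X_pow_eq_natCast_mul]
      simp only [eval_mul, eval_C, eval_pow, eval_X, eval_natCast]
      rcases Nat.lt_or_ge (k + m) i with hlt | hge
      · rw [Nat.descFactorial_eq_zero_iff_lt.2 hlt]
        simp
      · have : x ^ (k + m) = x ^ i * x ^ (k + m - i) := by
          rw [← pow_add]
          congr 1
          omega
        rw [this]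
        ring
    have hid : x ^ i * (derivative^[i] (monomial k a * X ^ m)).eval x -
        (monomial k a : ℝ[X]).eval x * (m : ℝ) ^ i * x ^ m =
        a * x ^ k * x ^ m * (((k + m).descFactorial i : ℝ) - (m : ℝ) ^ i) := by
      rw [hev, eval_monomial, pow_add]
      ring
    rw [hid, abs_mul, abs_mul, abs_mul, abs_of_pos (pow_pos hx0 k), abs_of_pos (pow_pos hx0 m)]
    have hxk : x ^ k ≤ (b' + w) ^ k := pow_le_pow_left₀ hx0.le hx.2 k
    calc ((m : ℝ) + 1) * (|a| * x ^ k * x ^ m * |((k + m).descFactorial i : ℝ) - (m : ℝ) ^ i|)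
        = (|a| * x ^ k * x ^ m) * (((m : ℝ) + 1) * |((k + m).descFactorial i : ℝ) - (m : ℝ) ^ i|) := by ring
      _ ≤ (|a| * (b' + w) ^ k * x ^ m) * (C * ((m : ℝ) + 1) ^ i) := by
          refine mul_le_mul ?_ (h m) (by positivity) (by positivity)
          exact mul_le_mul_of_nonneg_right (mul_le_mul_of_nonneg_left hxk (abs_nonneg a)) (by positivity)
      _ = _ := by ring

end Pool.Agent.Helper59.RF
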