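import Pool.Agent.Helper59.RF.CalcA

/-!
# Block RF-CALCR: the `r`-th derivative of `P(x) (x^m - x^n)` on short intervals

`Fi P m n i x` is the `i`-th derivative.

PROOF.  Let `0 < p0 ≤ P ≤ p1` on `[b', b'+w]` (compactness).  By `calcA` for `i` and both exponents (`n < m`,
`derivative^[i] (P * (X^m - X^n)) = derivative^[i] (P * X^m) - derivative^[i] (P * X^n)`)
`x^i Fi i x = P(x) (m^i x^m - n^i x^n) + error`, `|error| ≤ 2 C (m+1)^(i-1) x^m` (for `i ≥ 1`; `(m+1)^(i-1)` = `(m+1)^i/(m+1)`).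
* Lower bound for `i = r`: `n^r x^n ≤ m^r x^(m-1) ≤ m^r x^m / b'`, so `x^r Fi r x ≥ p0 (1 - 1/b') m^r x^m - 2 C (m+1)^(r-1) x^m ≥ c1 m^r x^m`
  for `m` large.
* Upper bounds for `i = 2` and `i = r + 1`: `|x^i Fi i x| ≤ C2 m^i x^m`.
With `W0 = Fi r x0 ≥ c2 m^r x0^m` and, on `[x0, x0+w']` with `w' ≤ 1/(C m)`: `x^m ≤ x0^m (1 + w'/x0)^m ≤ x0^m exp (m w') ≤ 3 x0^m`
(`C ≥ 1`), so `|Fi (r+1) x| ≤ C3 m^(r+1) x0^m` and by the mean value theorem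
`|Fi r x - W0| ≤ C3 m^(r+1) x0^m / (C m) ≤ 0.004 W0` if `C ≥ 250 C3 / c2`.  Put `Z = 0.996 W0`: `Z ≤ Fi r x ≤ 1.004 W0 ≤ 1.01 Z`.
`Z ≥ c b'^m` (`m^r ≥ 1`, `x0 ≥ b'`), and `|Fi 2 x| ≤ 3 C2 m^2 x0^m ≤ Z` for `m` large because `r ≥ 3`.
(`fi_hasDeriv`: `Polynomial.hasDerivAt`, `Function.iterate_succ_apply'`.)
Model for the lower order case: `Pool/Agent/Helper59/RE/Calc2.lean`, `Calc3.lean`.
-/

namespace Pool.Agent.Helper59.RF

open Finset Polynomial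

/-- The `i`-th derivative of `P(x) (x^m - x^n)`. -/
noncomputable def Fi (P : ℝ[X]) (m n i : ℕ) (x : ℝ) : ℝ :=
  (derivative^[i] (P * (X ^ m - X ^ n))).eval x

theorem fi_hasDeriv (P : ℝ[X]) (m n i : ℕ) (x : ℝ) :
    HasDerivAt (Fi P m n i) (Fi P m n (i + 1) x) x := by
  unfold Fi
  rw [Function.iterate_succ_apply']
  exact (derivative^[i] (P * (X ^ m - X ^ n))).hasDerivAt x

private theorem main_34 (b' w : ℝ) (hb : 1 < b') (hw : 0 < w) (P : ℝ[X]) (j : ℕ) :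
    ∃ D : ℝ, 0 ≤ D ∧ ∀ m n : ℕ, n < m → ∀ x ∈ Set.Icc b' (b' + w),
      |x ^ (j + 1) * Fi P m n (j + 1) x -
        P.eval x * ((m : ℝ) ^ (j + 1) * x ^ m - (n : ℝ) ^ (j + 1) * x ^ n)| ≤
        D * ((m : ℝ) + 1) ^ j * x ^ m := by
  obtain ⟨C, hC, h⟩ := calcA b' w hb hw (j + 1) P
  have key : ∀ m : ℕ, ∀ x ∈ Set.Icc b' (b' + w),
      |x ^ (j + 1) * (derivative^[j + 1] (P * X ^ m)).eval x -
        P.eval x * (m : ℝ) ^ (j + 1) * x ^ m| ≤ C * ((m : ℝ) + 1) ^ j * x ^ m := by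
    intro m x hx
    have h1 := h m x hx
    have hm : (0 : ℝ) < (m : ℝ) + 1 := by positivity
    refine le_of_mul_le_mul_left ?_ hm
    calc _ ≤ C * ((m : ℝ) + 1) ^ (j + 1) * x ^ m := h1
      _ = ((m : ℝ) + 1) * (C * ((m : ℝ) + 1) ^ j * x ^ m) := by ring
  refine ⟨2 * C, by positivity, fun m n hn x hx => ?_⟩
  have hx1 : 1 ≤ x := by linarith [hx.1]
  have h1 := key m x hx
  have h2 := key n x hx
  have h3 : C * ((n : ℝ) + 1) ^ j * x ^ n ≤ C * ((m : ℝ) + 1) ^ j * x ^ m := by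
    have hnm : (n : ℝ) ≤ m := by exact_mod_cast hn.le
    have e1 : ((n : ℝ) + 1) ^ j ≤ ((m : ℝ) + 1) ^ j :=
      pow_le_pow_left₀ (by positivity) (by linarith) j
    have e2 : x ^ n ≤ x ^ m := pow_le_pow_right₀ hx1 hn.le
    exact mul_le_mul (mul_le_mul_of_nonneg_left e1 hC) e2 (by positivity) (by positivity)
  have hid : Fi P m n (j + 1) x =
      (derivative^[j + 1] (P * X ^ m)).eval x - (derivative^[j + 1] (P * X ^ n)).eval x := by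
    unfold Fi
    rw [mul_sub, Polynomial.iterate_derivative_sub, eval_sub]
  rw [hid]
  have e : x ^ (j + 1) * ((derivative^[j + 1] (P * X ^ m)).eval x -
        (derivative^[j + 1] (P * X ^ n)).eval x) -
      P.eval x * ((m : ℝ) ^ (j + 1) * x ^ m - (n : ℝ) ^ (j + 1) * x ^ n) =
      (x ^ (j + 1) * (derivative^[j + 1] (P * X ^ m)).eval x -
        P.eval x * (m : ℝ) ^ (j + 1) * x ^ m) -
      (x ^ (j + 1) * (derivative^[j + 1] (P * X ^ n)).eval x -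
        P.eval x * (n : ℝ) ^ (j + 1) * x ^ n) := by ring
  rw [e]
  refine (abs_sub _ _).trans ?_
  linarith

private theorem upper_34 (b' w p1 : ℝ) (hb : 1 < b') (hw : 0 < w) (P : ℝ[X]) (hp1 : 0 < p1)
    (hP : ∀ x ∈ Set.Icc b' (b' + w), |P.eval x| ≤ p1) (j : ℕ) :
    ∃ U : ℝ, 0 < U ∧ ∀ m n : ℕ, 1 ≤ m → n < m → ∀ x ∈ Set.Icc b' (b' + w),
      |Fi P m n (j + 1) x| ≤ U * (m : ℝ) ^ (j + 1) * x ^ m := by
  obtain ⟨D, hD, h⟩ := main_34 b' w hb hw P j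
  refine ⟨2 * p1 + D * 2 ^ j, by positivity, fun m n hm hn x hx => ?_⟩
  have hx1 : 1 ≤ x := by linarith [hx.1]
  have hmr : (1 : ℝ) ≤ m := by exact_mod_cast hm
  have hxm : 0 < x ^ m := by positivity
  have h1 := h m n hn x hx
  have h2 : |P.eval x * ((m : ℝ) ^ (j + 1) * x ^ m - (n : ℝ) ^ (j + 1) * x ^ n)| ≤
      2 * p1 * (m : ℝ) ^ (j + 1) * x ^ m := by
    rw [abs_mul]
    have e1 : (n : ℝ) ^ (j + 1) * x ^ n ≤ (m : ℝ) ^ (j + 1) * x ^ m := by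
      have hnm : (n : ℝ) ≤ m := by exact_mod_cast hn.le
      exact mul_le_mul (pow_le_pow_left₀ (Nat.cast_nonneg n) hnm _) (pow_le_pow_right₀ hx1 hn.le)
        (by positivity) (by positivity)
    have e2 : 0 ≤ (n : ℝ) ^ (j + 1) * x ^ n := by positivity
    have e3 : |(m : ℝ) ^ (j + 1) * x ^ m - (n : ℝ) ^ (j + 1) * x ^ n| ≤
        2 * ((m : ℝ) ^ (j + 1) * x ^ m) := by
      rw [abs_le]
      constructor <;> linarith
    calc |P.eval x| * |(m : ℝ) ^ (j + 1) * x ^ m - (n : ℝ) ^ (j + 1) * x ^ n|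
        ≤ p1 * (2 * ((m : ℝ) ^ (j + 1) * x ^ m)) :=
          mul_le_mul (hP x hx) e3 (abs_nonneg _) hp1.le
      _ = _ := by ring
  have h3 : D * ((m : ℝ) + 1) ^ j * x ^ m ≤ D * 2 ^ j * (m : ℝ) ^ (j + 1) * x ^ m := by
    have e1 : ((m : ℝ) + 1) ^ j ≤ (2 * (m : ℝ)) ^ j :=
      pow_le_pow_left₀ (by positivity) (by linarith) j
    have e2 : (m : ℝ) ^ j ≤ (m : ℝ) ^ (j + 1) := pow_le_pow_right₀ hmr (Nat.le_succ j)
    have e3 : ((m : ℝ) + 1) ^ j ≤ 2 ^ j * (m : ℝ) ^ (j + 1) := by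
      rw [mul_pow] at e1
      exact e1.trans (mul_le_mul_of_nonneg_left e2 (by positivity))
    calc D * ((m : ℝ) + 1) ^ j * x ^ m ≤ D * (2 ^ j * (m : ℝ) ^ (j + 1)) * x ^ m :=
          mul_le_mul_of_nonneg_right (mul_le_mul_of_nonneg_left e3 hD) hxm.le
      _ = _ := by ring
  have h4 : |x ^ (j + 1) * Fi P m n (j + 1) x| ≤
      (2 * p1 + D * 2 ^ j) * (m : ℝ) ^ (j + 1) * x ^ m := by
    have e1 := abs_sub_abs_le_abs_sub (x ^ (j + 1) * Fi P m n (j + 1) x)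
      (P.eval x * ((m : ℝ) ^ (j + 1) * x ^ m - (n : ℝ) ^ (j + 1) * x ^ n))
    have e2 : (2 * p1 + D * 2 ^ j) * (m : ℝ) ^ (j + 1) * x ^ m =
      2 * p1 * (m : ℝ) ^ (j + 1) * x ^ m + D * 2 ^ j * (m : ℝ) ^ (j + 1) * x ^ m := by ring
    rw [e2]
    linarith
  rw [abs_mul, abs_of_pos (by positivity)] at h4
  refine le_trans ?_ h4
  have h5 : 1 ≤ x ^ (j + 1) := one_le_pow₀ hx1
  nlinarith [abs_nonneg (Fi P m n (j + 1) x)]

private theorem lower_34 (b' w p0 : ℝ) (hb : 1 < b') (hw : 0 < w) (P : ℝ[X]) (hp0 : 0 < p0)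
    (hP : ∀ x ∈ Set.Icc b' (b' + w), p0 ≤ P.eval x) (j : ℕ) :
    ∃ c : ℝ, 0 < c ∧ ∃ m₁ : ℕ, ∀ m n : ℕ, m₁ ≤ m → n < m → ∀ x ∈ Set.Icc b' (b' + w),
      c * (m : ℝ) ^ (j + 1) * x ^ m ≤ Fi P m n (j + 1) x := by
  obtain ⟨D, hD, h⟩ := main_34 b' w hb hw P j
  have hb0 : 0 < b' := by linarith
  have hB : 0 < b' + w := by linarith
  obtain ⟨κ, hκdef⟩ : ∃ κ : ℝ, κ = p0 * (1 - 1 / b') := ⟨_, rfl⟩
  have hκ : 0 < κ := by
    rw [hκdef]
    apply mul_pos hp0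
    rw [sub_pos, div_lt_one hb0]
    exact hb
  refine ⟨κ / 2 / (b' + w) ^ (j + 1), by positivity, ⌈2 * D * 2 ^ j / κ⌉₊ + 1,
    fun m n hm hn x hx => ?_⟩
  have hx1 : 1 ≤ x := by linarith [hx.1]
  have hx0 : 0 < x := by linarith
  have hm1 : 1 ≤ m := by omega
  have hmr : (1 : ℝ) ≤ m := by exact_mod_cast hm1
  have hxm : 0 < x ^ m := by positivity
  have h1 := h m n hn x hx
  have h2 : D * ((m : ℝ) + 1) ^ j ≤ κ / 2 * (m : ℝ) ^ (j + 1) := by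
    have e1 : ((m : ℝ) + 1) ^ j ≤ (2 * (m : ℝ)) ^ j :=
      pow_le_pow_left₀ (by positivity) (by linarith) j
    rw [mul_pow] at e1
    have e2 : 2 * D * 2 ^ j / κ ≤ m := by
      have e3 := Nat.le_ceil (2 * D * 2 ^ j / κ)
      have e4 : ((⌈2 * D * 2 ^ j / κ⌉₊ + 1 : ℕ) : ℝ) ≤ m := by exact_mod_cast hm
      push_cast at e4
      linarith
    rw [div_le_iff₀ hκ] at e2
    calc D * ((m : ℝ) + 1) ^ j ≤ D * (2 ^ j * (m : ℝ) ^ j) := mul_le_mul_of_nonneg_left e1 hD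
      _ = (2 * D * 2 ^ j) / 2 * (m : ℝ) ^ j := by ring
      _ ≤ (m * κ) / 2 * (m : ℝ) ^ j := by
          refine mul_le_mul_of_nonneg_right ?_ (by positivity)
          linarith
      _ = κ / 2 * (m : ℝ) ^ (j + 1) := by ring
  have h3 : κ * ((m : ℝ) ^ (j + 1) * x ^ m) ≤
      P.eval x * ((m : ℝ) ^ (j + 1) * x ^ m - (n : ℝ) ^ (j + 1) * x ^ n) := by
    have hnm : (n : ℝ) ≤ m := by exact_mod_cast hn.le
    have e1 : (n : ℝ) ^ (j + 1) * x ^ n ≤ (m : ℝ) ^ (j + 1) * x ^ (m - 1) :=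
      mul_le_mul (pow_le_pow_left₀ (Nat.cast_nonneg n) hnm _)
        (pow_le_pow_right₀ hx1 (by omega)) (by positivity) (by positivity)
    have e2 : x ^ m = x ^ (m - 1) * x := by
      rw [← pow_succ]
      congr 1
      omega
    have e3 : x ^ (m - 1) ≤ 1 / b' * x ^ m := by
      rw [e2, div_mul_eq_mul_div, one_mul, le_div_iff₀ hb0]
      exact mul_le_mul_of_nonneg_left hx.1 (by positivity)
    have e4 : (m : ℝ) ^ (j + 1) * x ^ (m - 1) ≤ 1 / b' * ((m : ℝ) ^ (j + 1) * x ^ m) := by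
      calc (m : ℝ) ^ (j + 1) * x ^ (m - 1) ≤ (m : ℝ) ^ (j + 1) * (1 / b' * x ^ m) :=
            mul_le_mul_of_nonneg_left e3 (by positivity)
        _ = _ := by ring
    have e5 : (1 - 1 / b') * ((m : ℝ) ^ (j + 1) * x ^ m) ≤
        (m : ℝ) ^ (j + 1) * x ^ m - (n : ℝ) ^ (j + 1) * x ^ n := by linarith
    have e6 : 0 ≤ (m : ℝ) ^ (j + 1) * x ^ m - (n : ℝ) ^ (j + 1) * x ^ n := by
      refine le_trans ?_ e5
      have : 0 ≤ 1 - 1 / b' := by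
        rw [sub_nonneg, div_le_one hb0]
        exact hb.le
      positivity
    calc κ * ((m : ℝ) ^ (j + 1) * x ^ m)
        = p0 * ((1 - 1 / b') * ((m : ℝ) ^ (j + 1) * x ^ m)) := by rw [hκdef]; ring
      _ ≤ p0 * ((m : ℝ) ^ (j + 1) * x ^ m - (n : ℝ) ^ (j + 1) * x ^ n) :=
          mul_le_mul_of_nonneg_left e5 hp0.le
      _ ≤ _ := mul_le_mul_of_nonneg_right (hP x hx) e6
  have h4 : κ / 2 * (m : ℝ) ^ (j + 1) * x ^ m ≤ x ^ (j + 1) * Fi P m n (j + 1) x := by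
    have e1 := (abs_le.1 h1).1
    have e2 := mul_le_mul_of_nonneg_right h2 hxm.le
    nlinarith
  have h5 : x ^ (j + 1) ≤ (b' + w) ^ (j + 1) := pow_le_pow_left₀ hx0.le hx.2 _
  have h6 : 0 < x ^ (j + 1) := by positivity
  have h7 : 0 < Fi P m n (j + 1) x := by
    have : 0 < x ^ (j + 1) * Fi P m n (j + 1) x := lt_of_lt_of_le (by positivity) h4
    exact (mul_pos_iff_of_pos_left h6).1 this
  have h8 : κ / 2 * (m : ℝ) ^ (j + 1) * x ^ m ≤ (b' + w) ^ (j + 1) * Fi P m n (j + 1) x :=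
    h4.trans (mul_le_mul_of_nonneg_right h5 h7.le)
  have h9 : 0 < (b' + w) ^ (j + 1) := by positivity
  calc κ / 2 / (b' + w) ^ (j + 1) * (m : ℝ) ^ (j + 1) * x ^ m
      = (κ / 2 * (m : ℝ) ^ (j + 1) * x ^ m) / (b' + w) ^ (j + 1) := by ring
    _ ≤ Fi P m n (j + 1) x := by
        rw [div_le_iff₀ h9]
        linarith

theorem calcR (P : ℝ[X]) (b' w : ℝ) (hb : 1 < b') (hw : 0 < w)
    (hP : ∀ x ∈ Set.Icc b' (b' + w), 0 < P.eval x) (r : ℕ) (hr : 3 ≤ r) :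
    ∃ c C : ℝ, 0 < c ∧ 0 < C ∧ ∃ m₁ : ℕ, ∀ m : ℕ, m₁ ≤ m → ∀ n < m, ∀ x0 w' : ℝ, b' ≤ x0 →
      0 ≤ w' → w' ≤ 1 / (C * m) → x0 + w' ≤ b' + w → ∃ Z : ℝ, c * b' ^ m ≤ Z ∧
        ∀ x ∈ Set.Icc x0 (x0 + w'), Z ≤ Fi P m n r x ∧ Fi P m n r x ≤ 1.01 * Z ∧
          |Fi P m n 2 x| ≤ Z := by
  have hb0 : 0 < b' := by linarith
  obtain ⟨p0, hp0, hlow⟩ : ∃ p0 : ℝ, 0 < p0 ∧ ∀ x ∈ Set.Icc b' (b' + w), p0 ≤ P.eval x := by
    obtain ⟨z, hz, hmin⟩ := isCompact_Icc.exists_isMinOn (s := Set.Icc b' (b' + w))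
      ⟨b', Set.left_mem_Icc.2 (by linarith)⟩ (f := fun x => P.eval x) P.continuous.continuousOn
    exact ⟨P.eval z, hP z hz, fun x hx => hmin hx⟩
  obtain ⟨p1, hp1, hup⟩ : ∃ p1 : ℝ, 0 < p1 ∧ ∀ x ∈ Set.Icc b' (b' + w), |P.eval x| ≤ p1 := by
    obtain ⟨L, hL⟩ := isCompact_Icc.exists_bound_of_continuousOn (s := Set.Icc b' (b' + w))
      (f := fun x => P.eval x) P.continuous.continuousOn
    refine ⟨max L 1, lt_of_lt_of_le one_pos (le_max_right _ _), fun x hx => ?_⟩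
    exact (hL x hx).trans (le_max_left _ _)
  obtain ⟨r', rfl⟩ : ∃ r', r = r' + 1 := ⟨r - 1, by omega⟩
  obtain ⟨c1, hc1, m1, hl⟩ := lower_34 b' w p0 hb hw P hp0 hlow r'
  obtain ⟨U, hU, hu⟩ := upper_34 b' w p1 hb hw P hp1 hup (r' + 1)
  obtain ⟨U2, hU2, hu2⟩ := upper_34 b' w p1 hb hw P hp1 hup 1
  refine ⟨0.996 * c1, 750 * U / c1 + 1, by positivity, by positivity,
    m1 + ⌈3 * U2 / (0.996 * c1)⌉₊ + 1, ?_⟩
  intro m hm n hn x0 w' hx0 hw' hw1 hw2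
  have hm1 : 1 ≤ m := by omega
  have hmr : (1 : ℝ) ≤ m := by exact_mod_cast hm1
  have hmpos : (0 : ℝ) < m := by linarith
  have hx01 : 1 < x0 := by linarith
  have hx0K : x0 ∈ Set.Icc b' (b' + w) := ⟨hx0, by linarith⟩
  have hxm0 : 0 < x0 ^ m := by positivity
  have hW := hl m n (by omega) hn x0 hx0K
  set W0 := Fi P m n (r' + 1) x0 with hW0def
  have hC : 0 < 750 * U / c1 + 1 := by positivity
  have hwm : w' * m * (750 * U / c1 + 1) ≤ 1 := by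
    rw [le_div_iff₀ (by positivity)] at hw1
    linarith
  have hwm0 : 0 ≤ w' * m := by positivity
  have hwm1 : w' * m ≤ 1 := by
    have : 0 ≤ w' * m * (750 * U / c1) := by positivity
    linarith
  have hwmU : w' * m * (750 * U) ≤ c1 := by
    have e1 : w' * m * (750 * U / c1) ≤ 1 := by linarith
    have e2 : w' * m * (750 * U / c1) = (w' * m * (750 * U)) / c1 := by ring
    rw [e2, div_le_one hc1] at e1
    exact e1
  have hpow : ∀ x ∈ Set.Icc x0 (x0 + w'), x ^ m ≤ 3 * x0 ^ m := by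
    intro x hx
    have e1 : x ≤ x0 * (1 + w') := by nlinarith [hx.2]
    have e2 : x ^ m ≤ (x0 * (1 + w')) ^ m := pow_le_pow_left₀ (by linarith [hx.1]) e1 m
    have e3 : (1 + w') ^ m ≤ 3 := by
      have f1 : 1 + w' ≤ Real.exp w' := by
        have := Real.add_one_le_exp w'
        linarith
      calc (1 + w') ^ m ≤ (Real.exp w') ^ m := pow_le_pow_left₀ (by positivity) f1 m
        _ = Real.exp (m * w') := (Real.exp_nat_mul w' m).symm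
        _ ≤ Real.exp 1 := Real.exp_le_exp.2 (by linarith)
        _ ≤ 3 := by linarith [Real.exp_one_lt_d9]
    rw [mul_pow] at e2
    calc x ^ m ≤ x0 ^ m * (1 + w') ^ m := e2
      _ ≤ x0 ^ m * 3 := mul_le_mul_of_nonneg_left e3 hxm0.le
      _ = 3 * x0 ^ m := mul_comm _ _
  have hK : ∀ x ∈ Set.Icc x0 (x0 + w'), x ∈ Set.Icc b' (b' + w) := fun x hx =>
    ⟨hx0.trans hx.1, hx.2.trans hw2⟩
  have hder : ∀ y ∈ Set.Icc x0 (x0 + w'),
      |Fi P m n (r' + 1 + 1) y| ≤ 3 * U * (m : ℝ) ^ (r' + 1 + 1) * x0 ^ m := by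
    intro y hy
    have e1 := hu m n hm1 hn y (hK y hy)
    have e2 := hpow y hy
    calc _ ≤ U * (m : ℝ) ^ (r' + 1 + 1) * y ^ m := e1
      _ ≤ U * (m : ℝ) ^ (r' + 1 + 1) * (3 * x0 ^ m) :=
          mul_le_mul_of_nonneg_left e2 (by positivity)
      _ = _ := by ring
  have hdiff : ∀ x ∈ Set.Icc x0 (x0 + w'), |Fi P m n (r' + 1) x - W0| ≤ 0.004 * W0 := by
    intro x hx
    have e1 := Convex.norm_image_sub_le_of_norm_hasDerivWithin_le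
      (f := Fi P m n (r' + 1)) (f' := Fi P m n (r' + 1 + 1))
      (C := 3 * U * (m : ℝ) ^ (r' + 1 + 1) * x0 ^ m) (s := Set.Icc x0 (x0 + w'))
      (x := x0) (y := x) (fun y _ => (fi_hasDeriv P m n (r' + 1) y).hasDerivWithinAt)
      (fun y hy => by rw [Real.norm_eq_abs]; exact hder y hy) (convex_Icc _ _)
      (Set.left_mem_Icc.2 (by linarith)) hx
    rw [Real.norm_eq_abs, Real.norm_eq_abs, abs_of_nonneg (by linarith [hx.1] : 0 ≤ x - x0)] at e1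
    refine e1.trans ?_
    have e2 : x - x0 ≤ w' := by linarith [hx.2]
    calc 3 * U * (m : ℝ) ^ (r' + 1 + 1) * x0 ^ m * (x - x0)
        ≤ 3 * U * (m : ℝ) ^ (r' + 1 + 1) * x0 ^ m * w' :=
          mul_le_mul_of_nonneg_left e2 (by positivity)
      _ = (w' * m * (750 * U)) * (0.004 * ((m : ℝ) ^ (r' + 1) * x0 ^ m)) := by ring
      _ ≤ c1 * (0.004 * ((m : ℝ) ^ (r' + 1) * x0 ^ m)) :=
          mul_le_mul_of_nonneg_right hwmU (by positivity)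
      _ = 0.004 * (c1 * (m : ℝ) ^ (r' + 1) * x0 ^ m) := by ring
      _ ≤ 0.004 * W0 := mul_le_mul_of_nonneg_left hW (by norm_num)
  have hW0 : 0 < W0 := lt_of_lt_of_le (by positivity) hW
  refine ⟨0.996 * W0, ?_, fun x hx => ⟨?_, ?_, ?_⟩⟩
  · have e1 : b' ^ m ≤ x0 ^ m := pow_le_pow_left₀ hb0.le hx0 m
    have e2 : (1 : ℝ) ≤ (m : ℝ) ^ (r' + 1) := one_le_pow₀ hmr
    calc 0.996 * c1 * b' ^ m ≤ 0.996 * c1 * x0 ^ m := mul_le_mul_of_nonneg_left e1 (by positivity)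
      _ = 0.996 * (c1 * 1 * x0 ^ m) := by ring
      _ ≤ 0.996 * (c1 * (m : ℝ) ^ (r' + 1) * x0 ^ m) := by
          refine mul_le_mul_of_nonneg_left ?_ (by norm_num)
          exact mul_le_mul_of_nonneg_right (mul_le_mul_of_nonneg_left e2 hc1.le) hxm0.le
      _ ≤ 0.996 * W0 := mul_le_mul_of_nonneg_left hW (by norm_num)
  · have := (abs_le.1 (hdiff x hx)).1
    linarith
  · have := (abs_le.1 (hdiff x hx)).2
    linarith
  · have e1 := hu2 m n hm1 hn x (hK x hx)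
    have e2 := hpow x hx
    have e3 : 3 * U2 ≤ 0.996 * c1 * m := by
      have f1 := Nat.le_ceil (3 * U2 / (0.996 * c1))
      have f2 : ((m1 + ⌈3 * U2 / (0.996 * c1)⌉₊ + 1 : ℕ) : ℝ) ≤ m := by exact_mod_cast hm
      push_cast at f2
      have f3 : (0 : ℝ) ≤ m1 := Nat.cast_nonneg _
      have f4 : 3 * U2 / (0.996 * c1) ≤ m := by linarith
      rw [div_le_iff₀ (by positivity)] at f4
      linarith
    have e4 : (m : ℝ) ^ 3 ≤ (m : ℝ) ^ (r' + 1) := pow_le_pow_right₀ hmr hr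
    calc |Fi P m n 2 x| ≤ U2 * (m : ℝ) ^ (1 + 1) * x ^ m := e1
      _ ≤ U2 * (m : ℝ) ^ (1 + 1) * (3 * x0 ^ m) := mul_le_mul_of_nonneg_left e2 (by positivity)
      _ = 3 * U2 * ((m : ℝ) ^ 2 * x0 ^ m) := by ring
      _ ≤ 0.996 * c1 * m * ((m : ℝ) ^ 2 * x0 ^ m) :=
          mul_le_mul_of_nonneg_right e3 (by positivity)
      _ = 0.996 * (c1 * (m : ℝ) ^ 3 * x0 ^ m) := by ring
      _ ≤ 0.996 * (c1 * (m : ℝ) ^ (r' + 1) * x0 ^ m) := by
          refine mul_le_mul_of_nonneg_left ?_ (by norm_num)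
          exact mul_le_mul_of_nonneg_right (mul_le_mul_of_nonneg_left e4 hc1.le) hxm0.le
      _ ≤ 0.996 * W0 := mul_le_mul_of_nonneg_left hW (by norm_num)

end Pool.Agent.Helper59.RF
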