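import Pool.Agent.Helper59.RF.PairsN

/-!
# Block RF-CARDN: the number of tight tuples (regular denominators)

Model: `CardF.lean` (proved; `N k = k!`), the same proof with real numbers instead of factorials.
`u = 2 (d+1) v` (`4 u = HU`, `8 u = UU`), `M = MM d Q v`, `c l = cc d Q v l j`, `K0 = KtN N Z s d Q v j` (`kt_specN`).  Free coordinates
`K ∈ [K0, K0 + v)`, `k l ∈ [c l, c l + v)` (`2 ≤ l < d`): `v^(d-1)` choices; `T = Z / (N K ∏_(2 ≤ l < d) N (k l))`; `pairsN` with `c0 = c 0`,
`c1 = c 1`: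
* `h4`: `c 1 - c 0 - 2u = 2 D^Q UU - UU/4 ≥ D^Q UU = M / (2 (d+1))` (`cc_one`, `mm_uu`).
* `hT1`: `N K ≤ N K0 (β^3)^v` (`gn_hs`), `N (k l) ≤ N (c l) (β^2)^v` (`gn_hi`), `N K0 * PcN ≤ Z`, and
  `β^(3v) β^(2(d-2)v) ≤ β^(2(d+1)v - 1) = β^(u-1)`.
* `hT2`: `T ≤ Z / (N K0 ∏ N (c l)) < (N (K0+1) / N K0) h0 ≤ β^3 h0` (`gn_mono` for `k l ≥ c l` and for `K ≥ K0`, which needs `K0 ≥ MM`:
  `K0 ≥ s - 2 d MM ≥ MM` by `Rng.big`).
-/

namespace Pool.Agent.Helper59.RF

open Finset

/-- the product over the free coordinates -/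
private lemma prod_split31 {α : Type} [CommMonoid α] (d : ℕ) (hd : 2 ≤ d) (g : ℕ → α)
    (hg : ∀ l < 2, g l = 1) :
    ∏ l : Fin (d + 1), g l = (∏ l ∈ Ico 2 d, g l) * g d := by
  rw [Fin.prod_univ_eq_prod_range g (d + 1), Finset.prod_range_succ,
    ← Finset.prod_range_mul_prod_Ico g hd, Finset.prod_range_succ, Finset.prod_range_one,
    hg 0 (by norm_num), hg 1 (by norm_num), one_mul, one_mul]

theorem cardN {N : ℕ → ℝ} {s d Q v : ℕ} {β C2 ρ : ℝ} (hG : GN N s d Q v β C2 ρ) (Z : ℝ)
    (j R : ℕ) (hR : Rng s d Q v) (hd : 2 ≤ d) (hj : j < Q) (hZ1 : N s ≤ Z) (hZ2 : Z < N (s + 1))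
    (h : (β ^ 2) ^ (R + 1) ≤ (1 + ρ) ^ (4 * (d + 1) * v)) :
    v ^ (d - 1) * R ≤ (TN N C2 Z s d Q v j).card := by
  classical
  set M := MM d Q v with hM
  set K0 := KtN N Z s d Q v j with hK0
  obtain ⟨hKl, hKs, hK1, hK2⟩ := kt_specN hG Z j hR hd hj hZ1 hZ2
  rw [← hK0] at hKl hKs hK1 hK2
  have hv : 100 ≤ v := hR.v1
  have hNpos := hG.pos
  have hβ4 : 4 ≤ β := hG.b4
  have hβ0 : 0 < β := by linarith
  have hβ1 : 1 ≤ β := by linarith
  have hβ21 : 1 ≤ β ^ 2 := one_le_pow₀ hβ1
  have hβ31 : 1 ≤ β ^ 3 := one_le_pow₀ hβ1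
  have hMK : M ≤ K0 := by
    have h1 := hR.big
    rw [← hM] at h1 hKl
    have h2 : 2 * M ≤ d * M := Nat.mul_le_mul_right M hd
    have h3 : 64 * d * M = 64 * (d * M) := by ring
    have h4 : 2 * d * M = 2 * (d * M) := by ring
    omega
  have hZ : 0 < Z := lt_of_lt_of_le (hNpos s) hZ1
  obtain ⟨u, hu⟩ : ∃ u, u = 2 * (d + 1) * v := ⟨_, rfl⟩
  have h4u : HU d v = 4 * u := by rw [hu, HU]; ring
  have h8u : UU d v = 8 * u := by rw [hu, UU]; ring
  have hvu : v ≤ u := by rw [hu]; nlinarith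
  let c : ℕ → ℕ := fun l => cc d Q v l j
  have hc2 : ∀ l < d, c l + UU d v ≤ 2 * M := fun l hl => cc_le d Q v l j hl hj
  have hcM : ∀ l, M ≤ c l := fun l => mm_le_cc d Q v l j
  -- free coordinates
  let Wf : Fin (d + 1) → Finset ℕ := fun l =>
    if (l : ℕ) = d then Ico K0 (K0 + v) else if (l : ℕ) < 2 then {0} else Ico (c l) (c l + v)
  have hFcard : (Fintype.piFinset Wf).card = v ^ (d - 1) := by
    rw [Fintype.card_piFinset]
    have h1 : ∀ l : Fin (d + 1), (Wf l).card = (fun l : ℕ => if l < 2 then 1 else v) l := by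
      intro l
      show (if (l : ℕ) = d then Ico K0 (K0 + v) else if (l : ℕ) < 2 then {0} else
        Ico (c l) (c l + v)).card = if (l : ℕ) < 2 then 1 else v
      split_ifs with h1 h2 h2
      · omega
      · rw [Nat.card_Ico]; omega
      · exact card_singleton 0
      · rw [Nat.card_Ico]; omega
    rw [Finset.prod_congr rfl fun l _ => h1 l, prod_split31 d hd _ fun l hl => if_pos hl]
    have h2 : ∏ l ∈ Ico 2 d, (if l < 2 then 1 else v) = v ^ (d - 2) := by
      rw [Finset.prod_congr rfl fun l hl => if_neg (by have := (Finset.mem_Ico.1 hl).1; omega),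
        Finset.prod_const, Nat.card_Ico]
    rw [h2, if_neg (by omega), ← pow_succ]
    congr 1
    omega
  -- the products
  let g : (Fin (d + 1) → ℕ) → ℝ := fun φ => ∏ l : Fin (d + 1),
    if (l : ℕ) < 2 then 1 else N (φ l)
  let P0 : ℝ := (∏ l ∈ Ico 2 d, N (c l)) * N K0
  let φ0 : ℕ → ℕ := fun l => if l = d then K0 else c l
  have hP0 : ∏ l : Fin (d + 1), (fun l : ℕ => if l < 2 then 1 else N (φ0 l)) l = P0 := by
    rw [prod_split31 d hd (fun l : ℕ => if l < 2 then 1 else N (φ0 l))
      fun l hl => if_pos hl]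
    show (∏ l ∈ Ico 2 d, if l < 2 then 1 else N (φ0 l)) *
      (if d < 2 then 1 else N (φ0 d)) = P0
    have h3 : φ0 d = K0 := if_pos rfl
    rw [if_neg (by omega), h3]
    congr 1
    apply Finset.prod_congr rfl
    intro l hl
    have := Finset.mem_Ico.1 hl
    rw [if_neg (by omega), show φ0 l = c l from if_neg (by omega)]
  let bb : ℕ → ℝ := fun l => if l < 2 then 1 else if l = d then (β ^ 3) ^ v else (β ^ 2) ^ v
  have hbb : ∏ l : Fin (d + 1), bb l = ((β ^ 2) ^ v) ^ (d - 2) * (β ^ 3) ^ v := by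
    rw [prod_split31 d hd bb fun l hl => if_pos hl]
    show (∏ l ∈ Ico 2 d, bb l) * (if d < 2 then 1 else if d = d then (β ^ 3) ^ v else _) = _
    rw [if_neg (by omega), if_pos rfl]
    congr 1
    have : ∀ l ∈ Ico 2 d, bb l = (β ^ 2) ^ v := by
      intro l hl
      have := Finset.mem_Ico.1 hl
      show (if l < 2 then 1 else if l = d then (β ^ 3) ^ v else (β ^ 2) ^ v) = _
      rw [if_neg (by omega), if_neg (by omega)]
    rw [Finset.prod_congr rfl this, Finset.prod_const, Nat.card_Ico]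
  have hWf : ∀ φ ∈ Fintype.piFinset Wf, ∀ l : Fin (d + 1), ¬ (l : ℕ) < 2 →
      φ0 l ≤ φ l ∧ φ l < φ0 l + v := by
    intro φ hφ l hl
    have h1 := Fintype.mem_piFinset.1 hφ l
    change φ l ∈ (if (l : ℕ) = d then Ico K0 (K0 + v) else if (l : ℕ) < 2 then {0} else
      Ico (c l) (c l + v)) at h1
    show (if (l : ℕ) = d then K0 else c l) ≤ φ l ∧ φ l < (if (l : ℕ) = d then K0 else c l) + v
    rw [if_neg hl] at h1
    split_ifs at h1 ⊢ with h2
    · exact Finset.mem_Ico.1 h1
    · exact Finset.mem_Ico.1 h1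
  have hφ0M : ∀ l, M ≤ φ0 l := by
    intro l
    show M ≤ if l = d then K0 else c l
    split_ifs
    · exact hMK
    · exact hcM l
  have hg1 : ∀ φ ∈ Fintype.piFinset Wf, P0 ≤ g φ := by
    intro φ hφ
    rw [← hP0]
    apply Finset.prod_le_prod
    · intro l _
      show (0 : ℝ) ≤ (if (l : ℕ) < 2 then 1 else N (φ0 l))
      split_ifs
      · exact zero_le_one
      · exact (hNpos _).le
    intro l _
    show (if (l : ℕ) < 2 then 1 else N (φ0 l)) ≤ if (l : ℕ) < 2 then 1 else N (φ l)
    split_ifs with h1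
    · exact le_rfl
    · exact gn_mono hG _ _ (hφ0M l) (hWf φ hφ l h1).1
  have hg2 : ∀ φ ∈ Fintype.piFinset Wf, g φ ≤ P0 * (((β ^ 2) ^ v) ^ (d - 2) * (β ^ 3) ^ v) := by
    intro φ hφ
    rw [← hP0, ← hbb, ← Finset.prod_mul_distrib]
    apply Finset.prod_le_prod
    · intro l _
      show (0 : ℝ) ≤ (if (l : ℕ) < 2 then 1 else N (φ l))
      split_ifs
      · exact zero_le_one
      · exact (hNpos _).le
    intro l _
    show (if (l : ℕ) < 2 then 1 else N (φ l)) ≤
      (if (l : ℕ) < 2 then 1 else N (φ0 l)) *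
        (if (l : ℕ) < 2 then 1 else if (l : ℕ) = d then (β ^ 3) ^ v else (β ^ 2) ^ v)
    split_ifs with h1 h2
    · rw [mul_one]
    · have h3 := hWf φ hφ l h1
      have h4 : φ0 l = K0 := if_pos h2
      rw [h4] at h3 ⊢
      obtain ⟨n, hn⟩ := Nat.exists_eq_add_of_le h3.1
      rw [hn]
      refine (gn_hs hG K0 n (by omega)).trans ?_
      exact mul_le_mul_of_nonneg_left (pow_le_pow_right₀ hβ31 (by omega)) (hNpos _).le
    · have h3 := hWf φ hφ l h1
      have h4 : φ0 l = c l := if_neg h2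
      rw [h4] at h3 ⊢
      have h5 := hc2 l (by have := l.2; omega)
      obtain ⟨n, hn⟩ := Nat.exists_eq_add_of_le h3.1
      rw [hn]
      refine (gn_hi hG (c l) n (by rw [← hM]; omega)).trans ?_
      exact mul_le_mul_of_nonneg_left (pow_le_pow_right₀ hβ21 (by omega)) (hNpos _).le
  let h0 : ℝ := N (c 0 + 4 * u) * N (c 1 + 4 * u)
  have hh0 : 0 < h0 := mul_pos (hNpos _) (hNpos _)
  have hPc : h0 * P0 = N K0 * PcN N d Q v j := by
    rw [PcN, h4u]
    show N (c 0 + 4 * u) * N (c 1 + 4 * u) *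
      ((∏ l ∈ Ico 2 d, N (c l)) * N K0) = _
    ring
  have hP0pos : 0 < P0 :=
    mul_pos (Finset.prod_pos fun l _ => hNpos _) (hNpos _)
  have hPcpos : 0 < PcN N d Q v j :=
    mul_pos (mul_pos (hNpos _) (hNpos _)) (Finset.prod_pos fun l _ => hNpos _)
  have hpairs : ∀ φ : Fin (d + 1) → ℕ, ∃ PP : Finset (ℕ × ℕ), φ ∈ Fintype.piFinset Wf →
      (R ≤ PP.card ∧ ∀ q ∈ PP, q.1 ∈ Ico (c 0) (c 0 + 8 * u) ∧
      q.2 ∈ Ico (c 1) (c 1 + 8 * u) ∧
      1 / (2 * C2) ≤ (Z / g φ) / (N q.1 * N q.2) ∧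
      (Z / g φ) / (N q.1 * N q.2) ≤ 1 / 2) := by
    intro φ
    by_cases hφ : φ ∈ Fintype.piFinset Wf
    swap
    · exact ⟨∅, fun h => absurd h hφ⟩
    have hgpos : 0 < g φ := lt_of_lt_of_le hP0pos (hg1 φ hφ)
    have hd1 : (0 : ℝ) < 2 * ((d : ℝ) + 1) := by positivity
    obtain ⟨PP, hPP1, hPP2⟩ := pairsN hG (c 0) (c 1) u R (Z / g φ) (hcM 0) (by
        have := cc_lex d Q v 0 1 j j (by norm_num) hj
        rwa [h8u] at this) (by
        have := hc2 1 (by omega)
        rwa [h8u] at this) (by omega) (by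
        have h1 : (c 1 : ℝ) = c 0 + 2 * (Dd d : ℝ) ^ Q * UU d v := by
          have := cc_one d Q v j
          exact_mod_cast this
        have h2 : (MM d Q v : ℝ) = 2 * ((d : ℝ) + 1) * (Dd d : ℝ) ^ Q * UU d v := by
          have := mm_uu d Q v
          exact_mod_cast this
        have h3 : (UU d v : ℝ) = 8 * u := by exact_mod_cast h8u
        have h4 : (1 : ℝ) ≤ (Dd d : ℝ) ^ Q := one_le_pow₀ (by
          have : 1 ≤ Dd d := by unfold Dd; omega
          exact_mod_cast this)
        have h5 : (MM d Q v : ℝ) / (2 * ((d : ℝ) + 1)) = (Dd d : ℝ) ^ Q * UU d v := by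
          rw [h2]
          field_simp
        rw [h5, h1, h3]
        have h6 : (0 : ℝ) ≤ (u : ℝ) := Nat.cast_nonneg u
        nlinarith) (by
        have : 2 * u = 4 * (d + 1) * v := by rw [hu]; ring
        rw [this]
        exact h) (div_pos hZ hgpos) (by
        -- hT1
        show h0 ≤ _
        rw [← mul_div_assoc, le_div_iff₀ hgpos]
        calc h0 * g φ ≤ h0 * (P0 * (((β ^ 2) ^ v) ^ (d - 2) * (β ^ 3) ^ v)) :=
                mul_le_mul_of_nonneg_left (hg2 φ hφ) hh0.le
          _ = (h0 * P0) * (((β ^ 2) ^ v) ^ (d - 2) * (β ^ 3) ^ v) := by ring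
          _ = (N K0 * PcN N d Q v j) * β ^ (2 * v * (d - 2) + 3 * v) := by
              rw [hPc, show (β ^ 2) ^ v = β ^ (2 * v) from (pow_mul β 2 v).symm, ← pow_mul,
                show (β ^ 3) ^ v = β ^ (3 * v) from (pow_mul β 3 v).symm, ← pow_add]
          _ ≤ Z * β ^ (u - 1) := by
              refine mul_le_mul hK1 ?_ (by positivity) hZ.le
              apply pow_le_pow_right₀ hβ1
              obtain ⟨e, rfl⟩ := Nat.exists_eq_add_of_le hd
              rw [hu, Nat.add_sub_cancel_left]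
              have : 2 * v * e + 3 * v + 1 ≤ 2 * (2 + e + 1) * v := by nlinarith
              omega
          _ = β ^ (u - 1) * Z := by ring) (by
        -- hT2
        show _ ≤ β ^ 3 * h0
        calc Z / g φ ≤ Z / P0 := by
              apply div_le_div_of_nonneg_left hZ.le hP0pos
              exact hg1 φ hφ
          _ ≤ β ^ 3 * h0 := by
              rw [div_le_iff₀ hP0pos]
              have h1 : N (K0 + 1) ≤ β ^ 3 * N K0 := hG.hs K0 (by omega)
              calc Z ≤ N (K0 + 1) * PcN N d Q v j := hK2.le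
                _ ≤ (β ^ 3 * N K0) * PcN N d Q v j :=
                    mul_le_mul_of_nonneg_right h1 hPcpos.le
                _ = β ^ 3 * (N K0 * PcN N d Q v j) := by ring
                _ = β ^ 3 * h0 * P0 := by rw [← hPc]; ring)
    exact ⟨PP, fun _ => ⟨hPP1, hPP2⟩⟩
  choose PP hPP using hpairs
  -- the injection
  let i0 : Fin (d + 1) := ⟨0, by omega⟩
  let i1 : Fin (d + 1) := ⟨1, by omega⟩
  let τ : (Σ _ : (Fin (d + 1) → ℕ), ℕ × ℕ) → Fin (d + 1) → ℕ := fun x l =>
    if (l : ℕ) = 0 then x.2.1 else if (l : ℕ) = 1 then x.2.2 else x.1 l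
  have hτprod : ∀ x, ∏ l, N (τ x l) = (N x.2.1 * N x.2.2) * g x.1 := by
    intro x
    have h1 : ∀ l : Fin (d + 1), N (τ x l) =
        ((if l = i0 then N x.2.1 else 1) * (if l = i1 then N x.2.2 else 1)) *
          (if (l : ℕ) < 2 then 1 else N (x.1 l)) := by
      intro l
      show N (if (l : ℕ) = 0 then x.2.1 else if (l : ℕ) = 1 then x.2.2 else x.1 l) = _
      have e0 : l = i0 ↔ (l : ℕ) = 0 := Fin.ext_iff
      have e1 : l = i1 ↔ (l : ℕ) = 1 := Fin.ext_iff
      by_cases a0 : (l : ℕ) = 0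
      · have n1 : ¬ l = i1 := fun h => by have := e1.1 h; omega
        have n2 : (l : ℕ) < 2 := by omega
        rw [if_pos a0, if_pos (e0.2 a0), if_neg n1, if_pos n2, mul_one, mul_one]
      · have n0 : ¬ l = i0 := fun h => a0 (e0.1 h)
        by_cases a1 : (l : ℕ) = 1
        · have n2 : (l : ℕ) < 2 := by omega
          rw [if_neg a0, if_pos a1, if_neg n0, if_pos (e1.2 a1), if_pos n2, mul_one, one_mul]
        · have n1 : ¬ l = i1 := fun h => a1 (e1.1 h)
          have n2 : ¬ (l : ℕ) < 2 := by omega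
          rw [if_neg a0, if_neg a1, if_neg n0, if_neg n1, if_neg n2, mul_one, one_mul]
    rw [Finset.prod_congr rfl fun l _ => h1 l, Finset.prod_mul_distrib, Finset.prod_mul_distrib,
      Finset.prod_ite_eq' , Finset.prod_ite_eq', if_pos (Finset.mem_univ _),
      if_pos (Finset.mem_univ _)]
  calc v ^ (d - 1) * R = ∑ _φ ∈ Fintype.piFinset Wf, R := by
        rw [Finset.sum_const, hFcard, smul_eq_mul]
    _ ≤ ∑ φ ∈ Fintype.piFinset Wf, (PP φ).card := Finset.sum_le_sum fun φ hφ => (hPP φ hφ).1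
    _ = ((Fintype.piFinset Wf).sigma PP).card := (Finset.card_sigma _ _).symm
    _ ≤ (TN N C2 Z s d Q v j).card := by
        apply Finset.card_le_card_of_injOn τ
        · intro x hx
          have hx' := Finset.mem_sigma.1 (Finset.mem_coe.1 hx)
          obtain ⟨q1, q2, q3, q4⟩ := (hPP x.1 hx'.1).2 x.2 hx'.2
          rw [Finset.mem_coe, TN, Finset.mem_filter, Fintype.mem_piFinset]
          refine ⟨fun l => ?_, ?_, ?_⟩
          · show (if (l : ℕ) = 0 then x.2.1 else if (l : ℕ) = 1 then x.2.2 else x.1 l) ∈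
              WN N Z s d Q v j l
            unfold WN
            by_cases a0 : (l : ℕ) = 0
            · rw [if_pos a0, if_neg (by omega), if_pos (by omega), a0, h8u]
              exact q1
            · rw [if_neg a0]
              by_cases a1 : (l : ℕ) = 1
              · rw [if_pos a1, if_neg (by omega), if_pos (by omega), a1, h8u]
                exact q2
              · rw [if_neg a1]
                have h3 := hWf x.1 hx'.1 l (by omega)
                change (if (l : ℕ) = d then K0 else c l) ≤ x.1 l ∧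
                  x.1 l < (if (l : ℕ) = d then K0 else c l) + v at h3
                by_cases a2 : (l : ℕ) = d
                · rw [if_pos a2] at h3 ⊢
                  exact Finset.mem_Ico.2 h3
                · rw [if_neg a2] at h3 ⊢
                  rw [if_neg (by omega)]
                  exact Finset.mem_Ico.2 h3
          · have e : Z / (N x.2.1 * N x.2.2 * g x.1) = Z / g x.1 / (N x.2.1 * N x.2.2) := by
              rw [mul_comm (N x.2.1 * N x.2.2), ← div_div]
            rw [hτprod, e]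
            exact q3
          · rw [hτprod, mul_comm, ← div_div]
            exact q4
        · rintro ⟨φ, q⟩ hx ⟨φ', q'⟩ hx' hxx
          have hx1 := (Finset.mem_sigma.1 (Finset.mem_coe.1 hx)).1
          have hx2 := (Finset.mem_sigma.1 (Finset.mem_coe.1 hx')).1
          have e0 : q.1 = q'.1 := congrFun hxx i0
          have e1 : q.2 = q'.2 := congrFun hxx i1
          have eq : q = q' := Prod.ext e0 e1
          have eφ : φ = φ' := by
            funext l
            by_cases a : (l : ℕ) < 2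
            · have h3 := Fintype.mem_piFinset.1 hx1 l
              have h4 := Fintype.mem_piFinset.1 hx2 l
              change φ l ∈ (if (l : ℕ) = d then Ico K0 (K0 + v) else if (l : ℕ) < 2 then {0} else
                Ico (c l) (c l + v)) at h3
              change φ' l ∈ (if (l : ℕ) = d then Ico K0 (K0 + v) else if (l : ℕ) < 2 then {0} else
                Ico (c l) (c l + v)) at h4
              rw [if_neg (by omega), if_pos a, Finset.mem_singleton] at h3 h4
              rw [h3, h4]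
            · have h5 := congrFun hxx l
              change (if (l : ℕ) = 0 then q.1 else if (l : ℕ) = 1 then q.2 else φ l) =
                (if (l : ℕ) = 0 then q'.1 else if (l : ℕ) = 1 then q'.2 else φ' l) at h5
              rwa [if_neg (by omega), if_neg (by omega), if_neg (by omega), if_neg (by omega)] at h5
          subst eφ eq
          rfl

end Pool.Agent.Helper59.RF
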