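import Pool.Agent.Helper59.RF.Bas
import Pool.Agent.Helper59.RF.Ex

/-!
# Block RF-CONN: fair digits as a uniform average over bits

PROOF.  `wt hf S T = (1/2)^|S|` for `T ⊆ S` (`Finset.prod_const`, `Finset.card_sdiff`), `|univ.image κ| = Fintype.card ι`
(`Finset.card_image_of_injective`), `Fintype.card (ι → Bool) = 2 ^ card ι`.  The map `ω ↦ (univ.filter (ω · = true)).image κ` is a
bijection of `ι → Bool` onto the powerset (`Finset.sum_bij'`, inverse `T ↦ fun a => decide (κ a ∈ T)`), and
`xN N ((univ.filter ..).image κ) = ∑_a bs (ω a) / N (κ a)` (`Finset.sum_image`, `Finset.sum_filter`).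
Alternatively: induction over the finite set of indices with `av_insert`.
-/

namespace Pool.Agent.Helper59.RF

open Finset
open Pool.Agent.Helper59.RE (av wt)

private theorem conn_wt_h12 (S T : Finset ℕ) (hT : T ⊆ S) : wt hf S T = ((2 : ℝ) ^ S.card)⁻¹ := by
  unfold wt hf
  have h1 : ∀ k ∈ S \ T, (1 - 1 / 2 : ℝ) = 1 / 2 := fun _ _ => by norm_num
  rw [Finset.prod_congr rfl h1, Finset.prod_const, Finset.prod_const, ← pow_add]
  have h2 : T.card + (S \ T).card = S.card := by
    rw [Finset.card_sdiff_of_subset hT]
    have := Finset.card_le_card hT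
    omega
  rw [h2, one_div, inv_pow]

theorem conn {N : ℕ → ℝ} {ι : Type*} [Fintype ι] [DecidableEq ι] (κ : ι → ℕ)
    (hκ : Function.Injective κ) {E : Type*} [AddCommGroup E] [Module ℝ E] (F : ℝ → E) :
    av hf (univ.image κ) (fun T => F (xN N T)) =
      ex (fun ω : ι → Bool => F (∑ a, bs (ω a) / N (κ a))) := by
  unfold av ex
  have h1 : ∀ T ∈ (univ.image κ).powerset, wt hf (univ.image κ) T • F (xN N T)
      = (Fintype.card (ι → Bool) : ℝ)⁻¹ • F (xN N T) := by
    intro T hT
    rw [conn_wt_h12 _ _ (Finset.mem_powerset.1 hT), Finset.card_image_of_injective _ hκ,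
      Finset.card_univ, Fintype.card_fun, Fintype.card_bool]
    push_cast
    rfl
  rw [Finset.sum_congr rfl h1, ← Finset.smul_sum]
  congr 1
  refine Finset.sum_bij' (fun T _ => fun a => decide (κ a ∈ T))
    (fun ω _ => (univ.filter (fun a => ω a = true)).image κ) ?_ ?_ ?_ ?_ ?_
  · intro T _
    exact Finset.mem_univ _
  · intro ω _
    rw [Finset.mem_powerset]
    exact Finset.image_subset_image (Finset.filter_subset _ _)
  · intro T hT
    have hT' := Finset.mem_powerset.1 hT
    ext k
    simp only [Finset.mem_image, Finset.mem_filter, Finset.mem_univ, true_and,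
      decide_eq_true_eq]
    constructor
    · rintro ⟨a, ha, rfl⟩
      exact ha
    · intro hk
      obtain ⟨a, _, rfl⟩ := Finset.mem_image.1 (hT' hk)
      exact ⟨a, hk, rfl⟩
  · intro ω _
    funext a
    by_cases h : ω a = true
    · rw [h]
      simp only [Finset.mem_image, Finset.mem_filter, Finset.mem_univ, true_and,
        decide_eq_true_eq]
      exact ⟨a, h, rfl⟩
    · have h' : ω a = false := by simpa using h
      rw [h']
      simp only [Finset.mem_image, Finset.mem_filter, Finset.mem_univ, true_and,
        decide_eq_false_iff_not]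
      rintro ⟨b, hb, hba⟩
      rw [hκ hba] at hb
      exact h hb
  · intro T hT
    have hT' := Finset.mem_powerset.1 hT
    congr 1
    unfold xN
    have h2 : T = (univ.filter (fun a => κ a ∈ T)).image κ := by
      ext k
      simp only [Finset.mem_image, Finset.mem_filter, Finset.mem_univ, true_and]
      constructor
      · intro hk
        obtain ⟨a, _, rfl⟩ := Finset.mem_image.1 (hT' hk)
        exact ⟨a, hk, rfl⟩
      · rintro ⟨a, ha, rfl⟩
        exact ha
    conv_lhs => rw [h2]
    rw [Finset.sum_image (fun a _ b _ h => hκ h), Finset.sum_filter]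
    refine Finset.sum_congr rfl fun a _ => ?_
    by_cases h : κ a ∈ T
    · rw [if_pos h]
      simp [bs, h]
    · rw [if_neg h]
      simp [bs, h]

end Pool.Agent.Helper59.RF
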