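import Pool.Agent.Helper59.RF.DDa

/-!
# Block RF-HD: differences and derivatives

PROOFS.
* `dd_hasDeriv`: induction on `d` (definition of `DD`; `HasDerivAt.sub`, chain rule `HasDerivAt.comp_add_const` for shifts).
* `dif_of_deriv`: induction on `d` for all `G`.  `d = 0`: `DD 0 _ _ g x = g x`, empty product.  Step: with `h = (h0, h_t)`,
  `DD (d+1) h 0 g x = Φ (x + h0) - Φ (x + 0)`, `Φ z = DD d h_t 0 (G 0) z`, and `Φ' z = DD d h_t 0 (G 1) z` for `z ∈ [x, x + h0]`
  (`dd_hasDeriv`; all points `z + partial sums of h_t` lie in `[lo, hi]`), which is between `Z ∏ h_t` and `1.01 Z ∏ h_t` by the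
  induction hypothesis for `G (· + 1)`.  Mean value theorem (`exists_hasDerivAt_eq_slope`, or
  `Convex.mul_sub_le_image_sub_of_le_deriv`; `h0 = 0` separately).
* `tay_of_deriv`: mean value theorem twice: `|g (x + y) - g x| ≤ Z y`, and `f (x + y) - f x - g x y = (g ξ - g x) y` for some `ξ` between
  `x` and `x + y`.
-/

namespace Pool.Agent.Helper59.RF

open Finset

theorem dd_hasDeriv (d : ℕ) (h : Fin d → ℝ) (hh : ∀ l, 0 ≤ h l) (g g' : ℝ → ℝ) (lo hi : ℝ)
    (hg : ∀ x ∈ Set.Icc lo hi, HasDerivAt g (g' x) x) (x : ℝ) (hx : lo ≤ x)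
    (hxh : x + ∑ l, h l ≤ hi) :
    HasDerivAt (fun z => DD d h (fun _ => 0) g z) (DD d h (fun _ => 0) g' x) x := by
  induction d generalizing x with
  | zero =>
    rw [Finset.univ_eq_empty, Finset.sum_empty, add_zero] at hxh
    exact hg x ⟨hx, hxh⟩
  | succ d ih =>
    rw [Fin.sum_univ_succ] at hxh
    have h0 := hh 0
    have ih1 := ih (fun l => h l.succ) (fun l => hh l.succ) (x + h 0) (by linarith)
      (by linarith)
    have ih2 := ih (fun l => h l.succ) (fun l => hh l.succ) (x + 0) (by linarith)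
      (by linarith)
    exact (ih1.comp_add_const x (h 0)).sub (ih2.comp_add_const x 0)

theorem dif_of_deriv (d : ℕ) (G : ℕ → ℝ → ℝ) (lo hi Z : ℝ)
    (hG : ∀ i < d, ∀ x ∈ Set.Icc lo hi, HasDerivAt (G i) (G (i + 1) x) x)
    (hd : ∀ x ∈ Set.Icc lo hi, Z ≤ G d x ∧ G d x ≤ 1.01 * Z) : Dif d (G 0) lo hi Z := by
  induction d generalizing G with
  | zero =>
    intro h x _ hx hxh
    rw [Finset.univ_eq_empty, Finset.sum_empty, add_zero] at hxh
    rw [Finset.univ_eq_empty, Finset.prod_empty, mul_one, mul_one]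
    exact hd x ⟨hx, hxh⟩
  | succ d ih =>
    have ih' := ih (fun i => G (i + 1)) (fun i hi' => hG (i + 1) (by omega)) hd
    intro h x hh hx hxh
    rw [Fin.sum_univ_succ] at hxh
    rw [Fin.prod_univ_succ]
    have h0 := hh 0
    set ht : Fin d → ℝ := fun l => h l.succ with ht_def
    have hht : ∀ l, 0 ≤ ht l := fun l => hh l.succ
    have hxh' : x + (h 0 + ∑ l, ht l) ≤ hi := hxh
    have hst : 0 ≤ ∑ l, ht l := Finset.sum_nonneg fun l _ => hht l
    have hder : ∀ z ∈ Set.Icc x (x + h 0),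
        HasDerivAt (fun z => DD d ht (fun _ => 0) (G 0) z) (DD d ht (fun _ => 0) (G 1) z) z := by
      intro z hz
      exact dd_hasDeriv d ht hht (G 0) (G 1) lo hi (hG 0 (Nat.succ_pos d)) z
        (hx.trans hz.1) (by linarith [hz.2])
    have hbd : ∀ z ∈ Set.Icc x (x + h 0), Z * ∏ l, ht l ≤ DD d ht (fun _ => 0) (G 1) z ∧
        DD d ht (fun _ => 0) (G 1) z ≤ 1.01 * Z * ∏ l, ht l := by
      intro z hz
      exact ih' ht z hht (hx.trans hz.1) (by linarith [hz.2])
    have hDD : DD (d + 1) h (fun _ => 0) (G 0) x =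
        DD d ht (fun _ => 0) (G 0) (x + h 0) - DD d ht (fun _ => 0) (G 0) x := by
      have e : DD (d + 1) h (fun _ => 0) (G 0) x =
        DD d ht (fun _ => 0) (G 0) (x + h 0) - DD d ht (fun _ => 0) (G 0) (x + 0) := rfl
      rw [e, add_zero]
    rw [hDD]
    change Z * (h 0 * ∏ l, ht l) ≤ _ ∧ _ ≤ 1.01 * Z * (h 0 * ∏ l, ht l)
    rcases h0.eq_or_lt with h00 | h00
    · rw [← h00, add_zero, sub_self, zero_mul, mul_zero, mul_zero]
      exact ⟨le_rfl, le_rfl⟩
    · have hlt : x < x + h 0 := by linarith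
      obtain ⟨ξ, hξ, he⟩ := exists_hasDerivAt_eq_slope
        (fun z => DD d ht (fun _ => 0) (G 0) z) (fun z => DD d ht (fun _ => 0) (G 1) z) hlt
        (fun z hz => (hder z hz).continuousAt.continuousWithinAt)
        (fun z hz => hder z ⟨hz.1.le, hz.2.le⟩)
      have hb := hbd ξ ⟨hξ.1.le, hξ.2.le⟩
      have he' : DD d ht (fun _ => 0) (G 0) (x + h 0) - DD d ht (fun _ => 0) (G 0) x =
          DD d ht (fun _ => 0) (G 1) ξ * h 0 := by
        have h2 : x + h 0 - x = h 0 := by ring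
        rw [h2] at he
        have h3 : (h 0) ≠ 0 := ne_of_gt h00
        have he2 : DD d ht (fun _ => 0) (G 1) ξ =
          (DD d ht (fun _ => 0) (G 0) (x + h 0) - DD d ht (fun _ => 0) (G 0) x) / h 0 := he
        rw [he2, div_mul_cancel₀ _ h3]
      rw [he']
      constructor
      · have := mul_le_mul_of_nonneg_right hb.1 h0
        calc Z * (h 0 * ∏ l, ht l) = Z * (∏ l, ht l) * h 0 := by ring
          _ ≤ _ := this
      · have := mul_le_mul_of_nonneg_right hb.2 h0
        calc _ ≤ 1.01 * Z * (∏ l, ht l) * h 0 := this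
          _ = _ := by ring

theorem tay_of_deriv (f g g2 : ℝ → ℝ) (lo hi Z : ℝ)
    (hf : ∀ x ∈ Set.Icc lo hi, HasDerivAt f (g x) x)
    (hg : ∀ x ∈ Set.Icc lo hi, HasDerivAt g (g2 x) x)
    (h2 : ∀ x ∈ Set.Icc lo hi, |g2 x| ≤ Z) : Tay f g lo hi Z := by
  have hlip : ∀ x y : ℝ, lo ≤ x → 0 ≤ y → x + y ≤ hi → |g (x + y) - g x| ≤ Z * y := by
    intro x y hx hy hxy
    rcases hy.eq_or_lt with h0 | h0
    · rw [← h0, add_zero, sub_self, abs_zero, mul_zero]
    · obtain ⟨ξ, hξ, he⟩ := exists_hasDerivAt_eq_slope g g2 (show x < x + y by linarith)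
        (fun z hz => (hg z ⟨hx.trans hz.1, hz.2.trans hxy⟩).continuousAt.continuousWithinAt)
        (fun z hz => hg z ⟨hx.trans hz.1.le, hz.2.le.trans hxy⟩)
      have h3 : x + y - x = y := by ring
      rw [h3] at he
      have he' : g (x + y) - g x = g2 ξ * y := by
        rw [he, div_mul_cancel₀ _ (ne_of_gt h0)]
      rw [he', abs_mul, abs_of_pos h0]
      exact mul_le_mul_of_nonneg_right (h2 ξ ⟨hx.trans hξ.1.le, hξ.2.le.trans hxy⟩) hy
  intro x y hx hy hxy
  refine ⟨?_, hlip x y hx hy hxy⟩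
  rcases hy.eq_or_lt with h0 | h0
  · rw [← h0, add_zero, sub_self, mul_zero, sub_zero, abs_zero]
    simp
  · obtain ⟨ξ, hξ, he⟩ := exists_hasDerivAt_eq_slope f g (show x < x + y by linarith)
      (fun z hz => (hf z ⟨hx.trans hz.1, hz.2.trans hxy⟩).continuousAt.continuousWithinAt)
      (fun z hz => hf z ⟨hx.trans hz.1.le, hz.2.le.trans hxy⟩)
    have h3 : x + y - x = y := by ring
    rw [h3] at he
    have he' : f (x + y) - f x - g x * y = (g ξ - g x) * y := by
      have h4 : f (x + y) - f x = g ξ * y := by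
        rw [he, div_mul_cancel₀ _ (ne_of_gt h0)]
      rw [h4]; ring
    rw [he', abs_mul, abs_of_pos h0]
    have h5 := hlip x (ξ - x) hx (by linarith [hξ.1]) (by linarith [hξ.2])
    rw [show x + (ξ - x) = ξ by ring] at h5
    have hZ : 0 ≤ Z := (abs_nonneg _).trans (h2 x ⟨hx, by linarith⟩)
    have h6 : |g ξ - g x| ≤ Z * y :=
      h5.trans (mul_le_mul_of_nonneg_left (by linarith [hξ.2]) hZ)
    calc |g ξ - g x| * y ≤ Z * y * y := mul_le_mul_of_nonneg_right h6 hy
      _ = Z * y ^ 2 := by ring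

end Pool.Agent.Helper59.RF
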