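import Pool.Agent.Helper59.RF.Bas

/-!
# Block RF-SGE: growth of the denominators

PROOFS.
* `N_mono`: `N k ≤ N (k+1)` for `k ≥ 1` (`hN.dbl`), induction.
* `s_geN`: suppose `s < m^(3/4)`.  With `k1 = ⌈m^(3/4)⌉₊ + k₀ + 1 ≥ s + 1`, `N (s+1) ≤ N k1 ≤ k1^(D k1) = exp (D k1 log k1)` and for `m` large
  `D k1 log k1 ≤ C m^(7/8) ≤ m log b' + log c - 1` (`k1 ≤ 2 m^(3/4)`, `log k1 ≤ log (2 m)`), so `N (s+1) < c b'^m`, a contradiction.
* `width_smallN`: `N (Nat.sqrt m) ≥ 2^(√m - 1) N 1 ≥ 2 C m` for `m` large (`Bs.two_pow`; `√m` = `Nat.sqrt m`).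
* `N_tendsto`: `Bs.two_pow`.
* `exists_s`: the least `s ≥ S₀` with `Y < N (s+1)` (`N_tendsto`, `Nat.find`).
-/

namespace Pool.Agent.Helper59.RF

open Finset

theorem N_mono {N : ℕ → ℝ} (hN : Bs N) (k l : ℕ) (hk : 1 ≤ k) (hl : k ≤ l) : N k ≤ N l := by
  induction l, hl using Nat.le_induction with
  | base => exact le_refl _
  | succ l hl ih =>
    obtain ⟨θ, hθ1, hθ2⟩ := hN.dbl
    have h1 := hθ2 l (hk.trans hl)
    have h2 := hN.pos l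
    nlinarith

theorem N_tendsto {N : ℕ → ℝ} (hN : Bs N) : Filter.Tendsto N Filter.atTop Filter.atTop := by
  rw [← Filter.tendsto_add_atTop_iff_nat 1]
  obtain ⟨θ, hθ1, hθ2⟩ := hN.grow
  have h1 : Filter.Tendsto (fun k : ℕ => θ ^ k * N 1) Filter.atTop Filter.atTop :=
    (tendsto_pow_atTop_atTop_of_one_lt hθ1).atTop_mul_const (hN.pos 1)
  refine Filter.tendsto_atTop_mono (fun k => ?_) h1
  have h2 := hθ2 (k + 1) (by omega)
  simpa using h2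

theorem exists_s {N : ℕ → ℝ} (hN : Bs N) (S₀ : ℕ) (Y : ℝ) (hY : N S₀ ≤ Y) :
    ∃ s : ℕ, S₀ ≤ s ∧ N s ≤ Y ∧ Y < N (s + 1) := by
  classical
  have hex : ∃ j : ℕ, Y < N (S₀ + j + 1) := by
    have h1 := (N_tendsto hN).eventually (Filter.eventually_gt_atTop Y)
    obtain ⟨M, hM⟩ := Filter.eventually_atTop.mp h1
    refine ⟨M, hM _ (by omega)⟩
  refine ⟨S₀ + Nat.find hex, by omega, ?_, Nat.find_spec hex⟩
  rcases Nat.eq_zero_or_pos (Nat.find hex) with h0 | h0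
  · rw [h0]
    simpa using hY
  · have h1 := Nat.find_min hex (m := Nat.find hex - 1) (by omega)
    have h2 : S₀ + (Nat.find hex - 1) + 1 = S₀ + Nat.find hex := by omega
    rw [h2] at h1
    exact not_lt.mp h1

private theorem growth52 (D : ℕ) (c b' : ℝ) (hb : 1 < b') :
    ∀ᶠ m : ℕ in Filter.atTop,
      24 * (D + 1) * ((m : ℝ) ^ (3 / 4 : ℝ)) ^ (7 / 6 : ℝ) < m * Real.log b' + Real.log c := by
  have hlog : 0 < Real.log b' := Real.log_pos hb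
  have h1 : Filter.Tendsto (fun m : ℕ => ((m : ℝ)) ^ (-(1 / 8 : ℝ))) Filter.atTop (nhds 0) :=
    (tendsto_rpow_neg_atTop (by norm_num : (0 : ℝ) < 1 / 8)).comp tendsto_natCast_atTop_atTop
  have h2 : ∀ᶠ m : ℕ in Filter.atTop, ((m : ℝ)) ^ (-(1 / 8 : ℝ)) < Real.log b' / (48 * (D + 1)) :=
    h1.eventually (gt_mem_nhds (by positivity))
  have h3 : Filter.Tendsto (fun m : ℕ => (m : ℝ) * (Real.log b' / 2)) Filter.atTop Filter.atTop :=
    tendsto_natCast_atTop_atTop.atTop_mul_const (by positivity)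
  have h4 := h3.eventually (Filter.eventually_gt_atTop (- Real.log c))
  filter_upwards [h2, h4, Filter.eventually_ge_atTop 1] with m h2 h4 h5
  have hm : (0 : ℝ) < m := by
    have : (1 : ℝ) ≤ m := by exact_mod_cast h5
    linarith
  have h6 : ((m : ℝ) ^ (3 / 4 : ℝ)) ^ (7 / 6 : ℝ) = m * (m : ℝ) ^ (-(1 / 8 : ℝ)) := by
    rw [← Real.rpow_mul hm.le]
    nth_rewrite 2 [← Real.rpow_one (m : ℝ)]
    rw [← Real.rpow_add hm]
    norm_num
  rw [h6]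
  have hD : (0 : ℝ) < D + 1 := by positivity
  have h7 : (m : ℝ) * (m : ℝ) ^ (-(1 / 8 : ℝ)) < m * (Real.log b' / (48 * (D + 1))) :=
    mul_lt_mul_of_pos_left h2 hm
  have h8 : 24 * (D + 1) * ((m : ℝ) * (m : ℝ) ^ (-(1 / 8 : ℝ))) <
      24 * (D + 1) * (m * (Real.log b' / (48 * (D + 1)))) :=
    mul_lt_mul_of_pos_left h7 (by positivity)
  have h9 : 24 * ((D : ℝ) + 1) * (m * (Real.log b' / (48 * (D + 1)))) = m * (Real.log b' / 2) := by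
    field_simp
    norm_num
  linarith

theorem s_geN {N : ℕ → ℝ} (hN : Bs N) (D k₀ : ℕ) (hg : ∀ k : ℕ, k₀ ≤ k → N k ≤ (k : ℝ) ^ (D * k))
    (c b' : ℝ) (hc : 0 < c) (hb : 1 < b') :
    ∃ m₀ : ℕ, ∀ m : ℕ, m₀ ≤ m → ∀ s : ℕ, c * b' ^ m < N (s + 1) → (m : ℝ) ^ (3 / 4 : ℝ) ≤ s := by
  have hb0 : 0 < b' := by linarith
  have ht : Filter.Tendsto (fun m : ℕ => (m : ℝ) ^ (3 / 4 : ℝ)) Filter.atTop Filter.atTop :=
    (tendsto_rpow_atTop (by norm_num : (0 : ℝ) < 3 / 4)).comp tendsto_natCast_atTop_atTop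
  have h1 := ht.eventually (Filter.eventually_ge_atTop ((k₀ : ℝ) + 2))
  obtain ⟨m₀, hm₀⟩ := Filter.eventually_atTop.mp (h1.and (growth52 D c b' hb))
  refine ⟨m₀, fun m hm s hs => ?_⟩
  obtain ⟨h2, h3⟩ := hm₀ m hm
  by_contra hcon
  rw [not_le] at hcon
  set t : ℝ := (m : ℝ) ^ (3 / 4 : ℝ) with htdef
  have hk0 : (0 : ℝ) ≤ k₀ := Nat.cast_nonneg _
  have ht0 : 0 < t := by linarith
  set k1 : ℕ := ⌈t⌉₊ + k₀ + 1 with hk1
  have h4 : s + 1 ≤ k1 := by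
    have : s < ⌈t⌉₊ := Nat.lt_ceil.mpr hcon
    omega
  have h5 : N (s + 1) ≤ N k1 := N_mono hN _ _ (by omega) h4
  have h6 : N k1 ≤ (k1 : ℝ) ^ (D * k1) := hg k1 (by omega)
  have h7 : (k1 : ℝ) ≤ 2 * t := by
    have h8 : (⌈t⌉₊ : ℝ) < t + 1 := Nat.ceil_lt_add_one ht0.le
    rw [hk1]
    push_cast
    linarith
  have h8 : (1 : ℝ) ≤ (k1 : ℝ) := by
    have : 1 ≤ k1 := by omega
    exact_mod_cast this
  have h9 : (0 : ℝ) < k1 := by linarith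
  have h10 : (k1 : ℝ) ^ (D * k1) = Real.exp ((D * k1 : ℝ) * Real.log k1) := by
    rw [← Real.rpow_natCast, Real.rpow_def_of_pos h9]
    congr 1
    push_cast
    ring
  have h11 : Real.log (k1 : ℝ) ≤ Real.log (2 * t) := Real.log_le_log h9 h7
  have h12 : Real.log (2 * t) ≤ (2 * t) ^ (1 / 6 : ℝ) / (1 / 6) :=
    Real.log_le_rpow_div (by positivity) (by norm_num)
  have h13 : (2 * t) ^ (1 / 6 : ℝ) ≤ 2 * t ^ (1 / 6 : ℝ) := by
    rw [Real.mul_rpow (by norm_num) ht0.le]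
    refine mul_le_mul_of_nonneg_right ?_ (by positivity)
    calc (2 : ℝ) ^ (1 / 6 : ℝ) ≤ (2 : ℝ) ^ (1 : ℝ) :=
          Real.rpow_le_rpow_of_exponent_le (by norm_num) (by norm_num)
      _ = 2 := Real.rpow_one 2
  have h14 : t ^ (7 / 6 : ℝ) = t * t ^ (1 / 6 : ℝ) := by
    nth_rewrite 2 [← Real.rpow_one t]
    rw [← Real.rpow_add ht0]
    norm_num
  have h15 : (D * k1 : ℝ) * Real.log k1 ≤ 24 * (D + 1) * t ^ (7 / 6 : ℝ) := by
    have h16 : Real.log (k1 : ℝ) ≤ 12 * t ^ (1 / 6 : ℝ) := by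
      have : (2 * t) ^ (1 / 6 : ℝ) / (1 / 6) = 6 * (2 * t) ^ (1 / 6 : ℝ) := by ring
      linarith
    have h17 : 0 ≤ Real.log (k1 : ℝ) := Real.log_nonneg h8
    have hD0 : (0 : ℝ) ≤ D := Nat.cast_nonneg _
    calc (D * k1 : ℝ) * Real.log k1 ≤ ((D + 1) * (2 * t)) * (12 * t ^ (1 / 6 : ℝ)) :=
          mul_le_mul (mul_le_mul (by linarith) h7 h9.le (by linarith)) h16 h17 (by positivity)
      _ = 24 * (D + 1) * t ^ (7 / 6 : ℝ) := by rw [h14]; ring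
  have h18 : c * b' ^ m = Real.exp (m * Real.log b' + Real.log c) := by
    rw [Real.exp_add, Real.exp_log hc, mul_comm (m : ℝ), ← Real.rpow_def_of_pos hb0,
      Real.rpow_natCast]
    ring
  have h19 : (k1 : ℝ) ^ (D * k1) < c * b' ^ m := by
    rw [h10, h18]
    exact Real.exp_lt_exp.mpr (by linarith)
  linarith

theorem width_smallN {N : ℕ → ℝ} (hN : Bs N) (C : ℝ) (hC : 0 < C) :
    ∃ m₀ : ℕ, ∀ m : ℕ, m₀ ≤ m → 1 ≤ Nat.sqrt m ∧ tc N / N (Nat.sqrt m) ≤ 1 / (C * m) := by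
  have hN1 := hN.pos 1
  have htc := tc_pos hN
  obtain ⟨θ, hθ1, hθ2⟩ := hN.grow
  have hθ0 : 0 < θ := by linarith
  have h1 := tendsto_pow_const_div_const_pow_of_one_lt 2 hθ1
  have h2 := h1.eventually (gt_mem_nhds (by positivity : (0 : ℝ) < N 1 / (θ ^ 2 * tc N * C)))
  obtain ⟨r₀, hr₀⟩ := Filter.eventually_atTop.mp h2
  refine ⟨(r₀ + 1) * (r₀ + 1), fun m hm => ?_⟩
  have h3 : r₀ + 1 ≤ Nat.sqrt m := Nat.le_sqrt.mpr hm
  have hm0 : 0 < m := lt_of_lt_of_le (by positivity) hm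
  refine ⟨by omega, ?_⟩
  set r := Nat.sqrt m with hr
  have h4 : m < (r + 1) * (r + 1) := Nat.lt_succ_sqrt m
  have h5 := hr₀ (r + 1) (by omega)
  have h6 := hθ2 r (by omega)
  have hp : (0 : ℝ) < θ ^ (r + 1) := by positivity
  rw [div_lt_div_iff₀ hp (by positivity)] at h5
  have h7 : θ ^ (r + 1) = θ ^ 2 * θ ^ (r - 1) := by
    have : r + 1 = 2 + (r - 1) := by omega
    rw [this, pow_add]
  rw [h7] at h5
  have h8 : (m : ℝ) ≤ ((r + 1 : ℕ) : ℝ) ^ 2 := by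
    have : m ≤ (r + 1) ^ 2 := by rw [pow_two]; exact h4.le
    exact_mod_cast this
  have hm1 : (0 : ℝ) < m := by exact_mod_cast hm0
  rw [div_le_div_iff₀ (hN.pos r) (by positivity)]
  have h9 : (m : ℝ) * (θ ^ 2 * tc N * C) ≤ ((r + 1 : ℕ) : ℝ) ^ 2 * (θ ^ 2 * tc N * C) :=
    mul_le_mul_of_nonneg_right h8 (by positivity)
  have h10 : θ ^ 2 * (m * (tc N * C)) < θ ^ 2 * (θ ^ (r - 1) * N 1) := by
    calc θ ^ 2 * (m * (tc N * C)) = m * (θ ^ 2 * tc N * C) := by ring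
      _ ≤ ((r + 1 : ℕ) : ℝ) ^ 2 * (θ ^ 2 * tc N * C) := h9
      _ < N 1 * (θ ^ 2 * θ ^ (r - 1)) := h5
      _ = θ ^ 2 * (θ ^ (r - 1) * N 1) := by ring
  have h11 := lt_of_mul_lt_mul_left h10 (by positivity : (0 : ℝ) ≤ θ ^ 2)
  calc tc N * (C * m) = m * (tc N * C) := by ring
    _ ≤ θ ^ (r - 1) * N 1 := h11.le
    _ ≤ 1 * N r := by rw [one_mul]; exact h6

end Pool.Agent.Helper59.RF
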