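import Pool.Agent.Helper59.RF.CorrW
import Pool.Agent.Helper59.RF.AsyW
import Pool.Agent.Helper59.RF.HD
import Pool.Agent.Helper59.RF.CalcR
import Pool.Agent.Helper59.RF.SGe
import Pool.Agent.Helper59.RE.Calc3

/-!
# Project RF: the correlations, finitely many digits
-/

namespace Pool.Agent.Helper59.RF

open Finset Polynomial
open Pool.Agent.Helper59.RE (e av mu av_union av_norm av_mono av_congr av_const FF G0)

theorem fi_zero (P : ℝ[X]) (m n : ℕ) (x : ℝ) : Fi P m n 0 x = FF P m n x := by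
  simp only [Fi, FF, G0, Function.iterate_zero, id_eq, eval_mul, eval_sub, eval_pow, eval_X]

/-- The case of one pattern of the digits between `q` and `q'`. -/
theorem corrFin2_inner {N : ℕ → ℝ} (hN : Bs N) (P : ℝ[X]) (b'' Z t0 : ℝ) (m n h d Q s L : ℕ)
    (δ : ℝ) (hδ0 : 0 < δ) (hδ1 : δ ≤ 1 / 4) (hs : 2 ≤ s) (hd : 2 ≤ d) (hdδ : 2 ≤ δ * d)
    (w : WS N δ (h * Z) t0 s d Q L) (ht0 : 0 < t0) (ht1 : t0 ≤ 6 / 25)
    (hγ : gam t0 s d Q ≤ 1) (hZ : 0 ≤ Z) (p : ℕ → ℝ) (hp0 : ∀ k, 0 ≤ p k) (hp1 : ∀ k, p k ≤ 1)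
    (hmu : ∀ k : ℕ, (s : ℝ) ^ (1 - δ / 4) ≤ k → k ≤ s → (s : ℝ) ^ (-1 + δ) ≤ mu p k)
    (q' M : ℕ) (hq' : 1 ≤ q') (hq's : (q' : ℝ) ≤ (s : ℝ) ^ (1 - δ / 4)) (hM : s < M)
    (hF : ∀ x ∈ Set.Icc b'' (b'' + tc N / N q'), Z ≤ Fi P m n (d + 1) x ∧
      Fi P m n (d + 1) x ≤ 1.01 * Z ∧ |Fi P m n 2 x| ≤ Z)
    (hfin : (gam t0 s d Q + Q * ((s : ℝ) ^ (δ / 8) *
        (2 ^ (d + 1) * (s : ℝ) ^ (-(2 / 3 * δ)) + (s : ℝ) ^ (-δ)))) ^ L +
        (2 * d + 7) * (L * Q) ^ 2 * (1 / (s : ℝ) ^ 30) ≤ 1 / (m : ℝ) ^ 4) :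
    ‖av p (Ico q' M) (fun T => e (h * FF P m n (b'' + xN N T)))‖ ≤ 1 / (m : ℝ) ^ 4 := by
  have hh0 : (0 : ℝ) ≤ h := Nat.cast_nonneg h
  have hT : Tay (fun x => (h : ℝ) * Fi P m n 0 x) (fun x => (h : ℝ) * Fi P m n 1 x) b''
      (b'' + tc N / N q') (h * Z) := by
    refine tay_of_deriv _ _ (fun x => (h : ℝ) * Fi P m n 2 x) _ _ _ ?_ ?_ ?_
    · intro x _
      exact (fi_hasDeriv P m n 0 x).const_mul _
    · intro x _
      exact (fi_hasDeriv P m n 1 x).const_mul _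
    · intro x hx
      rw [abs_mul, abs_of_nonneg hh0]
      exact mul_le_mul_of_nonneg_left (hF x hx).2.2 hh0
  have hD : Dif d (fun x => (h : ℝ) * Fi P m n 1 x) b'' (b'' + tc N / N q') (h * Z) := by
    refine dif_of_deriv d (fun i x => (h : ℝ) * Fi P m n (i + 1) x) _ _ _ ?_ ?_
    · intro i _ x _
      exact (fi_hasDeriv P m n (i + 1) x).const_mul _
    · intro x hx
      obtain ⟨h1, h2, _⟩ := hF x hx
      refine ⟨mul_le_mul_of_nonneg_left h1 hh0, ?_⟩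
      have := mul_le_mul_of_nonneg_left h2 hh0
      calc (h : ℝ) * Fi P m n (d + 1) x ≤ h * (1.01 * Z) := this
        _ = 1.01 * (h * Z) := by ring
  have h1 := corrW hN hδ0 hδ1 hs hd hdδ w ht0 ht1 hγ (mul_nonneg hh0 hZ) p hp0 hp1 hmu q' M hq'
    hq's hM _ _ b'' hT hD
  refine le_trans (le_of_eq ?_) (h1.trans hfin)
  simp only [fi_zero]

theorem corr_finN {N : ℕ → ℝ} (hN : Bs N) (hW : WinProp N) (D k₁ : ℕ)
    (hg : ∀ k : ℕ, k₁ ≤ k → N k ≤ (k : ℝ) ^ (D * k)) (P : ℝ[X]) (b' : ℝ) (hb : 1 < b') (q : ℕ)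
    (hq : 1 ≤ q) (hP : ∀ x ∈ Set.Icc b' (b' + tc N / N q), 0 < P.eval x) (δ : ℝ) (hδ0 : 0 < δ)
    (hδ1 : δ ≤ 1 / 4) (p : ℕ → ℝ) (hp0 : ∀ k, 0 ≤ p k) (hp1 : ∀ k, p k ≤ 1) (k₀ : ℕ)
    (hμ : ∀ k : ℕ, k₀ ≤ k → (k : ℝ) ^ (-1 + δ) ≤ mu p k) :
    ∃ m₀ : ℕ, ∀ m : ℕ, m₀ ≤ m → ∀ n < m, ∀ h : ℕ, 1 ≤ h → ∃ M₀ : ℕ, ∀ M : ℕ, M₀ ≤ M →
      ‖av p (Ico q M) (fun T => e (h * FF P m n (b' + xN N T)))‖ ≤ 1 / (m : ℝ) ^ 4 := by
  obtain ⟨t0, ht0, ht1, hWin⟩ := hW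
  obtain ⟨d, hd, hdδ⟩ : ∃ d : ℕ, 2 ≤ d ∧ 2 ≤ δ * d := by
    refine ⟨max 2 ⌈2 / δ⌉₊, le_max_left _ _, ?_⟩
    have h1 : 2 / δ ≤ (max 2 ⌈2 / δ⌉₊ : ℕ) :=
      (Nat.le_ceil _).trans (by exact_mod_cast le_max_right _ _)
    rw [div_le_iff₀ hδ0] at h1
    linarith
  obtain ⟨Q, hQ, S1, hS1⟩ := asyW δ t0 hδ0 hδ1 ht0 ht1 d hd
  obtain ⟨S2, hS2⟩ := hWin δ hδ0 hδ1 d Q hd hQ
  obtain ⟨c, C, hc, hC, m₁, hcalc⟩ := calcR P b' (tc N / N q) hb (div_pos (tc_pos hN) (hN.pos q)) hP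
    (d + 1) (by omega)
  obtain ⟨m3, hsge⟩ := s_geN hN D k₁ hg c b' hc hb
  obtain ⟨m4, hwid⟩ := width_smallN hN C hC
  -- a lower bound for `s`
  obtain ⟨S, hSdef⟩ : ∃ S, S = S1 + S2 + k₀ ^ 2 + 4 := ⟨_, rfl⟩
  obtain ⟨m5, hm5⟩ : ∃ m5 : ℕ, ∀ m, m5 ≤ m → N S ≤ c * b' ^ m := by
    have ht : Filter.Tendsto (fun m : ℕ => c * b' ^ m) Filter.atTop Filter.atTop :=
      (tendsto_pow_atTop_atTop_of_one_lt hb).const_mul_atTop hc
    obtain ⟨m5, h5⟩ := (ht.eventually_ge_atTop (N S)).exists_forall_of_atTop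
    exact ⟨m5, h5⟩
  refine ⟨m₁ + m3 + m4 + m5 + q * q + 1, ?_⟩
  intro m hm n hn h hh
  have hm1 : 1 ≤ m := by omega
  have hqq : q ≤ Nat.sqrt m := by
    rw [Nat.le_sqrt]
    omega
  obtain ⟨q', hq'def⟩ : ∃ q', q' = Nat.sqrt m := ⟨_, rfl⟩
  rw [← hq'def] at hqq
  have hq'1 : 1 ≤ q' := hq.trans hqq
  have hwidm : tc N / N q' ≤ 1 / (C * m) := by
    rw [hq'def]; exact (hwid m (by omega)).2
  have hh0 : (1 : ℝ) ≤ h := by exact_mod_cast hh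
  have key : ∀ T : Finset ℕ, ∃ M₀ : ℕ, T ⊆ Ico q q' → ∀ M, M₀ ≤ M →
      ‖av p (Ico q' M) (fun T' => e (h * FF P m n ((b' + xN N T) + xN N T')))‖ ≤
        1 / (m : ℝ) ^ 4 := by
    intro T
    by_cases hT : T ⊆ Ico q q'
    · have hx0 := xN_nonneg hN T
      have hx1 := xN_le hN q q' hq hqq T hT
      have hNq' : 0 < tc N / N q' := div_pos (tc_pos hN) (hN.pos q')
      obtain ⟨Z, hZ1, hZ2⟩ := hcalc m (by omega) n hn (b' + xN N T) (tc N / N q')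
        (by linarith) hNq'.le hwidm (by linarith)
      have hb0 : 0 < b' := by linarith
      have hZpos : 0 < Z := lt_of_lt_of_le (by positivity) hZ1
      have hZh : Z ≤ h * Z := by nlinarith
      obtain ⟨s, hs, hs1, hs2⟩ := exists_s hN S (h * Z) (((hm5 m (by omega)).trans hZ1).trans hZh)
      have hsS1 : S1 ≤ s := by omega
      have hsS2 : S2 ≤ s := by omega
      have hs4 : 4 ≤ s := by omega
      have hsm : (m : ℝ) ^ (3 / 4 : ℝ) ≤ s :=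
        hsge m (by omega) s (lt_of_le_of_lt (hZ1.trans hZh) hs2)
      have hs0 : (1 : ℝ) ≤ s := by exact_mod_cast (by omega : 1 ≤ s)
      have hmR : (1 : ℝ) ≤ m := by exact_mod_cast hm1
      obtain ⟨w⟩ := hS2 s hsS2 (h * Z) hs1 hs2
      obtain ⟨hγ, hfin⟩ := hS1 s hsS1
      have hq's : (q' : ℝ) ≤ (s : ℝ) ^ (1 - δ / 4) := by
        have e1 : (q' : ℝ) ≤ Real.sqrt m := by rw [hq'def]; exact Real.nat_sqrt_le_real_sqrt
        have e2 : Real.sqrt m = (m : ℝ) ^ (1 / 2 : ℝ) := Real.sqrt_eq_rpow _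
        have e3 : (m : ℝ) ^ (1 / 2 : ℝ) ≤ (m : ℝ) ^ ((3 / 4 : ℝ) * (1 - δ / 4)) :=
          Real.rpow_le_rpow_of_exponent_le hmR (by nlinarith)
        have e4 : (m : ℝ) ^ ((3 / 4 : ℝ) * (1 - δ / 4)) = ((m : ℝ) ^ (3 / 4 : ℝ)) ^ (1 - δ / 4) :=
          Real.rpow_mul (by positivity) _ _
        have e5 : ((m : ℝ) ^ (3 / 4 : ℝ)) ^ (1 - δ / 4) ≤ (s : ℝ) ^ (1 - δ / 4) :=
          Real.rpow_le_rpow (by positivity) hsm (by linarith)
        rw [e2] at e1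
        rw [e4] at e3
        linarith
      have hmu : ∀ k : ℕ, (s : ℝ) ^ (1 - δ / 4) ≤ k → k ≤ s →
          (s : ℝ) ^ (-1 + δ) ≤ mu p k := by
        intro k hk1 hk2
        have hk0 : k₀ ≤ k := by
          have e1 : ((k₀ : ℝ) ^ 2) ≤ s := by
            have : k₀ ^ 2 ≤ s := by omega
            exact_mod_cast this
          have e2 : (s : ℝ) ^ (1 / 2 : ℝ) ≤ (s : ℝ) ^ (1 - δ / 4) :=
            Real.rpow_le_rpow_of_exponent_le hs0 (by linarith)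
          have e3 : (k₀ : ℝ) ≤ (s : ℝ) ^ (1 / 2 : ℝ) := by
            rw [← Real.sqrt_eq_rpow]
            exact Real.le_sqrt_of_sq_le e1
          have e4 : (k₀ : ℝ) ≤ k := by linarith
          exact_mod_cast e4
        have hkpos : (0 : ℝ) < k := lt_of_lt_of_le (by positivity) hk1
        have e5 : (s : ℝ) ^ (-1 + δ) ≤ (k : ℝ) ^ (-1 + δ) :=
          Real.rpow_le_rpow_of_nonpos hkpos (by exact_mod_cast hk2) (by linarith)
        exact e5.trans (hμ k hk0)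
      have hfin' : 1 / (s : ℝ) ^ 6 ≤ 1 / (m : ℝ) ^ 4 := by
        refine one_div_le_one_div_of_le (by positivity) ?_
        have e1 : ((m : ℝ) ^ (3 / 4 : ℝ)) ^ 6 ≤ (s : ℝ) ^ 6 :=
          pow_le_pow_left₀ (by positivity) hsm 6
        have e2 : ((m : ℝ) ^ (3 / 4 : ℝ)) ^ 6 = (m : ℝ) ^ (9 / 2 : ℝ) := by
          rw [← Real.rpow_natCast, ← Real.rpow_mul (by positivity)]
          norm_num
        have e3 : (m : ℝ) ^ 4 ≤ (m : ℝ) ^ (9 / 2 : ℝ) := by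
          rw [← Real.rpow_natCast]
          exact Real.rpow_le_rpow_of_exponent_le hmR (by norm_num)
        rw [e2] at e1
        linarith
      refine ⟨s + 1, fun _ M hM => ?_⟩
      exact corrFin2_inner hN P (b' + xN N T) Z t0 m n h d Q s (Ln δ d s) δ hδ0 hδ1 (by omega) hd
        hdδ w ht0 ht1 hγ hZpos.le p hp0 hp1 hmu q' M hq'1 hq's (by omega) hZ2
        (hfin.trans hfin')
    · exact ⟨0, fun hT' => absurd hT' hT⟩
  choose M0 hM0 using key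
  refine ⟨max q' ((Ico q q').powerset.sup M0), ?_⟩
  intro M hM
  have hM' : q' ≤ M := (le_max_left _ _).trans hM
  have hdis : Disjoint (Ico q q') (Ico q' M) := Ico_disjoint_Ico_consecutive q q' M
  have hun : Ico q M = Ico q q' ∪ Ico q' M := (Ico_union_Ico_eq_Ico hqq hM').symm
  rw [hun, av_union p _ _ hdis]
  calc ‖av p (Ico q q') (fun T => av p (Ico q' M)
          (fun T' => e (h * FF P m n (b' + xN N (T ∪ T')))))‖
      ≤ av p (Ico q q') (fun T => ‖av p (Ico q' M)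
          (fun T' => e (h * FF P m n (b' + xN N (T ∪ T'))))‖) := av_norm p hp0 hp1 _ _
    _ ≤ av p (Ico q q') (fun _ => 1 / (m : ℝ) ^ 4) := by
        refine av_mono p hp0 hp1 _ _ _ ?_
        intro T hT
        have hcg : av p (Ico q' M) (fun T' => e (h * FF P m n (b' + xN N (T ∪ T')))) =
            av p (Ico q' M) (fun T' => e (h * FF P m n ((b' + xN N T) + xN N T'))) := by
          refine av_congr p _ _ _ ?_
          intro T' hT'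
          have hd : Disjoint T T' := disjoint_of_subset_left hT (disjoint_of_subset_right hT' hdis)
          simp only [xN_union T T' hd, add_assoc]
        simp only [hcg]
        refine hM0 T hT M ?_
        exact (le_sup (f := M0) (mem_powerset.mpr hT)).trans ((le_max_right _ _).trans hM)
    _ = 1 / (m : ℝ) ^ 4 := av_const p _ _

end Pool.Agent.Helper59.RF
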