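import Pool.Agent.Helper59.RF.Marg

/-!
# Block RF-SM: the second moment method

`U` is the random subset of `S` which contains `k` with probability `ν k`, and `ν k = t` on the pairwise disjoint windows
`W l` (`l < r`).  `TT` is a set of tuples `τ`, `τ l ∈ W l`, and any `r - 1` coordinates of a tuple of `TT` determine the last one.

PROOF.  Let `X U = ∑_(τ ∈ TT) [τ ⊆ U]`.  For a finite set `B ⊆ S` the probability of `B ⊆ U` is `∏_(k ∈ B) ν k` (`av_marg` to `B`, or
induction with `av_insert`).  So `E X = |TT| t^r =: m` (the values `τ l` are distinct), and, with the agreement set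
`B = {l | τ l = τ' l}`, `E X² = ∑_(τ,τ') t^(2r - |B|)` (the windows are disjoint: `τ l = τ' l'` only for `l = l'`).
`[X = 0] ≤ (X - m)² / m²`, so the left side is at most
`(E X² - m²)/m² = ∑_(τ,τ') (t^(-|B|) - 1) / |TT|² ≤ ∑_(τ,τ' : B ≠ ∅) t^(-|B|) / |TT|²`.
For fixed `τ` and `B ≠ ∅`, `B ≠ univ` the number of `τ' ∈ TT` with agreement set exactly `B` is at most `u^(r - 1 - |B|)`: choose `l0 ∉ B`;
`τ'` is determined by its coordinates outside `B ∪ {l0}` (`hinj`), and there are at most `∏ |W l| ≤ u^(r-1-|B|)` of these.  For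
`B = univ` there is one `τ'`.  So the sum is at most
`|TT| (∑_(B ≠ ∅, univ) u^(r-1-|B|) t^(-|B|) + t^(-r)) / |TT|² ≤ (1/|TT|) (u^(r-1) 2^r / (u t) + t^(-r))` because `u t ≥ 1`, and
`t^(-r) = u^(r-1) * u / (u t)^r`.
-/

namespace Pool.Agent.Helper59.RF

open Finset
open Pool.Agent.Helper59.RE (av wt mu)

private lemma av_sum53 {ι : Type*} (p : ℕ → ℝ) (S : Finset ℕ) (s : Finset ι)
    (F : ι → Finset ℕ → ℝ) : av p S (fun U => ∑ i ∈ s, F i U) = ∑ i ∈ s, av p S (F i) := by
  unfold av
  rw [Finset.sum_comm]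
  refine Finset.sum_congr rfl fun T _ => ?_
  rw [Finset.smul_sum]

private lemma av_sub53 (p : ℕ → ℝ) (S : Finset ℕ) : ∀ B : Finset ℕ, B ⊆ S →
    av p S (fun U => if B ⊆ U then (1 : ℝ) else 0) = ∏ k ∈ B, p k := by
  induction S using Finset.induction_on with
  | empty =>
    intro B hB
    rw [Finset.subset_empty.1 hB, Pool.Agent.Helper59.RE.av_empty]
    simp
  | insert a S ha ih =>
    intro B hB
    rw [Pool.Agent.Helper59.RE.av_insert p S a ha]
    by_cases haB : a ∈ B
    · have h1 : B.erase a ⊆ S := by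
        intro x hx
        rw [Finset.mem_erase] at hx
        exact (Finset.mem_insert.1 (hB hx.2)).resolve_left hx.1
      rw [← Finset.mul_prod_erase B p haB, ← ih _ h1,
        ← Pool.Agent.Helper59.RE.av_mul_left]
      refine Pool.Agent.Helper59.RE.av_congr p S _ _ fun T hT => ?_
      have haT : a ∉ T := fun h => ha (hT h)
      have h2 : ¬ B ⊆ T := fun h => haT (h haB)
      have h3 : B ⊆ insert a T ↔ B.erase a ⊆ T := by
        rw [Finset.subset_insert_iff]
      rw [if_neg h2]
      by_cases h4 : B.erase a ⊆ T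
      · rw [if_pos h4, if_pos (h3.2 h4)]
        simp
      · rw [if_neg h4, if_neg (fun h => h4 (h3.1 h))]
        simp
    · have h1 : B ⊆ S := by
        intro x hx
        refine (Finset.mem_insert.1 (hB hx)).resolve_left ?_
        rintro rfl
        exact haB hx
      rw [← ih _ h1]
      refine Pool.Agent.Helper59.RE.av_congr p S _ _ fun T hT => ?_
      have h3 : B ⊆ insert a T ↔ B ⊆ T := by
        rw [Finset.subset_insert_iff_of_notMem haB]
      by_cases h4 : B ⊆ T
      · rw [if_pos h4, if_pos (h3.2 h4)]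
        simp
      · rw [if_neg h4, if_neg (fun h => h4 (h3.1 h))]
        simp

open Classical in
private lemma inj53 {r : ℕ} {W : Fin r → Finset ℕ} (hW : ∀ l l', l ≠ l' → Disjoint (W l) (W l'))
    {τ τ' : Fin r → ℕ} (h : ∀ l, τ l ∈ W l) (h' : ∀ l, τ' l ∈ W l) {l l' : Fin r}
    (e : τ l = τ' l') : l = l' := by
  by_contra hne
  have h1 := h' l'
  rw [← e] at h1
  exact Finset.disjoint_left.1 (hW l l' hne) (h l) h1

open Classical in
private lemma card53 {r : ℕ} {W : Fin r → Finset ℕ} (hW : ∀ l l', l ≠ l' → Disjoint (W l) (W l'))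
    {τ τ' : Fin r → ℕ} (h : ∀ l, τ l ∈ W l) (h' : ∀ l, τ' l ∈ W l) :
    (univ.image τ ∪ univ.image τ').card + (univ.filter fun l => τ l = τ' l).card = r + r := by
  have hi : Function.Injective τ := fun l l' e => inj53 hW h h e
  have hi' : Function.Injective τ' := fun l l' e => inj53 hW h' h' e
  have h1 := Finset.card_union_add_card_inter (univ.image τ) (univ.image τ')
  rw [Finset.card_image_of_injective _ hi, Finset.card_image_of_injective _ hi', Finset.card_univ,
    Fintype.card_fin] at h1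
  have h2 : univ.image τ ∩ univ.image τ' = (univ.filter fun l => τ l = τ' l).image τ := by
    ext x
    simp only [Finset.mem_inter, Finset.mem_image, Finset.mem_univ, true_and, Finset.mem_filter]
    constructor
    · rintro ⟨⟨l, rfl⟩, ⟨l', e⟩⟩
      have := inj53 hW h' h e
      subst this
      exact ⟨l', e.symm, rfl⟩
    · rintro ⟨l, e, rfl⟩
      exact ⟨⟨l, rfl⟩, ⟨l, e.symm⟩⟩
  rw [h2, Finset.card_image_of_injective _ hi] at h1
  exact h1

open Classical in
private lemma count53 {r : ℕ} (W : Fin r → Finset ℕ) (TT : Finset (Fin r → ℕ))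
    (hmem : ∀ τ ∈ TT, ∀ l, τ l ∈ W l)
    (hinj : ∀ τ ∈ TT, ∀ τ' ∈ TT, ∀ l, (∀ l', l' ≠ l → τ l' = τ' l') → τ = τ')
    (u : ℝ) (hu : ∀ l, ((W l).card : ℝ) ≤ u) (τ : Fin r → ℕ) (B : Finset (Fin r))
    (l0 : Fin r) (hl0 : l0 ∉ B) :
    ((TT.filter fun τ' => (univ.filter fun l => τ l = τ' l) = B).card : ℝ) ≤
      u ^ (r - 1 - B.card) := by
  set C : Finset (Fin r) := univ \ insert l0 B with hC
  have hCc : C.card = r - 1 - B.card := by
    rw [hC, Finset.card_sdiff_of_subset (Finset.subset_univ _), Finset.card_univ,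
      Fintype.card_fin, Finset.card_insert_of_notMem hl0]
    omega
  have h1 : (TT.filter fun τ' => (univ.filter fun l => τ l = τ' l) = B).card ≤
      (Fintype.piFinset fun l => if l ∈ C then W l else {0}).card := by
    apply Finset.card_le_card_of_injOn (fun τ' l => if l ∈ C then τ' l else 0)
    · intro τ' hτ'
      rw [Finset.mem_coe, Finset.mem_filter] at hτ'
      rw [Finset.mem_coe, Fintype.mem_piFinset]
      intro l
      by_cases hl : l ∈ C
      · simp only [if_pos hl]
        exact hmem τ' hτ'.1 l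
      · simp only [if_neg hl]
        exact Finset.mem_singleton_self 0
    · intro τ' hτ' τ'' hτ'' e
      rw [Finset.mem_coe, Finset.mem_filter] at hτ' hτ''
      refine hinj τ' hτ'.1 τ'' hτ''.1 l0 fun l hl => ?_
      by_cases hlB : l ∈ B
      · have e1 : l ∈ univ.filter fun l => τ l = τ' l := by rw [hτ'.2]; exact hlB
        have e2 : l ∈ univ.filter fun l => τ l = τ'' l := by rw [hτ''.2]; exact hlB
        rw [Finset.mem_filter] at e1 e2
        rw [← e1.2, ← e2.2]
      · have hlC : l ∈ C := by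
          rw [hC, Finset.mem_sdiff, Finset.mem_insert, not_or]
          exact ⟨Finset.mem_univ _, hl, hlB⟩
        have e1 := congrFun e l
        simpa only [if_pos hlC] using e1
  have h2 : (((Fintype.piFinset fun l => if l ∈ C then W l else {0}).card : ℕ) : ℝ) ≤
      u ^ C.card := by
    rw [Fintype.card_piFinset]
    push_cast
    have h3 : ∀ l : Fin r, (((if l ∈ C then W l else {0} : Finset ℕ).card : ℕ) : ℝ) =
        if l ∈ C then ((W l).card : ℝ) else 1 := by
      intro l
      by_cases hl : l ∈ C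
      · rw [if_pos hl, if_pos hl]
      · rw [if_neg hl, if_neg hl]
        simp
    rw [Finset.prod_congr rfl fun l _ => h3 l, Finset.prod_ite_mem, Finset.univ_inter]
    calc ∏ l ∈ C, ((W l).card : ℝ) ≤ ∏ _l ∈ C, u :=
          Finset.prod_le_prod (fun _ _ => Nat.cast_nonneg _) fun l _ => hu l
      _ = u ^ C.card := by rw [Finset.prod_const]
  rw [← hCc]
  exact le_trans (by exact_mod_cast h1) h2

open Classical in
theorem secmom (ν : ℕ → ℝ) (t : ℝ) (ht0 : 0 < t) (ht1 : t ≤ 1) (hν0 : ∀ k, 0 ≤ ν k)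
    (hν1 : ∀ k, ν k ≤ 1) (r : ℕ) (hr : 2 ≤ r) (S : Finset ℕ) (W : Fin r → Finset ℕ)
    (hW : ∀ l l', l ≠ l' → Disjoint (W l) (W l')) (hWS : ∀ l, W l ⊆ S)
    (hν : ∀ l, ∀ k ∈ W l, ν k = t) (TT : Finset (Fin r → ℕ)) (hTT : TT.Nonempty)
    (hmem : ∀ τ ∈ TT, ∀ l, τ l ∈ W l)
    (hinj : ∀ τ ∈ TT, ∀ τ' ∈ TT, ∀ l, (∀ l', l' ≠ l → τ l' = τ' l') → τ = τ')
    (u : ℝ) (hu : ∀ l, ((W l).card : ℝ) ≤ u) (hut : 1 ≤ u * t) :
    av ν S (fun U => if ∃ τ ∈ TT, ∀ l, τ l ∈ U then (0 : ℝ) else 1) ≤
      u ^ (r - 1) / TT.card * (2 ^ r / (u * t) + u / (u * t) ^ r) := by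
  obtain ⟨τ₀, hτ₀⟩ := hTT
  have hr0 : 0 < r := by omega
  have hu0 : 0 < u := by
    by_contra h
    push Not at h
    nlinarith
  have hut0 : 0 < u * t := by positivity
  have hNpos : 0 < TT.card := Finset.card_pos.2 ⟨τ₀, hτ₀⟩
  have hN0 : (0 : ℝ) < TT.card := by exact_mod_cast hNpos
  set N : ℝ := (TT.card : ℝ) with hN
  set m : ℝ := N * t ^ r with hm
  have hm0 : 0 < m := by positivity
  set I : (Fin r → ℕ) → Finset ℕ → ℝ := fun τ U => if univ.image τ ⊆ U then (1 : ℝ) else 0 with hI
  have himg : ∀ τ ∈ TT, univ.image τ ⊆ S := by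
    intro τ hτ x hx
    obtain ⟨l, -, rfl⟩ := Finset.mem_image.1 hx
    exact hWS l (hmem τ hτ l)
  have hνi : ∀ τ ∈ TT, ∀ k ∈ univ.image τ, ν k = t := by
    intro τ hτ k hk
    obtain ⟨l, -, rfl⟩ := Finset.mem_image.1 hk
    exact hν l _ (hmem τ hτ l)
  have hinjτ : ∀ τ ∈ TT, Function.Injective τ := fun τ hτ l l' e =>
    inj53 hW (hmem τ hτ) (hmem τ hτ) e
  have hE1 : ∀ τ ∈ TT, av ν S (I τ) = t ^ r := by
    intro τ hτ
    rw [hI]
    show av ν S (fun U => if univ.image τ ⊆ U then (1 : ℝ) else 0) = _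
    rw [av_sub53 ν S _ (himg τ hτ), Finset.prod_congr rfl (hνi τ hτ), Finset.prod_const,
      Finset.card_image_of_injective _ (hinjτ τ hτ), Finset.card_univ, Fintype.card_fin]
  have hE2 : ∀ τ ∈ TT, ∀ τ' ∈ TT, av ν S (fun U => I τ U * I τ' U) =
      t ^ (r + r) * t⁻¹ ^ (univ.filter fun l => τ l = τ' l).card := by
    intro τ hτ τ' hτ'
    have h1 : (fun U => I τ U * I τ' U) =
        fun U => if univ.image τ ∪ univ.image τ' ⊆ U then (1 : ℝ) else 0 := by
      funext U
      rw [hI]
      show (if univ.image τ ⊆ U then (1 : ℝ) else 0) * (if univ.image τ' ⊆ U then (1 : ℝ) else 0) = _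
      by_cases h1 : univ.image τ ⊆ U
      · by_cases h2 : univ.image τ' ⊆ U
        · rw [if_pos h1, if_pos h2, if_pos (Finset.union_subset h1 h2), mul_one]
        · rw [if_pos h1, if_neg h2, if_neg (fun h => h2 (Finset.subset_union_right.trans h)),
            mul_zero]
      · rw [if_neg h1, if_neg (fun h => h1 (Finset.subset_union_left.trans h)), zero_mul]
    rw [h1, av_sub53 ν S _ (Finset.union_subset (himg τ hτ) (himg τ' hτ'))]
    have h2 : ∀ k ∈ univ.image τ ∪ univ.image τ', ν k = t := by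
      intro k hk
      rcases Finset.mem_union.1 hk with h | h
      · exact hνi τ hτ k h
      · exact hνi τ' hτ' k h
    rw [Finset.prod_congr rfl h2, Finset.prod_const, ← card53 hW (hmem τ hτ) (hmem τ' hτ'),
      pow_add, mul_assoc, ← mul_pow, mul_inv_cancel₀ ht0.ne', one_pow, mul_one]
  -- the second moment
  have hpt : ∀ U : Finset ℕ, (if ∃ τ ∈ TT, ∀ l, τ l ∈ U then (0 : ℝ) else 1) ≤
      (m ^ 2)⁻¹ * ((∑ τ ∈ TT, ∑ τ' ∈ TT, I τ U * I τ' U) + ((-(2 * m)) * ∑ τ ∈ TT, I τ U) +
        m ^ 2) := by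
    intro U
    have e1 : (m ^ 2)⁻¹ * ((∑ τ ∈ TT, ∑ τ' ∈ TT, I τ U * I τ' U) +
        ((-(2 * m)) * ∑ τ ∈ TT, I τ U) + m ^ 2) =
        (m ^ 2)⁻¹ * ((∑ τ ∈ TT, I τ U) - m) ^ 2 := by
      congr 1
      rw [← Finset.sum_mul_sum]
      ring
    rw [e1]
    by_cases h : ∃ τ ∈ TT, ∀ l, τ l ∈ U
    · rw [if_pos h]
      positivity
    · rw [if_neg h]
      have h2 : ∑ τ ∈ TT, I τ U = 0 := by
        refine Finset.sum_eq_zero fun τ hτ => ?_
        rw [hI]
        show (if univ.image τ ⊆ U then (1 : ℝ) else 0) = 0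
        rw [if_neg]
        intro h3
        exact h ⟨τ, hτ, fun l => h3 (Finset.mem_image_of_mem _ (Finset.mem_univ l))⟩
      rw [h2, zero_sub, neg_sq, inv_mul_cancel₀ (by positivity)]
  have hmain : av ν S (fun U => if ∃ τ ∈ TT, ∀ l, τ l ∈ U then (0 : ℝ) else 1) ≤
      (m ^ 2)⁻¹ * ((∑ τ ∈ TT, ∑ τ' ∈ TT,
        t ^ (r + r) * t⁻¹ ^ (univ.filter fun l => τ l = τ' l).card) - m ^ 2) := by
    refine (Pool.Agent.Helper59.RE.av_mono ν hν0 hν1 S _ _ fun U _ => hpt U).trans (le_of_eq ?_)
    rw [Pool.Agent.Helper59.RE.av_mul_left]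
    congr 1
    rw [Pool.Agent.Helper59.RE.av_add, Pool.Agent.Helper59.RE.av_add, Pool.Agent.Helper59.RE.av_const,
      Pool.Agent.Helper59.RE.av_mul_left, av_sum53, av_sum53]
    have h1 : ∑ τ ∈ TT, av ν S (fun U => ∑ τ' ∈ TT, I τ U * I τ' U) = ∑ τ ∈ TT, ∑ τ' ∈ TT,
        t ^ (r + r) * t⁻¹ ^ (univ.filter fun l => τ l = τ' l).card := by
      refine Finset.sum_congr rfl fun τ hτ => ?_
      rw [av_sum53]
      exact Finset.sum_congr rfl fun τ' hτ' => hE2 τ hτ τ' hτ'
    have h2 : ∑ τ ∈ TT, av ν S (fun U => I τ U) = m := by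
      rw [Finset.sum_congr rfl hE1, Finset.sum_const, nsmul_eq_mul, hm, hN]
    rw [h1, h2]
    ring
  refine hmain.trans ?_
  -- reduce to the fibres
  have hinner : ∀ τ ∈ TT, ∑ τ' ∈ TT, (if (univ.filter fun l => τ l = τ' l) = ∅ then (0 : ℝ) else
      t⁻¹ ^ (univ.filter fun l => τ l = τ' l).card) ≤
      2 ^ r * (u ^ (r - 1) / (u * t)) + t⁻¹ ^ r := by
    intro τ hτ
    rw [← Finset.sum_fiberwise_of_maps_to (s := TT) (t := (univ : Finset (Finset (Fin r))))
      (g := fun τ' => univ.filter fun l => τ l = τ' l) (fun _ _ => Finset.mem_univ _)]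
    have h1 : ∀ B : Finset (Fin r), ∑ τ' ∈ TT with (univ.filter fun l => τ l = τ' l) = B,
        (if (univ.filter fun l => τ l = τ' l) = ∅ then (0 : ℝ) else
          t⁻¹ ^ (univ.filter fun l => τ l = τ' l).card) ≤
        u ^ (r - 1) / (u * t) + if B = univ then t⁻¹ ^ r else 0 := by
      intro B
      have h2 : ∑ τ' ∈ TT with (univ.filter fun l => τ l = τ' l) = B,
        (if (univ.filter fun l => τ l = τ' l) = ∅ then (0 : ℝ) else
          t⁻¹ ^ (univ.filter fun l => τ l = τ' l).card) =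
          ((TT.filter fun τ' => (univ.filter fun l => τ l = τ' l) = B).card : ℝ) *
            (if B = ∅ then (0 : ℝ) else t⁻¹ ^ B.card) := by
        rw [← nsmul_eq_mul, ← Finset.sum_const]
        refine Finset.sum_congr rfl fun τ' hτ' => ?_
        rw [Finset.mem_filter] at hτ'
        rw [hτ'.2]
      rw [h2]
      have h3 : 0 ≤ u ^ (r - 1) / (u * t) := by positivity
      by_cases hB0 : B = ∅
      · rw [if_pos hB0, mul_zero]
        split_ifs <;> positivity
      rw [if_neg hB0]
      have hB1 : 1 ≤ B.card := Finset.card_pos.2 (Finset.nonempty_iff_ne_empty.2 hB0)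
      by_cases hBu : B = univ
      · rw [if_pos hBu]
        have h4 : (TT.filter fun τ' => (univ.filter fun l => τ l = τ' l) = B).card ≤ 1 := by
          rw [Finset.card_le_one]
          intro a ha b hb
          rw [Finset.mem_filter] at ha hb
          have ha2 : ∀ l, τ l = a l := by
            intro l
            have : l ∈ univ.filter fun l => τ l = a l := by rw [ha.2, hBu]; exact Finset.mem_univ l
            exact (Finset.mem_filter.1 this).2
          have hb2 : ∀ l, τ l = b l := by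
            intro l
            have : l ∈ univ.filter fun l => τ l = b l := by rw [hb.2, hBu]; exact Finset.mem_univ l
            exact (Finset.mem_filter.1 this).2
          funext l
          rw [← ha2, ← hb2]
        have h5 : ((TT.filter fun τ' => (univ.filter fun l => τ l = τ' l) = B).card : ℝ) ≤ 1 := by
          exact_mod_cast h4
        have h6 : B.card = r := by rw [hBu, Finset.card_univ, Fintype.card_fin]
        rw [h6]
        have h7 : 0 ≤ t⁻¹ ^ r := by positivity
        nlinarith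
      · rw [if_neg hBu, add_zero]
        obtain ⟨l0, hl0⟩ : ∃ l0, l0 ∉ B := by
          by_contra h
          push Not at h
          exact hBu (Finset.eq_univ_iff_forall.2 h)
        have h4 := count53 W TT hmem hinj u hu τ B l0 hl0
        have hBr : B.card ≤ r - 1 := by
          have h5 : (insert l0 B).card ≤ r := by
            have := Finset.card_le_univ (insert l0 B)
            rwa [Fintype.card_fin] at this
          rw [Finset.card_insert_of_notMem hl0] at h5
          omega
        calc ((TT.filter fun τ' => (univ.filter fun l => τ l = τ' l) = B).card : ℝ) * t⁻¹ ^ B.card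
            ≤ u ^ (r - 1 - B.card) * t⁻¹ ^ B.card :=
              mul_le_mul_of_nonneg_right h4 (by positivity)
          _ = u ^ (r - 1) / (u * t) ^ B.card := by
              rw [mul_pow, inv_pow]
              have e : u ^ (r - 1) = u ^ (r - 1 - B.card) * u ^ B.card := by
                rw [← pow_add]
                congr 1
                omega
              rw [e]
              field_simp
          _ ≤ u ^ (r - 1) / (u * t) := by
              apply div_le_div_of_nonneg_left (by positivity) hut0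
              calc u * t = (u * t) ^ 1 := (pow_one _).symm
                _ ≤ (u * t) ^ B.card := pow_le_pow_right₀ hut hB1
    refine (Finset.sum_le_sum fun B _ => h1 B).trans (le_of_eq ?_)
    rw [Finset.sum_add_distrib, Finset.sum_const, Finset.sum_ite_eq' univ univ (fun _ => t⁻¹ ^ r),
      if_pos (Finset.mem_univ _), Finset.card_univ, Fintype.card_finset, Fintype.card_fin,
      nsmul_eq_mul]
    push_cast
    ring
  have hsum : (∑ τ ∈ TT, ∑ τ' ∈ TT,
        t ^ (r + r) * t⁻¹ ^ (univ.filter fun l => τ l = τ' l).card) - m ^ 2 ≤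
      t ^ (r + r) * (N * (2 ^ r * (u ^ (r - 1) / (u * t)) + t⁻¹ ^ r)) := by
    have h1 : m ^ 2 = ∑ τ ∈ TT, ∑ τ' ∈ TT, t ^ (r + r) := by
      rw [Finset.sum_const, Finset.sum_const, nsmul_eq_mul, nsmul_eq_mul, hm, hN]
      ring
    rw [h1, ← Finset.sum_sub_distrib]
    have h2 : ∀ τ ∈ TT, (∑ τ' ∈ TT, t ^ (r + r) * t⁻¹ ^ (univ.filter fun l => τ l = τ' l).card) -
        ∑ τ' ∈ TT, t ^ (r + r) ≤ t ^ (r + r) * (2 ^ r * (u ^ (r - 1) / (u * t)) + t⁻¹ ^ r) := by
      intro τ hτ
      rw [← Finset.sum_sub_distrib]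
      refine le_trans ?_ (mul_le_mul_of_nonneg_left (hinner τ hτ) (by positivity))
      rw [Finset.mul_sum]
      refine Finset.sum_le_sum fun τ' _ => ?_
      by_cases h3 : (univ.filter fun l => τ l = τ' l) = ∅
      · rw [if_pos h3, h3, Finset.card_empty, pow_zero, mul_one, sub_self, mul_zero]
      · rw [if_neg h3]
        have : 0 ≤ t ^ (r + r) := by positivity
        linarith
    refine (Finset.sum_le_sum h2).trans (le_of_eq ?_)
    rw [Finset.sum_const, nsmul_eq_mul, hN]
    ring
  refine (mul_le_mul_of_nonneg_left hsum (by positivity)).trans (le_of_eq ?_)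
  rw [hm]
  have e : u * u ^ (r - 1) = u ^ r := by
    rw [← pow_succ']
    congr 1
    omega
  have e2 : t⁻¹ ^ r = u ^ (r - 1) * (u / (u * t) ^ r) := by
    rw [mul_pow, inv_pow, mul_div_assoc', mul_comm (u ^ (r - 1)) u, e]
    field_simp
  rw [e2]
  have e3 : t ^ (r + r) = t ^ r * t ^ r := pow_add _ _ _
  rw [e3]
  field_simp

end Pool.Agent.Helper59.RF
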