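import Pool.Agent.Helper59.RF.Marg

/-!
# Block RF-SPLIT: a digit is, with probability `ν k`, a fair bit

`pr p ν k = (p k - ν k / 2) / (1 - ν k)` is the probability of the digit `1` given that the digit is not chosen.

PROOFS.
* `split`: induction on `S` (`Finset.induction_on`, `av_insert`), for all `F`.  For `insert a S` expand both sides with `av_insert`
  (the set `insert a S \ U` is `insert a (S \ U)` if `a ∉ U`, and `insert a S \ insert a U = S \ U`), use the induction hypothesis for
  the functions `F` and `fun T => F (insert a T)`, and `1 - p a = ν a / 2 + (1 - ν a) (1 - pr a)`, `p a = ν a / 2 + (1 - ν a) pr a`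
  (`hf a = 1/2`).
* `pr_mem`: `0 ≤ pr ≤ 1` from `ν k ≤ 2 mu p k` (`mu p k = min (p k) (1 - p k)`).
* `split_bound`: `split`, `av_norm` and `av_mono` for the average over `U` (`0 ≤ ν ≤ 1`); for fixed `U ⊆ S` write
  `U = (U \ W U) ∪ W U`, `av_union`, exchange the averages over `T2 ⊆ W U` and `T' ⊆ S \ U` (`av_comm`), and bound the norm of the average
  by the average of the norms (`av_norm`, twice): the inner norm is `‖av hf (W U) (fun T2 => F ((T1 ∪ T') ∪ T2))‖ ≤ G U`
  (`T1 ⊆ U \ W U`, `T' ⊆ S \ U`, so `T1 ∪ T' ⊆ S \ W U`), and averages of a constant are the constant (`av_const`).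
-/

namespace Pool.Agent.Helper59.RF

open Finset
open Pool.Agent.Helper59.RE (av wt mu av_const av_union av_insert av_empty av_congr av_add av_mono av_norm av_mul_left wt_nonneg)

/-- The probability of the digit `1` given that the digit is not chosen. -/
noncomputable def pr (p ν : ℕ → ℝ) (k : ℕ) : ℝ := (p k - ν k / 2) / (1 - ν k)

theorem pr_mem (p ν : ℕ → ℝ) (k : ℕ) (hν0 : 0 ≤ ν k) (hν1 : ν k < 1) (hν2 : ν k ≤ 2 * mu p k) :
    0 ≤ pr p ν k ∧ pr p ν k ≤ 1 := by
  have h1 : mu p k ≤ p k := min_le_left _ _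
  have h2 : mu p k ≤ 1 - p k := min_le_right _ _
  have h3 : 0 < 1 - ν k := by linarith
  unfold pr
  constructor
  · exact div_nonneg (by linarith) h3.le
  · rw [div_le_one h3]
    linarith

private theorem h4_av_smul {E : Type*} [AddCommGroup E] [Module ℝ E] (p : ℕ → ℝ) (S : Finset ℕ) (c : ℝ)
    (F : Finset ℕ → E) : av p S (fun T => c • F T) = c • av p S F := by
  unfold av
  rw [Finset.smul_sum]
  exact Finset.sum_congr rfl fun T _ => smul_comm _ _ _

theorem split {E : Type*} [AddCommGroup E] [Module ℝ E] (p ν : ℕ → ℝ) (hν : ∀ k, ν k < 1)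
    (S : Finset ℕ) (F : Finset ℕ → E) :
    av p S F = av ν S (fun U => av hf U (fun T => av (pr p ν) (S \ U) (fun T' => F (T ∪ T')))) := by
  induction S using Finset.induction_on generalizing F with
  | empty => simp [av_empty]
  | insert a S ha ih =>
    rw [av_insert p S a ha, av_insert ν S a ha, ih]
    refine av_congr ν S _ _ fun U hU => ?_
    have haU : a ∉ U := fun h => ha (hU h)
    have e1 : insert a S \ U = insert a (S \ U) := Finset.insert_sdiff_of_notMem _ haU
    have e2 : insert a S \ insert a U = S \ U := by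
      ext x
      simp only [Finset.mem_sdiff, Finset.mem_insert, not_or]
      constructor
      · rintro ⟨h1 | h1, h2, h3⟩
        · exact absurd h1 h2
        · exact ⟨h1, h3⟩
      · rintro ⟨h1, h2⟩
        refine ⟨Or.inr h1, ?_, h2⟩
        rintro rfl
        exact ha h1
    have e3 : a ∉ S \ U := fun h => ha (Finset.mem_sdiff.1 h).1
    rw [e1, e2, av_insert hf U a haU]
    have hX : ∀ T : Finset ℕ, av (pr p ν) (S \ U) (fun T' => (1 - p a) • F (T ∪ T') + p a • F (insert a (T ∪ T'))) =
        (1 - p a) • av (pr p ν) (S \ U) (fun T' => F (T ∪ T')) +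
          p a • av (pr p ν) (S \ U) (fun T' => F (insert a (T ∪ T'))) := by
      intro T
      rw [av_add, h4_av_smul, h4_av_smul]
    have hY : ∀ T : Finset ℕ, av (pr p ν) (insert a (S \ U)) (fun T' => F (T ∪ T')) =
        (1 - pr p ν a) • av (pr p ν) (S \ U) (fun T' => F (T ∪ T')) +
          pr p ν a • av (pr p ν) (S \ U) (fun T' => F (insert a (T ∪ T'))) := by
      intro T
      rw [av_insert _ _ a e3, av_add, h4_av_smul, h4_av_smul]
      simp only [Finset.union_insert]
    have hZ : ∀ T : Finset ℕ, av (pr p ν) (S \ U) (fun T' => F (insert a T ∪ T')) =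
        av (pr p ν) (S \ U) (fun T' => F (insert a (T ∪ T'))) := by
      intro T
      simp only [Finset.insert_union]
    simp only [hX, hY, hZ]
    rw [av_add, av_add, av_add, h4_av_smul, h4_av_smul, h4_av_smul, h4_av_smul, h4_av_smul, h4_av_smul]
    generalize av hf U (fun T => av (pr p ν) (S \ U) (fun T' => F (T ∪ T'))) = X
    generalize av hf U (fun T => av (pr p ν) (S \ U) (fun T' => F (insert a (T ∪ T')))) = Y
    have h1 : (1 - ν a) ≠ 0 := by
      have := hν a
      linarith
    have h2 : (1 - ν a) * pr p ν a = p a - ν a / 2 := by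
      unfold pr
      field_simp
    have h3 : hf a = 1 / 2 := rfl
    rw [h3, smul_add, smul_add, smul_smul, smul_smul, smul_smul, smul_smul, h2]
    have h4 : (1 - ν a) * (1 - pr p ν a) = 1 - p a - ν a / 2 := by
      rw [mul_sub, h2]
      ring
    rw [h4]
    module

theorem split_bound (p ν : ℕ → ℝ) (hν0 : ∀ k, 0 ≤ ν k) (hν1 : ∀ k, ν k < 1)
    (hν2 : ∀ k, ν k ≤ 2 * mu p k) (S : Finset ℕ) (F : Finset ℕ → ℂ)
    (W : Finset ℕ → Finset ℕ) (G : Finset ℕ → ℝ) (hW : ∀ U, U ⊆ S → W U ⊆ U)
    (hG : ∀ U, U ⊆ S → ∀ T', T' ⊆ S \ W U → ‖av hf (W U) (fun T => F (T' ∪ T))‖ ≤ G U) :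
    ‖av p S F‖ ≤ av ν S G := by
  rw [split p ν hν1 S F]
  have hhf0 : ∀ k, 0 ≤ hf k := fun k => by unfold hf; norm_num
  have hhf1 : ∀ k, hf k ≤ 1 := fun k => by unfold hf; norm_num
  have hp0 : ∀ k, 0 ≤ pr p ν k := fun k => (pr_mem p ν k (hν0 k) (hν1 k) (hν2 k)).1
  have hp1 : ∀ k, pr p ν k ≤ 1 := fun k => (pr_mem p ν k (hν0 k) (hν1 k) (hν2 k)).2
  refine (av_norm ν hν0 (fun k => (hν1 k).le) S _).trans
    (av_mono ν hν0 (fun k => (hν1 k).le) S _ _ fun U hU => ?_)
  have hWU := hW U hU
  have e1 : U = (U \ W U) ∪ W U := (Finset.sdiff_union_of_subset hWU).symm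
  have hd : Disjoint (U \ W U) (W U) := Finset.sdiff_disjoint
  have e2 : av hf U (fun T => av (pr p ν) (S \ U) (fun T' => F (T ∪ T'))) =
      av hf (U \ W U) (fun T1 => av (pr p ν) (S \ U) (fun T' => av hf (W U) (fun T2 => F ((T1 ∪ T') ∪ T2)))) := by
    have e3 : av hf U (fun T => av (pr p ν) (S \ U) (fun T' => F (T ∪ T'))) =
        av hf ((U \ W U) ∪ W U) (fun T => av (pr p ν) (S \ U) (fun T' => F (T ∪ T'))) := by
      rw [← e1]
    rw [e3, av_union hf _ _ hd]
    refine av_congr hf _ _ _ fun T1 _ => ?_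
    rw [av_comm]
    refine av_congr _ _ _ _ fun T' _ => av_congr _ _ _ _ fun T2 _ => ?_
    rw [Finset.union_right_comm]
  rw [e2]
  refine (av_norm hf hhf0 hhf1 _ _).trans ?_
  refine (av_mono hf hhf0 hhf1 _ _ (fun _ => G U) fun T1 hT1 => ?_).trans (le_of_eq (av_const _ _ _))
  refine (av_norm _ hp0 hp1 _ _).trans ?_
  refine (av_mono _ hp0 hp1 _ _ (fun _ => G U) fun T' hT' => ?_).trans (le_of_eq (av_const _ _ _))
  refine hG U hU _ ?_
  refine Finset.union_subset (hT1.trans (Finset.sdiff_subset_sdiff hU (Finset.Subset.refl _)))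
    (hT'.trans (Finset.sdiff_subset_sdiff (Finset.Subset.refl _) hWU))

end Pool.Agent.Helper59.RF
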