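import Pool.Agent.Helper59.RF.FixU
import Pool.Agent.Helper59.RF.Split
import Pool.Agent.Helper59.RF.SecMom

/-!
# Block RF-CORRW: the correlation bound from the windows

PROOF.  `S = Ico q' M` contains all windows (`w.range`, `q' ≤ s^(1-δ/4)`, `s < M`).  `ν k = s^(-1+δ)` if `s^(1-δ/4) ≤ k` and `k ≤ s`, `ν k = 0`
otherwise; `0 ≤ ν k < 1` (`s ≥ 2`, `δ < 1`) and `ν k ≤ 2 mu p k` (`hmu`; `mu p k ≥ 0` from `hp0, hp1`).
`split_bound` with `W U` := the set `V` of `fixU` for `U` (lo, hi = lo + tc N / N q'), `G U` := its bound: for `T' ⊆ S \ W U` use `fixU` at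
`x = lo + xN T'` (`xN_union`, `T'` and `W U` are disjoint, `x + xN (W U) = lo + xN (T' ∪ W U) ≤ lo + tc N / N q'` by `xN_le'`; for `T ⊆ W U` the
point `lo + xN (T' ∪ T)` is `x + xN T`: `av_congr`).
The average of `G`: the error is constant (`av_add`, `av_const`), the product is treated by `avg` with `n = L`, `V i = ⋃_(j,l) w.W i j l`
(disjoint by `w.disj`), `A i U = w.Good U i` (depends only on `U ∩ V i` by `w.mem`), `γ = gam`, and
`B = Q * (s^(δ/8) (2^(d+1) s^(-2δ/3) + s^(-δ)))`: `1 - [Good] ≤ ∑_j [no τ ∈ TT i j with all entries in U]`, and every `j` is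
bounded by `secmom` with `r = d + 1`, `t = s^(-1+δ)`, `u = w.u i`: `u^d / |TT| ≤ s^(δ/8)` (`w.card_ge`; `TT ≠ ∅` since `u^d > 0`),
`u t ≥ s^(2δ/3) ≥ 1` (`w.u_ge`), so `2^(d+1) / (u t) ≤ 2^(d+1) s^(-2δ/3)` and
`u / (u t)^(d+1) = (1/t) (u t)^(-d) ≤ s^(1-δ) s^(-(2/3) δ d) ≤ s^(1-δ-4/3) ≤ s^(-δ)` (`2 ≤ δ d`).
-/

namespace Pool.Agent.Helper59.RF

open Finset
open Pool.Agent.Helper59.RE (av e mu av_mono)

private lemma corrW_av_sum {ι : Type*} (p : ℕ → ℝ) (S : Finset ℕ) (s : Finset ι)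
    (F : ι → Finset ℕ → ℝ) : av p S (fun U => ∑ i ∈ s, F i U) = ∑ i ∈ s, av p S (F i) := by
  unfold av
  rw [Finset.sum_comm]
  refine Finset.sum_congr rfl fun T _ => ?_
  rw [Finset.smul_sum]

open Classical in
private lemma corrW_bad {N : ℕ → ℝ} {δ Z t0 : ℝ} {s d Q L : ℕ} (hδ0 : 0 < δ) (hδ1 : δ ≤ 1 / 4)
    (hs : 2 ≤ s) (hd : 2 ≤ d) (hdδ : 2 ≤ δ * d) (w : WS N δ Z t0 s d Q L) (ν : ℕ → ℝ)
    (hν0 : ∀ k, 0 ≤ ν k) (hν1 : ∀ k, ν k ≤ 1)
    (hν : ∀ k : ℕ, (s : ℝ) ^ (1 - δ / 4) ≤ k → k ≤ s → ν k = (s : ℝ) ^ (-1 + δ))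
    (S : Finset ℕ) (i : ℕ) (hi : i < L) (hS : ∀ j l, w.W i j l ⊆ S) :
    av ν S (fun U => if w.Good U i then (0 : ℝ) else 1) ≤
      Q * ((s : ℝ) ^ (δ / 8) * (2 ^ (d + 1) * (s : ℝ) ^ (-(2 / 3 * δ)) + (s : ℝ) ^ (-δ))) := by
  set t : ℝ := (s : ℝ) ^ (-1 + δ) with ht
  have hs1 : (1 : ℝ) < s := by exact_mod_cast (by omega : 1 < s)
  have hs0 : (0 : ℝ) < s := by linarith
  have ht0 : 0 < t := Real.rpow_pos_of_pos hs0 _
  have ht1 : t ≤ 1 := Real.rpow_le_one_of_one_le_of_nonpos hs1.le (by linarith)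
  set u : ℝ := w.u i with hu
  have hu1 : (s : ℝ) ^ (1 - δ / 3) ≤ u := w.u_ge i hi
  have hu0 : 0 < u := lt_of_lt_of_le (Real.rpow_pos_of_pos hs0 _) hu1
  have hut : (s : ℝ) ^ (2 / 3 * δ) ≤ u * t := by
    calc (s : ℝ) ^ (2 / 3 * δ) = (s : ℝ) ^ (1 - δ / 3) * (s : ℝ) ^ (-1 + δ) := by
          rw [← Real.rpow_add hs0]
          congr 1
          ring
      _ ≤ u * t := mul_le_mul_of_nonneg_right hu1 ht0.le
  have hA1 : (1 : ℝ) ≤ (s : ℝ) ^ (2 / 3 * δ) := Real.one_le_rpow hs1.le (by positivity)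
  have hut1 : 1 ≤ u * t := hA1.trans hut
  have hut0 : 0 < u * t := by linarith
  have hpt : ∀ U : Finset ℕ, (if w.Good U i then (0 : ℝ) else 1) ≤
      ∑ j : Fin Q, (if ∃ τ ∈ w.TT i j, ∀ l, τ l ∈ U then (0 : ℝ) else 1) := by
    intro U
    have hnn : ∀ j : Fin Q, (0 : ℝ) ≤ (if ∃ τ ∈ w.TT i j, ∀ l, τ l ∈ U then (0 : ℝ) else 1) := by
      intro j
      split_ifs <;> norm_num
    by_cases h : w.Good U i
    · rw [if_pos h]
      exact Finset.sum_nonneg fun j _ => hnn j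
    · rw [if_neg h]
      unfold WS.Good at h
      obtain ⟨j, hj⟩ := not_forall.1 h
      calc (1 : ℝ) = (if ∃ τ ∈ w.TT i j, ∀ l, τ l ∈ U then (0 : ℝ) else 1) := by rw [if_neg hj]
        _ ≤ _ := Finset.single_le_sum (f := fun j : Fin Q =>
          (if ∃ τ ∈ w.TT i j, ∀ l, τ l ∈ U then (0 : ℝ) else 1)) (fun j _ => hnn j)
          (Finset.mem_univ j)
  refine (av_mono ν hν0 hν1 S _ _ fun U _ => hpt U).trans ?_
  rw [corrW_av_sum]
  have hj : ∀ j ∈ (univ : Finset (Fin Q)),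
      av ν S (fun U => if ∃ τ ∈ w.TT i j, ∀ l, τ l ∈ U then (0 : ℝ) else 1) ≤
      (s : ℝ) ^ (δ / 8) * (2 ^ (d + 1) * (s : ℝ) ^ (-(2 / 3 * δ)) + (s : ℝ) ^ (-δ)) := by
    intro j _
    have hcg := w.card_ge i hi j
    rw [← hu] at hcg
    have hud : 0 < u ^ d := pow_pos hu0 d
    have hsd : 0 < (s : ℝ) ^ (δ / 8) := Real.rpow_pos_of_pos hs0 _
    have hc0 : 0 < ((w.TT i j).card : ℝ) := by
      by_contra hcon
      have h0 : ((w.TT i j).card : ℝ) ≤ 0 := not_lt.1 hcon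
      have h1 : (s : ℝ) ^ (δ / 8) * ((w.TT i j).card : ℝ) ≤ 0 :=
        mul_nonpos_of_nonneg_of_nonpos hsd.le h0
      linarith
    have hne : (w.TT i j).Nonempty := Finset.card_pos.1 (by exact_mod_cast hc0)
    have h1 := secmom ν t ht0 ht1 hν0 hν1 (d + 1) (by omega) S (fun l => w.W i j l)
      (fun l l' hll => w.disj i hi i hi j j l l' (Or.inr (Or.inr hll))) (fun l => hS j l)
      (fun l k hk => hν k (w.range i hi j l k hk).1 (w.range i hi j l k hk).2) (w.TT i j) hne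
      (fun τ hτ l => w.mem i hi j τ hτ l)
      (fun τ hτ τ' hτ' l h => w.inj i hi j τ hτ τ' hτ' l h)
      u (fun l => w.card_le i hi j l) hut1
    refine h1.trans ?_
    rw [Nat.add_sub_cancel]
    refine mul_le_mul ?_ (add_le_add ?_ ?_) (by positivity) hsd.le
    · rw [div_le_iff₀ hc0]
      exact hcg
    · rw [div_eq_mul_inv]
      refine mul_le_mul_of_nonneg_left ?_ (by positivity)
      rw [Real.rpow_neg hs0.le]
      exact inv_anti₀ (Real.rpow_pos_of_pos hs0 _) hut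
    · have h2 : u / (u * t) ^ (d + 1) = t⁻¹ * ((u * t) ^ d)⁻¹ := by
        rw [pow_succ]
        field_simp
      have h3 : t⁻¹ = (s : ℝ) ^ (1 - δ) := by
        rw [ht, ← Real.rpow_neg hs0.le]
        congr 1
        ring
      have h4 : ((u * t) ^ d)⁻¹ ≤ (s : ℝ) ^ (-(2 / 3 * δ * d)) := by
        rw [Real.rpow_neg hs0.le]
        apply inv_anti₀ (Real.rpow_pos_of_pos hs0 _)
        calc (s : ℝ) ^ (2 / 3 * δ * d) = ((s : ℝ) ^ (2 / 3 * δ)) ^ d := by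
              rw [← Real.rpow_natCast, ← Real.rpow_mul hs0.le]
          _ ≤ (u * t) ^ d := pow_le_pow_left₀ (by positivity) hut d
      rw [h2]
      calc t⁻¹ * ((u * t) ^ d)⁻¹ ≤ (s : ℝ) ^ (1 - δ) * (s : ℝ) ^ (-(2 / 3 * δ * d)) := by
            rw [h3]
            exact mul_le_mul_of_nonneg_left h4 (by positivity)
        _ = (s : ℝ) ^ (1 - δ + -(2 / 3 * δ * d)) := (Real.rpow_add hs0 _ _).symm
        _ ≤ (s : ℝ) ^ (-δ) := Real.rpow_le_rpow_of_exponent_le hs1.le (by linarith)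
  refine (Finset.sum_le_sum hj).trans (le_of_eq ?_)
  rw [Finset.sum_const, Finset.card_univ, Fintype.card_fin, nsmul_eq_mul]

theorem corrW {N : ℕ → ℝ} (hN : Bs N) {δ Z t0 : ℝ} {s d Q L : ℕ} (hδ0 : 0 < δ) (hδ1 : δ ≤ 1 / 4)
    (hs : 2 ≤ s) (hd : 2 ≤ d) (hdδ : 2 ≤ δ * d) (w : WS N δ Z t0 s d Q L) (ht0 : 0 < t0)
    (ht1 : t0 ≤ 6 / 25) (hγ : gam t0 s d Q ≤ 1) (hZ : 0 ≤ Z) (p : ℕ → ℝ) (hp0 : ∀ k, 0 ≤ p k)
    (hp1 : ∀ k, p k ≤ 1)
    (hmu : ∀ k : ℕ, (s : ℝ) ^ (1 - δ / 4) ≤ k → k ≤ s → (s : ℝ) ^ (-1 + δ) ≤ mu p k)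
    (q' M : ℕ) (hq' : 1 ≤ q') (hq's : (q' : ℝ) ≤ (s : ℝ) ^ (1 - δ / 4)) (hM : s < M)
    (f g : ℝ → ℝ) (lo : ℝ) (hT : Tay f g lo (lo + tc N / N q') Z)
    (hD : Dif d g lo (lo + tc N / N q') Z) :
    ‖av p (Ico q' M) (fun T => e (f (lo + xN N T)))‖ ≤
      (gam t0 s d Q + Q * ((s : ℝ) ^ (δ / 8) *
        (2 ^ (d + 1) * (s : ℝ) ^ (-(2 / 3 * δ)) + (s : ℝ) ^ (-δ)))) ^ L +
        (2 * d + 7) * (L * Q) ^ 2 * (1 / (s : ℝ) ^ 30) := by
  classical
  have hs1 : (1 : ℝ) < s := by exact_mod_cast (by omega : 1 < s)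
  have hs0 : (0 : ℝ) < s := by linarith
  have ht0' : 0 < (s : ℝ) ^ (-1 + δ) := Real.rpow_pos_of_pos hs0 _
  have ht1' : (s : ℝ) ^ (-1 + δ) < 1 := Real.rpow_lt_one_of_one_lt_of_neg hs1 (by linarith)
  set ν : ℕ → ℝ := fun k => if (s : ℝ) ^ (1 - δ / 4) ≤ k ∧ k ≤ s then (s : ℝ) ^ (-1 + δ) else 0
    with hνd
  have hν0 : ∀ k, 0 ≤ ν k := by
    intro k
    simp only [hνd]
    split_ifs
    · exact ht0'.le
    · exact le_rfl
  have hν1 : ∀ k, ν k < 1 := by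
    intro k
    simp only [hνd]
    split_ifs
    · exact ht1'
    · exact one_pos
  have hmu0 : ∀ k, 0 ≤ mu p k := fun k => le_min (hp0 k) (sub_nonneg.2 (hp1 k))
  have hν2 : ∀ k, ν k ≤ 2 * mu p k := by
    intro k
    have h0 := hmu0 k
    simp only [hνd]
    split_ifs with h
    · have h1 := hmu k h.1 h.2
      linarith
    · linarith
  have hfix := fun U => fixU hN (by omega) (by omega) w ht0 ht1 hγ hZ f g lo (lo + tc N / N q') hT hD U
  choose V hVU hV using hfix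
  have hVS : ∀ i < L, ∀ j l, w.W i j l ⊆ Ico q' M := by
    intro i hi j l k hk
    obtain ⟨h1, h2⟩ := w.range i hi j l k hk
    rw [Finset.mem_Ico]
    refine ⟨?_, by omega⟩
    have h3 : (q' : ℝ) ≤ (k : ℝ) := hq's.trans h1
    exact_mod_cast h3
  refine (split_bound p ν hν0 hν1 hν2 (Ico q' M) (fun T => e (f (lo + xN N T))) V
    (fun U => (∏ i ∈ range L, if w.Good U i then gam t0 s d Q else 1) +
      (2 * d + 7) * (L * Q) ^ 2 * (1 / (s : ℝ) ^ 30)) (fun U _ => hVU U) ?_).trans ?_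
  · intro U hU T' hT'
    have hdis : Disjoint T' (V U) := by
      rw [Finset.disjoint_left]
      intro x hx
      exact (Finset.mem_sdiff.1 (hT' hx)).2
    have h1 : av hf (V U) (fun T => e (f (lo + xN N (T' ∪ T)))) =
        av hf (V U) (fun T => e (f ((lo + xN N T') + xN N T))) := by
      refine Pool.Agent.Helper59.RE.av_congr _ _ _ _ fun T hT => ?_
      rw [xN_union T' T (Finset.disjoint_of_subset_right hT hdis), add_assoc]
    change ‖av hf (V U) (fun T => e (f (lo + xN N (T' ∪ T))))‖ ≤ _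
    rw [h1]
    refine hV U (lo + xN N T') ?_ ?_
    · have := xN_nonneg hN T'
      linarith
    · rw [add_assoc, ← xN_union T' (V U) hdis]
      have h2 : T' ∪ V U ⊆ Ico q' M :=
        Finset.union_subset (hT'.trans Finset.sdiff_subset) ((hVU U).trans hU)
      have h3 := xN_le' hN q' M hq' _ h2
      linarith
  · rw [Pool.Agent.Helper59.RE.av_add, Pool.Agent.Helper59.RE.av_const]
    refine add_le_add ?_ le_rfl
    have hg0 : 0 ≤ gam t0 s d Q := by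
      unfold gam
      apply Real.rpow_nonneg
      have h4 : (1 : ℝ) ≤ 4 ^ d := one_le_pow₀ (by norm_num)
      have h5 : 2 * t0 ^ 2 / 4 ^ d ≤ 1 := by
        rw [div_le_one (by positivity)]
        nlinarith
      have h6 : (0 : ℝ) ≤ (1 - 2 * t0 ^ 2 / 4 ^ d) ^ Q := pow_nonneg (by linarith) _
      positivity
    refine avg ν hν0 (fun k => (hν1 k).le) (Ico q' M) L
      (fun i => univ.biUnion fun q : Fin Q × Fin (d + 1) => w.W i q.1 q.2) ?_ ?_
      (fun i U => w.Good U i) ?_ _ _ hg0 ?_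
    · intro i hi i' hi' hne
      rw [Finset.disjoint_biUnion_left]
      intro q _
      rw [Finset.disjoint_biUnion_right]
      intro q' _
      exact w.disj i hi i' hi' q.1 q'.1 q.2 q'.2 (Or.inl hne)
    · intro i hi
      rw [Finset.biUnion_subset]
      intro q _
      exact hVS i hi q.1 q.2
    · intro i hi U
      unfold WS.Good
      refine forall_congr' fun j => ?_
      constructor
      · rintro ⟨τ, hτ, h⟩
        exact ⟨τ, hτ, fun l => (Finset.mem_inter.1 (h l)).1⟩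
      · rintro ⟨τ, hτ, h⟩
        refine ⟨τ, hτ, fun l => Finset.mem_inter.2 ⟨h l, ?_⟩⟩
        rw [Finset.mem_biUnion]
        exact ⟨(j, l), Finset.mem_univ _, w.mem i hi j τ hτ l⟩
    · intro i hi
      refine corrW_bad hδ0 hδ1 hs hd hdδ w ν hν0 (fun k => (hν1 k).le) ?_ (Ico q' M) i hi
        (fun j l => hVS i hi j l)
      intro k h1 h2
      simp only [hνd]
      rw [if_pos ⟨h1, h2⟩]

end Pool.Agent.Helper59.RF
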