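import Pool.Agent.Helper59.RF.Defs

/-!
# Block RF-DD: iterated differences, algebra and bounds

`DD d y y' g x = ∑_ω (-1)^|ω| g (x + ∑_l y^(ω l)_l)` (`y^0 = y`, `y^1 = y'`), defined by recursion in `Defs`.

PROOFS. The first lemmas are inductions on `d` (definition).
* `DD_base`: `DD d y y' g x = DD d (y - y') 0 g (x + ∑ y')`: induction.
* `DD_sign`: induction; one step: if `y' 0 ≤ y 0` then `min = y' 0`, `|y 0 - y' 0| = y 0 - y' 0`, otherwise the two terms
  change places. (`Fin.prod_univ_succ`, `Fin.sum_univ_succ`.)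
* `DB_of_Dif`: `DD_sign`; `|∏ ±1| = 1`; `Dif` for `h l = |y l - y' l|` at the point `x + ∑ min`, `min + |y - y'| = max`.
* `DB_cons`: `DB (d+1)` for `Fin.cons a y`, `Fin.cons a' y'`.
* `DB.trunc`: induction on `d`. With `y = (y0, yt)` etc. the difference `DD y y' - DD z z'` is
  `[DD (y0, yt) (y'0, y't) - DD (y0, zt) (y'0, z't)] + [DD (y0, zt) (y'0, z't) - DD (z0, zt) (z'0, z't)]`; the first bracket is the
  difference of the `d`-fold differences of `g1 = g (· + y0) - g (· + y'0)` (`DB_cons`, constant `Y |y0 - y'0| ≤ Y A 0`, induction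
  hypothesis), the second one is `DD (y0, zt) (z0, z't) - DD (y'0, zt) (z'0, z't)` (all four terms `g (· + y0)`, ... are `d`-fold
  differences with the same `zt, z't`), so at most `Y (|y0 - z0| + |y'0 - z'0|) ∏_t |zt - z't|`, `|zt - z't| ≤ A t`.
-/

namespace Pool.Agent.Helper59.RF

open Finset

theorem DD_smul (d : ℕ) (y y' : Fin d → ℝ) (g : ℝ → ℝ) (c x : ℝ) :
    DD d y y' (fun z => c * g z) x = c * DD d y y' g x := by
  induction d generalizing x with
  | zero => rfl
  | succ d ih =>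
    simp only [DD]
    rw [ih, ih]
    ring

theorem DD_sub (d : ℕ) (y y' : Fin d → ℝ) (g g' : ℝ → ℝ) (x : ℝ) :
    DD d y y' (fun z => g z - g' z) x = DD d y y' g x - DD d y y' g' x := by
  induction d generalizing x with
  | zero => rfl
  | succ d ih =>
    simp only [DD]
    rw [ih, ih]
    ring

theorem DD_shift (d : ℕ) (y y' : Fin d → ℝ) (g : ℝ → ℝ) (a x : ℝ) :
    DD d y y' (fun z => g (z + a)) x = DD d y y' g (x + a) := by
  induction d generalizing x with
  | zero => rfl
  | succ d ih =>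
    simp only [DD]
    rw [ih, ih, add_right_comm x (y 0) a, add_right_comm x (y' 0) a]

theorem DD_base (d : ℕ) (y y' : Fin d → ℝ) (g : ℝ → ℝ) (x : ℝ) :
    DD d y y' g x = DD d (fun l => y l - y' l) (fun _ => 0) g (x + ∑ l, y' l) := by
  induction d generalizing x with
  | zero => simp [DD]
  | succ d ih =>
    simp only [DD]
    rw [ih (fun l => y l.succ) (fun l => y' l.succ) (x + y 0),
      ih (fun l => y l.succ) (fun l => y' l.succ) (x + y' 0), Fin.sum_univ_succ]
    have e1 : x + y 0 + ∑ l : Fin d, y' l.succ =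
        x + (y' 0 + ∑ i : Fin d, y' i.succ) + (y 0 - y' 0) := by ring
    have e2 : x + y' 0 + ∑ l : Fin d, y' l.succ =
        x + (y' 0 + ∑ i : Fin d, y' i.succ) + 0 := by ring
    rw [e1, e2]

theorem DD_sign (d : ℕ) (y y' : Fin d → ℝ) (g : ℝ → ℝ) (x : ℝ) :
    DD d y y' g x = (∏ l, if y' l ≤ y l then (1 : ℝ) else -1) *
      DD d (fun l => |y l - y' l|) (fun _ => 0) g (x + ∑ l, min (y l) (y' l)) := by
  induction d generalizing x with
  | zero => simp [DD]
  | succ d ih =>
    simp only [DD]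
    rw [ih (fun l => y l.succ) (fun l => y' l.succ) (x + y 0),
      ih (fun l => y l.succ) (fun l => y' l.succ) (x + y' 0), Fin.prod_univ_succ,
      Fin.sum_univ_succ]
    rcases le_total (y' 0) (y 0) with h | h
    · rw [if_pos h, min_eq_right h, abs_of_nonneg (sub_nonneg.mpr h)]
      have e1 : x + (y' 0 + ∑ i : Fin d, min (y i.succ) (y' i.succ)) + (y 0 - y' 0) =
          x + y 0 + ∑ l : Fin d, min (y l.succ) (y' l.succ) := by ring
      have e2 : x + (y' 0 + ∑ i : Fin d, min (y i.succ) (y' i.succ)) + 0 =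
          x + y' 0 + ∑ l : Fin d, min (y l.succ) (y' l.succ) := by ring
      rw [e1, e2]
      ring
    · rcases eq_or_lt_of_le h with h' | h'
      · rw [if_pos h'.symm.le, min_eq_left h, h']
        simp
      · rw [if_neg (not_le.mpr h'), min_eq_left h, abs_of_nonpos (sub_nonpos.mpr h)]
        have e1 : x + (y 0 + ∑ i : Fin d, min (y i.succ) (y' i.succ)) + -(y 0 - y' 0) =
            x + y' 0 + ∑ l : Fin d, min (y l.succ) (y' l.succ) := by ring
        have e2 : x + (y 0 + ∑ i : Fin d, min (y i.succ) (y' i.succ)) + 0 =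
            x + y 0 + ∑ l : Fin d, min (y l.succ) (y' l.succ) := by ring
        rw [e1, e2]
        ring

theorem DB_of_Dif (d : ℕ) (g : ℝ → ℝ) (lo hi Z : ℝ) (hZ : 0 ≤ Z) (h : Dif d g lo hi Z) :
    DB d g lo hi (1.01 * Z) := by
  intro y y' x hy hy' hx hxm
  have hmin : ∀ l, 0 ≤ min (y l) (y' l) := fun l => le_min (hy l) (hy' l)
  have hsum : (∑ l, min (y l) (y' l)) + ∑ l, |y l - y' l| = ∑ l, max (y l) (y' l) := by
    rw [← Finset.sum_add_distrib]
    refine Finset.sum_congr rfl fun l _ => ?_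
    rcases le_total (y l) (y' l) with h1 | h1
    · rw [min_eq_left h1, max_eq_right h1, abs_of_nonpos (sub_nonpos.mpr h1)]
      ring
    · rw [min_eq_right h1, max_eq_left h1, abs_of_nonneg (sub_nonneg.mpr h1)]
      ring
  have hp : 0 ≤ ∏ l, |y l - y' l| := Finset.prod_nonneg fun l _ => abs_nonneg _
  have hs : |∏ l, if y' l ≤ y l then (1 : ℝ) else -1| = 1 := by
    rw [Finset.abs_prod]
    refine Finset.prod_eq_one fun l _ => ?_
    split_ifs <;> simp
  have hd := h (fun l => |y l - y' l|) (x + ∑ l, min (y l) (y' l)) (fun l => abs_nonneg _)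
    (le_trans hx (le_add_of_nonneg_right (Finset.sum_nonneg fun l _ => hmin l)))
    (by rw [add_assoc, hsum]; exact hxm)
  rw [DD_sign, abs_mul, hs, one_mul, abs_of_nonneg (le_trans (mul_nonneg hZ hp) hd.1)]
  exact hd.2

private theorem DD_cons50 (d : ℕ) (y y' : Fin d → ℝ) (a a' : ℝ) (g : ℝ → ℝ) (x : ℝ) :
    DD (d + 1) (Fin.cons a y : Fin (d + 1) → ℝ) (Fin.cons a' y' : Fin (d + 1) → ℝ) g x =
      DD d y y' g (x + a) - DD d y y' g (x + a') := by
  simp only [DD, Fin.cons_zero, Fin.cons_succ]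

private theorem DB_pair50 (d : ℕ) (g : ℝ → ℝ) (lo hi Y : ℝ) (h : DB (d + 1) g lo hi Y)
    (y y' : Fin d → ℝ) (a a' : ℝ) (ha : 0 ≤ a) (ha' : 0 ≤ a') (hy : ∀ l, 0 ≤ y l)
    (hy' : ∀ l, 0 ≤ y' l) (x : ℝ) (hx : lo ≤ x)
    (hxm : x + (max a a' + ∑ l, max (y l) (y' l)) ≤ hi) :
    |DD d y y' g (x + a) - DD d y y' g (x + a')| ≤ Y * (|a - a'| * ∏ l, |y l - y' l|) := by
  have h1 := h (Fin.cons a y) (Fin.cons a' y') x
    (fun l => by
      refine Fin.cases ?_ (fun l => ?_) l
      · rw [Fin.cons_zero]; exact ha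
      · rw [Fin.cons_succ]; exact hy l)
    (fun l => by
      refine Fin.cases ?_ (fun l => ?_) l
      · rw [Fin.cons_zero]; exact ha'
      · rw [Fin.cons_succ]; exact hy' l)
    hx
    (by
      rw [Fin.sum_univ_succ]
      simp only [Fin.cons_zero, Fin.cons_succ]
      exact hxm)
  rw [DD_cons50, Fin.prod_univ_succ] at h1
  simp only [Fin.cons_zero, Fin.cons_succ] at h1
  exact h1

theorem DB_cons (d : ℕ) (g : ℝ → ℝ) (lo hi Y : ℝ) (h : DB (d + 1) g lo hi Y) (a a' : ℝ)
    (ha : 0 ≤ a) (ha' : 0 ≤ a') :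
    DB d (fun z => g (z + a) - g (z + a')) lo (hi - max a a') (Y * |a - a'|) := by
  intro y y' x hy hy' hx hxm
  rw [DD_sub, DD_shift d y y' g a x, DD_shift d y y' g a' x]
  refine (DB_pair50 d g lo hi Y h y y' a a' ha ha' hy hy' x hx (by linarith)).trans ?_
  rw [mul_assoc]

private theorem prod_erase_zero50 (d : ℕ) (A : Fin (d + 1) → ℝ) :
    ∏ l' ∈ univ.erase (0 : Fin (d + 1)), A l' = ∏ l : Fin d, A l.succ := by
  have h1 : ∏ l' ∈ univ.erase (0 : Fin (d + 1)), A l' =
      ∏ l' : Fin (d + 1), if l' = 0 then 1 else A l' := by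
    rw [← Finset.mul_prod_erase univ (fun l' => if l' = 0 then (1 : ℝ) else A l')
      (Finset.mem_univ (0 : Fin (d + 1)))]
    rw [if_pos rfl, one_mul]
    refine Finset.prod_congr rfl fun l hl => ?_
    rw [if_neg (Finset.ne_of_mem_erase hl)]
  rw [h1, Fin.prod_univ_succ, if_pos rfl, one_mul]
  refine Finset.prod_congr rfl fun l _ => ?_
  rw [if_neg (Fin.succ_ne_zero l)]

private theorem prod_erase_succ50 (d : ℕ) (A : Fin (d + 1) → ℝ) (l : Fin d) :
    ∏ l' ∈ univ.erase l.succ, A l' = A 0 * ∏ l' ∈ univ.erase l, A l'.succ := by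
  have h1 : ∏ l' ∈ univ.erase l.succ, A l' =
      ∏ l' : Fin (d + 1), if l' = l.succ then 1 else A l' := by
    rw [← Finset.mul_prod_erase univ (fun l' => if l' = l.succ then (1 : ℝ) else A l')
      (Finset.mem_univ l.succ)]
    rw [if_pos rfl, one_mul]
    refine Finset.prod_congr rfl fun l hl => ?_
    rw [if_neg (Finset.ne_of_mem_erase hl)]
  have h2 : ∏ l' ∈ univ.erase l, A l'.succ =
      ∏ l' : Fin d, if l' = l then 1 else A l'.succ := by
    rw [← Finset.mul_prod_erase univ (fun l' => if l' = l then (1 : ℝ) else A l'.succ)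
      (Finset.mem_univ l)]
    rw [if_pos rfl, one_mul]
    refine Finset.prod_congr rfl fun l hl => ?_
    rw [if_neg (Finset.ne_of_mem_erase hl)]
  rw [h1, h2, Fin.prod_univ_succ, if_neg (Fin.succ_ne_zero l).symm]
  congr 1
  refine Finset.prod_congr rfl fun k _ => ?_
  simp only [Fin.succ_inj]

theorem DB.trunc (d : ℕ) (g : ℝ → ℝ) (lo hi Y : ℝ) (hY : 0 ≤ Y) (h : DB d g lo hi Y)
    (A y y' z z' : Fin d → ℝ) (hy : ∀ l, 0 ≤ y l ∧ y l ≤ A l) (hy' : ∀ l, 0 ≤ y' l ∧ y' l ≤ A l)
    (hz : ∀ l, 0 ≤ z l ∧ z l ≤ A l) (hz' : ∀ l, 0 ≤ z' l ∧ z' l ≤ A l) (x : ℝ) (hx : lo ≤ x)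
    (hxA : x + ∑ l, A l ≤ hi) :
    |DD d y y' g x - DD d z z' g x| ≤
      Y * ∑ l, (|y l - z l| + |y' l - z' l|) * ∏ l' ∈ univ.erase l, A l' := by
  induction d generalizing g hi Y with
  | zero => simp [DD]
  | succ d ih =>
    have hAn : ∀ l, 0 ≤ A l := fun l => (hy l).1.trans (hy l).2
    rw [Fin.sum_univ_succ] at hxA
    have hm : ∀ u v c : ℝ, u ≤ c → v ≤ c → max u v ≤ c := fun u v c h1 h2 => max_le h1 h2
    -- the first bracket
    have h1 := ih (fun z => g (z + y 0) - g (z + y' 0)) (hi - max (y 0) (y' 0))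
      (Y * |y 0 - y' 0|) (mul_nonneg hY (abs_nonneg _))
      (DB_cons d g lo hi Y h (y 0) (y' 0) (hy 0).1 (hy' 0).1)
      (fun l => A l.succ) (fun l => y l.succ) (fun l => y' l.succ) (fun l => z l.succ)
      (fun l => z' l.succ) (fun l => hy l.succ) (fun l => hy' l.succ) (fun l => hz l.succ)
      (fun l => hz' l.succ)
      (by
        have := max_le (hy 0).2 (hy' 0).2
        linarith)
    rw [DD_sub, DD_sub, DD_shift, DD_shift, DD_shift, DD_shift] at h1
    -- the second bracket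
    have hmaxs : ∑ l : Fin d, max (z l.succ) (z' l.succ) ≤ ∑ l : Fin d, A l.succ :=
      Finset.sum_le_sum fun l _ => max_le (hz l.succ).2 (hz' l.succ).2
    have h2 := DB_pair50 d g lo hi Y h (fun l => z l.succ) (fun l => z' l.succ) (y 0) (z 0)
      (hy 0).1 (hz 0).1 (fun l => (hz l.succ).1) (fun l => (hz' l.succ).1) x hx
      (by
        have := max_le (hy 0).2 (hz 0).2
        linarith)
    have h3 := DB_pair50 d g lo hi Y h (fun l => z l.succ) (fun l => z' l.succ) (y' 0) (z' 0)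
      (hy' 0).1 (hz' 0).1 (fun l => (hz l.succ).1) (fun l => (hz' l.succ).1) x hx
      (by
        have := max_le (hy' 0).2 (hz' 0).2
        linarith)
    have hpz : ∏ l : Fin d, |z l.succ - z' l.succ| ≤ ∏ l : Fin d, A l.succ := by
      refine Finset.prod_le_prod (fun l _ => abs_nonneg _) fun l _ => ?_
      rw [abs_le]
      have a1 := hz l.succ
      have a2 := hz' l.succ
      constructor <;> linarith [a1.1, a1.2, a2.1, a2.2]
    have hy0 : |y 0 - y' 0| ≤ A 0 := by
      rw [abs_le]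
      have a1 := hy 0
      have a2 := hy' 0
      constructor <;> linarith [a1.1, a1.2, a2.1, a2.2]
    have hS : 0 ≤ ∑ l : Fin d, (|y l.succ - z l.succ| + |y' l.succ - z' l.succ|) *
        ∏ l' ∈ univ.erase l, A l'.succ :=
      Finset.sum_nonneg fun l _ => mul_nonneg (add_nonneg (abs_nonneg _) (abs_nonneg _))
        (Finset.prod_nonneg fun l' _ => hAn _)
    have hR : ∑ l : Fin (d + 1), (|y l - z l| + |y' l - z' l|) * ∏ l' ∈ univ.erase l, A l' =
        (|y 0 - z 0| + |y' 0 - z' 0|) * ∏ l : Fin d, A l.succ +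
        A 0 * ∑ l : Fin d, (|y l.succ - z l.succ| + |y' l.succ - z' l.succ|) *
          ∏ l' ∈ univ.erase l, A l'.succ := by
      rw [Fin.sum_univ_succ, prod_erase_zero50, Finset.mul_sum]
      congr 1
      refine Finset.sum_congr rfl fun l _ => ?_
      rw [prod_erase_succ50]
      ring
    rw [hR]
    have b1 : Y * |y 0 - y' 0| * ∑ l : Fin d, (|y l.succ - z l.succ| + |y' l.succ - z' l.succ|) *
        ∏ l' ∈ univ.erase l, A l'.succ ≤
        Y * (A 0 * ∑ l : Fin d, (|y l.succ - z l.succ| + |y' l.succ - z' l.succ|) *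
          ∏ l' ∈ univ.erase l, A l'.succ) := by
      rw [mul_assoc]
      exact mul_le_mul_of_nonneg_left (mul_le_mul_of_nonneg_right hy0 hS) hY
    have b2 : Y * (|y 0 - z 0| * ∏ l : Fin d, |z l.succ - z' l.succ|) ≤
        Y * (|y 0 - z 0| * ∏ l : Fin d, A l.succ) :=
      mul_le_mul_of_nonneg_left (mul_le_mul_of_nonneg_left hpz (abs_nonneg _)) hY
    have b3 : Y * (|y' 0 - z' 0| * ∏ l : Fin d, |z l.succ - z' l.succ|) ≤
        Y * (|y' 0 - z' 0| * ∏ l : Fin d, A l.succ) :=
      mul_le_mul_of_nonneg_left (mul_le_mul_of_nonneg_left hpz (abs_nonneg _)) hY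
    simp only [DD]
    have key : ∀ a b c e f k : ℝ, a - b - (f - k) = (a - b - (c - e)) + (c - f) - (e - k) := by
      intros; ring
    rw [key _ _ (DD d (fun l => z l.succ) (fun l => z' l.succ) g (x + y 0))
      (DD d (fun l => z l.succ) (fun l => z' l.succ) g (x + y' 0))]
    have t1 := abs_sub (DD d (fun l => y l.succ) (fun l => y' l.succ) g (x + y 0) -
      DD d (fun l => y l.succ) (fun l => y' l.succ) g (x + y' 0) -
      (DD d (fun l => z l.succ) (fun l => z' l.succ) g (x + y 0) -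
      DD d (fun l => z l.succ) (fun l => z' l.succ) g (x + y' 0)) +
      (DD d (fun l => z l.succ) (fun l => z' l.succ) g (x + y 0) -
      DD d (fun l => z l.succ) (fun l => z' l.succ) g (x + z 0)))
      (DD d (fun l => z l.succ) (fun l => z' l.succ) g (x + y' 0) -
      DD d (fun l => z l.succ) (fun l => z' l.succ) g (x + z' 0))
    have t2 := abs_add_le (DD d (fun l => y l.succ) (fun l => y' l.succ) g (x + y 0) -
      DD d (fun l => y l.succ) (fun l => y' l.succ) g (x + y' 0) -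
      (DD d (fun l => z l.succ) (fun l => z' l.succ) g (x + y 0) -
      DD d (fun l => z l.succ) (fun l => z' l.succ) g (x + y' 0)))
      (DD d (fun l => z l.succ) (fun l => z' l.succ) g (x + y 0) -
      DD d (fun l => z l.succ) (fun l => z' l.succ) g (x + z 0))
    have hfin : Y * ((|y 0 - z 0| + |y' 0 - z' 0|) * ∏ l : Fin d, A l.succ +
        A 0 * ∑ l : Fin d, (|y l.succ - z l.succ| + |y' l.succ - z' l.succ|) *
          ∏ l' ∈ univ.erase l, A l'.succ) =
        Y * (|y 0 - z 0| * ∏ l : Fin d, A l.succ) + Y * (|y' 0 - z' 0| * ∏ l : Fin d, A l.succ) +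
        Y * (A 0 * ∑ l : Fin d, (|y l.succ - z l.succ| + |y' l.succ - z' l.succ|) *
          ∏ l' ∈ univ.erase l, A l'.succ) := by ring
    rw [hfin]
    linarith

end Pool.Agent.Helper59.RF
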