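import Pool.Agent.Helper59.RE.AV
import Pool.Agent.Helper59.RE.Exp
import Pool.Agent.Helper59.RE.Prob

/-!
# Project RF (MP_9056e9_nt): random expansions, only `K^δ` of the first `K` digits.  Definitions

`N k` is `c ^ k * (k!) ^ κ`; the number is `b + ∑_{k ∈ A} 1 / N k`.
-/

namespace Pool.Agent.Helper59.RF

open Finset
open Pool.Agent.Helper59.RE (e av wt mu dig)

/-- The denominators grow at least geometrically. -/
structure Bs (N : ℕ → ℝ) : Prop where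
  pos : ∀ k, 0 < N k
  dbl : ∃ θ : ℝ, 1 < θ ∧ ∀ k, 1 ≤ k → θ * N k ≤ N (k + 1)

open Classical in
/-- A constant for the tails of the series: the digits from `q` on contribute at most `tc N / N q`. -/
noncomputable def tc (N : ℕ → ℝ) : ℝ :=
  if h : ∃ θ : ℝ, 1 < θ ∧ ∀ k, 1 ≤ k → θ * N k ≤ N (k + 1) then h.choose / (h.choose - 1) else 2

/-- The sum of `1 / N k` over a finite set of digits. -/
noncomputable def xN (N : ℕ → ℝ) (T : Finset ℕ) : ℝ := ∑ k ∈ T, 1 / N k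

/-- The sum of `1 / N k` over a set of digits. -/
noncomputable def xsetN (N : ℕ → ℝ) (B : Set ℕ) : ℝ := ∑' k : ℕ, B.indicator (fun k => 1 / N k) k

/-- The probability one half. -/
noncomputable def hf : ℕ → ℝ := fun _ => 1 / 2

/-- `1 - sin² (π t) / 2`, a bound for the average of `e (ε t)` over a fair bit `ε`. -/
noncomputable def phi (t : ℝ) : ℝ := 1 - 1 / 2 * Real.sin (Real.pi * t) ^ 2

/-- The value of a bit. -/
def bs (b : Bool) : ℝ := if b then 1 else 0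

/-- The uniform average over a finite type. -/
noncomputable def ex {A : Type*} [Fintype A] {E : Type*} [AddCommGroup E] [Module ℝ E]
    (F : A → E) : E := (Fintype.card A : ℝ)⁻¹ • ∑ a, F a

/-- Iterated differences `∑_ω (-1)^|ω| g (x + ∑_l y^(ω_l)_l)`. -/
def DD : (d : ℕ) → (Fin d → ℝ) → (Fin d → ℝ) → (ℝ → ℝ) → ℝ → ℝ
  | 0, _, _, g, x => g x
  | d + 1, y, y', g, x => DD d (fun l => y l.succ) (fun l => y' l.succ) g (x + y 0) -
      DD d (fun l => y l.succ) (fun l => y' l.succ) g (x + y' 0)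

/-- The `d`-fold differences of `g` with steps `h l ≥ 0` on `[lo, hi]` are between `Z ∏ h` and
`1.01 Z ∏ h`. -/
def Dif (d : ℕ) (g : ℝ → ℝ) (lo hi Z : ℝ) : Prop :=
  ∀ (h : Fin d → ℝ) (x : ℝ), (∀ l, 0 ≤ h l) → lo ≤ x → x + ∑ l, h l ≤ hi →
    Z * ∏ l, h l ≤ DD d h (fun _ => 0) g x ∧ DD d h (fun _ => 0) g x ≤ 1.01 * Z * ∏ l, h l

/-- Bounded `d`-fold differences on `[lo, hi]`. -/
def DB (d : ℕ) (g : ℝ → ℝ) (lo hi Y : ℝ) : Prop :=
  ∀ (y y' : Fin d → ℝ) (x : ℝ), (∀ l, 0 ≤ y l) → (∀ l, 0 ≤ y' l) → lo ≤ x →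
    x + ∑ l, max (y l) (y' l) ≤ hi → |DD d y y' g x| ≤ Y * ∏ l, |y l - y' l|

/-- The Taylor estimate of order one for `f` with derivative `g`, and the Lipschitz bound of `g`. -/
def Tay (f g : ℝ → ℝ) (lo hi Z : ℝ) : Prop :=
  ∀ x y : ℝ, lo ≤ x → 0 ≤ y → x + y ≤ hi →
    |f (x + y) - f x - g x * y| ≤ Z * y ^ 2 ∧ |g (x + y) - g x| ≤ Z * y

end Pool.Agent.Helper59.RF
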