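import Pool.Agent.Helper59.RF.CorrFin2
import Pool.Agent.Helper59.RE.FinB

/-!
# Project RF: assembly
-/

namespace Pool.Agent.Helper59.RF

open Finset MeasureTheory ProbabilityTheory Polynomial
open Pool.Agent.Helper59.RE (e av mu dig FF G0 Concl disc_as l2_of_corr norm_e conj_e e_add finA_FF_neg)

/-- The conditions on the denominators. -/
structure NN (N : ℕ → ℝ) : Prop where
  bs : Bs N
  win : WinProp N
  gr : ∃ D k₁ : ℕ, ∀ k : ℕ, k₁ ≤ k → N k ≤ (k : ℝ) ^ (D * k)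

/-- The positive case. -/
theorem finN_pos {N : ℕ → ℝ} (hN : NN N) {Ω : Type*} [MeasurableSpace Ω] (μ : Measure Ω)
    [IsProbabilityMeasure μ]
    (A : Ω → Set ℕ) (hA : ∀ k, MeasurableSet {ω | k ∈ A ω})
    (hind : iIndepSet (fun k : ℕ => {ω | k ∈ A ω}) μ) (δ : ℝ) (hδ0 : 0 < δ) (hδ1 : δ ≤ 1 / 4)
    (k₀ : ℕ) (hμ : ∀ k : ℕ, k₀ ≤ k →
      (k : ℝ) ^ (-1 + δ) ≤ mu (fun k => μ.real {ω | k ∈ A ω}) k)
    (P : ℝ[X]) (b' : ℝ) (hb : 1 < b') (q : ℕ) (hq : 1 ≤ q)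
    (hP : ∀ x ∈ Set.Icc b' (b' + tc N / N q), 0 < P.eval x) :
    ∃ m₀ : ℕ, ∀ m : ℕ, m₀ ≤ m → ∀ n < m, ∀ h : ℕ, 1 ≤ h →
      ‖∫ ω, e (h * FF P m n (b' + xsetN N (A ω ∩ Set.Ici q))) ∂μ‖ ≤ 1 / (m : ℝ) ^ 4 := by
  obtain ⟨D, k₁, hg⟩ := hN.gr
  obtain ⟨m₀, hm₀⟩ := corr_finN hN.bs hN.win D k₁ hg P b' hb q hq hP δ hδ0 hδ1
    (fun k => μ.real {ω | k ∈ A ω})
    (fun k => measureReal_nonneg) (fun k => measureReal_le_one) k₀ hμ
  refine ⟨m₀, fun m hm n hn h hh => ?_⟩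
  obtain ⟨M₀, hM₀⟩ := hm₀ m hm n hn h hh
  have hcont : Continuous (fun x : ℝ => (h : ℝ) * FF P m n (b' + x)) := by
    unfold FF G0
    have h1 : Continuous (fun x : ℝ => P.eval (b' + x)) :=
      P.continuous.comp (continuous_const.add continuous_id)
    fun_prop
  exact prob_limN hN.bs μ A hA hind (fun x => (h : ℝ) * FF P m n (b' + x)) hcont q
    (1 / (m : ℝ) ^ 4) M₀ hM₀

/-- The correlations for the random number `b' + (digits from q on)`. -/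
theorem corrN {N : ℕ → ℝ} (hN : NN N) {Ω : Type*} [MeasurableSpace Ω] (μ : Measure Ω)
    [IsProbabilityMeasure μ]
    (A : Ω → Set ℕ) (hA : ∀ k, MeasurableSet {ω | k ∈ A ω})
    (hind : iIndepSet (fun k : ℕ => {ω | k ∈ A ω}) μ) (δ : ℝ) (hδ0 : 0 < δ) (hδ1 : δ ≤ 1 / 4)
    (k₀ : ℕ) (hμ : ∀ k : ℕ, k₀ ≤ k →
      (k : ℝ) ^ (-1 + δ) ≤ mu (fun k => μ.real {ω | k ∈ A ω}) k)
    (P : ℝ[X]) (b' : ℝ) (hb : 1 < b') (q : ℕ) (hq : 1 ≤ q)
    (hP : ∀ x ∈ Set.Icc b' (b' + tc N / N q), P.eval x ≠ 0) :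
    ∃ m₀ : ℕ, ∀ m : ℕ, m₀ ≤ m → ∀ n < m, ∀ h : ℕ, 1 ≤ h →
      ‖∫ ω, e (h * FF P m n (b' + xsetN N (A ω ∩ Set.Ici q))) ∂μ‖ ≤ 1 / (m : ℝ) ^ 4 := by
  have hq0 : (0 : ℝ) ≤ tc N / N q := div_nonneg (tc_pos hN.bs).le (hN.bs.pos q).le
  have hb0 : b' ∈ Set.Icc b' (b' + tc N / N q) := ⟨le_refl _, by linarith⟩
  have hcont : ContinuousOn (fun x => P.eval x) (Set.Icc b' (b' + tc N / N q)) :=
    P.continuous.continuousOn
  rcases lt_or_gt_of_ne (hP b' hb0) with h0 | h0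
  · -- negative
    have hneg : ∀ x ∈ Set.Icc b' (b' + tc N / N q), 0 < (-P).eval x := by
      intro x hx
      rw [eval_neg, neg_pos]
      by_contra hcon
      push Not at hcon
      have hsub : Set.Icc b' x ⊆ Set.Icc b' (b' + tc N / N q) :=
        Set.Icc_subset_Icc le_rfl hx.2
      have h1 : (0 : ℝ) ∈ Set.Icc (P.eval b') (P.eval x) := ⟨h0.le, hcon⟩
      obtain ⟨y, hy, hy0⟩ := intermediate_value_Icc hx.1 (hcont.mono hsub) h1
      exact hP y (hsub hy) hy0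
    obtain ⟨m₀, hm₀⟩ := finN_pos hN μ A hA hind δ hδ0 hδ1 k₀ hμ (-P) b' hb q hq hneg
    refine ⟨m₀, fun m hm n hn h hh => ?_⟩
    have h1 := hm₀ m hm n hn h hh
    have h2 : (∫ ω, e (h * FF (-P) m n (b' + xsetN N (A ω ∩ Set.Ici q))) ∂μ) =
        (starRingEnd ℂ) (∫ ω, e (h * FF P m n (b' + xsetN N (A ω ∩ Set.Ici q))) ∂μ) := by
      rw [← integral_conj]
      congr 1
      funext ω
      rw [conj_e, finA_FF_neg]
      congr 1
      ring
    rw [h2, RCLike.norm_conj] at h1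
    exact h1
  · have hpos : ∀ x ∈ Set.Icc b' (b' + tc N / N q), 0 < P.eval x := by
      intro x hx
      by_contra hcon
      push Not at hcon
      have hsub : Set.Icc b' x ⊆ Set.Icc b' (b' + tc N / N q) :=
        Set.Icc_subset_Icc le_rfl hx.2
      have h1 : (0 : ℝ) ∈ Set.Icc (P.eval x) (P.eval b') := ⟨hcon, h0.le⟩
      obtain ⟨y, hy, hy0⟩ := intermediate_value_Icc' hx.1 (hcont.mono hsub) h1
      exact hP y (hsub hy) hy0
    exact finN_pos hN μ A hA hind δ hδ0 hδ1 k₀ hμ P b' hb q hq hpos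

private theorem finN_summable (M : ℕ) (hM : 1 ≤ M) :
    Summable (fun i : ℕ => 2 * (i : ℝ) * (if i < M then 1 else 1 / (i : ℝ) ^ 4)) := by
  rw [← summable_nat_add_iff M]
  have h1 : Summable (fun i : ℕ => 2 * (1 / ((i + M : ℕ) : ℝ) ^ 3)) := by
    have h2 : Summable (fun n : ℕ => 1 / (n : ℝ) ^ 3) :=
      Real.summable_one_div_nat_pow.2 (by norm_num)
    exact ((summable_nat_add_iff M).2 h2).mul_left 2
  refine h1.congr (fun i => ?_)
  rw [if_neg (by omega)]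
  have h3 : ((i + M : ℕ) : ℝ) ≠ 0 := by
    have : i + M ≠ 0 := by omega
    exact_mod_cast this
  field_simp

/-- The almost sure statement for fixed digits below `q`. -/
theorem patternN {N : ℕ → ℝ} (hN : NN N) {Ω : Type*} [MeasurableSpace Ω] (μ : Measure Ω)
    [IsProbabilityMeasure μ]
    (A : Ω → Set ℕ) (hA : ∀ k, MeasurableSet {ω | k ∈ A ω})
    (hind : iIndepSet (fun k : ℕ => {ω | k ∈ A ω}) μ) (δ : ℝ) (hδ0 : 0 < δ) (hδ1 : δ ≤ 1 / 4)
    (k₀ : ℕ) (hμ : ∀ k : ℕ, k₀ ≤ k →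
      (k : ℝ) ^ (-1 + δ) ≤ mu (fun k => μ.real {ω | k ∈ A ω}) k)
    (P : ℝ[X]) (b' : ℝ) (hb : 1 < b') (q : ℕ) (hq : 1 ≤ q)
    (hP : ∀ x ∈ Set.Icc b' (b' + tc N / N q), P.eval x ≠ 0)
    (a : ℕ → ℕ) (ha : StrictMono a) (c : ℕ → ℝ) :
    ∀ᵐ ω ∂μ, Concl (fun i => P.eval (b' + xsetN N (A ω ∩ Set.Ici q)) *
      (b' + xsetN N (A ω ∩ Set.Ici q)) ^ a i + c i) := by
  obtain ⟨m₀, hm₀⟩ := corrN hN μ A hA hind δ hδ0 hδ1 k₀ hμ P b' hb q hq hP
  set M : ℕ := max m₀ 1 with hM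
  have hM1 : 1 ≤ M := le_max_right _ _
  have hMm : m₀ ≤ M := le_max_left _ _
  have hmeasY : Measurable (fun ω => b' + xsetN N (A ω ∩ Set.Ici q)) :=
    measurable_const.add (measurable_xsetN hN.bs A hA q)
  set u : ℕ → Ω → ℝ := fun i ω => P.eval (b' + xsetN N (A ω ∩ Set.Ici q)) *
      (b' + xsetN N (A ω ∩ Set.Ici q)) ^ a i + c i with hu
  have humeas : ∀ i, Measurable (u i) := by
    intro i
    have h1 : Measurable (fun ω => P.eval (b' + xsetN N (A ω ∩ Set.Ici q))) :=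
      P.continuous.measurable.comp hmeasY
    exact (h1.mul (hmeasY.pow_const (a i))).add measurable_const
  have hai : ∀ i, i ≤ a i := fun i => ha.le_apply
  have hc : ∀ h : ℕ, 1 ≤ h → ∀ i, ∀ l < i, ‖∫ ω, e (h * (u i ω - u l ω)) ∂μ‖ ≤
      (if i < M then 1 else 1 / (i : ℝ) ^ 4) := by
    intro h hh i l hl
    have hone : ‖∫ ω, e (h * (u i ω - u l ω)) ∂μ‖ ≤ 1 := by
      have h1 := norm_integral_le_of_norm_le_const (μ := μ) (C := 1)
        (f := fun ω => e (h * (u i ω - u l ω)))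
        (Filter.Eventually.of_forall (fun ω => (norm_e _).le))
      simpa using h1
    split_ifs with hi
    · exact hone
    · have hiM : M ≤ i := by omega
      have hi1 : 1 ≤ i := hM1.trans hiM
      have h1 := hm₀ (a i) ((hMm.trans hiM).trans (hai i)) (a l) (ha hl) h hh
      have h2 : ∀ ω, e (h * (u i ω - u l ω)) =
          e (h * FF P (a i) (a l) (b' + xsetN N (A ω ∩ Set.Ici q))) * e (h * (c i - c l)) := by
        intro ω
        rw [← e_add]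
        congr 1
        simp only [hu, FF, G0]
        ring
      have h3 : ‖∫ ω, e (h * (u i ω - u l ω)) ∂μ‖ =
          ‖∫ ω, e (h * FF P (a i) (a l) (b' + xsetN N (A ω ∩ Set.Ici q))) ∂μ‖ := by
        simp only [h2]
        rw [integral_mul_const, norm_mul, norm_e, mul_one]
      rw [h3]
      refine h1.trans ?_
      have hi0 : (0 : ℝ) < i := by exact_mod_cast hi1
      refine one_div_le_one_div_of_le (pow_pos hi0 4) ?_
      exact pow_le_pow_left₀ hi0.le (by exact_mod_cast hai i) 4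
  have hL2 := l2_of_corr μ u humeas _ hc
  refine disc_as μ u humeas (fun i => 2 * (i : ℝ) * (if i < M then 1 else 1 / (i : ℝ) ^ 4)) ?_
    (finN_summable M hM1) hL2
  intro i
  split_ifs <;> positivity

/-- The first digits of `N` do not matter. -/
theorem xset_split' {N N' : ℕ → ℝ} (hN : Bs N') (kB : ℕ) (h : ∀ k, kB ≤ k → N k = N' k)
    {Ω : Type*} (A : Ω → Set ℕ) (q : ℕ) (hq : kB ≤ q) (ω : Ω) :
    xsetN N (A ω) = xN N (dig A (range q) ω) + xsetN N' (A ω ∩ Set.Ici q) := by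
  classical
  have h1 : ∀ k, (A ω).indicator (fun k : ℕ => 1 / N k) k
      = (A ω ∩ Set.Iio q).indicator (fun k : ℕ => 1 / N k) k
        + (A ω ∩ Set.Ici q).indicator (fun k : ℕ => 1 / N' k) k := by
    intro k
    simp only [Set.indicator_apply, Set.mem_inter_iff, Set.mem_Iio, Set.mem_Ici]
    by_cases h2 : k ∈ A ω <;> by_cases h' : k < q
    · simp [h2, h']
    · simp [h2, h', not_lt.mp h', h k (by omega)]
    · simp [h2]
    · simp [h2]
  have hfin : ∀ k, k ∉ range q → (A ω ∩ Set.Iio q).indicator (fun k : ℕ => 1 / N k) k = 0 := by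
    intro k hk
    rw [Set.indicator_of_notMem]
    intro h2
    exact hk (mem_range.mpr h2.2)
  have hs1 : Summable ((A ω ∩ Set.Iio q).indicator (fun k : ℕ => 1 / N k)) :=
    summable_of_ne_finset_zero (s := range q) (fun k hk => hfin k hk)
  unfold xsetN
  rw [tsum_congr h1, hs1.tsum_add (summable_ind hN _)]
  congr 1
  rw [tsum_eq_sum (s := range q) (fun k hk => hfin k hk)]
  unfold xN
  rw [show dig A (range q) ω = (range q).filter (fun k => k ∈ A ω) by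
    unfold dig
    congr]
  rw [Finset.sum_filter]
  refine Finset.sum_congr rfl fun k hk => ?_
  rw [Set.indicator_apply]
  have hk' : k < q := mem_range.mp hk
  by_cases h2 : k ∈ A ω
  · rw [if_pos h2, if_pos ⟨h2, hk'⟩]
  · rw [if_neg h2, if_neg (fun h3 => h2 h3.1)]

theorem mainN {N N' : ℕ → ℝ} (hN : NN N') (kB : ℕ) (hNN : ∀ k, kB ≤ k → N k = N' k)
    {Ω : Type*} [MeasurableSpace Ω] (μ : Measure Ω)
    [IsProbabilityMeasure μ]
    (A : Ω → Set ℕ) (hA : ∀ k, MeasurableSet {ω | k ∈ A ω})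
    (hind : iIndepSet (fun k : ℕ => {ω | k ∈ A ω}) μ) (δ : ℝ) (hδ0 : 0 < δ)
    (hμ : ∃ k₀ : ℕ, ∀ k : ℕ, k₀ ≤ k →
      (k : ℝ) ^ (-1 + δ) ≤ μ.real {ω | k ∈ A ω} ∧
      μ.real {ω | k ∈ A ω} ≤ 1 - (k : ℝ) ^ (-1 + δ))
    (b : ℝ) (P : ℝ[X]) (a : ℕ → ℕ) (ha : StrictMono a) (c : ℕ → ℝ) :
    ∀ᵐ ω ∂μ, 1 < b + xsetN N (A ω) → P.eval (b + xsetN N (A ω)) ≠ 0 →
      Concl (fun i => P.eval (b + xsetN N (A ω)) * (b + xsetN N (A ω)) ^ a i + c i) := by
  classical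
  obtain ⟨k₀, hμ⟩ := hμ
  obtain ⟨δ', hδ'⟩ : ∃ δ', δ' = min δ (1 / 4) := ⟨_, rfl⟩
  have hδ'0 : 0 < δ' := by rw [hδ']; exact lt_min hδ0 (by norm_num)
  have hδ'1 : δ' ≤ 1 / 4 := by rw [hδ']; exact min_le_right _ _
  have hδ'2 : δ' ≤ δ := by rw [hδ']; exact min_le_left _ _
  have hmu : ∀ k : ℕ, max k₀ 1 ≤ k →
      (k : ℝ) ^ (-1 + δ') ≤ mu (fun k => μ.real {ω | k ∈ A ω}) k := by
    intro k hk
    have hk0 : k₀ ≤ k := (le_max_left _ _).trans hk
    have hk1 : 1 ≤ k := (le_max_right _ _).trans hk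
    obtain ⟨h1, h2⟩ := hμ k hk0
    have h3 : (k : ℝ) ^ (-1 + δ') ≤ (k : ℝ) ^ (-1 + δ) :=
      Real.rpow_le_rpow_of_exponent_le (by exact_mod_cast hk1) (by linarith)
    unfold mu
    exact le_min (h3.trans h1) (by linarith)
  have hall : ∀ᵐ ω ∂μ, ∀ (q : ℕ) (t : Finset ℕ), 1 ≤ q → 1 < b + xN N t →
      (∀ x ∈ Set.Icc (b + xN N t) (b + xN N t + tc N' / N' q), P.eval x ≠ 0) →
      Concl (fun i => P.eval (b + xN N t + xsetN N' (A ω ∩ Set.Ici q)) *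
        (b + xN N t + xsetN N' (A ω ∩ Set.Ici q)) ^ a i + c i) := by
    rw [ae_all_iff]
    intro q
    rw [ae_all_iff]
    intro t
    by_cases h : 1 ≤ q ∧ 1 < b + xN N t ∧
        ∀ x ∈ Set.Icc (b + xN N t) (b + xN N t + tc N' / N' q), P.eval x ≠ 0
    · filter_upwards [patternN hN μ A hA hind δ' hδ'0 hδ'1 (max k₀ 1) hmu P (b + xN N t) h.2.1 q
        h.1 h.2.2 a ha c] with ω hω _ _ _
      exact hω
    · exact Filter.Eventually.of_forall (fun ω h1 h2 h3 => absurd ⟨h1, h2, h3⟩ h)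
  filter_upwards [hall] with ω hω h1 hP
  obtain ⟨X, hX⟩ : ∃ X, X = b + xsetN N (A ω) := ⟨_, rfl⟩
  rw [← hX] at h1 hP ⊢
  have hcont : ∀ᶠ x in nhds X, P.eval x ≠ 0 := P.continuous.continuousAt.eventually_ne hP
  obtain ⟨η, hη, hη2⟩ := Metric.eventually_nhds_iff.1 hcont
  have hm : 0 < min η (X - 1) := lt_min hη (by linarith)
  obtain ⟨q, hq1, hqN⟩ : ∃ q : ℕ, kB + 1 ≤ q ∧ tc N' / min η (X - 1) < N' q := by
    have ht := (N_tendsto hN.bs).eventually_gt_atTop (tc N' / min η (X - 1))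
    obtain ⟨q, h1, h2⟩ := ((Filter.eventually_ge_atTop (kB + 1)).and ht).exists
    exact ⟨q, h1, h2⟩
  have hq2 : tc N' / N' q < min η (X - 1) := by
    have hNq := hN.bs.pos q
    rw [div_lt_iff₀ hm] at hqN
    rw [div_lt_iff₀ hNq]
    linarith [mul_comm (N' q) (min η (X - 1))]
  have hq3 := hq2.trans_le (min_le_left _ _)
  have hq4 := hq2.trans_le (min_le_right _ _)
  have hsplit := xset_split' hN.bs kB hNN A q (by omega) ω
  have hr0 := xsetN_nonneg hN.bs (A ω ∩ Set.Ici q)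
  have hr1 := xsetN_le hN.bs (A ω) q (by omega)
  have e : b + xN N (dig A (range q) ω) + xsetN N' (A ω ∩ Set.Ici q) = X := by
    rw [hX, hsplit]; ring
  have h := hω q (dig A (range q) ω) (by omega) (by linarith) (by
    intro x hx
    apply hη2
    rw [Real.dist_eq, abs_lt]
    constructor <;> linarith [hx.1, hx.2])
  rw [e] at h
  exact h

end Pool.Agent.Helper59.RF
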