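import Pool.Agent.Helper59.RF.LowW

/-!
# Block RF-SEPG: tight tuples and separation (powers)

`M = MM d Q v`, `Cs d Q v j ≤ 2 d M ≤ s / 32` (`cc_le`).  All quotients are powers of `g`.
PROOFS.
* `cs_up`, `cs_scale`: `Cs` is the sum of the `cc d Q v l j`; `cc_up` for every `l` gives `Cs j' ≥ Cs j + d UU`; and `Cs d Q v' j' ≥ d MM d Q v'
  ≥ 8 d² M ≥ 2 d M + ..` (`mm_mono`, `d v' ≤ MM d Q v' / 2`).
* `cardG`: the map `(k l)_(l<d) ↦ (k, s + 2 - ∑ k l)` is injective from `∏_(l<d) [cc l, cc l + v)` to `TG` (`∑ k l` lies in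
  `[Cs, Cs + d (v-1)]`).
* `injG`: the sum of the coordinates is `s + 2`.
-/

namespace Pool.Agent.Helper59.RF

open Finset

theorem cs_le (d Q v j : ℕ) (hj : j < Q) : Cs d Q v j ≤ 2 * d * MM d Q v := by
  have h : ∀ l ∈ range d, cc d Q v l j ≤ 2 * MM d Q v := by
    intro l hl
    have := cc_le d Q v l j (mem_range.mp hl) hj
    omega
  calc Cs d Q v j ≤ ∑ _l ∈ range d, 2 * MM d Q v := sum_le_sum h
    _ = 2 * d * MM d Q v := by
      rw [sum_const, card_range, smul_eq_mul]
      ring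

theorem cs_up (d Q v j j' : ℕ) (hj : j < j') : Cs d Q v j + d * UU d v ≤ Cs d Q v j' := by
  have h : ∀ l ∈ range d, cc d Q v l j + UU d v ≤ cc d Q v l j' := by
    intro l _
    have := cc_up d Q v l j j' hj
    exact le_trans (Nat.le_add_right _ _) this
  calc Cs d Q v j + d * UU d v = ∑ l ∈ range d, (cc d Q v l j + UU d v) := by
        rw [sum_add_distrib, sum_const, card_range, smul_eq_mul]
        rfl
    _ ≤ Cs d Q v j' := sum_le_sum h

theorem cs_scale (d Q v v' j j' : ℕ) (hd : 2 ≤ d) (hj : j < Q) (h : 8 * d * v ≤ v') :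
    Cs d Q v j + d * v' ≤ Cs d Q v' j' := by
  have h1 := cs_le d Q v j hj
  have h2 : d * MM d Q v' ≤ Cs d Q v' j' := by
    calc d * MM d Q v' = ∑ _l ∈ range d, MM d Q v' := by
          rw [sum_const, card_range, smul_eq_mul]
      _ ≤ Cs d Q v' j' := sum_le_sum fun l _ => mm_le_cc d Q v' l j'
  have h3 := mm_mono d Q v v' h
  have h4 := v_le_mm d Q v'
  have h5 : d * (8 * d * MM d Q v) ≤ d * MM d Q v' := Nat.mul_le_mul_left d h3
  have h6 : d * (32 * v') ≤ d * MM d Q v' := Nat.mul_le_mul_left d h4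
  have h7 : 2 * (d * MM d Q v) ≤ d * (d * MM d Q v) := Nat.mul_le_mul_right _ hd
  nlinarith

theorem cardG (s d Q v j : ℕ) (hR : Rng s d Q v) (hd : 2 ≤ d) (hj : j < Q) :
    v ^ d ≤ (TG s d Q v j).card := by
  classical
  have hbig := hR.big
  have hv1 := hR.v1
  have hcs := cs_le d Q v j hj
  have hvm := v_le_mm d Q v
  have hdv : d * (32 * v) ≤ d * MM d Q v := Nat.mul_le_mul_left d hvm
  have hsum : Cs d Q v j + d * v ≤ s := by nlinarith
  have hcsF : Cs d Q v j = ∑ l : Fin d, cc d Q v l j := Finset.sum_range _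
  -- the source
  have hcard : (Fintype.piFinset fun l : Fin d => Ico (cc d Q v l j) (cc d Q v l j + v)).card =
      v ^ d := by
    rw [Fintype.card_piFinset]
    simp
  rw [← hcard]
  refine Finset.card_le_card_of_injOn
    (fun k : Fin d → ℕ => (Fin.snoc k (s + 2 - ∑ l, k l) : Fin (d + 1) → ℕ)) ?_ ?_
  · intro k hk
    have hk' : ∀ l : Fin d, cc d Q v l j ≤ k l ∧ k l < cc d Q v l j + v := by
      intro l
      have := Fintype.mem_piFinset.mp hk l
      exact Finset.mem_Ico.mp this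
    have hlow : Cs d Q v j ≤ ∑ l, k l := by
      rw [hcsF]
      exact sum_le_sum fun l _ => (hk' l).1
    have hupp : ∑ l, k l + d ≤ Cs d Q v j + d * v := by
      have h1 : ∑ l : Fin d, (k l + 1) ≤ ∑ l : Fin d, (cc d Q v l j + v) :=
        sum_le_sum fun l _ => (hk' l).2
      rw [sum_add_distrib, sum_add_distrib, ← hcsF] at h1
      simpa using h1
    change (Fin.snoc k (s + 2 - ∑ l, k l) : Fin (d + 1) → ℕ) ∈ TG s d Q v j
    unfold TG
    rw [Finset.mem_filter, Fintype.mem_piFinset]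
    constructor
    · intro l
      refine Fin.lastCases ?_ (fun i => ?_) l
      · rw [Fin.snoc_last]
        unfold WG
        rw [if_pos (by simp), Finset.mem_Ico]
        constructor <;> omega
      · rw [Fin.snoc_castSucc]
        unfold WG
        rw [if_neg (by simp; omega), Finset.mem_Ico]
        exact hk' i
    · rw [Fin.sum_univ_castSucc, Fin.snoc_last]
      have : ∑ i : Fin d, (Fin.snoc k (s + 2 - ∑ l, k l) : Fin (d + 1) → ℕ) i.castSucc =
          ∑ i, k i := by
        refine sum_congr rfl fun i _ => ?_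
        rw [Fin.snoc_castSucc]
      rw [this]
      omega
  · intro k _ k' _ h
    funext i
    have h1 := congrFun h i.castSucc
    change (Fin.snoc k (s + 2 - ∑ l, k l) : Fin (d + 1) → ℕ) i.castSucc =
      (Fin.snoc k' (s + 2 - ∑ l, k' l) : Fin (d + 1) → ℕ) i.castSucc at h1
    rwa [Fin.snoc_castSucc, Fin.snoc_castSucc] at h1

theorem injG (s d Q v j : ℕ) (τ τ' : Fin (d + 1) → ℕ) (hτ : τ ∈ TG s d Q v j)
    (hτ' : τ' ∈ TG s d Q v j) (l : Fin (d + 1)) (h : ∀ l', l' ≠ l → τ l' = τ' l') : τ = τ' := by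
  unfold TG at hτ hτ'
  have h1 := (Finset.mem_filter.mp hτ).2
  have h2 := (Finset.mem_filter.mp hτ').2
  rw [← Finset.add_sum_erase univ τ (mem_univ l)] at h1
  rw [← Finset.add_sum_erase univ τ' (mem_univ l)] at h2
  have h3 : ∑ x ∈ univ.erase l, τ x = ∑ x ∈ univ.erase l, τ' x :=
    sum_congr rfl fun x hx => h x (Finset.ne_of_mem_erase hx)
  funext l'
  by_cases hl : l' = l
  · subst hl
    omega
  · exact h l' hl

end Pool.Agent.Helper59.RF
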