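import Pool.Agent.Helper59.RF.AsyS
import Pool.Agent.Helper59.RF.SepG

/-!
# Project RF: windows exist (powers of `g > 1`)

The tight tuples are those with the sum `s + a`, where `g ^ (a - 1) ≥ 4/3`.
-/

namespace Pool.Agent.Helper59.RF

open Finset

/-- The windows. -/
def WA (a s d Q v j : ℕ) (l : Fin (d + 1)) : Finset ℕ :=
  if (l : ℕ) = d then Ico (s + a + 1 - Cs d Q v j - d * v) (s + a + 1 - Cs d Q v j)
  else Ico (cc d Q v l j) (cc d Q v l j + v)

/-- The tight tuples. -/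
def TA (a s d Q v j : ℕ) : Finset (Fin (d + 1) → ℕ) :=
  (Fintype.piFinset (WA a s d Q v j)).filter (fun τ => ∑ l, τ l = s + a)

private theorem winA_low {a s d Q v j : ℕ} (l : Fin (d + 1)) (hl : (l : ℕ) < d) (x : ℕ) :
    x ∈ WA a s d Q v j l ↔ cc d Q v l j ≤ x ∧ x < cc d Q v l j + v := by
  unfold WA
  rw [if_neg (by omega), mem_Ico]

private theorem winA_top {a s d Q v j : ℕ} (l : Fin (d + 1)) (hl : (l : ℕ) = d) (x : ℕ) :
    x ∈ WA a s d Q v j l ↔ s + a + 1 ≤ x + Cs d Q v j + d * v ∧ x + Cs d Q v j < s + a + 1 := by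
  unfold WA
  rw [if_pos hl, mem_Ico]
  omega

private theorem winA_facts (s d Q v : ℕ) (hR : Rng s d Q v) (hd : 2 ≤ d) :
    64 * (d * MM d Q v) ≤ s ∧ 32 * (d * v) ≤ d * MM d Q v ∧ v ≤ d * v ∧
      2 * MM d Q v ≤ d * MM d Q v ∧ 3200 ≤ MM d Q v ∧ 32 * v ≤ MM d Q v ∧ 1 ≤ s := by
  have h1 := hR.big
  have h2 := v_le_mm d Q v
  have h3 := hR.v1
  have h4 : 32 * (d * v) ≤ d * MM d Q v := by
    calc 32 * (d * v) = d * (32 * v) := by ring
      _ ≤ d * MM d Q v := Nat.mul_le_mul_left d h2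
  have h5 : v ≤ d * v := Nat.le_mul_of_pos_left v (by omega)
  have h6 : 64 * d * MM d Q v = 64 * (d * MM d Q v) := by ring
  have h7 : 2 * MM d Q v ≤ d * MM d Q v := Nat.mul_le_mul_right _ hd
  refine ⟨by omega, h4, h5, h7, by omega, h2, by omega⟩

private theorem winA_vU (d v : ℕ) : v ≤ UU d v ∧ d * v ≤ UU d v := by
  unfold UU
  constructor
  · exact Nat.le_mul_of_pos_left v (by positivity)
  · exact Nat.mul_le_mul_right v (by omega)

/-- Lower digits lie in `[MM, 2 MM)`. -/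
private theorem winA_low_range {a s d Q v j : ℕ} (l : Fin (d + 1)) (hl : (l : ℕ) < d)
    (hj : j < Q) (x : ℕ) (hx : x ∈ WA a s d Q v j l) : MM d Q v ≤ x ∧ x < 2 * MM d Q v := by
  rw [winA_low l hl] at hx
  have h1 := mm_le_cc d Q v l j
  have h2 := cc_le d Q v l j hl hj
  have h3 := (winA_vU d v).1
  omega

/-- Top digits are near `s`. -/
private theorem winA_top_range {a s d Q v j : ℕ} (hR : Rng s d Q v) (hd : 2 ≤ d) (hav : a ≤ v)
    (l : Fin (d + 1)) (hl : (l : ℕ) = d) (hj : j < Q) (x : ℕ) (hx : x ∈ WA a s d Q v j l) :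
    s ≤ x + 3 * (d * MM d Q v) ∧ x ≤ s := by
  rw [winA_top l hl] at hx
  obtain ⟨f1, f2, f3, f4, f5, f6, f7⟩ := winA_facts s d Q v hR hd
  have h1 := cs_le d Q v j hj
  have h2 : 2 * d * MM d Q v = 2 * (d * MM d Q v) := by ring
  have h3 : MM d Q v ≤ Cs d Q v j := by
    unfold Cs
    refine (mm_le_cc d Q v 0 j).trans ?_
    exact single_le_sum (f := fun l => cc d Q v l j) (fun _ _ => Nat.zero_le _)
      (mem_range.mpr (by omega))
  omega

/-- Disjointness across scales. -/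
private theorem winA_disj1 {a s d Q v v' : ℕ} (hR : Rng s d Q v) (hR' : Rng s d Q v')
    (hd : 2 ≤ d) (hav : a ≤ v) (hav' : a ≤ v')
    (j j' : ℕ) (hj : j < Q) (hj' : j' < Q) (l l' : Fin (d + 1)) (hv : 8 * d * v ≤ v') :
    Disjoint (WA a s d Q v j l) (WA a s d Q v' j' l') := by
  rw [Finset.disjoint_left]
  intro x hx hx'
  obtain ⟨f1, f2, f3, f4, f5, f6, f7⟩ := winA_facts s d Q v hR hd
  obtain ⟨g1, g2, g3, g4, g5, g6, g7⟩ := winA_facts s d Q v' hR' hd
  have hmm := mm_mono d Q v v' hv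
  have hmm2 : 8 * d * MM d Q v = 8 * (d * MM d Q v) := by ring
  rcases Nat.lt_or_ge l d with hl | hl
  · have r1 := winA_low_range l hl hj x hx
    rcases Nat.lt_or_ge l' d with hl' | hl'
    · have r2 := winA_low_range l' hl' hj' x hx'
      omega
    · have r2 := winA_top_range hR' hd hav' l' (by omega) hj' x hx'
      omega
  · rcases Nat.lt_or_ge l' d with hl' | hl'
    · have r1 := winA_top_range hR hd hav l (by omega) hj x hx
      have r2 := winA_low_range l' hl' hj' x hx'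
      omega
    · rw [winA_top l (by omega)] at hx
      rw [winA_top l' (by omega)] at hx'
      have := cs_scale d Q v v' j j' hd hj hv
      have hdv : v ≤ v' := by
        have : v ≤ 8 * d * v := Nat.le_mul_of_pos_left v (by omega)
        omega
      have hdv2 : d * v ≤ d * v' := Nat.mul_le_mul_left d hdv
      omega

/-- Disjointness inside a scale, top windows. -/
private theorem winA_disj2 {a s d Q v : ℕ} (j j' : ℕ) (hj : j < j') (l l' : Fin (d + 1))
    (hl : (l : ℕ) = d) (hl' : (l' : ℕ) = d) :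
    Disjoint (WA a s d Q v j l) (WA a s d Q v j' l') := by
  rw [Finset.disjoint_left]
  intro x hx hx'
  rw [winA_top l hl] at hx
  rw [winA_top l' hl'] at hx'
  have h1 := cs_up d Q v j j' hj
  have h2 : d * v ≤ d * UU d v := Nat.mul_le_mul_left d (winA_vU d v).1
  omega

private theorem winA_disj3 {a s d Q v : ℕ} (hR : Rng s d Q v) (hd : 2 ≤ d) (hav : a ≤ v)
    (j j' : ℕ) (hj : j < Q) (hj' : j' < Q) (l l' : Fin (d + 1)) (h : j ≠ j' ∨ l ≠ l') :
    Disjoint (WA a s d Q v j l) (WA a s d Q v j' l') := by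
  obtain ⟨f1, f2, f3, f4, f5, f6, f7⟩ := winA_facts s d Q v hR hd
  rcases Nat.lt_or_ge l d with hl | hl
  · rcases Nat.lt_or_ge l' d with hl' | hl'
    · have h1 := cc_disj d Q v l l' j j' hj hj' (by
        rcases h with h | h
        · exact Or.inr h
        · exact Or.inl (fun hh => h (Fin.ext hh)))
      rw [Finset.disjoint_left] at h1 ⊢
      intro x hx hx'
      rw [winA_low l hl] at hx
      rw [winA_low l' hl'] at hx'
      have h2 := (winA_vU d v).1
      exact h1 (mem_Ico.mpr ⟨hx.1, by omega⟩) (mem_Ico.mpr ⟨hx'.1, by omega⟩)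
    · rw [Finset.disjoint_left]
      intro x hx hx'
      have r1 := winA_low_range l hl hj x hx
      have r2 := winA_top_range hR hd hav l' (by omega) hj' x hx'
      omega
  · rcases Nat.lt_or_ge l' d with hl' | hl'
    · rw [Finset.disjoint_left]
      intro x hx hx'
      have r1 := winA_top_range hR hd hav l (by omega) hj x hx
      have r2 := winA_low_range l' hl' hj' x hx'
      omega
    · have hll : l = l' := Fin.ext (by omega)
      have hjj : j ≠ j' := by
        rcases h with h | h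
        · exact h
        · exact absurd hll h
      rcases lt_or_gt_of_ne hjj with h1 | h1
      · exact winA_disj2 j j' h1 l l' (by omega) (by omega)
      · exact (winA_disj2 j' j h1 l' l (by omega) (by omega)).symm

private theorem winA_vv (δ : ℝ) (s d i i' : ℕ) (hd : 2 ≤ d) (h : i < i') :
    8 * d * vv δ s d i ≤ vv δ s d i' := by
  unfold vv
  rw [← mul_assoc]
  refine Nat.mul_le_mul_right _ ?_
  rw [← pow_succ']
  exact Nat.pow_le_pow_right (by omega) (by omega)

/-- The number of tight tuples. -/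
private theorem winA_card (a s d Q v j : ℕ) (hR : Rng s d Q v) (hd : 2 ≤ d) (hj : j < Q) :
    v ^ d ≤ (TA a s d Q v j).card := by
  classical
  have hbig := hR.big
  have hv1 := hR.v1
  have hcs := cs_le d Q v j hj
  have hvm := v_le_mm d Q v
  have hdv : d * (32 * v) ≤ d * MM d Q v := Nat.mul_le_mul_left d hvm
  have hsum : Cs d Q v j + d * v ≤ s := by nlinarith
  have hcsF : Cs d Q v j = ∑ l : Fin d, cc d Q v l j := Finset.sum_range _
  -- the source
  have hcard : (Fintype.piFinset fun l : Fin d => Ico (cc d Q v l j) (cc d Q v l j + v)).card =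
      v ^ d := by
    rw [Fintype.card_piFinset]
    simp
  rw [← hcard]
  refine Finset.card_le_card_of_injOn
    (fun k : Fin d → ℕ => (Fin.snoc k (s + a - ∑ l, k l) : Fin (d + 1) → ℕ)) ?_ ?_
  · intro k hk
    have hk' : ∀ l : Fin d, cc d Q v l j ≤ k l ∧ k l < cc d Q v l j + v := by
      intro l
      have := Fintype.mem_piFinset.mp hk l
      exact Finset.mem_Ico.mp this
    have hlow : Cs d Q v j ≤ ∑ l, k l := by
      rw [hcsF]
      exact sum_le_sum fun l _ => (hk' l).1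
    have hupp : ∑ l, k l + d ≤ Cs d Q v j + d * v := by
      have h1 : ∑ l : Fin d, (k l + 1) ≤ ∑ l : Fin d, (cc d Q v l j + v) :=
        sum_le_sum fun l _ => (hk' l).2
      rw [sum_add_distrib, sum_add_distrib, ← hcsF] at h1
      simpa using h1
    change (Fin.snoc k (s + a - ∑ l, k l) : Fin (d + 1) → ℕ) ∈ TA a s d Q v j
    unfold TA
    rw [Finset.mem_filter, Fintype.mem_piFinset]
    constructor
    · intro l
      refine Fin.lastCases ?_ (fun i => ?_) l
      · rw [Fin.snoc_last]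
        unfold WA
        rw [if_pos (by simp), Finset.mem_Ico]
        constructor <;> omega
      · rw [Fin.snoc_castSucc]
        unfold WA
        rw [if_neg (by simp; omega), Finset.mem_Ico]
        exact hk' i
    · rw [Fin.sum_univ_castSucc, Fin.snoc_last]
      have : ∑ i : Fin d, (Fin.snoc k (s + a - ∑ l, k l) : Fin (d + 1) → ℕ) i.castSucc =
          ∑ i, k i := by
        refine sum_congr rfl fun i _ => ?_
        rw [Fin.snoc_castSucc]
      rw [this]
      omega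
  · intro k _ k' _ h
    funext i
    have h1 := congrFun h i.castSucc
    change (Fin.snoc k (s + a - ∑ l, k l) : Fin (d + 1) → ℕ) i.castSucc =
      (Fin.snoc k' (s + a - ∑ l, k' l) : Fin (d + 1) → ℕ) i.castSucc at h1
    rwa [Fin.snoc_castSucc, Fin.snoc_castSucc] at h1

private theorem winA_inj (a s d Q v j : ℕ) (τ τ' : Fin (d + 1) → ℕ) (hτ : τ ∈ TA a s d Q v j)
    (hτ' : τ' ∈ TA a s d Q v j) (l : Fin (d + 1)) (h : ∀ l', l' ≠ l → τ l' = τ' l') :
    τ = τ' := by
  unfold TA at hτ hτ'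
  have h1 := (Finset.mem_filter.mp hτ).2
  have h2 := (Finset.mem_filter.mp hτ').2
  rw [← Finset.add_sum_erase univ τ (mem_univ l)] at h1
  rw [← Finset.add_sum_erase univ τ' (mem_univ l)] at h2
  have h3 : ∑ x ∈ univ.erase l, τ x = ∑ x ∈ univ.erase l, τ' x :=
    sum_congr rfl fun x hx => h x (Finset.ne_of_mem_erase hx)
  funext l'
  by_cases hl : l' = l
  · subst hl
    omega
  · exact h l' hl

private theorem winA_key (g Z : ℝ) (hg : 1 < g) (s v : ℕ) (hs : 1 ≤ s)
    (hgv : Es s ≤ g ^ v) (hZ2 : Z < g ^ (s + 1)) (n : ℕ) (hn : s + 1 + v ≤ n) :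
    Z / g ^ n ≤ 1 / Es s := by
  have hg0 : (0 : ℝ) < g := by linarith
  have hs0 : (0 : ℝ) < s := by exact_mod_cast hs
  obtain ⟨r, rfl⟩ : ∃ r, n = s + 1 + (v + r) := ⟨n - (s + 1 + v), by omega⟩
  have h1 : Es s ≤ g ^ (v + r) :=
    hgv.trans (pow_le_pow_right₀ hg.le (by omega))
  rw [pow_add, ← div_div]
  have h5 : Z / g ^ (s + 1) ≤ 1 := by
    rw [div_le_one (by positivity)]
    exact hZ2.le
  calc Z / g ^ (s + 1) / g ^ (v + r) ≤ 1 / g ^ (v + r) :=
        div_le_div_of_nonneg_right h5 (by positivity)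
    _ ≤ 1 / Es s := one_div_le_one_div_of_le (Es_pos s hs) h1

private theorem winA_sep1 (g Z : ℝ) (hg : 1 < g) (a s d Q v j K : ℕ) (hR : Rng s d Q v)
    (hgv : Es s ≤ g ^ v) (hd : 2 ≤ d)
    (hj : j < Q) (hZ2 : Z < g ^ (s + 1)) (hK : s + a + 1 ≤ K + Cs d Q v j + d * v) :
    Z / (g ^ K) ^ 2 ≤ 1 / Es s := by
  obtain ⟨h1, h2, h3, h4, h7, h8, h9⟩ := winA_facts s d Q v hR hd
  have h5 := cs_le d Q v j hj
  have h6 : 2 * d * MM d Q v = 2 * (d * MM d Q v) := by ring
  rw [← pow_mul]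
  exact winA_key g Z hg s v h9 hgv hZ2 _ (by omega)

private theorem winA_sep2 (g Z : ℝ) (hg : 1 < g) (a s d Q v v' j K k : ℕ) (hR : Rng s d Q v)
    (hgv : Es s ≤ g ^ v) (hd : 2 ≤ d)
    (hj : j < Q) (hv : 8 * d * v ≤ v') (hZ2 : Z < g ^ (s + 1))
    (hK : s + a + 1 ≤ K + Cs d Q v j + d * v) (hk : MM d Q v' ≤ k) :
    Z / (g ^ K * g ^ k) ≤ 1 / Es s := by
  obtain ⟨h1, h2, h3, h4, h9, h10, h11⟩ := winA_facts s d Q v hR hd
  have h5 := cs_le d Q v j hj
  have h6 : 2 * d * MM d Q v = 2 * (d * MM d Q v) := by ring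
  have h7 := mm_mono d Q v v' hv
  have h8 : 8 * d * MM d Q v = 8 * (d * MM d Q v) := by ring
  rw [← pow_add]
  exact winA_key g Z hg s v h11 hgv hZ2 _ (by omega)

private theorem winA_sep3 (g Z : ℝ) (hg : 1 < g) (a s d Q v : ℕ) (j : Fin Q)
    (hR : Rng s d Q v) (hgv : Es s ≤ g ^ v) (hd : 2 ≤ d)
    (hZ2 : Z < g ^ (s + 1)) (τ : Fin (d + 1) → ℕ) (hτ : τ ∈ TA a s d Q v j) (c : Fin d → Fin Q)
    (hc : ∃ l, j < c l) (k : Fin d → ℕ) (hk : ∀ l, k l ∈ WA a s d Q v (c l) l.castSucc) :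
    Z / (g ^ (τ (Fin.last d)) * ∏ l, g ^ (k l)) ≤ 1 / Es s := by
  classical
  obtain ⟨h1, h2, h3, h4, h9, h10, h11⟩ := winA_facts s d Q v hR hd
  unfold TA at hτ
  rw [mem_filter, Fintype.mem_piFinset, Fin.sum_univ_castSucc] at hτ
  obtain ⟨hmem, hsum⟩ := hτ
  rw [prod_pow_eq_pow_sum, ← pow_add]
  refine winA_key g Z hg s v h11 hgv hZ2 _ ?_
  have hvU : v ≤ UU d v := (winA_vU d v).1
  obtain ⟨D, hD⟩ : ∃ D, D = Dd d ^ (j : ℕ) * UU d v := ⟨_, rfl⟩
  have hDU : UU d v ≤ D := by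
    rw [hD]
    exact Nat.le_mul_of_pos_left _ (pow_pos (by unfold Dd; omega) _)
  -- every coordinate
  have hA : ∀ l : Fin d, τ l.castSucc ≤ k l + D := by
    intro l
    have a1 := hmem l.castSucc
    have a2 := hk l
    rw [winA_low _ (by simp)] at a1 a2
    simp only [Fin.val_castSucc] at a1 a2
    rcases le_or_gt (c l : ℕ) (j : ℕ) with h | h
    · have := cc_low d Q v l j (c l) h
      rw [← hD] at this
      omega
    · have := cc_up d Q v l j (c l) h
      omega
  have hB : ∀ l : Fin d, j < c l → τ l.castSucc + (2 * d + 2) * D ≤ k l := by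
    intro l hl
    have a1 := hmem l.castSucc
    have a2 := hk l
    rw [winA_low _ (by simp)] at a1 a2
    simp only [Fin.val_castSucc] at a1 a2
    have := cc_up d Q v l j (c l) hl
    have e1 : (2 * d + 2) * Dd d ^ (j : ℕ) * UU d v = (2 * d + 2) * D := by rw [hD]; ring
    rw [e1] at this
    omega
  obtain ⟨l0, hl0⟩ := hc
  have hsumA : ∑ l ∈ univ.erase l0, τ (Fin.castSucc l) ≤ ∑ l ∈ univ.erase l0, k l + (d - 1) * D := by
    calc ∑ l ∈ univ.erase l0, τ (Fin.castSucc l) ≤ ∑ l ∈ univ.erase l0, (k l + D) :=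
          sum_le_sum fun l _ => hA l
      _ = ∑ l ∈ univ.erase l0, k l + (d - 1) * D := by
          rw [sum_add_distrib, sum_const, smul_eq_mul, card_erase_of_mem (mem_univ _), card_univ,
            Fintype.card_fin]
  have hB0 := hB l0 hl0
  have s1 : ∑ l, τ (Fin.castSucc l) = τ l0.castSucc + ∑ l ∈ univ.erase l0, τ (Fin.castSucc l) :=
    (add_sum_erase _ _ (mem_univ _)).symm
  have s2 : ∑ l, k l = k l0 + ∑ l ∈ univ.erase l0, k l := (add_sum_erase _ _ (mem_univ _)).symm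
  have e2 : (2 * d + 2) * D = (d - 1) * D + (d + 3) * D := by
    rw [← add_mul]
    congr 1
    omega
  have e3 : 3 * D ≤ (d + 3) * D := Nat.mul_le_mul_right _ (by omega)
  have hv1 := hR.v1
  omega

/-- `g ^ v` is large. -/
private theorem winA_asy (g : ℝ) (hg : 1 < g) (a : ℕ) :
    ∃ S₁ : ℕ, ∀ s : ℕ, S₁ ≤ s → ∀ v : ℕ, (s : ℝ) ^ (3 / 4 : ℝ) ≤ v →
      Es s ≤ g ^ v ∧ a ≤ v := by
  have hlg : 0 < Real.log g := Real.log_pos hg
  have h1 : Filter.Tendsto (fun s : ℕ => Real.log s / (s : ℝ) ^ (1 / 2 : ℝ)) Filter.atTop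
      (nhds 0) := by
    have := (isLittleO_log_rpow_atTop (by norm_num : (0 : ℝ) < 1 / 2)).tendsto_div_nhds_zero
    exact this.comp tendsto_natCast_atTop_atTop
  have h2 := h1.eventually (gt_mem_nhds (by positivity : (0 : ℝ) < Real.log g / 62))
  have h3 : Filter.Tendsto (fun s : ℕ => (s : ℝ) ^ (1 / 2 : ℝ)) Filter.atTop Filter.atTop :=
    (tendsto_rpow_atTop (by norm_num)).comp tendsto_natCast_atTop_atTop
  have h4 := h3.eventually (Filter.eventually_ge_atTop (a : ℝ))
  have h3' : Filter.Tendsto (fun s : ℕ => (s : ℝ) ^ (1 / 4 : ℝ)) Filter.atTop Filter.atTop :=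
    (tendsto_rpow_atTop (by norm_num)).comp tendsto_natCast_atTop_atTop
  have h4' := h3'.eventually (Filter.eventually_ge_atTop (2 * Real.log 2 / Real.log g))
  obtain ⟨S₁, hS₁⟩ := Filter.eventually_atTop.mp ((h2.and h4).and h4')
  refine ⟨S₁ + 1, fun s hs v hv => ?_⟩
  obtain ⟨⟨h5, h6⟩, h6'⟩ := hS₁ s (by omega)
  have hs0 : (0 : ℝ) < s := by exact_mod_cast (by omega : 0 < s)
  have hs1 : (1 : ℝ) ≤ s := by exact_mod_cast (by omega : 1 ≤ s)
  have hsp : (0 : ℝ) < (s : ℝ) ^ (1 / 2 : ℝ) := by positivity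
  have hv2 : (s : ℝ) ^ (1 / 2 : ℝ) ≤ v :=
    (Real.rpow_le_rpow_of_exponent_le hs1 (by norm_num)).trans hv
  refine ⟨?_, by exact_mod_cast h6.trans hv2⟩
  rw [div_lt_iff₀ hsp] at h5
  have h7 : (31 : ℝ) * Real.log s + Nat.sqrt s * Real.log 2 ≤ v * Real.log g := by
    have b1 : Real.log g * (s : ℝ) ^ (1 / 2 : ℝ) ≤ Real.log g * v :=
      mul_le_mul_of_nonneg_left hv2 hlg.le
    have b2 : 31 * Real.log s ≤ v * Real.log g / 2 := by nlinarith
    have a1 : (Nat.sqrt s : ℝ) ≤ (s : ℝ) ^ (1 / 2 : ℝ) := by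
      rw [← Real.sqrt_eq_rpow]
      exact Real.nat_sqrt_le_real_sqrt
    have a2 : (s : ℝ) ^ (3 / 4 : ℝ) = (s : ℝ) ^ (1 / 4 : ℝ) * (s : ℝ) ^ (1 / 2 : ℝ) := by
      rw [← Real.rpow_add hs0]
      norm_num
    have a3 : 2 * Real.log 2 / Real.log g * (Nat.sqrt s : ℝ) ≤ v := by
      have hl2 : 0 < Real.log 2 := Real.log_pos (by norm_num)
      have a4 : 2 * Real.log 2 / Real.log g * (Nat.sqrt s : ℝ) ≤
          (s : ℝ) ^ (1 / 4 : ℝ) * (s : ℝ) ^ (1 / 2 : ℝ) :=
        mul_le_mul h6' a1 (Nat.cast_nonneg _) (by positivity)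
      linarith
    have a5 : Nat.sqrt s * Real.log 2 ≤ v * Real.log g / 2 := by
      have a6 := mul_le_mul_of_nonneg_right a3 hlg.le
      have a7 : 2 * Real.log 2 / Real.log g * (Nat.sqrt s : ℝ) * Real.log g =
          2 * (Nat.sqrt s * Real.log 2) := by
        field_simp
      linarith
    linarith
  unfold Es
  rw [← Real.log_le_log_iff (by positivity) (by positivity),
    Real.log_mul (by positivity) (by positivity), Real.log_pow, Real.log_pow, Real.log_pow]
  exact_mod_cast h7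

theorem bsA (g : ℝ) (hg : 1 < g) : Bs (fun k => g ^ k) := by
  refine ⟨fun k => by have : 0 < g := by linarith
                      positivity, g, hg, fun k _ => ?_⟩
  rw [pow_succ, mul_comm]

theorem winAT (g : ℝ) (hg : 1 < g) : WinPropT (fun k => g ^ k) := by
  have hg0 : 0 < g := by linarith
  obtain ⟨a, ha⟩ : ∃ a : ℕ, 4 / 3 ≤ g ^ a :=
    (pow_unbounded_of_one_lt (4 / 3) hg).imp fun _ h => h.le
  refine ⟨min (1 / g ^ (a + 1)) (6 / 25), by positivity, min_le_right _ _, ?_⟩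
  intro δ hδ0 hδ1 d Q hd hQ
  obtain ⟨S₀, hS₀⟩ := asyS δ hδ0 hδ1 d Q hd
  obtain ⟨S₁, hS₁⟩ := winA_asy g hg (a + 1)
  refine ⟨S₀ + S₁ + 1, fun s hs Z hZ1 hZ2 => ?_⟩
  have hA := hS₀ s (by omega)
  have hs1 : (1 : ℝ) ≤ s := by exact_mod_cast (by omega : 1 ≤ s)
  have hB : ∀ i < Ln δ d s, Es s ≤ g ^ (vv δ s d i) ∧ a + 1 ≤ vv δ s d i := by
    intro i hi
    obtain ⟨hR, hv, _⟩ := hA i hi
    refine hS₁ s (by omega) _ ?_
    exact (Real.rpow_le_rpow_of_exponent_le hs1 (by linarith)).trans hv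
  refine ⟨{
    W := fun i j l => WA (a + 1) s d Q (vv δ s d i) j l
    TT := fun i j => TA (a + 1) s d Q (vv δ s d i) j
    u := fun i => (UU d (vv δ s d i) : ℝ)
    mem := ?_
    disj := ?_
    range := ?_
    tight := ?_
    inj := ?_
    card_le := ?_
    card_ge := ?_
    u_ge := ?_
    e1 := ?_
    e2 := ?_
    e3 := ?_
    f1 := ?_
    f2 := ?_
    f3 := ?_ }⟩
  · intro i hi j τ hτ l
    unfold TA at hτ
    rw [mem_filter, Fintype.mem_piFinset] at hτ
    exact hτ.1 l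
  · intro i hi i' hi' j j' l l' h
    obtain ⟨hR, _⟩ := hA i hi
    obtain ⟨hR', _⟩ := hA i' hi'
    have ha1 := (hB i hi).2
    have ha2 := (hB i' hi').2
    rcases lt_trichotomy i i' with h1 | h1 | h1
    · exact winA_disj1 hR hR' hd ha1 ha2 j j' j.isLt j'.isLt l l' (winA_vv δ s d i i' hd h1)
    · subst h1
      refine winA_disj3 hR hd ha1 j j' j.isLt j'.isLt l l' ?_
      rcases h with h | h | h
      · exact absurd rfl h
      · exact Or.inl (fun hh => h (Fin.ext hh))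
      · exact Or.inr h
    · exact (winA_disj1 hR' hR hd ha2 ha1 j' j j'.isLt j.isLt l' l
        (winA_vv δ s d i' i hd h1)).symm
  · intro i hi j l k hk
    obtain ⟨hR, hv, _⟩ := hA i hi
    obtain ⟨f1, f2, f3, f4, f5, f6, f7⟩ := winA_facts s d Q _ hR hd
    have key : vv δ s d i ≤ k ∧ k ≤ s := by
      rcases Nat.lt_or_ge l d with hl | hl
      · have r := winA_low_range l hl j.isLt k hk
        omega
      · have r := winA_top_range hR hd (hB i hi).2 l (by omega) j.isLt k hk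
        omega
    exact ⟨hv.trans (by exact_mod_cast key.1), key.2⟩
  · intro i hi j τ hτ
    unfold TA at hτ
    rw [mem_filter] at hτ
    have hprod : ∏ l, g ^ (τ l) = g ^ (s + (a + 1)) := by
      rw [prod_pow_eq_pow_sum, hτ.2]
    simp only [hprod]
    have hgs : 0 < g ^ s := by positivity
    have hZ1' : g ^ s ≤ Z := hZ1
    have hZ2' : Z < g ^ s * g := by
      have : Z < g ^ (s + 1) := hZ2
      rwa [pow_succ] at this
    have e1 : g ^ (s + (a + 1)) = g ^ s * g ^ (a + 1) := pow_add g s (a + 1)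
    rw [e1]
    constructor
    · refine (min_le_left _ _).trans ?_
      rw [div_le_div_iff₀ (by positivity) (by positivity)]
      nlinarith [pow_pos hg0 (a + 1)]
    · rw [div_le_iff₀ (by positivity)]
      have : g ^ s * g * (4 / 3) ≤ g ^ s * g ^ (a + 1) := by
        have : g ^ s * g ^ (a + 1) = g ^ s * g * g ^ a := by ring
        rw [this]
        exact mul_le_mul_of_nonneg_left ha (by positivity)
      linarith
  · intro i hi j τ hτ τ' hτ' l h
    exact winA_inj (a + 1) s d Q _ j τ τ' hτ hτ' l h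
  · intro i hi j l
    obtain ⟨hv1, hv2⟩ := winA_vU d (vv δ s d i)
    have : (WA (a + 1) s d Q (vv δ s d i) j l).card ≤ UU d (vv δ s d i) := by
      unfold WA
      split_ifs with h
      · rw [Nat.card_Ico]
        omega
      · rw [Nat.card_Ico]
        omega
    exact_mod_cast this
  · intro i hi j
    obtain ⟨hR, hv, _, hU⟩ := hA i hi
    have h1 := winA_card (a + 1) s d Q (vv δ s d i) j hR hd j.isLt
    have h2 : ((vv δ s d i : ℝ)) ^ d ≤ ((TA (a + 1) s d Q (vv δ s d i) j).card : ℝ) := by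
      exact_mod_cast h1
    exact hU.trans (mul_le_mul_of_nonneg_left h2 (by positivity))
  · intro i hi
    obtain ⟨hR, hv, _⟩ := hA i hi
    have h1 : (s : ℝ) ^ (1 - δ / 3) ≤ (s : ℝ) ^ (1 - δ / 4) :=
      Real.rpow_le_rpow_of_exponent_le hs1 (by linarith)
    have h2 : ((vv δ s d i : ℕ) : ℝ) ≤ (UU d (vv δ s d i) : ℝ) := by
      exact_mod_cast (winA_vU d (vv δ s d i)).1
    linarith
  · intro i hi j K hK
    obtain ⟨hR, _⟩ := hA i hi
    rw [winA_top _ (Fin.val_last d)] at hK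
    exact (winA_sep1 g Z hg (a + 1) s d Q _ j K hR (hB i hi).1 hd j.isLt hZ2 hK.1).trans
      (invEs30 s (by omega))
  · intro i hi i' hi' hii j j' K hK l k hk
    obtain ⟨hR, _⟩ := hA i hi
    rw [winA_top _ (Fin.val_last d)] at hK
    have hk2 := (winA_low_range l.castSucc (by simp) j'.isLt k hk).1
    exact (winA_sep2 g Z hg (a + 1) s d Q _ _ j K k hR (hB i hi).1 hd j.isLt
      (winA_vv δ s d i i' hd hii) hZ2 hK.1 hk2).trans (invEs30 s (by omega))
  · intro i hi j τ hτ c hc k hk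
    obtain ⟨hR, _⟩ := hA i hi
    exact (winA_sep3 g Z hg (a + 1) s d Q _ j hR (hB i hi).1 hd hZ2 τ hτ c hc k hk).trans
      (invEs30 s (by omega))
  · intro i hi j K hK
    obtain ⟨hR, _⟩ := hA i hi
    rw [winA_top _ (Fin.val_last d)] at hK
    exact winA_sep1 g Z hg (a + 1) s d Q _ j K hR (hB i hi).1 hd j.isLt hZ2 hK.1
  · intro i hi i' hi' hii j j' K hK l k hk
    obtain ⟨hR, _⟩ := hA i hi
    rw [winA_top _ (Fin.val_last d)] at hK
    have hk2 := (winA_low_range l.castSucc (by simp) j'.isLt k hk).1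
    exact winA_sep2 g Z hg (a + 1) s d Q _ _ j K k hR (hB i hi).1 hd j.isLt
      (winA_vv δ s d i i' hd hii) hZ2 hK.1 hk2
  · intro i hi j τ hτ c hc k hk
    obtain ⟨hR, _⟩ := hA i hi
    exact winA_sep3 g Z hg (a + 1) s d Q _ j hR (hB i hi).1 hd hZ2 τ hτ c hc k hk

theorem winA (g : ℝ) (hg : 1 < g) : WinProp (fun k => g ^ k) := (winAT g hg).win

end Pool.Agent.Helper59.RF
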