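import Pool.Agent.Helper59.RF.KtN

/-!
# Block RF-PCRN: the top windows are disjoint (regular denominators)

Model: `Pcr.lean` (proved; `N k = k!`).  PROOFS.
* `pc_ratioN`: the arguments of `PcN N d Q v' j'` are at least those of `PcN N d Q v j` (which are `≥ MM d Q v`), so all factors are larger
  (`gn_mono`), and the first argument grows by at least `3 v'`, so the first factor grows by `β^(3 v')` (`gn_up`):
  case `v = v'`, `j < j'`: `cc_up` gives growth `≥ UU ≥ 3 v`; case `8 d v ≤ v'`: `MM d Q v' ≥ 16 MM d Q v` (`mm_mono`), arguments for `v`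
  are `≤ 2 MM d Q v` (`cc_le`), arguments for `v'` are `≥ MM d Q v'` (`mm_le_cc`), and `MM d Q v' - 2 MM d Q v ≥ MM d Q v' / 2 ≥ 16 v'`
  (`v_le_mm`).
* `kt_disjN`: `K = KtN .. v' j' + v' ≤ s` (`kt_specN` for `v'`), `N K * PcN v j ≤ N KtN' * (β^3)^v' * PcN v j ≤ N KtN' * PcN v' j' ≤ Z`
  (`gn_hs` for `v`), so `K ≤ KtN .. v j` (`Nat.le_findGreatest`).
-/

namespace Pool.Agent.Helper59.RF

open Finset

private theorem pcN_mono38 {N : ℕ → ℝ} (hN : ∀ k, 0 < N k) (d a0 b0 a1 b1 : ℕ) (X : ℝ)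
    (F G : ℕ → ℕ) (h0 : N a0 * X ≤ N b0) (h1 : N a1 ≤ N b1)
    (hF : ∀ l ∈ Ico 2 d, N (F l) ≤ N (G l)) :
    X * (N a0 * N a1 * ∏ l ∈ Ico 2 d, N (F l)) ≤ N b0 * N b1 * ∏ l ∈ Ico 2 d, N (G l) := by
  have h3 : ∏ l ∈ Ico 2 d, N (F l) ≤ ∏ l ∈ Ico 2 d, N (G l) :=
    Finset.prod_le_prod (fun l _ => (hN _).le) hF
  have h4 : 0 ≤ ∏ l ∈ Ico 2 d, N (F l) := Finset.prod_nonneg fun l _ => (hN _).le
  have h5 : (N a0 * X) * N a1 ≤ N b0 * N b1 :=
    mul_le_mul h0 h1 (hN a1).le (hN b0).le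
  calc X * (N a0 * N a1 * ∏ l ∈ Ico 2 d, N (F l))
      = (N a0 * X) * N a1 * ∏ l ∈ Ico 2 d, N (F l) := by ring
    _ ≤ N b0 * N b1 * ∏ l ∈ Ico 2 d, N (G l) :=
      mul_le_mul h5 h3 h4 (mul_pos (hN b0) (hN b1)).le

theorem pc_ratioN {N : ℕ → ℝ} {s d Q v v' : ℕ} {β C2 ρ : ℝ} (hG : GN N s d Q v β C2 ρ)
    (j j' : ℕ) (hd : 2 ≤ d) (hj : j < Q) (hj' : j' < Q)
    (h : (v = v' ∧ j < j') ∨ 8 * d * v ≤ v') :
    (β ^ 3) ^ v' * PcN N d Q v j ≤ PcN N d Q v' j' := by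
  have hMv := v_le_mm d Q v
  have hHU : HU d v ≤ UU d v := by unfold HU UU; nlinarith
  have hfirst : ∀ a b n : ℕ, MM d Q v ≤ a → a + 3 * n ≤ b → N a * (β ^ 3) ^ n ≤ N b := by
    intro a b n ha hab
    rw [← pow_mul]
    exact (gn_up hG a (3 * n) ha).trans (gn_mono hG _ _ (by omega) hab)
  rcases h with ⟨rfl, hjj⟩ | hvv
  · have hup : ∀ l, cc d Q v l j + UU d v ≤ cc d Q v l j' := fun l => by
      have := cc_up d Q v l j j' hjj
      have h0 : 0 ≤ (2 * d + 2) * Dd d ^ j * UU d v := Nat.zero_le _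
      omega
    have h3 : 3 * v ≤ UU d v := by unfold UU; nlinarith
    unfold PcN
    refine pcN_mono38 hG.pos d _ _ _ _ _ (fun l => cc d Q v l j) (fun l => cc d Q v l j') ?_ ?_ ?_
    · apply hfirst
      · exact (mm_le_cc d Q v 0 j).trans (by omega)
      · have := hup 0
        omega
    · apply gn_mono hG
      · exact (mm_le_cc d Q v 1 j).trans (by omega)
      · have := hup 1
        omega
    · intro l _
      apply gn_mono hG
      · exact mm_le_cc d Q v l j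
      · have := hup l
        show cc d Q v l j ≤ cc d Q v l j'
        omega
  · have hmm := mm_mono d Q v v' hvv
    have hMv' := v_le_mm d Q v'
    have h16 : 16 * MM d Q v ≤ MM d Q v' := le_trans (Nat.mul_le_mul_right _ (by omega)) hmm
    have hcc : ∀ l, l < d → cc d Q v l j + UU d v ≤ 2 * MM d Q v := fun l hl => cc_le d Q v l j hl hj
    have hcc' : ∀ l, MM d Q v' ≤ cc d Q v' l j' := fun l => mm_le_cc d Q v' l j'
    unfold PcN
    refine pcN_mono38 hG.pos d _ _ _ _ _ (fun l => cc d Q v l j) (fun l => cc d Q v' l j') ?_ ?_ ?_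
    · apply hfirst
      · exact (mm_le_cc d Q v 0 j).trans (by omega)
      · have h5 := hcc 0 (by omega)
        have h6 := hcc' 0
        omega
    · apply gn_mono hG
      · exact (mm_le_cc d Q v 1 j).trans (by omega)
      · have h5 := hcc 1 (by omega)
        have h6 := hcc' 1
        omega
    · intro l hl
      apply gn_mono hG
      · exact mm_le_cc d Q v l j
      · have h5 := hcc l (Finset.mem_Ico.1 hl).2
        have h6 := hcc' l
        show cc d Q v l j ≤ cc d Q v' l j'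
        omega

theorem kt_disjN {N : ℕ → ℝ} {s d Q v v' : ℕ} {β β' C2 ρ ρ' : ℝ} (hG : GN N s d Q v β C2 ρ)
    (hG' : GN N s d Q v' β' C2 ρ') (Z : ℝ) (j j' : ℕ) (hR : Rng s d Q v) (hR' : Rng s d Q v')
    (hd : 2 ≤ d) (hj : j < Q) (hj' : j' < Q) (hZ1 : N s ≤ Z) (hZ2 : Z < N (s + 1))
    (h : (v = v' ∧ j < j') ∨ 8 * d * v ≤ v') :
    KtN N Z s d Q v' j' + v' ≤ KtN N Z s d Q v j := by
  obtain ⟨_, h2, h3, _⟩ := kt_specN hG' Z j' hR' hd hj' hZ1 hZ2
  conv_rhs => unfold KtN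
  refine Nat.le_findGreatest h2 (le_trans ?_ h3)
  have h4 := pc_ratioN hG j j' hd hj hj' h
  have h5 := gn_hs hG (KtN N Z s d Q v' j') v' (by omega)
  have hP : 0 ≤ PcN N d Q v j := by
    unfold PcN
    exact mul_nonneg (mul_nonneg (hG.pos _).le (hG.pos _).le)
      (Finset.prod_nonneg fun l _ => (hG.pos _).le)
  calc N (KtN N Z s d Q v' j' + v') * PcN N d Q v j
      ≤ (N (KtN N Z s d Q v' j') * (β ^ 3) ^ v') * PcN N d Q v j :=
        mul_le_mul_of_nonneg_right h5 hP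
    _ = N (KtN N Z s d Q v' j') * ((β ^ 3) ^ v' * PcN N d Q v j) := by ring
    _ ≤ _ := mul_le_mul_of_nonneg_left h4 (hG.pos _).le

end Pool.Agent.Helper59.RF
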