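import Pool.Agent.Helper59.RF.KtN

/-!
# Block RF-SEPN: separation (regular denominators)

Model: `SepF.lean` (proved; `N k = k!`).  `M = MM d Q v`, `32 v ≤ M` (`v_le_mm`), `s^31 ≤ 2^v ≤ β^v` (`Rng.ex`).
`Z < N (s+1) ≤ N K (β^3)^(s+1-K) ≤ N K β^(3(2dM+1))` (`gn_hs`, `s ≤ K + 2dM`, `K ≤ s`).
* `sepN1`: `Z / (N K)² ≤ β^(6dM+3) / N K`, and `K ≥ s - 2dM ≥ 62dM` (`Rng.big`), so `N K ≥ N M β^(K-M) ≥ β^(31dM)` (`gn_up`, `GN.one`);
  `6dM + 3 + v ≤ 31dM`.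
* `sepN2`: `Z / (N K N k) ≤ β^(6dM+3) / N k`, `k ≥ MM d Q v' ≥ 8dM` (`mm_mono`), `N k ≥ N M β^(k-M) ≥ β^(8dM-M)`, `6dM + 3 + v ≤ 8dM - M`
  (`d ≥ 2`).
-/

namespace Pool.Agent.Helper59.RF

open Finset

private lemma sepN_core_h12 {N : ℕ → ℝ} {s d Q v : ℕ} {β C2 ρ : ℝ} (hG : GN N s d Q v β C2 ρ)
    (hR : Rng s d Q v) (Z : ℝ) (n K T : ℕ) (hs : 1 ≤ s) (hZ2 : Z < N (s + 1)) (hK : s ≤ K + n)
    (hK2 : K ≤ s) (hT1 : MM d Q v ≤ T) (hT : 3 * (n + 1) + v ≤ T - MM d Q v) :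
    Z / (N K * N T) ≤ 1 / Es s := by
  have hβ := hG.b4
  have hβ1 : (1 : ℝ) ≤ β := by linarith
  have hβ0 : (0 : ℝ) < β := by linarith
  have h1 : N (s + 1) ≤ N K * (β ^ 3) ^ (n + 1) := by
    have h2 := gn_hs hG K (s + 1 - K) (by omega)
    rw [show K + (s + 1 - K) = s + 1 by omega] at h2
    refine h2.trans (mul_le_mul_of_nonneg_left ?_ (hG.pos K).le)
    exact pow_le_pow_right₀ (one_le_pow₀ hβ1) (by omega)
  have h3 : Es s ≤ β ^ v := by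
    have h4 : ((s ^ 31 * 2 ^ Nat.sqrt s : ℕ) : ℝ) ≤ ((2 ^ v : ℕ) : ℝ) := by exact_mod_cast hR.ex
    push_cast at h4
    unfold Es
    exact h4.trans (pow_le_pow_left₀ (by norm_num) (by linarith) v)
  have h5 : β ^ (3 * (n + 1) + v) ≤ N T := by
    have h6 := gn_up hG (MM d Q v) (T - MM d Q v) le_rfl
    rw [show MM d Q v + (T - MM d Q v) = T by omega] at h6
    have h7 := hG.one (MM d Q v) le_rfl
    calc β ^ (3 * (n + 1) + v) ≤ β ^ (T - MM d Q v) := pow_le_pow_right₀ hβ1 hT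
      _ = 1 * β ^ (T - MM d Q v) := (one_mul _).symm
      _ ≤ N (MM d Q v) * β ^ (T - MM d Q v) := mul_le_mul_of_nonneg_right h7 (by positivity)
      _ ≤ N T := h6
  have h8 : (β ^ 3) ^ (n + 1) * Es s ≤ N T := by
    calc (β ^ 3) ^ (n + 1) * Es s ≤ (β ^ 3) ^ (n + 1) * β ^ v :=
          mul_le_mul_of_nonneg_left h3 (by positivity)
      _ = β ^ (3 * (n + 1) + v) := by rw [← pow_mul, ← pow_add]
      _ ≤ N T := h5
  have hEs := Es_pos s hs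
  rw [div_le_div_iff₀ (mul_pos (hG.pos K) (hG.pos T)) hEs, one_mul]
  calc Z * Es s ≤ N (s + 1) * Es s := mul_le_mul_of_nonneg_right hZ2.le hEs.le
    _ ≤ (N K * (β ^ 3) ^ (n + 1)) * Es s := mul_le_mul_of_nonneg_right h1 hEs.le
    _ = N K * ((β ^ 3) ^ (n + 1) * Es s) := by ring
    _ ≤ N K * N T := mul_le_mul_of_nonneg_left h8 (hG.pos K).le

theorem sepN1 {N : ℕ → ℝ} {s d Q v : ℕ} {β C2 ρ : ℝ} (hG : GN N s d Q v β C2 ρ) (Z : ℝ)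
    (K : ℕ) (hR : Rng s d Q v) (hd : 2 ≤ d) (hZ2 : Z < N (s + 1))
    (hK : s ≤ K + 2 * d * MM d Q v) (hK2 : K ≤ s) : Z / N K ^ 2 ≤ 1 / Es s := by
  have hM := v_le_mm d Q v
  have hbig := hR.big
  have hv1 := hR.v1
  have hdM : 2 * MM d Q v ≤ d * MM d Q v := Nat.mul_le_mul_right _ hd
  have e1 : 64 * d * MM d Q v = 64 * (d * MM d Q v) := by ring
  have e2 : 2 * d * MM d Q v = 2 * (d * MM d Q v) := by ring
  rw [e1] at hbig
  rw [e2] at hK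
  rw [sq]
  refine sepN_core_h12 hG hR Z (2 * (d * MM d Q v)) K K (by omega) hZ2 hK hK2 (by omega) (by omega)

theorem sepN2 {N : ℕ → ℝ} {s d Q v : ℕ} {β C2 ρ : ℝ} (hG : GN N s d Q v β C2 ρ) (Z : ℝ)
    (v' K k : ℕ) (hR : Rng s d Q v) (hd : 2 ≤ d) (hv : 8 * d * v ≤ v') (hZ2 : Z < N (s + 1))
    (hK : s ≤ K + 2 * d * MM d Q v) (hK2 : K ≤ s) (hk : MM d Q v' ≤ k) :
    Z / (N K * N k) ≤ 1 / Es s := by
  have hM := v_le_mm d Q v
  have hmm := (mm_mono d Q v v' hv).trans hk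
  have hbig := hR.big
  have hv1 := hR.v1
  have hdM : 2 * MM d Q v ≤ d * MM d Q v := Nat.mul_le_mul_right _ hd
  have e1 : 64 * d * MM d Q v = 64 * (d * MM d Q v) := by ring
  have e2 : 2 * d * MM d Q v = 2 * (d * MM d Q v) := by ring
  have e3 : 8 * d * MM d Q v = 8 * (d * MM d Q v) := by ring
  rw [e1] at hbig
  rw [e2] at hK
  rw [e3] at hmm
  refine sepN_core_h12 hG hR Z (2 * (d * MM d Q v)) K k (by omega) hZ2 hK hK2 (by omega) (by omega)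

end Pool.Agent.Helper59.RF
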