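import Pool.Agent.Helper59.RF.KtN

/-!
# Block RF-SEPN3: separation of the levels (regular denominators)

Model: `SepF3.lean` (proved; `N k = k!`), the same proof.  `D = Dd d`, `E = D^j UU`.  `τ ∈ TN` is tight, so the quotient is at most
`(1/2) ∏_(l<d) N (τ l) / N (k l)`.  All numbers lie in `[M, 2M)`.  If `c l ≤ j` then `τ l ≤ k l + E` (`cc_low`), so the factor is at most
`(β^2)^E` (`gn_hi`, or `≤ 1` if `τ l ≤ k l` by `gn_mono`).  If `j < c l` then `k l ≥ τ l + (2d+2) E` (`cc_up`), so the factor is at most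
`β^(-(2d+2)E)` (`gn_up`, `gn_mono`).  Product: `β^(2(d-1)E - (2d+2)E) = β^(-4E) ≤ 2^(-v) ≤ 1 / s^31`.
-/

namespace Pool.Agent.Helper59.RF

open Finset

private theorem wn1 {N : ℕ → ℝ} {Z : ℝ} {s d Q v j x : ℕ} {l : Fin d}
    (h : x ∈ WN N Z s d Q v j l.castSucc) :
    cc d Q v l j ≤ x ∧ x < cc d Q v l j + UU d v := by
  have hl : (l : ℕ) < d := l.2
  have hu : v ≤ UU d v := by
    unfold UU
    nlinarith [Nat.zero_le (d * v)]
  unfold WN at h
  rw [Fin.val_castSucc, if_neg hl.ne] at h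
  split_ifs at h
  · rw [mem_Ico] at h
    exact h
  · rw [mem_Ico] at h
    exact ⟨h.1, by omega⟩

theorem sepN3 {N : ℕ → ℝ} {s d Q v : ℕ} {β C2 ρ : ℝ} (hG : GN N s d Q v β C2 ρ) (Z : ℝ)
    (j : Fin Q) (hR : Rng s d Q v) (hd : 2 ≤ d) (τ : Fin (d + 1) → ℕ)
    (hτ : τ ∈ TN N C2 Z s d Q v j) (c : Fin d → Fin Q) (hc : ∃ l, j < c l) (k : Fin d → ℕ)
    (hk : ∀ l, k l ∈ WN N Z s d Q v (c l) l.castSucc) :
    Z / (N (τ (Fin.last d)) * ∏ l, N (k l)) ≤ 1 / Es s := by
  classical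
  set M := MM d Q v with hM
  set U := UU d v with hU
  set E := Dd d ^ (j : ℕ) * U with hE
  have hv1 : 100 ≤ v := hR.v1
  have hM32 : 32 * v ≤ M := v_le_mm d Q v
  have hs0 : 0 < s := by
    have h1 := hR.big
    have h2 : 0 < 64 * d * MM d Q v := by
      have : 0 < MM d Q v := by
        rw [← hM]
        omega
      positivity
    omega
  have hD1 : 1 ≤ Dd d := by
    unfold Dd
    omega
  have hUv : v ≤ U := by
    rw [hU]
    unfold UU
    nlinarith [Nat.zero_le (d * v)]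
  have hEv : v ≤ E := by
    rw [hE]
    calc v ≤ U := hUv
      _ = 1 * U := (one_mul _).symm
      _ ≤ Dd d ^ (j : ℕ) * U := Nat.mul_le_mul_right _ (Nat.one_le_pow _ _ hD1)
  have hβ4 : 4 ≤ β := hG.b4
  have hβ0 : (0 : ℝ) < β := by linarith
  have hβ1 : (1 : ℝ) ≤ β := by linarith
  have hβ2 : (1 : ℝ) ≤ β ^ 2 := one_le_pow₀ hβ1
  obtain ⟨hτ1, -, hτ3⟩ := mem_filter.1 hτ
  rw [Fintype.mem_piFinset] at hτ1
  have hmain : ∀ l : Fin d, N (τ l.castSucc) / N (k l) ≤
      if (j : ℕ) < c l then 1 / β ^ ((2 * d + 2) * E) else (β ^ 2) ^ E := by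
    intro l
    obtain ⟨x1, x2⟩ := wn1 (hτ1 l.castSucc)
    obtain ⟨y1, y2⟩ := wn1 (hk l)
    have hkp : 0 < N (k l) := hG.pos _
    have hxM : M ≤ τ l.castSucc := (mm_le_cc d Q v l j).trans x1
    have hxB : τ l.castSucc ≤ 2 * M := by
      have := cc_le d Q v l j l.2 j.2
      omega
    by_cases hjl : (j : ℕ) < c l
    · rw [if_pos hjl, div_le_div_iff₀ hkp (by positivity), one_mul]
      have h1 := cc_up d Q v l j (c l) hjl
      have h2 : τ l.castSucc + (2 * d + 2) * E ≤ k l := by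
        have e1 : (2 * d + 2) * Dd d ^ (j : ℕ) * UU d v = (2 * d + 2) * E := by
          rw [hE, hU]
          ring
        rw [e1] at h1
        omega
      exact (gn_up hG _ _ hxM).trans (gn_mono hG _ _ (by omega) h2)
    · rw [if_neg hjl, div_le_iff₀ hkp]
      have h1 := cc_low d Q v l j (c l) (not_lt.1 hjl)
      have h2 : τ l.castSucc ≤ k l + E := by
        rw [← hU, ← hE] at h1
        omega
      by_cases hxy : τ l.castSucc ≤ k l
      · calc N (τ l.castSucc) ≤ N (k l) := gn_mono hG _ _ hxM hxy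
          _ = 1 * N (k l) := (one_mul _).symm
          _ ≤ (β ^ 2) ^ E * N (k l) := mul_le_mul_of_nonneg_right (one_le_pow₀ hβ2) hkp.le
      · obtain ⟨n, hn⟩ : ∃ n, τ l.castSucc = k l + n := ⟨τ l.castSucc - k l, by omega⟩
        have hnE : n ≤ E := by omega
        have h3 := gn_hi hG (k l) n (by omega)
        rw [← hn] at h3
        calc N (τ l.castSucc) ≤ N (k l) * (β ^ 2) ^ n := h3
          _ ≤ N (k l) * (β ^ 2) ^ E :=
              mul_le_mul_of_nonneg_left (pow_le_pow_right₀ hβ2 hnE) hkp.le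
          _ = (β ^ 2) ^ E * N (k l) := mul_comm _ _
  obtain ⟨l₀, hl₀⟩ := hc
  have hB1 : (1 : ℝ) ≤ (β ^ 2) ^ E := one_le_pow₀ hβ2
  have hprod : ∏ l : Fin d, N (τ l.castSucc) / N (k l) ≤ 1 / β ^ (4 * E) := by
    have h1 : ∏ l : Fin d, N (τ l.castSucc) / N (k l) ≤
        ∏ l : Fin d, (if l = l₀ then 1 / β ^ ((2 * d + 2) * E) else (β ^ 2) ^ E) := by
      refine prod_le_prod (fun l _ => div_nonneg (hG.pos _).le (hG.pos _).le)
        fun l _ => (hmain l).trans ?_
      by_cases hl : l = l₀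
      · rw [if_pos hl, hl, if_pos (show (j : ℕ) < c l₀ from hl₀)]
      · rw [if_neg hl]
        split_ifs
        · refine le_trans ?_ hB1
          rw [div_le_one (by positivity)]
          exact one_le_pow₀ hβ1
        · exact le_rfl
    refine h1.trans ?_
    rw [← mul_prod_erase univ _ (mem_univ l₀), if_pos rfl]
    have h2 : ∏ l ∈ univ.erase l₀, (if l = l₀ then 1 / β ^ ((2 * d + 2) * E) else (β ^ 2) ^ E) =
        ((β ^ 2) ^ E) ^ (d - 1) := by
      rw [prod_congr rfl fun l hl => if_neg (ne_of_mem_erase hl), prod_const,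
        card_erase_of_mem (mem_univ _), card_univ, Fintype.card_fin]
    rw [h2, ← pow_mul, ← pow_mul, one_div_mul_eq_div, div_le_div_iff₀ (by positivity)
      (by positivity), one_mul, ← pow_add]
    refine le_of_eq ?_
    congr 1
    obtain ⟨d', rfl⟩ : ∃ d', d = d' + 1 := ⟨d - 1, by omega⟩
    rw [Nat.add_sub_cancel]
    ring
  -- conclusion
  rw [Fin.prod_univ_castSucc] at hτ3
  have hT : 0 < N (τ (Fin.last d)) := hG.pos _
  have hP : 0 < ∏ l : Fin d, N (τ l.castSucc) := prod_pos fun l _ => hG.pos _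
  have hK : 0 < ∏ l : Fin d, N (k l) := prod_pos fun l _ => hG.pos _
  rw [div_le_iff₀ (mul_pos hP hT)] at hτ3
  rw [prod_div_distrib] at hprod
  have h5 : Z / (N (τ (Fin.last d)) * ∏ l, N (k l)) ≤
      1 / 2 * ((∏ l : Fin d, N (τ l.castSucc)) / ∏ l : Fin d, N (k l)) := by
    rw [div_le_iff₀ (mul_pos hT hK)]
    refine hτ3.trans (le_of_eq ?_)
    field_simp
  refine h5.trans ?_
  have h6 : 1 / 2 * ((∏ l : Fin d, N (τ l.castSucc)) / ∏ l : Fin d, N (k l)) ≤
      1 / β ^ (4 * E) := by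
    have h7 : 0 ≤ (∏ l : Fin d, N (τ l.castSucc)) / ∏ l : Fin d, N (k l) :=
      div_nonneg hP.le hK.le
    linarith
  refine h6.trans ?_
  refine one_div_le_one_div_of_le (Es_pos s hs0) ?_
  have h8 : Es s ≤ 2 ^ v := by
    unfold Es
    exact_mod_cast hR.ex
  refine h8.trans ?_
  calc (2 : ℝ) ^ v ≤ 2 ^ (4 * E) := pow_le_pow_right₀ (by norm_num) (by omega)
    _ ≤ β ^ (4 * E) := pow_le_pow_left₀ (by norm_num) (by linarith) _

end Pool.Agent.Helper59.RF
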