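import Pool.Agent.Helper59.RF.AsyS
import Pool.Agent.Helper59.RF.PcrN
import Pool.Agent.Helper59.RF.CardN
import Pool.Agent.Helper59.RF.SepN
import Pool.Agent.Helper59.RF.SepN3

/-!
# Block RF-WINN: windows exist (regular denominators)

Models: `WinG.lean` (proved, powers) and `WinF.lean`.
PROOF.  `GP N` gives `C2`; `t0 = min (1 / (2 C2)) (6/25)`.  For `δ, d, Q`: `ρ`, `S₀` from `GP` and `S₁` from `asyS` (only `Rng` and
`s^(1-δ/4) ≤ vv` are used); take `S₀ + S₁ + 1`.  For `i < L = Ln δ d s` let `v i = vv δ s d i`; `8 d v i ≤ v i'` for `i < i'`.  Data: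
`W i j l = WN N Z s d Q (v i) j l`, `TT i j = TN N C2 Z s d Q (v i) j`, `u i = UU d (v i)`.
* `mem`, `tight`: definition of `TN` (`1/2 ≤ 3/4`).
* `disj`: lower/lower, same scale: `cc_disj`; different scales: `mm_mono`, `mm_le_cc`, `cc_le`; top/top: `kt_disjN`; lower/top: lower digits
  are `< 2 MM ≤ s / 32`, top digits are `≥ s - 2 d MM ≥ s / 2` (`kt_specN`, `Rng.big` for both scales).
* `range`: lower: `k ≥ MM ≥ v i ≥ s^(1-δ/4)` (`v_le_mm`), `k < 2 MM ≤ s`; top: `k ≥ KtN ≥ s - 2 d MM ≥ MM`, `k < KtN + v ≤ s`.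
* `inj`: if `τ, τ'` agree outside `l` and `τ l < τ' l` then `∏ N (τ' l) ≥ β ∏ N (τ l)` (`gn_up`; `τ l ≥ MM`, also for the top digit), but
  both products lie in `[2 Z, 2 C2 Z]` and `β ≥ 2 C2 > C2` (`Z ≥ N s > 0`).
* `card_le`: `v ≤ UU`; `card_ge`: `cardN` and the number `R` of `GP`; `u_ge`: `s^(1-δ/3) ≤ s^(1-δ/4) ≤ v ≤ UU`.
* `e1, e2, e3`: `sepN1`, `sepN2`, `sepN3`.
-/

namespace Pool.Agent.Helper59.RF

open Finset

private lemma v_le_uu63 (d v : ℕ) : v ≤ UU d v := by
  unfold UU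
  nlinarith [Nat.zero_le (d * v)]

/-- the lower windows -/
private lemma low63 {N : ℕ → ℝ} {Z : ℝ} {s d Q v j k : ℕ} {l : Fin (d + 1)} (hl : (l : ℕ) ≠ d)
    (hk : k ∈ WN N Z s d Q v j l) : k ∈ Ico (cc d Q v l j) (cc d Q v l j + UU d v) := by
  have hv := v_le_uu63 d v
  unfold WN at hk
  rw [if_neg hl] at hk
  split_ifs at hk with h
  · exact hk
  · rw [mem_Ico] at hk ⊢
    omega

/-- the top windows -/
private lemma top63 {N : ℕ → ℝ} {Z : ℝ} {s d Q v j k : ℕ} {l : Fin (d + 1)} (hl : (l : ℕ) = d)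
    (hk : k ∈ WN N Z s d Q v j l) : KtN N Z s d Q v j ≤ k ∧ k < KtN N Z s d Q v j + v := by
  unfold WN at hk
  rw [if_pos hl] at hk
  exact mem_Ico.1 hk

private lemma inj63 {N : ℕ → ℝ} {Z β C2 ρ : ℝ} {s d Q v j : ℕ} (hG : GN N s d Q v β C2 ρ) (hZ : 0 < Z) {τ τ' : Fin (d + 1) → ℕ}
    (hτ : τ ∈ TN N C2 Z s d Q v j) (hτ' : τ' ∈ TN N C2 Z s d Q v j) (l : Fin (d + 1))
    (h : ∀ l', l' ≠ l → τ l' = τ' l') (h3 : MM d Q v ≤ τ l) (hlt : τ l < τ' l) : False := by
  classical
  have h1 := (mem_filter.1 hτ).2.2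
  have h2 := (mem_filter.1 hτ').2.1
  have hP : (0 : ℝ) < ∏ l, N (τ l) := Finset.prod_pos fun l _ => hG.pos _
  have hP' : (0 : ℝ) < ∏ l, N (τ' l) := Finset.prod_pos fun l _ => hG.pos _
  have hb := hG.b4
  have hbC := hG.bC
  have hC := hG.C1
  have hfac' : β * N (τ l) ≤ N (τ' l) := by
    calc β * N (τ l) ≤ N (τ l + 1) := hG.lo _ h3
      _ ≤ N (τ' l) := gn_mono hG _ _ (by omega) hlt
  have hprod : β * ∏ l, N (τ l) ≤ ∏ l, N (τ' l) := by
    rw [← mul_prod_erase univ (fun l => N (τ l)) (mem_univ l),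
      ← mul_prod_erase univ (fun l => N (τ' l)) (mem_univ l)]
    have h4 : ∏ x ∈ univ.erase l, N (τ x) = ∏ x ∈ univ.erase l, N (τ' x) := by
      apply prod_congr rfl
      intro x hx
      rw [h x (ne_of_mem_erase hx)]
    rw [h4, ← mul_assoc]
    apply mul_le_mul_of_nonneg_right hfac'
    exact prod_nonneg fun x _ => (hG.pos _).le
  rw [div_le_iff₀ hP] at h1
  rw [div_le_div_iff₀ (by linarith) hP'] at h2
  have h5 : 2 * C2 * ∏ l, N (τ l) ≤ β * ∏ l, N (τ l) := mul_le_mul_of_nonneg_right hbC hP.le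
  have h6 : 2 * C2 * (2 * Z) ≤ 2 * C2 * ∏ l, N (τ l) := mul_le_mul_of_nonneg_left (by linarith) (by linarith)
  nlinarith

theorem winNT {N : ℕ → ℝ} (hN : GP N) : WinPropT N := by
  classical
  obtain ⟨C2, hC2, hN⟩ := hN
  refine ⟨min (1 / (2 * C2)) (6 / 25), by positivity, min_le_right _ _, ?_⟩
  intro δ hδ0 hδ1 d Q hd hQ
  obtain ⟨S₀, hS⟩ := asyS δ hδ0 hδ1 d Q hd
  obtain ⟨ρ, S₁, hS1⟩ := hN δ hδ0 hδ1 d Q hd hQ
  refine ⟨max (max S₀ S₁) 1, fun s hs Z hZ1 hZ2 => ?_⟩
  have hs0 : S₀ ≤ s := le_trans (le_trans (le_max_left _ _) (le_max_left _ _)) hs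
  have hs0' : S₁ ≤ s := le_trans (le_trans (le_max_right _ _) (le_max_left _ _)) hs
  have hs1 : 1 ≤ s := le_trans (le_max_right _ _) hs
  have hs1' : (1 : ℝ) ≤ s := by exact_mod_cast hs1
  have hS' := hS s hs0
  have hGG := hS1 s hs0'
  have hv : ∀ i i', i < i' → 8 * d * vv δ s d i ≤ vv δ s d i' := by
    intro i i' h
    unfold vv
    calc 8 * d * ((8 * d) ^ i * ⌈(s : ℝ) ^ (1 - δ / 4)⌉₊) = (8 * d) ^ (i + 1) * ⌈(s : ℝ) ^ (1 - δ / 4)⌉₊ := by
          ring
      _ ≤ (8 * d) ^ i' * ⌈(s : ℝ) ^ (1 - δ / 4)⌉₊ :=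
          Nat.mul_le_mul_right _ (Nat.pow_le_pow_right (by omega) h)
  -- basic facts about the windows
  have hlow : ∀ i < Ln δ d s, ∀ j : Fin Q, ∀ l : Fin (d + 1), (l : ℕ) ≠ d →
      ∀ k ∈ WN N Z s d Q (vv δ s d i) j l,
      MM d Q (vv δ s d i) ≤ k ∧ k < 2 * MM d Q (vv δ s d i) := by
    intro i _ j l hl k hk
    have h1 := mem_Ico.1 (low63 hl hk)
    have h2 := cc_le d Q (vv δ s d i) l j (by have := l.2; omega) j.2
    have h3 := mm_le_cc d Q (vv δ s d i) l j
    omega
  have htop : ∀ i < Ln δ d s, ∀ j : Fin Q, ∀ l : Fin (d + 1), (l : ℕ) = d →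
      ∀ k ∈ WN N Z s d Q (vv δ s d i) j l,
      s ≤ k + 2 * d * MM d Q (vv δ s d i) ∧ k ≤ s := by
    intro i hi j l hl k hk
    have h1 := top63 hl hk
    obtain ⟨β, hG, -⟩ := hGG i hi
    obtain ⟨h2, h3, -, -⟩ := kt_specN hG Z j (hS' i hi).1 hd j.2 hZ1 hZ2
    omega
  have hMv : ∀ i, vv δ s d i ≤ MM d Q (vv δ s d i) := fun i => by
    have := v_le_mm d Q (vv δ s d i)
    omega
  have hrange : ∀ i < Ln δ d s, ∀ j : Fin Q, ∀ l : Fin (d + 1),
      ∀ k ∈ WN N Z s d Q (vv δ s d i) j l, MM d Q (vv δ s d i) ≤ k ∧ k ≤ s := by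
    intro i hi j l k hk
    have hbig := (hS' i hi).1.big
    have hdM : 2 * MM d Q (vv δ s d i) ≤ d * MM d Q (vv δ s d i) := Nat.mul_le_mul_right _ hd
    have e1 : 64 * d * MM d Q (vv δ s d i) = 64 * (d * MM d Q (vv δ s d i)) := by ring
    have e2 : 2 * d * MM d Q (vv δ s d i) = 2 * (d * MM d Q (vv δ s d i)) := by ring
    by_cases hl : (l : ℕ) = d
    · have h1 := htop i hi j l hl k hk
      omega
    · have h1 := hlow i hi j l hl k hk
      omega
  refine ⟨{ W := fun i j l => WN N Z s d Q (vv δ s d i) j l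
            TT := fun i j => TN N C2 Z s d Q (vv δ s d i) j
            u := fun i => (UU d (vv δ s d i) : ℝ)
            mem := ?_
            disj := ?_
            range := ?_
            tight := ?_
            inj := ?_
            card_le := ?_
            card_ge := ?_
            u_ge := ?_
            e1 := ?_
            e2 := ?_
            e3 := ?_
            f1 := ?_
            f2 := ?_
            f3 := ?_ }⟩
  · -- mem
    intro i _ j τ hτ l
    exact Fintype.mem_piFinset.1 (mem_filter.1 hτ).1 l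
  · -- disj
    -- different scales or levels, one direction
    have key : ∀ i < Ln δ d s, ∀ i' < Ln δ d s, i < i' → ∀ (j j' : Fin Q) (l l' : Fin (d + 1)) (x : ℕ),
        x ∈ WN N Z s d Q (vv δ s d i) j l → x ∈ WN N Z s d Q (vv δ s d i') j' l' → False := by
      intro i hi i' hi' hii j j' l l' x hx hx'
      have hvv := hv i i' hii
      have hmm := mm_mono d Q _ _ hvv
      have hb := (hS' i hi).1.big
      have hb' := (hS' i' hi').1.big
      have hm := v_le_mm d Q (vv δ s d i)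
      have hv1 := (hS' i hi).1.v1
      have hdM : 2 * MM d Q (vv δ s d i) ≤ d * MM d Q (vv δ s d i) := Nat.mul_le_mul_right _ hd
      have hdM' : 2 * MM d Q (vv δ s d i') ≤ d * MM d Q (vv δ s d i') := Nat.mul_le_mul_right _ hd
      have e1 : 64 * d * MM d Q (vv δ s d i) = 64 * (d * MM d Q (vv δ s d i)) := by ring
      have e2 : 2 * d * MM d Q (vv δ s d i) = 2 * (d * MM d Q (vv δ s d i)) := by ring
      have e3 : 8 * d * MM d Q (vv δ s d i) = 8 * (d * MM d Q (vv δ s d i)) := by ring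
      have e1' : 64 * d * MM d Q (vv δ s d i') = 64 * (d * MM d Q (vv δ s d i')) := by ring
      have e2' : 2 * d * MM d Q (vv δ s d i') = 2 * (d * MM d Q (vv δ s d i')) := by ring
      by_cases hl : (l : ℕ) = d
      · by_cases hl' : (l' : ℕ) = d
        · have h1 := top63 hl hx
          have h2 := top63 hl' hx'
          obtain ⟨β, hG, -⟩ := hGG i hi
          obtain ⟨β', hG', -⟩ := hGG i' hi'
          have h3 := kt_disjN hG hG' Z j j' (hS' i hi).1 (hS' i' hi').1 hd
            j.2 j'.2 hZ1 hZ2 (Or.inr hvv)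
          omega
        · have h1 := htop i hi j l hl x hx
          have h2 := hlow i' hi' j' l' hl' x hx'
          omega
      · by_cases hl' : (l' : ℕ) = d
        · have h1 := hlow i hi j l hl x hx
          have h2 := htop i' hi' j' l' hl' x hx'
          omega
        · have h1 := hlow i hi j l hl x hx
          have h2 := hlow i' hi' j' l' hl' x hx'
          omega
    intro i hi i' hi' j j' l l' hne
    rw [Finset.disjoint_left]
    intro x hx hx'
    rcases lt_trichotomy i i' with hii | hii | hii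
    · exact key i hi i' hi' hii j j' l l' x hx hx'
    · subst hii
      have hne' : j ≠ j' ∨ l ≠ l' := by
        rcases hne with h | h
        · exact (h rfl).elim
        · exact h
      have hb := (hS' i hi).1.big
      have hm := v_le_mm d Q (vv δ s d i)
      have hv1 := (hS' i hi).1.v1
      have hdM : 2 * MM d Q (vv δ s d i) ≤ d * MM d Q (vv δ s d i) := Nat.mul_le_mul_right _ hd
      have e1 : 64 * d * MM d Q (vv δ s d i) = 64 * (d * MM d Q (vv δ s d i)) := by ring
      have e2 : 2 * d * MM d Q (vv δ s d i) = 2 * (d * MM d Q (vv δ s d i)) := by ring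
      by_cases hl : (l : ℕ) = d
      · by_cases hl' : (l' : ℕ) = d
        · have hjj : j ≠ j' := by
            rcases hne' with h | h
            · exact h
            · exact (h (Fin.ext (hl.trans hl'.symm))).elim
          have h1 := top63 hl hx
          have h2 := top63 hl' hx'
          obtain ⟨β, hG, -⟩ := hGG i hi
          rcases lt_or_gt_of_ne hjj with h | h
          · have h3 := kt_disjN hG hG Z j j' (hS' i hi).1 (hS' i hi).1 hd
              j.2 j'.2 hZ1 hZ2 (Or.inl ⟨rfl, h⟩)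
            omega
          · have h3 := kt_disjN hG hG Z j' j (hS' i hi).1 (hS' i hi).1 hd
              j'.2 j.2 hZ1 hZ2 (Or.inl ⟨rfl, h⟩)
            omega
        · have h1 := htop i hi j l hl x hx
          have h2 := hlow i hi j' l' hl' x hx'
          omega
      · by_cases hl' : (l' : ℕ) = d
        · have h1 := hlow i hi j l hl x hx
          have h2 := htop i hi j' l' hl' x hx'
          omega
        · have h1 := low63 hl hx
          have h2 := low63 hl' hx'
          have h3 := cc_disj d Q (vv δ s d i) l l' j j' j.2 j'.2 (by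
            rcases hne' with h | h
            · right
              exact fun h' => h (Fin.ext h')
            · left
              exact fun h' => h (Fin.ext h'))
          exact Finset.disjoint_left.1 h3 h1 h2
    · exact key i' hi' i hi hii j' j l' l x hx' hx
  · -- range
    intro i hi j l k hk
    obtain ⟨h1, h2⟩ := hrange i hi j l k hk
    refine ⟨((hS' i hi).2.1).trans ?_, by exact_mod_cast h2⟩
    exact_mod_cast (hMv i).trans h1
  · -- tight
    intro i _ j τ hτ
    obtain ⟨h1, h2⟩ := (mem_filter.1 hτ).2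
    exact ⟨le_trans (min_le_left _ _) h1, le_trans h2 (by norm_num)⟩
  · -- inj
    intro i hi j τ hτ τ' hτ' l h
    obtain ⟨β, hG, -⟩ := hGG i hi
    have hZ0 : 0 < Z := lt_of_lt_of_le (hG.pos s) hZ1
    have h3 : ∀ σ ∈ TN N C2 Z s d Q (vv δ s d i) j, MM d Q (vv δ s d i) ≤ σ l := fun σ hσ =>
      (hrange i hi j l (σ l) (Fintype.mem_piFinset.1 (mem_filter.1 hσ).1 l)).1
    rcases lt_trichotomy (τ l) (τ' l) with hlt | heq | hlt
    · exact (inj63 hG hZ0 hτ hτ' l h (h3 τ hτ) hlt).elim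
    · funext l'
      by_cases hl' : l' = l
      · rw [hl']; exact heq
      · exact h l' hl'
    · exact (inj63 hG hZ0 hτ' hτ l (fun l' hl' => (h l' hl').symm) (h3 τ' hτ') hlt).elim
  · -- card_le
    intro i _ j l
    have h1 : (WN N Z s d Q (vv δ s d i) j l).card ≤ UU d (vv δ s d i) := by
      have := v_le_uu63 d (vv δ s d i)
      unfold WN
      split_ifs
      · rw [Nat.card_Ico]; omega
      · rw [Nat.card_Ico]; omega
      · rw [Nat.card_Ico]; omega
    exact_mod_cast h1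
  · -- card_ge
    intro i hi j
    have hR := (hS' i hi).1
    obtain ⟨β, hG, R, hR1, hR2⟩ := hGG i hi
    have h1 := cardN hG Z j R hR hd j.2 hZ1 hZ2 hR1
    have h2 : ((vv δ s d i : ℝ) ^ (d - 1) * R) ≤ ((TN N C2 Z s d Q (vv δ s d i) j).card : ℝ) := by
      exact_mod_cast h1
    exact hR2.trans (mul_le_mul_of_nonneg_left h2 (by positivity))
  · -- u_ge
    intro i hi
    have h1 : (s : ℝ) ^ (1 - δ / 3) ≤ (s : ℝ) ^ (1 - δ / 4) :=
      Real.rpow_le_rpow_of_exponent_le hs1' (by linarith)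
    have h2 := (hS' i hi).2.1
    have h3 : (vv δ s d i : ℝ) ≤ (UU d (vv δ s d i) : ℝ) := by exact_mod_cast v_le_uu63 d (vv δ s d i)
    exact h1.trans (h2.trans h3)
  · -- e1
    intro i hi j K hK
    obtain ⟨h1, h2⟩ := htop i hi j (Fin.last d) rfl K hK
    obtain ⟨β, hG, -⟩ := hGG i hi
    exact (sepN1 hG Z K (hS' i hi).1 hd hZ2 h1 h2).trans (invEs30 s hs1)
  · -- e2
    intro i hi i' hi' hii j j' K hK l k hk
    obtain ⟨h1, h2⟩ := htop i hi j (Fin.last d) rfl K hK
    have h3 := hrange i' hi' j' l.castSucc k hk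
    obtain ⟨β, hG, -⟩ := hGG i hi
    exact (sepN2 hG Z (vv δ s d i') K k (hS' i hi).1 hd (hv i i' hii) hZ2 h1 h2 h3.1).trans
      (invEs30 s hs1)
  · -- e3
    intro i hi j τ hτ c hc k hk
    obtain ⟨β, hG, -⟩ := hGG i hi
    exact (sepN3 hG Z j (hS' i hi).1 hd τ hτ c hc k hk).trans (invEs30 s hs1)
  · -- f1
    intro i hi j K hK
    obtain ⟨h1, h2⟩ := htop i hi j (Fin.last d) rfl K hK
    obtain ⟨β, hG, -⟩ := hGG i hi
    exact sepN1 hG Z K (hS' i hi).1 hd hZ2 h1 h2
  · -- f2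
    intro i hi i' hi' hii j j' K hK l k hk
    obtain ⟨h1, h2⟩ := htop i hi j (Fin.last d) rfl K hK
    have h3 := hrange i' hi' j' l.castSucc k hk
    obtain ⟨β, hG, -⟩ := hGG i hi
    exact sepN2 hG Z (vv δ s d i') K k (hS' i hi).1 hd (hv i i' hii) hZ2 h1 h2 h3.1
  · -- f3
    intro i hi j τ hτ c hc k hk
    obtain ⟨β, hG, -⟩ := hGG i hi
    exact sepN3 hG Z j (hS' i hi).1 hd τ hτ c hc k hk

theorem winN {N : ℕ → ℝ} (hN : GP N) : WinProp N := (winNT hN).win

end Pool.Agent.Helper59.RF
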