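import Pool.Agent.Helper59.RF.FinN
import Pool.Agent.Helper59.RF.WinN
import Pool.Agent.Helper59.RF.WinA
import Pool.Agent.Helper59.RF.AsyP

/-!
# Project RF: the denominators `c ^ k * (k!) ^ κ`
-/

namespace Pool.Agent.Helper59.RF

open Finset

/-- The windows only see the denominators `N k` for large `k`. -/
theorem winProp_congr {N N' : ℕ → ℝ} (hN : WinProp N) (kB : ℕ) (h : ∀ k, kB ≤ k → N k = N' k) :
    WinProp N' := by
  obtain ⟨t0, ht0, ht1, hW⟩ := hN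
  refine ⟨t0, ht0, ht1, fun δ hδ0 hδ1 d Q hd hQ => ?_⟩
  obtain ⟨S₀, hS₀⟩ := hW δ hδ0 hδ1 d Q hd hQ
  refine ⟨S₀ + kB ^ 2 + kB + 1, fun s hs Z hZ1 hZ2 => ?_⟩
  obtain ⟨w⟩ := hS₀ s (by omega) Z (by rw [h s (by nlinarith)]; exact hZ1)
    (by rw [h (s + 1) (by nlinarith)]; exact hZ2)
  have hs1 : (1 : ℝ) ≤ s := by exact_mod_cast (by omega : 1 ≤ s)
  have hk : ∀ k : ℕ, (s : ℝ) ^ (1 - δ / 4) ≤ k → N k = N' k := by
    intro k hk1
    refine h k ?_
    have e1 : ((kB : ℝ) ^ 2) ≤ s := by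
      have : kB ^ 2 ≤ s := by omega
      exact_mod_cast this
    have e2 : (s : ℝ) ^ (1 / 2 : ℝ) ≤ (s : ℝ) ^ (1 - δ / 4) :=
      Real.rpow_le_rpow_of_exponent_le hs1 (by linarith)
    have e3 : (kB : ℝ) ≤ (s : ℝ) ^ (1 / 2 : ℝ) := by
      rw [← Real.sqrt_eq_rpow]
      exact Real.le_sqrt_of_sq_le e1
    have e4 : (kB : ℝ) ≤ k := by linarith
    exact_mod_cast e4
  refine ⟨⟨w.W, w.TT, w.u, w.mem, w.disj, w.range, ?_, w.inj, w.card_le, w.card_ge, w.u_ge, ?_, ?_,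
    ?_⟩⟩
  · intro i hi j τ hτ
    have e : ∏ l, N' (τ l) = ∏ l, N (τ l) :=
      Finset.prod_congr rfl fun l _ => (hk _ (w.range i hi j l _ (w.mem i hi j τ hτ l)).1).symm
    rw [e]
    exact w.tight i hi j τ hτ
  · intro i hi j K hK
    rw [← hk _ (w.range i hi j _ K hK).1]
    exact w.e1 i hi j K hK
  · intro i hi i' hi' hii j j' K hK l k hk'
    rw [← hk _ (w.range i hi j _ K hK).1, ← hk _ (w.range i' hi' j' _ k hk').1]
    exact w.e2 i hi i' hi' hii j j' K hK l k hk'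
  · intro i hi j τ hτ c hc k hkk
    have e : ∏ l, N' (k l) = ∏ l, N (k l) :=
      Finset.prod_congr rfl fun l _ => (hk _ (w.range i hi (c l) _ _ (hkk l)).1).symm
    rw [e, ← hk _ (w.range i hi j _ _ (w.mem i hi j τ hτ _)).1]
    exact w.e3 i hi j τ hτ c hc k hkk

/-- From some point on the quotients of `c ^ k * (k!) ^ κ` are at least `2`. -/
theorem np_kB (c κ : ℝ) (hc : 0 < c) (hκ : 0 < κ) :
    ∃ kB : ℕ, ∀ k, kB ≤ k → 2 * NP c κ k ≤ NP c κ (k + 1) := by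
  have h1 : Filter.Tendsto (fun k : ℕ => c * ((k : ℝ) + 1) ^ κ) Filter.atTop Filter.atTop := by
    have h2 : Filter.Tendsto (fun k : ℕ => (((k + 1 : ℕ) : ℝ)) ^ κ) Filter.atTop Filter.atTop :=
      (tendsto_rpow_atTop hκ).comp (tendsto_natCast_atTop_atTop.comp (Filter.tendsto_add_atTop_nat 1))
    have h3 := h2.const_mul_atTop hc
    refine h3.congr (fun k => ?_)
    push_cast
    rfl
  obtain ⟨kB, hkB⟩ := Filter.eventually_atTop.mp (h1.eventually (Filter.eventually_ge_atTop 2))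
  refine ⟨kB, fun k hk => ?_⟩
  rw [np_succ]
  exact mul_le_mul_of_nonneg_right (hkB k hk) (np_pos c κ hc k).le

/-- The denominators with the first ones changed. -/
noncomputable def NPt (c κ : ℝ) (kB k : ℕ) : ℝ :=
  if kB ≤ k then NP c κ k else NP c κ kB / 2 ^ (kB - k)

theorem npt_bs (c κ : ℝ) (hc : 0 < c) (kB : ℕ)
    (h : ∀ k, kB ≤ k → 2 * NP c κ k ≤ NP c κ (k + 1)) : Bs (NPt c κ kB) := by
  refine ⟨fun k => ?_, 2, by norm_num, fun k _ => ?_⟩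
  · unfold NPt
    split_ifs with h1
    · exact np_pos c κ hc k
    · exact div_pos (np_pos c κ hc kB) (by positivity)
  · unfold NPt
    by_cases h1 : kB ≤ k
    · rw [if_pos h1, if_pos (by omega)]
      exact h k h1
    · rw [if_neg h1]
      by_cases h2 : kB ≤ k + 1
      · have h3 : kB = k + 1 := by omega
        rw [if_pos h2, h3]
        have h4 : k + 1 - k = 1 := by omega
        rw [h4, pow_one]
        exact le_of_eq (by ring)
      · rw [if_neg h2]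
        have h4 : kB - k = (kB - (k + 1)) + 1 := by omega
        rw [h4, pow_succ]
        refine le_of_eq ?_
        have h5 : (2 : ℝ) ^ (kB - (k + 1)) ≠ 0 := by positivity
        field_simp

/-- The growth of `c ^ k * (k!) ^ κ`. -/
theorem np_growth (c κ : ℝ) (hc : 0 < c) (hκ : 0 ≤ κ) :
    ∃ D k₁ : ℕ, ∀ k, k₁ ≤ k → NP c κ k ≤ (k : ℝ) ^ (D * k) := by
  refine ⟨⌈κ⌉₊ + 1, ⌈c⌉₊ + 1, fun k hk => ?_⟩
  have h1 : c ≤ k := (Nat.le_ceil c).trans (by exact_mod_cast (by omega : ⌈c⌉₊ ≤ k))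
  have hk1 : (1 : ℝ) ≤ k := by exact_mod_cast (by omega : 1 ≤ k)
  have hf0 : (0 : ℝ) < (k.factorial : ℝ) := by exact_mod_cast Nat.factorial_pos k
  have hf1 : (1 : ℝ) ≤ (k.factorial : ℝ) := by exact_mod_cast Nat.succ_le_of_lt (Nat.factorial_pos k)
  have hf2 : (k.factorial : ℝ) ≤ (k : ℝ) ^ k := by exact_mod_cast Nat.factorial_le_pow k
  have h2 : (k.factorial : ℝ) ^ κ ≤ (k : ℝ) ^ (⌈κ⌉₊ * k) := by
    calc (k.factorial : ℝ) ^ κ ≤ (k.factorial : ℝ) ^ ((⌈κ⌉₊ : ℕ) : ℝ) :=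
          Real.rpow_le_rpow_of_exponent_le hf1 (Nat.le_ceil κ)
      _ = (k.factorial : ℝ) ^ ⌈κ⌉₊ := Real.rpow_natCast _ _
      _ ≤ ((k : ℝ) ^ k) ^ ⌈κ⌉₊ := pow_le_pow_left₀ hf0.le hf2 _
      _ = (k : ℝ) ^ (⌈κ⌉₊ * k) := by rw [← pow_mul, mul_comm]
  unfold NP
  calc c ^ k * (k.factorial : ℝ) ^ κ ≤ (k : ℝ) ^ k * (k : ℝ) ^ (⌈κ⌉₊ * k) :=
        mul_le_mul (pow_le_pow_left₀ hc.le h1 k) h2 (by positivity) (by positivity)
    _ = (k : ℝ) ^ ((⌈κ⌉₊ + 1) * k) := by rw [← pow_add]; congr 1; ring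

/-- The denominators `c ^ k * (k!) ^ κ`, `κ > 0` or `c > 1`. -/
theorem nnP (c κ : ℝ) (hc : 0 < c) (hκ : 0 ≤ κ) (h : 0 < κ ∨ 1 < c) :
    ∃ (kB : ℕ) (N' : ℕ → ℝ), (∀ k, kB ≤ k → NP c κ k = N' k) ∧ NN N' := by
  obtain ⟨D, k₁, hg⟩ := np_growth c κ hc hκ
  rcases hκ.lt_or_eq with h1 | h1
  · obtain ⟨kB, hkB⟩ := np_kB c κ hc h1
    have he : ∀ k, kB ≤ k → NP c κ k = NPt c κ kB k := by
      intro k hk
      unfold NPt
      rw [if_pos hk]
    refine ⟨kB, NPt c κ kB, he, npt_bs c κ hc kB hkB,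
      winProp_congr (winN (np_gp c κ hc h1)) kB he, D, max k₁ kB, fun k hk => ?_⟩
    rw [← he k ((le_max_right _ _).trans hk)]
    exact hg k ((le_max_left _ _).trans hk)
  · subst h1
    have hc1 : 1 < c := by
      rcases h with h | h
      · exact absurd h (lt_irrefl _)
      · exact h
    have he : ∀ k, NP c 0 k = c ^ k := by
      intro k
      unfold NP
      rw [Real.rpow_zero, mul_one]
    refine ⟨0, fun k => c ^ k, fun k _ => he k, bsA c hc1, winA c hc1, D, k₁, fun k hk => ?_⟩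
    rw [← he k]
    exact hg k hk

end Pool.Agent.Helper59.RF
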