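import Pool.Agent.Helper59.RF.Win
import Pool.Agent.Helper59.RF.Scale
import Pool.Agent.Helper59.RF.Scales
import Pool.Agent.Helper59.RF.Tops

/-!
# Block RF-FIXU: the estimate for a fixed set `U` of chosen digits

PROOF.  For every good scale `i < L` and every `j` choose `τ i j ∈ w.TT i j` with all entries in `U`.  Let
`Lw i = univ.image (fun q : Fin Q × Fin d => τ i q.1 q.2.castSucc)` for good `i`, `∅` otherwise, `Tp` = the set of all
`τ i j (Fin.last d)`, `i` good, and `V = (⋃_(i < L) Lw i) ∪ Tp ⊆ U`.  All entries `τ i j l` (`i` good) are distinct (`w.disj`, `w.mem`).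
1. `tops` (with `lo, hi, Z`): the norm is at most `av hf (⋃ Lw i) (∏_(k ∈ Tp) phi (g (x + xN T) / N k)) + 2 π Z (xN Tp)²`.
   `Z (xN Tp)² ≤ (L Q)² / s^30`: `xN Tp = ∑_(k ∈ Tp) 1 / N k`, `√Z / N k ≤ 1 / s^15` by `w.e1`
   (Cauchy-Schwarz: `(∑ a_k)² ≤ |Tp| ∑ a_k²`), `|Tp| ≤ L Q`.
2. The product over `Tp` is `∏_(i < L) F i (x + xN T)` with `F i y = ∏_j phi (g y / N (τ i j (Fin.last d)))` for good `i` and `F i y = 1`
   otherwise (`Finset.prod_biUnion`, `Finset.prod_image`).
3. `scales` with `U i = Lw i`, `γ i = gam` or `1`, `ε = 2 Q (L Q d) / s^30`: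
   `htr`: `|phi a - phi b| ≤ 2 |a - b|` (`RE.sin_sq_lip`), the product of `Q` factors in `[0, 1]` changes by at most the sum of the
   changes, `|g (y + t) - g y| ≤ Z t` (`Tay`), and `Z t / N K ≤ ∑_(k ∈ Lw i', i < i' < L) Z / (N K N k) ≤ (L Q d) / s^30` (`w.e2`).
   `hsc`: `scale` with `k j l = τ i j l.castSucc`, `K j = τ i j (Fin.last d)`, `err = 1 / s^30`; `w.tight` (`Fin.prod_univ_castSucc`),
   `w.e3`; then take the `2^d`-th root (`Real.rpow_natCast`, `Real.rpow_le_rpow`); for bad `i` the average is `1`.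
   `gam ≤ 1` is not needed if one uses `min gam 1`; here `hγ : gam t0 s d Q ≤ 1` is assumed.
4. Total error `L ε + 2 π (L Q)² / s^30 ≤ (2 d + 7) (L Q)² / s^30`.
-/

namespace Pool.Agent.Helper59.RF

open Finset
open Pool.Agent.Helper59.RE (av e)

private lemma fxu_phi0 (t : ℝ) : 0 ≤ phi t := by
  unfold phi
  have h1 := Real.sin_sq_add_cos_sq (Real.pi * t)
  nlinarith [sq_nonneg (Real.cos (Real.pi * t))]

private lemma fxu_phi1 (t : ℝ) : phi t ≤ 1 := by
  unfold phi
  nlinarith [sq_nonneg (Real.sin (Real.pi * t))]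

private lemma fxu_phi_lip (a b : ℝ) : |phi a - phi b| ≤ 2 * |a - b| := by
  have h := RE.sin_sq_lip a b
  have e : phi a - phi b = -(1 / 2) * (Real.sin (Real.pi * a) ^ 2 - Real.sin (Real.pi * b) ^ 2) := by
    unfold phi
    ring
  rw [e, abs_mul, abs_neg, abs_of_pos (by norm_num : (0 : ℝ) < 1 / 2)]
  have hpi := Real.pi_le_four
  have h2 : Real.pi * |a - b| ≤ 4 * |a - b| := mul_le_mul_of_nonneg_right hpi (abs_nonneg _)
  linarith

/-- a product of factors in `[0, 1]` changes by at most the sum of the changes -/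
private lemma fxu_prod {ι : Type*} (S : Finset ι) (a b : ι → ℝ) (c : ℝ)
    (ha0 : ∀ i, 0 ≤ a i) (ha1 : ∀ i, a i ≤ 1) (hb0 : ∀ i, 0 ≤ b i) (hb1 : ∀ i, b i ≤ 1)
    (hab : ∀ i ∈ S, a i ≤ b i + c) (hc : 0 ≤ c) :
    ∏ i ∈ S, a i ≤ ∏ i ∈ S, b i + S.card * c := by
  classical
  induction S using Finset.induction_on with
  | empty => simp
  | insert i S hi ih =>
    have ih' := ih fun j hj => hab j (mem_insert_of_mem hj)
    have h1 := hab i (mem_insert_self i S)
    rw [prod_insert hi, prod_insert hi, card_insert_of_notMem hi]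
    have hA0 : 0 ≤ ∏ j ∈ S, a j := Finset.prod_nonneg fun j _ => ha0 j
    have hA1 : ∏ j ∈ S, a j ≤ 1 := Finset.prod_le_one (fun j _ => ha0 j) fun j _ => ha1 j
    have hk : 0 ≤ (S.card : ℝ) * c := by positivity
    push_cast
    calc a i * ∏ j ∈ S, a j ≤ (b i + c) * ∏ j ∈ S, a j := mul_le_mul_of_nonneg_right h1 hA0
      _ = b i * ∏ j ∈ S, a j + c * ∏ j ∈ S, a j := by ring
      _ ≤ b i * (∏ j ∈ S, b j + S.card * c) + c * 1 :=
          add_le_add (mul_le_mul_of_nonneg_left ih' (hb0 i)) (mul_le_mul_of_nonneg_left hA1 hc)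
      _ = b i * ∏ j ∈ S, b j + b i * (S.card * c) + c := by ring
      _ ≤ b i * ∏ j ∈ S, b j + 1 * (S.card * c) + c := by
          have := mul_le_mul_of_nonneg_right (hb1 i) hk
          linarith
      _ = b i * ∏ j ∈ S, b j + (S.card + 1) * c := by ring

private lemma fxu_gam0 {t0 : ℝ} (ht0 : 0 < t0) (ht1 : t0 ≤ 6 / 25) (s d Q : ℕ) :
    0 ≤ (1 - 2 * t0 ^ 2 / 4 ^ d) ^ Q + 2 * Q * (2.02 * d * Q ^ d * (1 / (s : ℝ) ^ 30)) := by
  have h1 : 2 * t0 ^ 2 / 4 ^ d ≤ 1 := by
    rw [div_le_one (by positivity)]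
    have h4 : (1 : ℝ) ≤ 4 ^ d := one_le_pow₀ (by norm_num)
    nlinarith
  have h2 : 0 ≤ (1 - 2 * t0 ^ 2 / 4 ^ d) ^ Q := pow_nonneg (by linarith) _
  positivity

open Classical in
theorem fixU {N : ℕ → ℝ} (hN : Bs N) {δ Z t0 : ℝ} {s d Q L : ℕ} (hs : 1 ≤ s) (hd : 1 ≤ d)
    (w : WS N δ Z t0 s d Q L) (ht0 : 0 < t0) (ht1 : t0 ≤ 6 / 25) (hγ : gam t0 s d Q ≤ 1)
    (hZ : 0 ≤ Z) (f g : ℝ → ℝ) (lo hi : ℝ) (hT : Tay f g lo hi Z) (hD : Dif d g lo hi Z)
    (U : Finset ℕ) :
    ∃ V : Finset ℕ, V ⊆ U ∧ ∀ x : ℝ, lo ≤ x → x + xN N V ≤ hi →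
      ‖av hf V (fun T => e (f (x + xN N T)))‖ ≤
        (∏ i ∈ range L, if w.Good U i then gam t0 s d Q else 1) +
          (2 * d + 7) * (L * Q) ^ 2 * (1 / (s : ℝ) ^ 30) := by
  classical
  have hspos : (0 : ℝ) < (s : ℝ) ^ 30 := by
    have : (0 : ℝ) < s := by exact_mod_cast hs
    positivity
  set e0 : ℝ := 1 / (s : ℝ) ^ 30 with he0
  have he0p : 0 ≤ e0 := by positivity
  have hNp := hN.pos
  -- the choice of tight tuples
  have hch : ∀ i : ℕ, ∀ j : Fin Q, ∃ τ : Fin (d + 1) → ℕ, w.Good U i →
      τ ∈ w.TT i j ∧ ∀ l, τ l ∈ U := by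
    intro i j
    by_cases hg : w.Good U i
    · obtain ⟨τ, h1, h2⟩ := hg j
      exact ⟨τ, fun _ => ⟨h1, h2⟩⟩
    · exact ⟨fun _ => 0, fun h => absurd h hg⟩
  choose τ hτ using hch
  have hmem : ∀ i, i < L → w.Good U i → ∀ j l, τ i j l ∈ w.W i j l := fun i hi hg j l =>
    w.mem i hi j _ (hτ i j hg).1 l
  have hdist : ∀ i, i < L → w.Good U i → ∀ i', i' < L → w.Good U i' → ∀ j j' l l',
      (i ≠ i' ∨ j ≠ j' ∨ l ≠ l') → τ i j l ≠ τ i' j' l' := by
    intro i hi hg i' hi' hg' j j' l l' hne heq
    have hd' := w.disj i hi i' hi' j j' l l' hne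
    exact (Finset.disjoint_left.1 hd') (hmem i hi hg j l) (heq ▸ hmem i' hi' hg' j' l')
  set Lw : ℕ → Finset ℕ := fun i => if w.Good U i then
    univ.image (fun q : Fin Q × Fin d => τ i q.1 q.2.castSucc) else ∅ with hLw
  set Tp : ℕ → Finset ℕ := fun i => if w.Good U i then
    univ.image (fun j : Fin Q => τ i j (Fin.last d)) else ∅ with hTp
  have mLw : ∀ i k, k ∈ Lw i ↔ w.Good U i ∧ ∃ j l, τ i j (Fin.castSucc l) = k := by
    intro i k
    simp only [hLw]
    by_cases hg : w.Good U i
    · rw [if_pos hg]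
      simp only [mem_image, mem_univ, true_and, Prod.exists, hg]
    · rw [if_neg hg]
      simp [hg]
  have mTp : ∀ i k, k ∈ Tp i ↔ w.Good U i ∧ ∃ j, τ i j (Fin.last d) = k := by
    intro i k
    simp only [hTp]
    by_cases hg : w.Good U i
    · rw [if_pos hg]
      simp only [mem_image, mem_univ, true_and, hg]
    · rw [if_neg hg]
      simp [hg]
  set LL : Finset ℕ := (range L).biUnion Lw with hLL
  set TP : Finset ℕ := (range L).biUnion Tp with hTP
  have hLwd : ∀ i < L, ∀ i' < L, i ≠ i' → Disjoint (Lw i) (Lw i') := by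
    intro i hi i' hi' hne
    rw [Finset.disjoint_left]
    intro k hk hk'
    obtain ⟨hg, j, l, h1⟩ := (mLw i k).1 hk
    obtain ⟨hg', j', l', h2⟩ := (mLw i' k).1 hk'
    exact hdist i hi hg i' hi' hg' j j' l.castSucc l'.castSucc (Or.inl hne) (h1.trans h2.symm)
  have hTpd : ∀ i < L, ∀ i' < L, i ≠ i' → Disjoint (Tp i) (Tp i') := by
    intro i hi i' hi' hne
    rw [Finset.disjoint_left]
    intro k hk hk'
    obtain ⟨hg, j, h1⟩ := (mTp i k).1 hk
    obtain ⟨hg', j', h2⟩ := (mTp i' k).1 hk'
    exact hdist i hi hg i' hi' hg' j j' (Fin.last d) (Fin.last d) (Or.inl hne) (h1.trans h2.symm)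
  have hLT : Disjoint LL TP := by
    rw [Finset.disjoint_left]
    intro k hk hk'
    obtain ⟨i, hi, hki⟩ := mem_biUnion.1 hk
    obtain ⟨i', hi', hki'⟩ := mem_biUnion.1 hk'
    obtain ⟨hg, j, l, h1⟩ := (mLw i k).1 hki
    obtain ⟨hg', j', h2⟩ := (mTp i' k).1 hki'
    exact hdist i (mem_range.1 hi) hg i' (mem_range.1 hi') hg' j j' l.castSucc (Fin.last d)
      (Or.inr (Or.inr (Fin.castSucc_lt_last l).ne)) (h1.trans h2.symm)
  refine ⟨LL ∪ TP, ?_, ?_⟩
  · intro k hk
    rcases mem_union.1 hk with h | h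
    · obtain ⟨i, _, hki⟩ := mem_biUnion.1 h
      obtain ⟨hg, j, l, h1⟩ := (mLw i k).1 hki
      exact h1 ▸ (hτ i j hg).2 _
    · obtain ⟨i, _, hki⟩ := mem_biUnion.1 h
      obtain ⟨hg, j, h1⟩ := (mTp i k).1 hki
      exact h1 ▸ (hτ i j hg).2 _
  intro x hx hxh
  have hxLL : x + xN N LL ≤ hi := by
    have : xN N LL ≤ xN N (LL ∪ TP) := xN_mono hN subset_union_left
    linarith
  -- step 1
  refine (tops hN f g lo hi Z hZ hT LL TP hLT x hx hxh).trans ?_
  -- step 2
  set F : ℕ → ℝ → ℝ := fun i y => if w.Good U i then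
    ∏ j : Fin Q, phi (g y / N (τ i j (Fin.last d))) else 1 with hF
  have hprod : ∀ y : ℝ, ∏ k ∈ TP, phi (g y / N k) = ∏ i ∈ range L, F i y := by
    intro y
    rw [hTP, Finset.prod_biUnion]
    · refine Finset.prod_congr rfl fun i hi => ?_
      simp only [hTp, hF]
      by_cases hg : w.Good U i
      · rw [if_pos hg, if_pos hg, Finset.prod_image]
        intro j _ j' _ hjj
        by_contra hne
        exact hdist i (mem_range.1 hi) hg i (mem_range.1 hi) hg j j' _ _ (Or.inr (Or.inl hne)) hjj
      · rw [if_neg hg, if_neg hg, Finset.prod_empty]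
    · intro i hi i' hi' hne
      exact hTpd i (mem_range.1 hi) i' (mem_range.1 hi') hne
  have hcongr : av hf LL (fun T => ∏ k ∈ TP, phi (g (x + xN N T) / N k)) =
      av hf LL (fun T => ∏ i ∈ range L, F i (x + xN N T)) :=
    RE.av_congr hf LL _ _ fun T _ => hprod _
  rw [hcongr]
  have hF0 : ∀ i y, 0 ≤ F i y := by
    intro i y
    simp only [hF]
    by_cases hg : w.Good U i
    · rw [if_pos hg]
      exact Finset.prod_nonneg fun j _ => fxu_phi0 _
    · rw [if_neg hg]
      exact zero_le_one
  have hF1 : ∀ i y, F i y ≤ 1 := by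
    intro i y
    simp only [hF]
    by_cases hg : w.Good U i
    · rw [if_pos hg]
      exact Finset.prod_le_one (fun j _ => fxu_phi0 _) fun j _ => fxu_phi1 _
    · rw [if_neg hg]
  -- step 3
  set γ : ℕ → ℝ := fun i => if w.Good U i then gam t0 s d Q else 1 with hγd
  have hgam0 : 0 ≤ gam t0 s d Q := Real.rpow_nonneg (fxu_gam0 ht0 ht1 s d Q) _
  have hγ0 : ∀ i, 0 ≤ γ i := by
    intro i
    simp only [hγd]
    split_ifs
    · exact hgam0
    · exact zero_le_one
  have hγ1 : ∀ i, γ i ≤ 1 := by
    intro i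
    simp only [hγd]
    split_ifs
    · exact hγ
    · exact le_refl 1
  have hcardLw : ∀ i, ((Lw i).card : ℝ) ≤ Q * d := by
    intro i
    simp only [hLw]
    by_cases hg : w.Good U i
    · rw [if_pos hg]
      have h1 : (univ.image (fun q : Fin Q × Fin d => τ i q.1 q.2.castSucc)).card ≤ Q * d := by
        refine Finset.card_image_le.trans (le_of_eq ?_)
        simp
      exact_mod_cast h1
    · rw [if_neg hg, Finset.card_empty, Nat.cast_zero]
      positivity
  have hsc := scales hN L Lw hLwd F hF0 hF1 lo hi γ hγ0 hγ1 (2 * Q * (L * Q * d) * e0)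
    (by positivity)
    (by
      intro i hiL y t hy ht hts hyt
      simp only [hF]
      by_cases hg : w.Good U i
      · rw [if_pos hg, if_pos hg]
        have hkey : ∀ j : Fin Q, Z * t / N (τ i j (Fin.last d)) ≤ L * Q * d * e0 := by
          intro j
          have hNK := hNp (τ i j (Fin.last d))
          have h1 : Z * t / N (τ i j (Fin.last d)) ≤
              ∑ i' ∈ Ioo i L, ∑ k ∈ Lw i', Z / (N (τ i j (Fin.last d)) * N k) := by
            have h2 : Z * t / N (τ i j (Fin.last d)) ≤
                Z * (∑ i' ∈ Ioo i L, xN N (Lw i')) / N (τ i j (Fin.last d)) := by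
              apply div_le_div_of_nonneg_right _ hNK.le
              exact mul_le_mul_of_nonneg_left hts hZ
            refine h2.trans (le_of_eq ?_)
            rw [Finset.mul_sum, Finset.sum_div]
            refine Finset.sum_congr rfl fun i' _ => ?_
            unfold xN
            rw [Finset.mul_sum, Finset.sum_div]
            refine Finset.sum_congr rfl fun k _ => ?_
            rw [mul_one_div, div_div, mul_comm (N k)]
          refine h1.trans ?_
          have h3 : ∀ i' ∈ Ioo i L, ∑ k ∈ Lw i', Z / (N (τ i j (Fin.last d)) * N k) ≤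
              Q * d * e0 := by
            intro i' hi'
            obtain ⟨hi1, hi2⟩ := mem_Ioo.1 hi'
            have h4 : ∀ k ∈ Lw i', Z / (N (τ i j (Fin.last d)) * N k) ≤ e0 := by
              intro k hk
              obtain ⟨hg', j', l, hkl⟩ := (mLw i' k).1 hk
              exact w.e2 i hiL i' hi2 hi1 j j' _ (hmem i hiL hg j (Fin.last d)) l k
                (hkl ▸ hmem i' hi2 hg' j' l.castSucc)
            have h5 := Finset.sum_le_card_nsmul (Lw i') _ e0 h4
            rw [nsmul_eq_mul] at h5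
            exact h5.trans (mul_le_mul_of_nonneg_right (hcardLw i') he0p)
          have h6 := Finset.sum_le_card_nsmul (Ioo i L) _ _ h3
          rw [nsmul_eq_mul] at h6
          refine h6.trans ?_
          have h7 : (((Ioo i L).card : ℕ) : ℝ) ≤ L := by
            have : (Ioo i L).card ≤ L := by
              rw [Nat.card_Ioo]
              omega
            exact_mod_cast this
          have h8 : 0 ≤ (Q : ℝ) * d * e0 := by positivity
          have h9 := mul_le_mul_of_nonneg_right h7 h8
          linarith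
        have h10 := fxu_prod (univ : Finset (Fin Q))
          (fun j => phi (g (y + t) / N (τ i j (Fin.last d))))
          (fun j => phi (g y / N (τ i j (Fin.last d)))) (2 * (L * Q * d * e0))
          (fun j => fxu_phi0 _) (fun j => fxu_phi1 _) (fun j => fxu_phi0 _) (fun j => fxu_phi1 _)
          (by
            intro j _
            have hNK := hNp (τ i j (Fin.last d))
            have h11 := fxu_phi_lip (g (y + t) / N (τ i j (Fin.last d)))
              (g y / N (τ i j (Fin.last d)))
            have h12 : |g (y + t) / N (τ i j (Fin.last d)) - g y / N (τ i j (Fin.last d))| ≤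
                Z * t / N (τ i j (Fin.last d)) := by
              rw [← sub_div, abs_div, abs_of_pos hNK]
              exact div_le_div_of_nonneg_right (hT y t hy ht hyt).2 hNK.le
            have h13 := hkey j
            have h14 := le_abs_self (phi (g (y + t) / N (τ i j (Fin.last d))) -
              phi (g y / N (τ i j (Fin.last d))))
            change phi (g (y + t) / N (τ i j (Fin.last d))) ≤
              phi (g y / N (τ i j (Fin.last d))) + 2 * (L * Q * d * e0)
            linarith)
          (by positivity)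
        refine h10.trans (le_of_eq ?_)
        rw [Finset.card_univ, Fintype.card_fin]
        ring
      · rw [if_neg hg, if_neg hg]
        have : 0 ≤ 2 * (Q : ℝ) * (L * Q * d) * e0 := by positivity
        linarith)
    (by
      intro i hiL y hy hyh
      by_cases hg : w.Good U i
      · have eF : ∀ z : ℝ, F i z = ∏ j : Fin Q, phi (g z / N (τ i j (Fin.last d))) := by
          intro z
          simp only [hF]
          rw [if_pos hg]
        have eL : Lw i = univ.image (fun q : Fin Q × Fin d => τ i q.1 q.2.castSucc) := by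
          simp only [hLw]
          rw [if_pos hg]
        have eγ : γ i = gam t0 s d Q := by
          simp only [hγd]
          rw [if_pos hg]
        have hpr : ∀ j : Fin Q, ∏ l, N (τ i j l) =
            N (τ i j (Fin.last d)) * ∏ l : Fin d, N (τ i j l.castSucc) := by
          intro j
          rw [Fin.prod_univ_castSucc, mul_comm]
        have h1 := scale hN d hd g lo hi Z t0 e0 hZ ht0 ht1 he0p hD Q
          (fun j l => τ i j l.castSucc) (fun j => τ i j (Fin.last d))
          (by
            rintro ⟨j, l⟩ ⟨j', l'⟩ h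
            by_contra hne
            refine hdist i hiL hg i hiL hg j j' l.castSucc l'.castSucc ?_ h
            by_cases hj : j = j'
            · right; right
              intro hl
              apply hne
              rw [hj, Fin.castSucc_injective d hl]
            · right; left
              exact hj)
          (by
            intro j
            have h2 := (w.tight i hiL j _ (hτ i j hg).1).1
            rw [hpr] at h2
            exact h2)
          (by
            intro j
            have h2 := (w.tight i hiL j _ (hτ i j hg).1).2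
            rw [hpr] at h2
            exact h2)
          (by
            intro j c hc
            exact w.e3 i hiL j _ (hτ i j hg).1 c hc (fun l => τ i (c l) l.castSucc)
              (fun l => hmem i hiL hg (c l) l.castSucc))
          y hy (by rw [← eL]; exact hyh)
        rw [eγ]
        have h3 : av hf (Lw i) (fun T => F i (y + xN N T)) =
            av hf (univ.image (fun q : Fin Q × Fin d => τ i q.1 q.2.castSucc))
              (fun T => ∏ j, phi (g (y + xN N T) / N (τ i j (Fin.last d)))) := by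
          rw [eL]
          exact RE.av_congr hf _ _ _ fun T _ => eF _
        have h4 : 0 ≤ av hf (Lw i) (fun T => F i (y + xN N T)) := by
          have h5 := RE.av_mono hf (fun _ => by unfold hf; norm_num)
            (fun _ => by unfold hf; norm_num) (Lw i) (fun _ => (0 : ℝ))
            (fun T => F i (y + xN N T)) (fun T _ => hF0 _ _)
          rw [RE.av_const] at h5
          exact h5
        rw [← h3] at h1
        have h6 : ((av hf (Lw i) (fun T => F i (y + xN N T))) ^ (2 ^ d)) ^ ((1 : ℝ) / 2 ^ d) ≤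
            gam t0 s d Q := by
          unfold gam
          exact Real.rpow_le_rpow (pow_nonneg h4 _) h1 (by positivity)
        rw [← Real.rpow_natCast, ← Real.rpow_mul h4] at h6
        have h7 : (((2 ^ d : ℕ) : ℝ)) * ((1 : ℝ) / 2 ^ d) = 1 := by
          push_cast
          rw [mul_one_div, div_self (by positivity)]
        rw [h7, Real.rpow_one] at h6
        exact h6
      · have eF : ∀ z : ℝ, F i z = 1 := by
          intro z
          simp only [hF]
          rw [if_neg hg]
        have eγ : γ i = 1 := by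
          simp only [hγd]
          rw [if_neg hg]
        rw [eγ, RE.av_congr hf (Lw i) _ (fun _ => (1 : ℝ)) fun T _ => eF _, RE.av_const])
    x hx
    (by
      have : xN N LL = ∑ i ∈ range L, xN N (Lw i) := by
        rw [hLL]
        unfold xN
        rw [Finset.sum_biUnion]
        intro i hi i' hi' hne
        exact hLwd i (mem_range.1 hi) i' (mem_range.1 hi') hne
      rw [← this]
      exact hxLL)
  -- step 4
  have hcardTP : ((TP.card : ℕ) : ℝ) ≤ L * Q := by
    have h1 : TP.card ≤ L * Q := by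
      rw [hTP]
      refine (Finset.card_biUnion_le_card_mul (range L) Tp Q fun i _ => ?_).trans (le_of_eq ?_)
      · simp only [hTp]
        by_cases hg : w.Good U i
        · rw [if_pos hg]
          refine Finset.card_image_le.trans (le_of_eq ?_)
          simp
        · rw [if_neg hg]
          simp
      · rw [card_range]
    exact_mod_cast h1
  have hZx : Z * xN N TP ^ 2 ≤ (L * Q) ^ 2 * e0 := by
    have h1 : xN N TP ^ 2 ≤ TP.card * ∑ k ∈ TP, (1 / N k) ^ 2 := by
      unfold xN
      exact sq_sum_le_card_mul_sum_sq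
    have h2 : ∀ k ∈ TP, Z * (1 / N k) ^ 2 ≤ e0 := by
      intro k hk
      obtain ⟨i, hi, hki⟩ := mem_biUnion.1 hk
      obtain ⟨hg, j, hj⟩ := (mTp i k).1 hki
      have h3 := w.e1 i (mem_range.1 hi) j k (hj ▸ hmem i (mem_range.1 hi) hg j (Fin.last d))
      rw [one_div, inv_pow, ← div_eq_mul_inv]
      exact h3
    have h4 := Finset.sum_le_card_nsmul TP _ e0 h2
    rw [nsmul_eq_mul] at h4
    have hc0 : (0 : ℝ) ≤ TP.card := Nat.cast_nonneg _
    calc Z * xN N TP ^ 2 ≤ Z * (TP.card * ∑ k ∈ TP, (1 / N k) ^ 2) :=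
          mul_le_mul_of_nonneg_left h1 hZ
      _ = TP.card * ∑ k ∈ TP, Z * (1 / N k) ^ 2 := by
          rw [← Finset.mul_sum]
          ring
      _ ≤ TP.card * (TP.card * e0) := mul_le_mul_of_nonneg_left h4 hc0
      _ = (TP.card : ℝ) ^ 2 * e0 := by ring
      _ ≤ (L * Q) ^ 2 * e0 :=
          mul_le_mul_of_nonneg_right (pow_le_pow_left₀ hc0 hcardTP 2) he0p
  have hpi : 2 * Real.pi ≤ 7 := by
    have := Real.pi_lt_d2
    linarith
  have h5 : 2 * Real.pi * (Z * xN N TP ^ 2) ≤ 7 * ((L * Q) ^ 2 * e0) := by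
    have h6 : 0 ≤ Z * xN N TP ^ 2 := by positivity
    calc 2 * Real.pi * (Z * xN N TP ^ 2) ≤ 7 * (Z * xN N TP ^ 2) :=
          mul_le_mul_of_nonneg_right hpi h6
      _ ≤ 7 * ((L * Q) ^ 2 * e0) := mul_le_mul_of_nonneg_left hZx (by norm_num)
  have h7 : (L : ℝ) * (2 * Q * (L * Q * d) * e0) + 7 * ((L * Q) ^ 2 * e0) =
      (2 * d + 7) * (L * Q) ^ 2 * e0 := by ring
  linarith

end Pool.Agent.Helper59.RF
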