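import Pool.Agent.Helper59.RF.LowW

/-!
# Project RF: regular denominators.  Definitions

`GN N s d Q v β C2 ρ` collects what is used about the denominators `N k` at the scale with the basic length `v`
(`M = MM d Q v`, lower digits in `[M, 2M)`): the quotients `N (k+1) / N k` are at least `β` from `M` on, at most `β^2` below `2M`,
at most `β^3` below `2s`, and they increase in a controlled way.
-/

namespace Pool.Agent.Helper59.RF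

open Finset

structure GN (N : ℕ → ℝ) (s d Q v : ℕ) (β C2 ρ : ℝ) : Prop where
  pos : ∀ k, 0 < N k
  one : ∀ k, MM d Q v ≤ k → 1 ≤ N k
  b4 : 4 ≤ β
  bC : 2 * C2 ≤ β
  C1 : 1 ≤ C2
  r0 : 0 < ρ
  r1 : ρ ≤ 1
  lo : ∀ k, MM d Q v ≤ k → β * N k ≤ N (k + 1)
  hi : ∀ k, k < 2 * MM d Q v → N (k + 1) ≤ β ^ 2 * N k
  hs : ∀ k, k < 2 * s → N (k + 1) ≤ β ^ 3 * N k
  rlo : ∀ x y : ℕ, MM d Q v ≤ x → (x : ℝ) + MM d Q v / (2 * ((d : ℝ) + 1)) ≤ y → y < 2 * MM d Q v →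
    (1 + ρ) * (N (x + 1) * N y) ≤ N x * N (y + 1)
  rhi : ∀ x y : ℕ, MM d Q v ≤ x → x ≤ y → y < 2 * MM d Q v → N x * N (y + 1) ≤ C2 * (N (x + 1) * N y)
  sup : ∀ f : ℕ → ℕ, (∀ l ∈ range d, f l ≤ 2 * MM d Q v) →
    ∃ K, K ≤ s ∧ s ≤ K + 2 * d * MM d Q v ∧ N K * ∏ l ∈ range d, N (f l) ≤ N s

/-- The product of the denominators of the first lower digits. -/
noncomputable def PcN (N : ℕ → ℝ) (d Q v j : ℕ) : ℝ :=
  N (cc d Q v 0 j + HU d v) * N (cc d Q v 1 j + HU d v) * ∏ l ∈ Ico 2 d, N (cc d Q v l j)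

open Classical in
/-- The first top digit. -/
noncomputable def KtN (N : ℕ → ℝ) (Z : ℝ) (s d Q v j : ℕ) : ℕ :=
  Nat.findGreatest (fun K => N K * PcN N d Q v j ≤ Z) s

/-- The windows. -/
noncomputable def WN (N : ℕ → ℝ) (Z : ℝ) (s d Q v j : ℕ) (l : Fin (d + 1)) : Finset ℕ :=
  if (l : ℕ) = d then Ico (KtN N Z s d Q v j) (KtN N Z s d Q v j + v)
  else if (l : ℕ) < 2 then Ico (cc d Q v l j) (cc d Q v l j + UU d v)
  else Ico (cc d Q v l j) (cc d Q v l j + v)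

open Classical in
/-- The tight tuples. -/
noncomputable def TN (N : ℕ → ℝ) (C2 Z : ℝ) (s d Q v j : ℕ) : Finset (Fin (d + 1) → ℕ) :=
  (Fintype.piFinset (WN N Z s d Q v j)).filter (fun τ =>
    1 / (2 * C2) ≤ Z / ∏ l, N (τ l) ∧ Z / ∏ l, N (τ l) ≤ 1 / 2)

/-- Denominators which are regular at all scales. -/
def GP (N : ℕ → ℝ) : Prop :=
  ∃ C2 : ℝ, 1 ≤ C2 ∧ ∀ δ : ℝ, 0 < δ → δ ≤ 1 / 4 → ∀ d Q : ℕ, 2 ≤ d → 1 ≤ Q →
    ∃ ρ : ℝ, ∃ S₀ : ℕ, ∀ s : ℕ, S₀ ≤ s → ∀ i < Ln δ d s,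
      ∃ β : ℝ, GN N s d Q (vv δ s d i) β C2 ρ ∧
        ∃ R : ℕ, (β ^ 2) ^ (R + 1) ≤ (1 + ρ) ^ (4 * (d + 1) * vv δ s d i) ∧
          (UU d (vv δ s d i) : ℝ) ^ d ≤ (s : ℝ) ^ (δ / 8) * ((vv δ s d i : ℝ) ^ (d - 1) * R)

/-- `c ^ k * (k!) ^ κ`. -/
noncomputable def NP (c κ : ℝ) (k : ℕ) : ℝ := c ^ k * (k.factorial : ℝ) ^ κ

end Pool.Agent.Helper59.RF
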