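import Pool.Agent.Helper59.RF.GDefs

/-!
# Block RF-KTN: the top digit (regular denominators)

Model: `KtF.lean` (proved; `N k = k!`).  PROOFS.
* `gn_up`, `gn_mono`, `gn_hi`, `gn_hs`: induction on `n` from `GN.lo`, `GN.hi`, `GN.hs`.
* `kt_specN`: the `d` arguments of `PcN` are `f l = cc l + HU` (`l < 2`) and `f l = cc l` (`l ≥ 2`), all `≤ 2 MM` (`cc_le`, `HU ≤ UU`), and
  `PcN = ∏_(l<d) N (f l)`.  `GN.sup` gives `K0 ≤ s` with `s ≤ K0 + 2 d MM` and `N K0 * PcN ≤ N s ≤ Z`, so `K0 ≤ KtN`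
  (`Nat.le_findGreatest`), and `N KtN * PcN ≤ Z` (`Nat.findGreatest_spec`).
  `KtN + v ≤ s`: otherwise `N (s+1) ≤ N KtN * (β^3)^(s+1-KtN) ≤ N KtN * (β^3)^v` (`gn_hs`, `β ≥ 1`), and `N KtN * PcN ≤ Z < N (s+1)` gives
  `PcN < β^(3v)`; but `PcN ≥ N (cc 0 + HU) ≥ N MM * β^HU ≥ β^(8(d+1)v) ≥ β^(3v)` (the other factors are `≥ 1` by `GN.one`, `mm_le_cc`).
  `Z < N (KtN + 1) * PcN`: `KtN + 1 ≤ s`, `Nat.findGreatest_is_greatest`.
-/

namespace Pool.Agent.Helper59.RF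

open Finset

theorem gn_up {N : ℕ → ℝ} {s d Q v : ℕ} {β C2 ρ : ℝ} (h : GN N s d Q v β C2 ρ) (a n : ℕ)
    (ha : MM d Q v ≤ a) : N a * β ^ n ≤ N (a + n) := by
  induction n with
  | zero => simp
  | succ n ih =>
    have hb := h.b4
    calc N a * β ^ (n + 1) = β * (N a * β ^ n) := by ring
      _ ≤ β * N (a + n) := mul_le_mul_of_nonneg_left ih (by linarith)
      _ ≤ N (a + n + 1) := h.lo (a + n) (by omega)

theorem gn_mono {N : ℕ → ℝ} {s d Q v : ℕ} {β C2 ρ : ℝ} (h : GN N s d Q v β C2 ρ) (a b : ℕ)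
    (ha : MM d Q v ≤ a) (hab : a ≤ b) : N a ≤ N b := by
  obtain ⟨n, rfl⟩ := Nat.exists_eq_add_of_le hab
  have hb := h.b4
  have h1 := gn_up h a n ha
  have h2 : (1 : ℝ) ≤ β ^ n := one_le_pow₀ (by linarith)
  have h3 := h.pos a
  nlinarith

theorem gn_hi {N : ℕ → ℝ} {s d Q v : ℕ} {β C2 ρ : ℝ} (h : GN N s d Q v β C2 ρ) (a n : ℕ)
    (ha : a + n ≤ 2 * MM d Q v) : N (a + n) ≤ N a * (β ^ 2) ^ n := by
  induction n with
  | zero => simp
  | succ n ih =>
    calc N (a + n + 1) ≤ β ^ 2 * N (a + n) := h.hi (a + n) (by omega)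
      _ ≤ β ^ 2 * (N a * (β ^ 2) ^ n) := mul_le_mul_of_nonneg_left (ih (by omega)) (sq_nonneg _)
      _ = N a * (β ^ 2) ^ (n + 1) := by ring

theorem gn_hs {N : ℕ → ℝ} {s d Q v : ℕ} {β C2 ρ : ℝ} (h : GN N s d Q v β C2 ρ) (a n : ℕ)
    (ha : a + n ≤ 2 * s) : N (a + n) ≤ N a * (β ^ 3) ^ n := by
  induction n with
  | zero => simp
  | succ n ih =>
    have hb := h.b4
    have hb3 : (0 : ℝ) ≤ β ^ 3 := by positivity
    calc N (a + n + 1) ≤ β ^ 3 * N (a + n) := h.hs (a + n) (by omega)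
      _ ≤ β ^ 3 * (N a * (β ^ 3) ^ n) := mul_le_mul_of_nonneg_left (ih (by omega)) hb3
      _ = N a * (β ^ 3) ^ (n + 1) := by ring

theorem kt_specN {N : ℕ → ℝ} {s d Q v : ℕ} {β C2 ρ : ℝ} (hG : GN N s d Q v β C2 ρ) (Z : ℝ)
    (j : ℕ) (hR : Rng s d Q v) (hd : 2 ≤ d) (hj : j < Q) (hZ1 : N s ≤ Z) (hZ2 : Z < N (s + 1)) :
    s ≤ KtN N Z s d Q v j + 2 * d * MM d Q v ∧ KtN N Z s d Q v j + v ≤ s ∧
      N (KtN N Z s d Q v j) * PcN N d Q v j ≤ Z ∧
      Z < N (KtN N Z s d Q v j + 1) * PcN N d Q v j := by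
  classical
  have hHU : HU d v ≤ UU d v := by
    unfold HU UU
    nlinarith [Nat.zero_le ((d + 1) * v)]
  have hHv : 3 * v ≤ HU d v := by
    unfold HU
    nlinarith [Nat.zero_le (d * v)]
  have hv1 := hR.v1
  have hvM := v_le_mm d Q v
  have hbig : 64 * (d * MM d Q v) ≤ s := by
    have := hR.big
    rwa [mul_assoc] at this
  have hdM : 2 * MM d Q v ≤ d * MM d Q v := Nat.mul_le_mul_right _ hd
  have hb4 := hG.b4
  -- the product as a product over the range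
  obtain ⟨f, hf⟩ : ∃ f : ℕ → ℕ, f = fun l => if l < 2 then cc d Q v l j + HU d v
      else cc d Q v l j := ⟨_, rfl⟩
  have hPc : PcN N d Q v j = ∏ l ∈ range d, N (f l) := by
    obtain ⟨m, rfl⟩ : ∃ m, d = 2 + m := ⟨d - 2, by omega⟩
    unfold PcN
    rw [Finset.prod_range_add, Finset.prod_range_succ, Finset.prod_range_succ,
      Finset.prod_range_zero, one_mul, Finset.prod_Ico_eq_prod_range, Nat.add_sub_cancel_left]
    congr 1
    · simp [hf]
    · refine Finset.prod_congr rfl fun l _ => ?_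
      rw [hf]
      simp only
      rw [if_neg (by omega)]
  have hfle : ∀ l ∈ range d, f l ≤ 2 * MM d Q v := by
    intro l hl
    have h1 := cc_le d Q v l j (mem_range.1 hl) hj
    rw [hf]
    simp only
    split_ifs
    · omega
    · omega
  have hP0 : 0 < PcN N d Q v j := by
    rw [hPc]
    exact Finset.prod_pos fun l _ => hG.pos _
  obtain ⟨K0, hK0s, hsK0, hK0⟩ := hG.sup f hfle
  rw [← hPc] at hK0
  have hPK0 : N K0 * PcN N d Q v j ≤ Z := hK0.trans hZ1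
  obtain ⟨K, hK⟩ : ∃ K, K = KtN N Z s d Q v j := ⟨_, rfl⟩
  have hKs : K ≤ s := by
    rw [hK]
    unfold KtN
    exact Nat.findGreatest_le s
  have hKK0 : K0 ≤ K := by
    rw [hK]
    unfold KtN
    exact Nat.le_findGreatest hK0s hPK0
  have hspec : N K * PcN N d Q v j ≤ Z := by
    rw [hK]
    unfold KtN
    exact Nat.findGreatest_spec (P := fun K => N K * PcN N d Q v j ≤ Z) hK0s hPK0
  have hPlow : (β ^ 3) ^ v ≤ PcN N d Q v j := by
    have h0 : β ^ HU d v ≤ N (cc d Q v 0 j + HU d v) := by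
      have h1 := gn_up hG (cc d Q v 0 j) (HU d v) (mm_le_cc d Q v 0 j)
      have h2 := hG.one (cc d Q v 0 j) (mm_le_cc d Q v 0 j)
      have h3 : (0 : ℝ) ≤ β ^ HU d v := by positivity
      nlinarith
    have h1 : 1 ≤ N (cc d Q v 1 j + HU d v) := by
      apply hG.one
      have := mm_le_cc d Q v 1 j
      omega
    have h2 : 1 ≤ ∏ l ∈ Ico 2 d, N (cc d Q v l j) := by
      calc (1 : ℝ) = ∏ _l ∈ Ico 2 d, (1 : ℝ) := by rw [prod_const_one]
        _ ≤ ∏ l ∈ Ico 2 d, N (cc d Q v l j) :=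
          prod_le_prod (fun _ _ => zero_le_one) (fun l _ => hG.one _ (mm_le_cc d Q v l j))
    have h3 : (β ^ 3) ^ v ≤ β ^ HU d v := by
      rw [← pow_mul]
      exact pow_le_pow_right₀ (by linarith) hHv
    have h4 : 0 < N (cc d Q v 0 j + HU d v) := hG.pos _
    unfold PcN
    calc (β ^ 3) ^ v ≤ N (cc d Q v 0 j + HU d v) := h3.trans h0
      _ = N (cc d Q v 0 j + HU d v) * 1 * 1 := by ring
      _ ≤ N (cc d Q v 0 j + HU d v) * N (cc d Q v 1 j + HU d v) *
          ∏ l ∈ Ico 2 d, N (cc d Q v l j) := by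
        apply mul_le_mul (mul_le_mul_of_nonneg_left h1 h4.le) h2 zero_le_one
        exact mul_nonneg h4.le (hG.pos _).le
  have hKv : K + v ≤ s := by
    by_contra hcon
    push Not at hcon
    have hb3 : (1 : ℝ) ≤ β ^ 3 := one_le_pow₀ (by linarith)
    have h1 : N (s + 1) ≤ N K * (β ^ 3) ^ v := by
      have h2 := gn_hs hG K (s + 1 - K) (by omega)
      rw [show K + (s + 1 - K) = s + 1 by omega] at h2
      refine h2.trans (mul_le_mul_of_nonneg_left ?_ (hG.pos K).le)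
      exact pow_le_pow_right₀ hb3 (by omega)
    have h2 : N K * PcN N d Q v j < N K * (β ^ 3) ^ v := by
      linarith
    have h3 := lt_of_mul_lt_mul_left h2 (hG.pos K).le
    linarith
  have hlast : Z < N (K + 1) * PcN N d Q v j := by
    have h1 := Nat.findGreatest_is_greatest
      (P := fun K => N K * PcN N d Q v j ≤ Z) (n := s) (k := K + 1)
      (by
        have h2 : Nat.findGreatest (fun K => N K * PcN N d Q v j ≤ Z) s = K := by
          rw [hK]
          rfl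
        rw [h2]
        exact Nat.lt_succ_self K) (by omega)
    exact not_le.1 h1
  rw [← hK]
  refine ⟨?_, hKv, hspec, hlast⟩
  omega

end Pool.Agent.Helper59.RF
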