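import Pool.Agent.Helper59.RF.WinDefs

/-!
# Block RF-LOWW: the lower windows

`D = Dd d = 2 d + 4`, `MM = 2 (d+1) D^Q UU`.  All statements are elementary inequalities between natural numbers.

PROOFS.
* `cc_le`: `2 D^Q (l+1) + D^j + 1 ≤ 2 D^Q d + 2 D^Q` (`l + 1 ≤ d`, `D^j ≤ D^(Q-1) ≤ D^Q`, `1 ≤ D^Q`).
* `cc_up`: for `j < j'`: `D^j' ≥ D^(j+1) = D D^j`, so `D^j' - D^j ≥ (D-1) D^j ≥ 1 + (D-2) D^j`, and `D - 2 = 2 d + 2`.
* `cc_low`: for `j' ≤ j`: `D^j + 1 ≤ D^j' + D^j`.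
* `cc_lex`: for `l < l'`: `2 D^Q (l'+1) ≥ 2 D^Q (l+1) + 2 D^Q ≥ 2 D^Q (l+1) + D^j + 1`.
* `cc_disj`: `cc_lex`, `cc_up`.
* `cc_one`, `mm_uu`, `mm_mono`: computation.
-/

namespace Pool.Agent.Helper59.RF

open Finset

theorem mm_uu (d Q v : ℕ) : MM d Q v = 2 * (d + 1) * Dd d ^ Q * UU d v := by
  unfold MM UU
  ring

theorem mm_mono (d Q v v' : ℕ) (h : 8 * d * v ≤ v') : 8 * d * MM d Q v ≤ MM d Q v' := by
  unfold MM
  calc 8 * d * (32 * (d + 1) ^ 2 * Dd d ^ Q * v) = 32 * (d + 1) ^ 2 * Dd d ^ Q * (8 * d * v) := by ring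
    _ ≤ 32 * (d + 1) ^ 2 * Dd d ^ Q * v' := Nat.mul_le_mul_left _ h

theorem v_le_mm (d Q v : ℕ) : 32 * v ≤ MM d Q v := by
  unfold MM
  have h1 : 1 ≤ (d + 1) ^ 2 * Dd d ^ Q := by
    have : 0 < (d + 1) ^ 2 * Dd d ^ Q := by
      unfold Dd
      positivity
    omega
  calc 32 * v = 32 * 1 * v := by ring
    _ ≤ 32 * ((d + 1) ^ 2 * Dd d ^ Q) * v := by gcongr
    _ = 32 * (d + 1) ^ 2 * Dd d ^ Q * v := by ring

theorem mm_le_cc (d Q v l j : ℕ) : MM d Q v ≤ cc d Q v l j := by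
  unfold cc
  exact Nat.le_add_right _ _

theorem cc_le (d Q v l j : ℕ) (hl : l < d) (hj : j < Q) :
    cc d Q v l j + UU d v ≤ 2 * MM d Q v := by
  have h1 : Dd d ^ j ≤ Dd d ^ Q := Nat.pow_le_pow_right (by unfold Dd; omega) hj.le
  have h2 : 2 * Dd d ^ Q * (l + 1) ≤ 2 * Dd d ^ Q * d := Nat.mul_le_mul_left _ hl
  have h3 : 1 ≤ Dd d ^ Q := Nat.one_le_pow _ _ (by unfold Dd; omega)
  have h4 : 2 * Dd d ^ Q * (l + 1) + Dd d ^ j + 1 ≤ 2 * (d + 1) * Dd d ^ Q := by nlinarith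
  have h5 := Nat.mul_le_mul_right (UU d v) h4
  rw [← mm_uu] at h5
  unfold cc
  calc MM d Q v + (2 * Dd d ^ Q * (l + 1) + Dd d ^ j) * UU d v + UU d v
      = MM d Q v + (2 * Dd d ^ Q * (l + 1) + Dd d ^ j + 1) * UU d v := by ring
    _ ≤ MM d Q v + MM d Q v := Nat.add_le_add_left h5 _
    _ = 2 * MM d Q v := by ring

theorem cc_up (d Q v l j j' : ℕ) (hj : j < j') :
    cc d Q v l j + UU d v + (2 * d + 2) * Dd d ^ j * UU d v ≤ cc d Q v l j' := by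
  have h1 : Dd d ^ (j + 1) ≤ Dd d ^ j' := Nat.pow_le_pow_right (by unfold Dd; omega) hj
  have h3 : 1 ≤ Dd d ^ j := Nat.one_le_pow _ _ (by unfold Dd; omega)
  have h2 : Dd d ^ (j + 1) = (2 * d + 2) * Dd d ^ j + 2 * Dd d ^ j := by
    rw [pow_succ]
    have : Dd d = 2 * d + 4 := rfl
    rw [mul_comm, this]
    ring
  have h4 : 2 * Dd d ^ Q * (l + 1) + Dd d ^ j + 1 + (2 * d + 2) * Dd d ^ j
      ≤ 2 * Dd d ^ Q * (l + 1) + Dd d ^ j' := by omega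
  have h5 := Nat.mul_le_mul_right (UU d v) h4
  unfold cc
  calc MM d Q v + (2 * Dd d ^ Q * (l + 1) + Dd d ^ j) * UU d v + UU d v
        + (2 * d + 2) * Dd d ^ j * UU d v
      = MM d Q v + (2 * Dd d ^ Q * (l + 1) + Dd d ^ j + 1 + (2 * d + 2) * Dd d ^ j) * UU d v := by
        ring
    _ ≤ MM d Q v + (2 * Dd d ^ Q * (l + 1) + Dd d ^ j') * UU d v := Nat.add_le_add_left h5 _

theorem cc_low (d Q v l j j' : ℕ) (hj : j' ≤ j) :
    cc d Q v l j + UU d v ≤ cc d Q v l j' + Dd d ^ j * UU d v := by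
  have h3 : 1 ≤ Dd d ^ j' := Nat.one_le_pow _ _ (by unfold Dd; omega)
  have h4 : 2 * Dd d ^ Q * (l + 1) + Dd d ^ j + 1
      ≤ 2 * Dd d ^ Q * (l + 1) + Dd d ^ j' + Dd d ^ j := by omega
  have h5 := Nat.mul_le_mul_right (UU d v) h4
  unfold cc
  calc MM d Q v + (2 * Dd d ^ Q * (l + 1) + Dd d ^ j) * UU d v + UU d v
      = MM d Q v + (2 * Dd d ^ Q * (l + 1) + Dd d ^ j + 1) * UU d v := by ring
    _ ≤ MM d Q v + (2 * Dd d ^ Q * (l + 1) + Dd d ^ j' + Dd d ^ j) * UU d v :=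
        Nat.add_le_add_left h5 _
    _ = MM d Q v + (2 * Dd d ^ Q * (l + 1) + Dd d ^ j') * UU d v + Dd d ^ j * UU d v := by ring

theorem cc_lex (d Q v l l' j j' : ℕ) (hl : l < l') (hj : j < Q) :
    cc d Q v l j + UU d v ≤ cc d Q v l' j' := by
  have h1 : Dd d ^ j ≤ Dd d ^ Q := Nat.pow_le_pow_right (by unfold Dd; omega) hj.le
  have h2 : 2 * Dd d ^ Q * (l + 2) ≤ 2 * Dd d ^ Q * (l' + 1) := Nat.mul_le_mul_left _ (by omega)
  have h3 : 1 ≤ Dd d ^ Q := Nat.one_le_pow _ _ (by unfold Dd; omega)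
  have h6 : 2 * Dd d ^ Q * (l + 2) = 2 * Dd d ^ Q * (l + 1) + 2 * Dd d ^ Q := by ring
  have h4 : 2 * Dd d ^ Q * (l + 1) + Dd d ^ j + 1
      ≤ 2 * Dd d ^ Q * (l' + 1) + Dd d ^ j' := by omega
  have h5 := Nat.mul_le_mul_right (UU d v) h4
  unfold cc
  calc MM d Q v + (2 * Dd d ^ Q * (l + 1) + Dd d ^ j) * UU d v + UU d v
      = MM d Q v + (2 * Dd d ^ Q * (l + 1) + Dd d ^ j + 1) * UU d v := by ring
    _ ≤ MM d Q v + (2 * Dd d ^ Q * (l' + 1) + Dd d ^ j') * UU d v := Nat.add_le_add_left h5 _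

theorem cc_one (d Q v j : ℕ) : cc d Q v 1 j = cc d Q v 0 j + 2 * Dd d ^ Q * UU d v := by
  unfold cc
  ring

theorem cc_disj (d Q v l l' j j' : ℕ) (hj : j < Q) (hj' : j' < Q) (h : l ≠ l' ∨ j ≠ j') :
    Disjoint (Ico (cc d Q v l j) (cc d Q v l j + UU d v))
      (Ico (cc d Q v l' j') (cc d Q v l' j' + UU d v)) := by
  rw [Finset.disjoint_left]
  intro x hx hx'
  rw [mem_Ico] at hx hx'
  rcases lt_trichotomy l l' with hl | hl | hl
  · have := cc_lex d Q v l l' j j' hl hj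
    omega
  · subst hl
    rcases lt_trichotomy j j' with h2 | h2 | h2
    · have := cc_up d Q v l j j' h2
      omega
    · exact (h.elim (fun h3 => h3 rfl) (fun h3 => h3 h2)).elim
    · have := cc_up d Q v l j' j h2
      omega
  · have := cc_lex d Q v l' l j' j hl hj'
    omega

end Pool.Agent.Helper59.RF
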