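import Pool.Agent.Helper59.RF.Defs

/-!
# Block RF-MARG: averages over subsets, independence

`av p S F` (Defs of project RE) is the average of `F T` over the random subset `T` of `S` which contains `k` with probability
`p k`, independently.  Proved lemmas about it are in `Pool/Agent/Helper59/RE/AV.lean` (`av_insert`, `av_union`, `av_const`, ...).

PROOFS.
* `av_comm`: exchange of two finite sums.
* `av_congr_p`: `wt p S T` only uses `p k` for `k ∈ S` (`T ⊆ S`).
* `av_marg`: `S = S' ∪ (S \ S')`, `av_union`, `(T ∪ T') ∩ S' = T` for `T ⊆ S'`, `T' ⊆ S \ S'`, `av_const`.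
* `av_mul_indep`: `S = V ∪ (S \ V)`, `av_union` (`V ⊆ S`): `F (T ∪ T') = F T` (as `F U = F (U ∩ V)`), `G (T ∪ T') = G T'`
  (as `G U = G (U \ V)`); `av_mul_left` twice; then `av_marg` backwards.
* `avg`: induction on `n`: `F U = if A n U ..` depends on `U ∩ V n`, `G U` = the product over `i < n` depends on `U \ V n`
  (because `V i` is disjoint from `V n`: `(U \ V n) ∩ V i = U ∩ V i`); `av_mul_indep`, and
  `av ν S (if A then γ else 1) ≤ av ν S (γ + if A then 0 else 1) = γ + .. ≤ γ + B` (`av_mono`, `av_add`, `av_const`).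
  All averages of nonnegative functions are nonnegative (`av_mono` with `av_const 0`).
-/

namespace Pool.Agent.Helper59.RF

open Finset
open Pool.Agent.Helper59.RE (av wt mu av_const av_union av_insert av_empty av_congr av_add av_mono av_mul_left wt_nonneg)

theorem av_comm {E : Type*} [AddCommGroup E] [Module ℝ E] (p p' : ℕ → ℝ) (S S' : Finset ℕ)
    (F : Finset ℕ → Finset ℕ → E) :
    av p S (fun T => av p' S' (fun T' => F T T')) = av p' S' (fun T' => av p S (fun T => F T T')) := by
  unfold av
  simp only [Finset.smul_sum]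
  rw [Finset.sum_comm]
  refine Finset.sum_congr rfl fun T' _ => Finset.sum_congr rfl fun T _ => ?_
  rw [smul_comm]

theorem av_congr_p {E : Type*} [AddCommGroup E] [Module ℝ E] (p p' : ℕ → ℝ) (S : Finset ℕ)
    (h : ∀ k ∈ S, p k = p' k) (F : Finset ℕ → E) : av p S F = av p' S F := by
  unfold av
  refine Finset.sum_congr rfl fun T hT => ?_
  have hT' := Finset.mem_powerset.1 hT
  have h1 : wt p S T = wt p' S T := by
    unfold wt
    congr 1
    · exact Finset.prod_congr rfl fun k hk => h k (hT' hk)
    · exact Finset.prod_congr rfl fun k hk => by rw [h k (Finset.mem_sdiff.1 hk).1]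
  rw [h1]

theorem av_marg {E : Type*} [AddCommGroup E] [Module ℝ E] (p : ℕ → ℝ) (S S' : Finset ℕ)
    (h : S' ⊆ S) (F : Finset ℕ → E) : av p S (fun T => F (T ∩ S')) = av p S' F := by
  have h1 : S = S' ∪ (S \ S') := (Finset.union_sdiff_of_subset h).symm
  have h2 : Disjoint S' (S \ S') := Finset.disjoint_sdiff
  rw [h1, av_union p S' (S \ S') h2]
  refine av_congr p S' _ _ fun T hT => ?_
  have h3 : av p (S \ S') (fun T' => F ((T ∪ T') ∩ S')) = av p (S \ S') (fun _ => F T) := by
    refine av_congr p _ _ _ fun T' hT' => ?_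
    have h4 : (T ∪ T') ∩ S' = T := by
      ext x
      simp only [Finset.mem_inter, Finset.mem_union]
      constructor
      · rintro ⟨h5 | h5, h6⟩
        · exact h5
        · exact absurd h6 (Finset.mem_sdiff.1 (hT' h5)).2
      · intro h5
        exact ⟨Or.inl h5, hT h5⟩
    rw [h4]
  rw [h3, av_const]

theorem av_mul_indep (p : ℕ → ℝ) (S V : Finset ℕ) (hV : V ⊆ S) (F G : Finset ℕ → ℝ)
    (hF : ∀ U, F (U ∩ V) = F U) (hG : ∀ U, G (U \ V) = G U) :
    av p S (fun U => F U * G U) = av p S F * av p S G := by
  have h1 : S = V ∪ (S \ V) := (Finset.union_sdiff_of_subset hV).symm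
  have h2 : Disjoint V (S \ V) := Finset.disjoint_sdiff
  have hF' : ∀ T T', T ⊆ V → T' ⊆ S \ V → F (T ∪ T') = F T := by
    intro T T' hT hT'
    have h4 : (T ∪ T') ∩ V = T ∩ V := by
      ext x
      simp only [Finset.mem_inter, Finset.mem_union]
      constructor
      · rintro ⟨h5 | h5, h6⟩
        · exact ⟨h5, h6⟩
        · exact absurd h6 (Finset.mem_sdiff.1 (hT' h5)).2
      · rintro ⟨h5, h6⟩
        exact ⟨Or.inl h5, h6⟩
    rw [← hF (T ∪ T'), h4, hF]
  have hG' : ∀ T T', T ⊆ V → T' ⊆ S \ V → G (T ∪ T') = G T' := by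
    intro T T' hT hT'
    have h4 : (T ∪ T') \ V = T' \ V := by
      ext x
      simp only [Finset.mem_sdiff, Finset.mem_union]
      constructor
      · rintro ⟨h5 | h5, h6⟩
        · exact absurd (hT h5) h6
        · exact ⟨h5, h6⟩
      · rintro ⟨h5, h6⟩
        exact ⟨Or.inr h5, h6⟩
    rw [← hG (T ∪ T'), h4, hG]
  have hFS : av p S F = av p V F := by
    conv_lhs => rw [h1]
    rw [av_union p V (S \ V) h2]
    refine av_congr p V _ _ fun T hT => ?_
    rw [av_congr p (S \ V) _ (fun _ => F T) fun T' hT' => hF' T T' hT hT', av_const]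
  have hGS : av p S G = av p (S \ V) G := by
    conv_lhs => rw [h1]
    rw [av_union p V (S \ V) h2]
    rw [av_congr p V _ (fun _ => av p (S \ V) G) fun T hT =>
      av_congr p (S \ V) _ _ fun T' hT' => hG' T T' hT hT', av_const]
  have hFG : av p S (fun U => F U * G U) = av p V (fun T => F T * av p (S \ V) G) := by
    conv_lhs => rw [h1]
    rw [av_union p V (S \ V) h2]
    refine av_congr p V _ _ fun T hT => ?_
    rw [← av_mul_left]
    refine av_congr p (S \ V) _ _ fun T' hT' => ?_
    rw [hF' T T' hT hT', hG' T T' hT hT']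
  rw [hFG, hFS, hGS]
  rw [av_congr p V _ (fun T => av p (S \ V) G * F T) fun T _ => mul_comm _ _, av_mul_left, mul_comm]

open Classical in
theorem avg (ν : ℕ → ℝ) (hν0 : ∀ k, 0 ≤ ν k) (hν1 : ∀ k, ν k ≤ 1) (S : Finset ℕ) (n : ℕ)
    (V : ℕ → Finset ℕ) (hV : ∀ i < n, ∀ i' < n, i ≠ i' → Disjoint (V i) (V i'))
    (hVS : ∀ i < n, V i ⊆ S) (A : ℕ → Finset ℕ → Prop) (hA : ∀ i < n, ∀ U, A i (U ∩ V i) ↔ A i U)
    (γ B : ℝ) (hγ0 : 0 ≤ γ)
    (hB : ∀ i < n, av ν S (fun U => if A i U then (0 : ℝ) else 1) ≤ B) :
    av ν S (fun U => ∏ i ∈ range n, if A i U then γ else 1) ≤ (γ + B) ^ n := by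
  induction n with
  | zero =>
    simp only [Finset.range_zero, Finset.prod_empty, pow_zero]
    rw [av_const]
  | succ n ih =>
    have ih' := ih (fun i hi i' hi' h => hV i (by omega) i' (by omega) h)
      (fun i hi => hVS i (by omega)) (fun i hi => hA i (by omega)) (fun i hi => hB i (by omega))
    have hVn : V n ⊆ S := hVS n (by omega)
    have hind := av_mul_indep ν S (V n) hVn (fun U => if A n U then γ else 1)
      (fun U => ∏ i ∈ range n, if A i U then γ else 1)
      (by
        intro U
        have h1 := hA n (by omega) U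
        simp only [h1])
      (by
        intro U
        refine Finset.prod_congr rfl fun i hi => ?_
        have hi' := Finset.mem_range.1 hi
        have hd := hV n (by omega) i (by omega) (by omega)
        have h2 : (U \ V n) ∩ V i = U ∩ V i := by
          ext x
          simp only [Finset.mem_inter, Finset.mem_sdiff]
          constructor
          · rintro ⟨⟨h3, h4⟩, h5⟩
            exact ⟨h3, h5⟩
          · rintro ⟨h3, h5⟩
            exact ⟨⟨h3, fun h6 => Finset.disjoint_left.1 hd h6 h5⟩, h5⟩
        have h3 : A i (U \ V n) ↔ A i U := by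
          rw [← hA i (by omega) (U \ V n), h2, hA i (by omega) U]
        simp only [h3])
    have h4 : av ν S (fun U => ∏ i ∈ range (n + 1), if A i U then γ else 1) =
        av ν S (fun U => (if A n U then γ else 1) * ∏ i ∈ range n, if A i U then γ else 1) := by
      refine av_congr ν S _ _ fun U _ => ?_
      rw [Finset.prod_range_succ, mul_comm]
    rw [h4, hind]
    have hnn : ∀ F : Finset ℕ → ℝ, (∀ T, 0 ≤ F T) → 0 ≤ av ν S F := by
      intro F hF
      have h5 := av_mono ν hν0 hν1 S (fun _ => 0) F fun T _ => hF T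
      rwa [av_const] at h5
    have h6 : av ν S (fun U => if A n U then γ else 1) ≤ γ + B := by
      have h7 := av_mono ν hν0 hν1 S (fun U => if A n U then γ else 1)
        (fun U => γ + if A n U then (0 : ℝ) else 1) (fun U _ => by
          by_cases h : A n U
          · simp [h]
          · simp [h, hγ0])
      rw [av_add ν S (fun _ => γ) (fun U => if A n U then (0 : ℝ) else 1), av_const] at h7
      linarith [hB n (by omega)]
    have h8 : 0 ≤ av ν S (fun U => if A n U then γ else 1) :=
      hnn _ fun T => by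
        by_cases h : A n T
        · simp [h, hγ0]
        · simp [h]
    have h9 : 0 ≤ av ν S (fun U => ∏ i ∈ range n, if A i U then γ else 1) :=
      hnn _ fun T => Finset.prod_nonneg fun i _ => by
        by_cases h : A i T
        · simp [h, hγ0]
        · simp [h]
    rw [pow_succ, mul_comm]
    exact mul_le_mul ih' h6 h8 (pow_nonneg (h8.trans h6) n)

end Pool.Agent.Helper59.RF
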