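import Pool.Agent.Helper59.RF.KtN

/-!
# Block RF-PAIRSN: many pairs `(x, y)` with `T` equal to `N x N y` up to a constant (regular denominators)

Model: `Pairs.lean` (proved; `N k = k!`, `C2 = 2`), the same proof with real numbers.  Let `M = MM d Q v`, `H x y = N x * N y`,
`a = c0 + 4 u`, `h0 = H a (c1 + 4 u)`, `X = 2 C2 T`.  Let `y*` be the greatest `y` with `H a y ≤ X`.
* `y* ≥ c1 + 3 u`: `h0 ≥ H a (c1 + 3 u) * β^u` (`gn_up`), so `H a (c1 + 3 u) ≤ T / β ≤ X` (`hT1`).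
* `y* ≤ c1 + 4 u + 4`: `H a (c1 + 4 u + 5) ≥ h0 β^5 > 2 C2 β^3 h0 ≥ X` (`hT2`, `β^2 > 2 C2` by `GN.bC`, `GN.b4`).
For `r < R` start with `(a, y* - r)` and move: `(a - n, y* - r + n)`.  One step multiplies `H` by a factor at most `C2` (`GN.rhi` with
`x = a - n - 1`, `y = y* - r + n`) and at least `1 + ρ` (`GN.rlo`; `y - x ≥ c1 + 3u - R - c0 - 4u ≥ c1 - c0 - 2u ≥ M / (2 (d+1))`; `R ≤ u` because
`4^(R+1) ≤ (β^2)^(R+1) ≤ (1+ρ)^(2u) ≤ 4^u`).  `H a (y* - r) ≤ X`, `H a (y* - r) ≥ H a (y* + 1) / (β^2)^(r+1) > X / (β^2)^(r+1)`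
(`gn_hi`, `y* + 1 ≤ 2M`), and after `2 u` steps `H > X (1+ρ)^(2u) / (β^2)^(r+1) ≥ X` (`hR2`).  The last `n < 2 u` before `H > X` gives
`X / C2 < H ≤ X`, i.e. `1 / (2 C2) ≤ T / H ≤ 1/2`.  The point has `x ∈ [c0 + 2u, c0 + 4u]`, `y ∈ [c1 + 2u, c1 + 6u + 4]` (`< c1 + 8u`).  Different
`r` give different sums `x + y`.
-/

namespace Pool.Agent.Helper59.RF

open Finset

private theorem exists_ysN50 {N : ℕ → ℝ} {s d Q v : ℕ} {β C2 ρ : ℝ} (hG : GN N s d Q v β C2 ρ)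
    (c0 c1 u : ℕ) (T : ℝ) (h1 : MM d Q v ≤ c0)
    (h2 : c0 + 8 * u ≤ c1) (hu : 3 ≤ u) (hT : 0 < T)
    (hT1 : N (c0 + 4 * u) * N (c1 + 4 * u) ≤ β ^ (u - 1) * T)
    (hT2 : T ≤ β ^ 3 * (N (c0 + 4 * u) * N (c1 + 4 * u))) :
    ∃ ys : ℕ, c1 + 3 * u ≤ ys ∧ ys ≤ c1 + 4 * u + 4 ∧
      N (c0 + 4 * u) * N ys ≤ 2 * C2 * T ∧ 2 * C2 * T < N (c0 + 4 * u) * N (ys + 1) := by
  classical
  have hb4 := hG.b4
  have hC1 := hG.C1
  have hbC := hG.bC
  have hb0 : (0 : ℝ) < β := by linarith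
  set a := c0 + 4 * u with ha
  have hNa : 0 < N a := hG.pos a
  have hP1 : N a * N (c1 + 3 * u) ≤ 2 * C2 * T := by
    have e1 := gn_up hG (c1 + 3 * u) u (by omega)
    have e2 : c1 + 3 * u + u = c1 + 4 * u := by ring
    rw [e2] at e1
    have e5 : N a * N (c1 + 3 * u) * β ^ u ≤ β ^ (u - 1) * T := by
      refine le_trans ?_ hT1
      rw [mul_assoc]
      exact mul_le_mul_of_nonneg_left e1 hNa.le
    have e6 : β ^ u = β ^ (u - 1) * β := by
      rw [← pow_succ]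
      congr 1
      omega
    have e7 : 0 < β ^ (u - 1) := by positivity
    have e8 : N a * N (c1 + 3 * u) * β ≤ T := by
      rw [e6] at e5
      refine le_of_mul_le_mul_left ?_ e7
      calc β ^ (u - 1) * (N a * N (c1 + 3 * u) * β) =
          N a * N (c1 + 3 * u) * (β ^ (u - 1) * β) := by ring
        _ ≤ _ := e5
    have e9 : 0 < N a * N (c1 + 3 * u) := mul_pos hNa (hG.pos _)
    have e10 : N a * N (c1 + 3 * u) ≤ N a * N (c1 + 3 * u) * β := by nlinarith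
    nlinarith
  set P : ℕ → Prop := fun y => N a * N y ≤ 2 * C2 * T with hP
  set ys := Nat.findGreatest P (c1 + 4 * u + 4) with hys
  have hle : ys ≤ c1 + 4 * u + 4 := Nat.findGreatest_le _
  have hge : c1 + 3 * u ≤ ys := Nat.le_findGreatest (by omega) hP1
  have hspec : P ys := Nat.findGreatest_spec (m := c1 + 3 * u) (by omega) hP1
  refine ⟨ys, hge, hle, hspec, ?_⟩
  by_cases hc : ys + 1 ≤ c1 + 4 * u + 4
  · have h5 : ¬ P (ys + 1) := Nat.findGreatest_is_greatest (Nat.lt_succ_self _) hc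
    exact not_le.1 h5
  · have e1 : ys + 1 = c1 + 4 * u + 5 := by omega
    rw [e1]
    have e2 := gn_up hG (c1 + 4 * u) 5 (by omega)
    have e5 : N a * N (c1 + 4 * u) * β ^ 5 ≤ N a * N (c1 + 4 * u + 5) := by
      rw [mul_assoc]
      exact mul_le_mul_of_nonneg_left e2 hNa.le
    refine lt_of_lt_of_le ?_ e5
    obtain ⟨h0, hh0⟩ : ∃ h0, h0 = N a * N (c1 + 4 * u) := ⟨_, rfl⟩
    rw [← hh0] at hT2 ⊢
    have e6 : 0 < h0 := by
      rw [hh0]
      exact mul_pos hNa (hG.pos _)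
    have e9 : 0 < β ^ 4 * h0 := by positivity
    calc 2 * C2 * T ≤ β * T := mul_le_mul_of_nonneg_right hbC hT.le
      _ ≤ β * (β ^ 3 * h0) := mul_le_mul_of_nonneg_left hT2 hb0.le
      _ = β ^ 4 * h0 := by ring
      _ < β ^ 4 * h0 * β := by nlinarith
      _ = h0 * β ^ 5 := by ring

theorem pairsN {N : ℕ → ℝ} {s d Q v : ℕ} {β C2 ρ : ℝ} (hG : GN N s d Q v β C2 ρ)
    (c0 c1 u R : ℕ) (T : ℝ) (h1 : MM d Q v ≤ c0) (h2 : c0 + 8 * u ≤ c1)
    (h3 : c1 + 8 * u ≤ 2 * MM d Q v) (hu : 3 ≤ u)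
    (h4 : (MM d Q v : ℝ) / (2 * ((d : ℝ) + 1)) ≤ (c1 : ℝ) - c0 - 2 * u)
    (hR2 : (β ^ 2) ^ (R + 1) ≤ (1 + ρ) ^ (2 * u)) (hT : 0 < T)
    (hT1 : N (c0 + 4 * u) * N (c1 + 4 * u) ≤ β ^ (u - 1) * T)
    (hT2 : T ≤ β ^ 3 * (N (c0 + 4 * u) * N (c1 + 4 * u))) :
    ∃ PP : Finset (ℕ × ℕ), R ≤ PP.card ∧ ∀ q ∈ PP, q.1 ∈ Ico c0 (c0 + 8 * u) ∧
      q.2 ∈ Ico c1 (c1 + 8 * u) ∧ 1 / (2 * C2) ≤ T / (N q.1 * N q.2) ∧
      T / (N q.1 * N q.2) ≤ 1 / 2 := by
  classical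
  have hb4 := hG.b4
  have hC1 := hG.C1
  have hbC := hG.bC
  have hr0 := hG.r0
  have hr1 := hG.r1
  have hb0 : (0 : ℝ) < β := by linarith
  have hb16 : (4 : ℝ) ≤ β ^ 2 := by nlinarith
  have hR1 : R + 1 ≤ u := by
    have e1 : (4 : ℝ) ^ (R + 1) ≤ (β ^ 2) ^ (R + 1) :=
      pow_le_pow_left₀ (by norm_num) hb16 _
    have e2 : (1 + ρ) ^ (2 * u) ≤ (4 : ℝ) ^ u := by
      rw [pow_mul]
      exact pow_le_pow_left₀ (by positivity) (by nlinarith) u
    exact (pow_le_pow_iff_right₀ (by norm_num : (1 : ℝ) < 4)).1 (e1.trans (hR2.trans e2))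
  obtain ⟨ys, hy1, hy2, hy3, hy4⟩ := exists_ysN50 hG c0 c1 u T h1 h2 hu hT hT1 hT2
  set a := c0 + 4 * u with ha
  have key : ∀ r ∈ range R, ∃ q : ℕ × ℕ, q.1 + q.2 + r = a + ys ∧ q.1 ∈ Ico c0 (c0 + 8 * u) ∧
      q.2 ∈ Ico c1 (c1 + 8 * u) ∧ 1 / (2 * C2) ≤ T / (N q.1 * N q.2) ∧
      T / (N q.1 * N q.2) ≤ 1 / 2 := by
    intro r hr
    rw [mem_range] at hr
    set Hn : ℕ → ℝ := fun n => N (a - n) * N (ys - r + n) with hHn
    have hHpos : ∀ n, 0 < Hn n := by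
      intro n
      simp only [hHn]
      exact mul_pos (hG.pos _) (hG.pos _)
    have hup : ∀ n, n < 2 * u → Hn (n + 1) ≤ C2 * Hn n := by
      intro n hn
      have e1 := hG.rhi (a - (n + 1)) (ys - r + n) (by omega) (by omega) (by omega)
      have e2 : a - (n + 1) + 1 = a - n := by omega
      rw [e2] at e1
      exact e1
    have hlow : ∀ n, n < 2 * u → (1 + ρ) * Hn n ≤ Hn (n + 1) := by
      intro n hn
      have e3 : ((a - (n + 1) : ℕ) : ℝ) + MM d Q v / (2 * ((d : ℝ) + 1)) ≤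
          ((ys - r + n : ℕ) : ℝ) := by
        have e4 : (c1 : ℝ) + ((a - (n + 1) : ℕ) : ℝ) ≤ ((ys - r + n : ℕ) : ℝ) + c0 + 2 * u := by
          have : c1 + (a - (n + 1)) ≤ (ys - r + n) + c0 + 2 * u := by omega
          exact_mod_cast this
        linarith
      have e1 := hG.rlo (a - (n + 1)) (ys - r + n) (by omega) e3 (by omega)
      have e2 : a - (n + 1) + 1 = a - n := by omega
      rw [e2] at e1
      exact e1
    have hpow : ∀ n, n ≤ 2 * u → (1 + ρ) ^ n * Hn 0 ≤ Hn n := by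
      intro n
      induction n with
      | zero => intro _; simp
      | succ n ih =>
        intro hn
        have e1 := ih (by omega)
        have e2 := hlow n (by omega)
        have e3 : 0 < 1 + ρ := by linarith
        calc (1 + ρ) ^ (n + 1) * Hn 0 = (1 + ρ) * ((1 + ρ) ^ n * Hn 0) := by ring
          _ ≤ (1 + ρ) * Hn n := mul_le_mul_of_nonneg_left e1 e3.le
          _ ≤ _ := e2
    have h00 : Hn 0 ≤ 2 * C2 * T := by
      refine le_trans ?_ hy3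
      simp only [hHn]
      have e1 : N (ys - r + 0) ≤ N ys := gn_mono hG _ _ (by omega) (by omega)
      have e2 : a - 0 = a := by omega
      rw [e2]
      exact mul_le_mul_of_nonneg_left e1 (hG.pos a).le
    have h01 : 2 * C2 * T < Hn 0 * (β ^ 2) ^ (r + 1) := by
      refine lt_of_lt_of_le hy4 ?_
      have e1 := gn_hi hG (ys - r) (r + 1) (by omega)
      have e2 : ys - r + (r + 1) = ys + 1 := by omega
      rw [e2] at e1
      simp only [hHn]
      have e3 : a - 0 = a := by omega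
      have e4 : ys - r + 0 = ys - r := by omega
      rw [e3, e4, mul_assoc]
      exact mul_le_mul_of_nonneg_left e1 (hG.pos a).le
    have hend : 2 * C2 * T < Hn (2 * u) := by
      have e1 := hpow (2 * u) le_rfl
      have e2 : (β ^ 2) ^ (r + 1) ≤ (1 + ρ) ^ (2 * u) := by
        refine le_trans ?_ hR2
        exact pow_le_pow_right₀ (by linarith) (by omega)
      have e3 := hHpos 0
      have e4 : Hn 0 * (β ^ 2) ^ (r + 1) ≤ (1 + ρ) ^ (2 * u) * Hn 0 := by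
        rw [mul_comm]
        exact mul_le_mul_of_nonneg_right e2 e3.le
      linarith
    -- the first `n` with `Hn n > X`
    have hex : ∃ n, 2 * C2 * T < Hn n := ⟨2 * u, hend⟩
    obtain ⟨n0, hn0⟩ : ∃ n0, Nat.find hex = n0 := ⟨_, rfl⟩
    have hf1 : 2 * C2 * T < Hn n0 := by rw [← hn0]; exact Nat.find_spec hex
    have hf2 : ∀ m, m < n0 → Hn m ≤ 2 * C2 * T := by
      intro m hm
      rw [← hn0] at hm
      exact not_lt.1 (Nat.find_min hex hm)
    have hf3 : n0 ≤ 2 * u := by rw [← hn0]; exact Nat.find_min' hex hend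
    have hf4 : n0 ≠ 0 := by
      rintro rfl
      linarith
    obtain ⟨n, rfl⟩ := Nat.exists_eq_succ_of_ne_zero hf4
    have hn : n < 2 * u := by omega
    have g1 := hf2 n (Nat.lt_succ_self n)
    have g2 := hup n hn
    have g3 : 2 * C2 * T < Hn (n + 1) := hf1
    have g5 := hHpos n
    have g6 : C2 * (2 * T) < C2 * Hn n := by linarith
    have g4 : 2 * T < Hn n := lt_of_mul_lt_mul_left g6 (by linarith)
    refine ⟨(a - n, ys - r + n), ?_, ?_, ?_, ?_, ?_⟩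
    · simp only
      omega
    · rw [mem_Ico]
      simp only
      omega
    · rw [mem_Ico]
      simp only
      omega
    · change 1 / (2 * C2) ≤ T / Hn n
      rw [div_le_div_iff₀ (by linarith) g5]
      linarith
    · change T / Hn n ≤ 1 / 2
      rw [div_le_div_iff₀ g5 (by norm_num)]
      linarith
  choose! f hf using key
  refine ⟨(range R).image f, ?_, ?_⟩
  · rw [card_image_of_injOn, card_range]
    intro r hr r' hr' hrr
    have e1 := (hf r hr).1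
    have e2 := (hf r' hr').1
    rw [hrr] at e1
    omega
  · intro q hq
    rw [mem_image] at hq
    obtain ⟨r, hr, rfl⟩ := hq
    exact (hf r hr).2

end Pool.Agent.Helper59.RF
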