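import Pool.Agent.Helper59.RF.Win

/-!
# Project RF: the windows.  Definitions

`v` is the basic length of a scale; `MM` is the size of the lower digits (they lie in `[MM, 2 MM)`), `UU = 2 HU = 16 (d+1) v` the
length of the long windows, `cc l j` the first lower digit of the window of the `l`-th lower digit at the level `j`.
-/

namespace Pool.Agent.Helper59.RF

open Finset

def Dd (d : ℕ) : ℕ := 2 * d + 4

def MM (d Q v : ℕ) : ℕ := 32 * (d + 1) ^ 2 * Dd d ^ Q * v

def HU (d v : ℕ) : ℕ := 8 * (d + 1) * v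

def UU (d v : ℕ) : ℕ := 16 * (d + 1) * v

def cc (d Q v l j : ℕ) : ℕ := MM d Q v + (2 * Dd d ^ Q * (l + 1) + Dd d ^ j) * UU d v

/-- The basic length `v` is small compared with `s`, but larger than `s^(3/4)`. -/
structure Rng (s d Q v : ℕ) : Prop where
  big : 64 * d * MM d Q v ≤ s
  pw : (2 * s) ^ 3 ≤ v ^ 4
  ex : s ^ 31 * 2 ^ Nat.sqrt s ≤ 2 ^ v
  v1 : 100 ≤ v

/-- The basic length of the scale `i`. -/
noncomputable def vv (δ : ℝ) (s d i : ℕ) : ℕ := (8 * d) ^ i * ⌈(s : ℝ) ^ (1 - δ / 4)⌉₊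

/-- The product of the factorials of the lower digits (factorial case). -/
def Pc (d Q v j : ℕ) : ℕ :=
  (cc d Q v 0 j + HU d v).factorial * (cc d Q v 1 j + HU d v).factorial *
    ∏ l ∈ Ico 2 d, (cc d Q v l j).factorial

open Classical in
/-- The first top digit (factorial case). -/
noncomputable def Kt (Z : ℝ) (s d Q v j : ℕ) : ℕ :=
  Nat.findGreatest (fun K => ((K.factorial * Pc d Q v j : ℕ) : ℝ) ≤ Z) s

/-- The windows (factorial case). -/
noncomputable def WF (Z : ℝ) (s d Q v j : ℕ) (l : Fin (d + 1)) : Finset ℕ :=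
  if (l : ℕ) = d then Ico (Kt Z s d Q v j) (Kt Z s d Q v j + v)
  else if (l : ℕ) < 2 then Ico (cc d Q v l j) (cc d Q v l j + UU d v)
  else Ico (cc d Q v l j) (cc d Q v l j + v)

open Classical in
/-- The tight tuples (factorial case). -/
noncomputable def TF (Z : ℝ) (s d Q v j : ℕ) : Finset (Fin (d + 1) → ℕ) :=
  (Fintype.piFinset (WF Z s d Q v j)).filter (fun τ =>
    1 / 4 ≤ Z / ∏ l, ((τ l).factorial : ℝ) ∧ Z / ∏ l, ((τ l).factorial : ℝ) ≤ 1 / 2)

/-- The sum of the first lower digits. -/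
def Cs (d Q v j : ℕ) : ℕ := ∑ l ∈ range d, cc d Q v l j

/-- The windows (case of powers). -/
def WG (s d Q v j : ℕ) (l : Fin (d + 1)) : Finset ℕ :=
  if (l : ℕ) = d then Ico (s + 3 - Cs d Q v j - d * v) (s + 3 - Cs d Q v j)
  else Ico (cc d Q v l j) (cc d Q v l j + v)

/-- The tight tuples (case of powers). -/
def TG (s d Q v j : ℕ) : Finset (Fin (d + 1) → ℕ) :=
  (Fintype.piFinset (WG s d Q v j)).filter (fun τ => ∑ l, τ l = s + 2)

end Pool.Agent.Helper59.RF
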